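import Pool.Agent.W997.LN.Stm

/-!
# MUX: a formula for a bit of the value of a node
-/

set_option autoImplicit false

namespace Pool.Agent.W924.LNMUX

open Pool.Agent.W997.TS (bit DBP)
open Pool.Agent.W997.DB (Circuit bits)
open Pool.Agent.W997.LN

variable {X : Type}

/-- Exclusive or. -/
def xr (A B : Fml X) : Fml X := .or (.and A (.not B)) (.and (.not A) B)

theorem xr_eval (y : X → Bool) (A B : Fml X) :
    (xr A B).eval y = xor (A.eval y) (B.eval y) := by
  simp only [xr, Fml.eval]
  cases A.eval y <;> cases B.eval y <;> rfl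

theorem xr_depth (A B : Fml X) (n : ℕ) (hA : A.depth ≤ n) (hB : B.depth ≤ n) :
    (xr A B).depth ≤ n + 3 := by
  simp only [xr, Fml.depth]
  omega

theorem xr_size (A B : Fml X) : (xr A B).size = 2 * (A.size + B.size) + 5 := by
  simp only [xr, Fml.size]
  omega

/-- The parity of `2 ^ p` formulas. -/
def par : (p : ℕ) → (Fin (2 ^ p) → Fml X) → Fml X
  | 0, F => F 0
  | p + 1, F => xr (par p (fun s => F ⟨s.val, by have := s.2; rw [pow_succ]; omega⟩))
      (par p (fun s => F ⟨2 ^ p + s.val, by have := s.2; rw [pow_succ]; omega⟩))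

theorem sum_split {M : Type} [AddCommMonoid M] (n m : ℕ) (h : n = m + m) (f : Fin n → M) :
    ∑ s, f s = ∑ s : Fin m, f ⟨s.val, by omega⟩ + ∑ s : Fin m, f ⟨m + s.val, by omega⟩ := by
  subst h
  rw [Fin.sum_univ_add]
  rfl

theorem dec_add : ∀ a b : ZMod 2, decide (a + b = 1) = xor (decide (a = 1)) (decide (b = 1)) := by
  decide

theorem par_eval (y : X → Bool) : ∀ (p : ℕ) (F : Fin (2 ^ p) → Fml X),
    (par p F).eval y = decide (∑ s, (if (F s).eval y then (1 : ZMod 2) else 0) = 1) := by
  intro p
  induction p with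
  | zero =>
    intro F
    have h1 : ∑ s : Fin (2 ^ 0), (if (F s).eval y then (1 : ZMod 2) else 0) =
        if (F 0).eval y then (1 : ZMod 2) else 0 :=
      Fin.sum_univ_one (fun s : Fin (2 ^ 0) => if (F s).eval y then (1 : ZMod 2) else 0)
    rw [h1]
    simp only [par]
    cases (F 0).eval y <;> decide
  | succ p ih =>
    intro F
    rw [sum_split _ (2 ^ p) (by rw [pow_succ]; omega), dec_add]
    simp only [par]
    rw [xr_eval, ih, ih]

theorem par_depth (n : ℕ) : ∀ (p : ℕ) (F : Fin (2 ^ p) → Fml X), (∀ s, (F s).depth ≤ n) →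
    (par p F).depth ≤ n + 3 * p := by
  intro p
  induction p with
  | zero =>
    intro F hF
    simp only [par]
    simpa using hF 0
  | succ p ih =>
    intro F hF
    simp only [par]
    have := xr_depth _ _ _ (ih (fun s => F ⟨s.val, by have := s.2; rw [pow_succ]; omega⟩)
      (fun s => hF _))
      (ih (fun s => F ⟨2 ^ p + s.val, by have := s.2; rw [pow_succ]; omega⟩) (fun s => hF _))
    omega

theorem par_size : ∀ (p : ℕ) (F : Fin (2 ^ p) → Fml X), (∀ s, (F s).size ≤ 1) →
    (par p F).size + 2 ≤ 3 * 4 ^ p := by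
  intro p
  induction p with
  | zero =>
    intro F hF
    simp only [par]
    have := hF 0
    omega
  | succ p ih =>
    intro F hF
    simp only [par]
    rw [xr_size]
    have h1 := ih (fun s => F ⟨s.val, by have := s.2; rw [pow_succ]; omega⟩) (fun s => hF _)
    have h2 := ih (fun s => F ⟨2 ^ p + s.val, by have := s.2; rw [pow_succ]; omega⟩)
      (fun s => hF _)
    have h4 : 4 ^ (p + 1) = 4 ^ p * 4 := pow_succ _ _
    omega

theorem par_all (q : X → Prop) : ∀ (p : ℕ) (F : Fin (2 ^ p) → Fml X), (∀ s, (F s).All q) →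
    (par p F).All q := by
  intro p
  induction p with
  | zero =>
    intro F hF
    simp only [par]
    exact hF 0
  | succ p ih =>
    intro F hF
    simp only [par, xr, Fml.All]
    have h1 := ih (fun s => F ⟨s.val, by have := s.2; rw [pow_succ]; omega⟩) (fun s => hF _)
    have h2 := ih (fun s => F ⟨2 ^ p + s.val, by have := s.2; rw [pow_succ]; omega⟩)
      (fun s => hF _)
    exact ⟨⟨h1, h2⟩, h1, h2⟩

/-- The multiplexer: the addresses `A`, the leaves `z`. -/
def mux {l : ℕ} (A : Fin l → Fml X) (z : (Fin l → Bool) → X) : ℕ → (Fin l → Bool) → Fml X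
  | 0, w => .lit (z w)
  | k + 1, w => if h : k < l then
      .or (.and (.not (A ⟨k, h⟩)) (mux A z k (Function.update w ⟨k, h⟩ false)))
        (.and (A ⟨k, h⟩) (mux A z k (Function.update w ⟨k, h⟩ true)))
    else mux A z k w

theorem mux_eval {l : ℕ} (A : Fin l → Fml X) (z : (Fin l → Bool) → X) (y : X → Bool) :
    ∀ (k : ℕ) (w : Fin l → Bool),
      (mux A z k w).eval y = y (z (fun q => if q.val < k then (A q).eval y else w q)) := by
  intro k
  induction k with
  | zero =>
    intro w
    simp [mux, Fml.eval]
  | succ k ih =>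
    intro w
    simp only [mux]
    split_ifs with h
    · simp only [Fml.eval]
      rw [ih, ih]
      have key : ∀ b, (A ⟨k, h⟩).eval y = b →
          (fun q : Fin l => if q.val < k then (A q).eval y
            else Function.update w ⟨k, h⟩ b q) =
          (fun q : Fin l => if q.val < k + 1 then (A q).eval y else w q) := by
        intro b hb
        funext q
        by_cases hq : q = ⟨k, h⟩
        · subst hq
          simp [hb]
        · rw [Function.update_of_ne hq]
          have hq' : q.val ≠ k := fun hh => hq (Fin.ext hh)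
          by_cases h1 : q.val < k
          · rw [if_pos h1, if_pos (by omega)]
          · rw [if_neg h1, if_neg (by omega)]
      cases hb : (A ⟨k, h⟩).eval y with
      | false => rw [key false hb]; simp
      | true => rw [key true hb]; simp
    · rw [ih]
      congr 2
      funext q
      have := q.2
      rw [if_pos (by omega), if_pos (by omega)]

theorem mux_depth {l : ℕ} (A : Fin l → Fml X) (z : (Fin l → Bool) → X) (n : ℕ)
    (hA : ∀ q, (A q).depth ≤ n) : ∀ (k : ℕ) (w : Fin l → Bool),
      (mux A z k w).depth ≤ n + 1 + 2 * k := by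
  intro k
  induction k with
  | zero =>
    intro w
    simp [mux, Fml.depth]
  | succ k ih =>
    intro w
    simp only [mux]
    split_ifs with h
    · simp only [Fml.depth]
      have h1 := ih (Function.update w ⟨k, h⟩ false)
      have h2 := ih (Function.update w ⟨k, h⟩ true)
      have h3 := hA ⟨k, h⟩
      omega
    · have := ih w
      omega

theorem mux_size {l : ℕ} (A : Fin l → Fml X) (z : (Fin l → Bool) → X) (n : ℕ)
    (hA : ∀ q, (A q).size ≤ n) : ∀ (k : ℕ) (w : Fin l → Bool),
      (mux A z k w).size + (2 * n + 4) ≤ 2 ^ k * (2 * n + 5) := by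
  intro k
  induction k with
  | zero =>
    intro w
    simp only [mux, Fml.size]
    omega
  | succ k ih =>
    intro w
    simp only [mux]
    split_ifs with h
    · simp only [Fml.size]
      have h1 := ih (Function.update w ⟨k, h⟩ false)
      have h2 := ih (Function.update w ⟨k, h⟩ true)
      have h3 := hA ⟨k, h⟩
      have h4 : 2 ^ (k + 1) * (2 * n + 5) = 2 * (2 ^ k * (2 * n + 5)) := by rw [pow_succ]; ring
      rw [h4]
      omega
    · have h1 := ih w
      have h4 : 2 ^ (k + 1) * (2 * n + 5) = 2 * (2 ^ k * (2 * n + 5)) := by rw [pow_succ]; ring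
      rw [h4]
      omega

theorem mux_all {l : ℕ} (A : Fin l → Fml X) (z : (Fin l → Bool) → X) (q : X → Prop)
    (hA : ∀ e, (A e).All q) (hz : ∀ w, q (z w)) : ∀ (k : ℕ) (w : Fin l → Bool),
      (mux A z k w).All q := by
  intro k
  induction k with
  | zero =>
    intro w
    exact hz w
  | succ k ih =>
    intro w
    simp only [mux]
    split_ifs with h
    · simp only [Fml.All]
      exact ⟨⟨hA _, ih _⟩, hA _, ih _⟩
    · exact ih w

/-- The letter with given bits. -/
def lb {l : ℕ} (w : Fin l → Bool) : Fin (2 ^ l) := ⟨Nat.ofBits w, Nat.ofBits_lt_two_pow _⟩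

/-- The formula for a bit of the value of a node. -/
def phi (h p l : ℕ) (w : Node h p × Fin l) : Fml ((Var h p l × Fin l) ⊕ (Node h p × Fin l)) :=
  if w.1.1.val = 0 then .lit (.inl ((w.1, letter 0), w.2))
  else mux (fun e : Fin l => par p (fun s => .lit (.inr
      (((⟨w.1.1.val - 1, by have := w.1.1.2; omega⟩, w.1.2.2, s) : Node h p), e))))
    (fun u => .inl ((w.1, lb u), w.2)) l (fun _ => false)

theorem phi_eval (h p l : ℕ) (x : Input h p l) (w : Node h p × Fin l) :
    valBit x w = (phi h p l w).eval (Sum.elim (bits x) (valBit x)) := by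
  obtain ⟨⟨⟨j, hj⟩, g, i⟩, e⟩ := w
  cases j with
  | zero =>
    simp only [phi, if_true, Fml.eval, Sum.elim_inl, bits, valBit, value]
  | succ j =>
    simp only [phi]
    rw [if_neg (by omega), mux_eval]
    simp only [Sum.elim_inl, bits, valBit, value]
    congr 4
    apply Fin.ext
    simp only [letter, lb]
    congr 1
    funext q
    rw [if_pos q.2, par_eval, Finset.sum_apply]
    congr 2

theorem main : S_MUX := by
  intro h p l
  refine ⟨phi h p l, ?_, ?_, ?_, phi_eval h p l⟩
  · intro w
    unfold phi
    split_ifs with h0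
    · simp [Fml.depth]
    · refine (mux_depth _ _ (3 * p) (fun q => ?_) l _).trans (by omega)
      refine (par_depth 0 p _ (fun s => ?_)).trans (by omega)
      simp [Fml.depth]
  · intro w
    unfold phi
    split_ifs with h0
    · simp only [Fml.size]
      exact Nat.one_le_two_pow
    · have h1 := mux_size (fun e : Fin l => par p (fun s => Fml.lit (X := (Var h p l × Fin l) ⊕ (Node h p × Fin l)) (.inr
          (((⟨w.1.1.val - 1, by have := w.1.1.2; omega⟩, w.1.2.2, s) : Node h p), e))))
        (fun u => .inl ((w.1, lb u), w.2)) (3 * 4 ^ p) (fun q => by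
          have := par_size p (fun s => Fml.lit (X := (Var h p l × Fin l) ⊕ (Node h p × Fin l)) (.inr
          (((⟨w.1.1.val - 1, by have := w.1.1.2; omega⟩, w.1.2.2, s) : Node h p), q)))
            (fun s => by simp [Fml.size])
          omega) l (fun _ => false)
      have h2 : 2 ^ l * (2 * (3 * 4 ^ p) + 5) ≤ 2 ^ (3 * p + 2 * l + 4) := by
        have h3 : 2 * (3 * 4 ^ p) + 5 ≤ 16 * 4 ^ p := by
          have : 1 ≤ 4 ^ p := Nat.one_le_pow _ _ (by norm_num)
          omega
        calc 2 ^ l * (2 * (3 * 4 ^ p) + 5) ≤ 2 ^ l * (16 * 4 ^ p) := Nat.mul_le_mul_left _ h3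
          _ = 2 ^ (2 * p + l + 4) := by
            rw [show (4 : ℕ) = 2 ^ 2 by norm_num, show (16 : ℕ) = 2 ^ 4 by norm_num, ← pow_mul,
              ← pow_add, ← pow_add]
            congr 1
            ring
          _ ≤ 2 ^ (3 * p + 2 * l + 4) := Nat.pow_le_pow_right (by norm_num) (by omega)
      omega
  · intro w
    unfold phi
    split_ifs with h0
    · simp only [Fml.All]
      intro w' hw'
      cases hw'
    · apply mux_all
      · intro e
        apply par_all
        intro s
        simp only [Fml.All]
        intro w' hw'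
        cases hw'
        simp only
        omega
      · intro u w' hw'
        cases hw'

end Pool.Agent.W924.LNMUX
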