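import Mathlib
import Pool.Agent.W25.UN.Stm
import Pool.Agent.H732R2.MT_T2b

set_option autoImplicit false

open Finset

namespace Pool.Agent.W924.UNS2G

open Pool.Agent.H410R2 Pool.Agent.H732R2 Pool.Agent.H732R2.T2 Pool.Agent.W25.UN

open Classical in
theorem main : S2Gen := by
  intro ι J _ _ pr L i hS c R hR hc hcR S wt K Dev hDev hyp
  have hp := hS.prime
  have hp2 : ∀ t, 2 ≤ pr t := fun t => (hp t).two_le
  have hinj := hS.inj
  -- residue classes
  choose n0 hn0 using fun ρ : ι → Option J => crt pr L 1 0 hS ρ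
  have hDC : ∀ (ρ : ι → Option J) (n : ℕ), DC L pr ρ n ↔ n ≡ n0 ρ [MOD qq pr ρ] := by
    intro ρ n
    have := hn0 ρ n
    rw [one_mul] at this
    rw [← this]
    exact ⟨fun h => ⟨Nat.modEq_one, h⟩, fun h => h.2⟩
  have hover : ∀ ρ : ι → Option J, Over pr (qq pr ρ) := by
    intro ρ p hpp hd
    unfold qq at hd
    rw [Prime.dvd_finsetProd_iff hpp.prime] at hd
    obtain ⟨t, _, ht⟩ := hd
    exact ⟨t, ((Nat.prime_dvd_prime_iff_eq hpp (hp t)).1 ht).symm⟩
  have hnd : ∀ ρ : ι → Option J, (∀ t, ρ t ≠ some i) →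
      ∀ p : ℕ, p.Prime → p ∣ qq pr ρ → ¬ p ∣ L i (n0 ρ) := by
    intro ρ hρ p hpp hd hd'
    obtain ⟨t, ht⟩ := hover ρ p hpp hd
    subst ht
    have h1 := (dvd_qq_iff pr hp hinj ρ t).1 hd
    obtain ⟨l, hl⟩ := Option.ne_none_iff_exists'.1 h1
    have h2 : DC L pr ρ (n0 ρ) := (hDC ρ (n0 ρ)).2 rfl
    have := hS.excl t i l (n0 ρ) hd' (h2 t l hl)
    exact hρ t (by rw [hl, this])
  set A : (ι → Option J) → ℝ := fun ρ => ∑ n ∈ S, wt n * (if DC L pr ρ n then 1 else 0) with hA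
  have hAρ : ∀ ρ : ι → Option J, (∀ t, ρ t ≠ some i) →
      |A ρ - K * mulc pr (fun p => 1 / ((p : ℝ) - 1)) ρ| ≤ Dev (qq pr ρ) := by
    intro ρ hρ
    have h1 : A ρ = ∑ n ∈ S.filter (fun n => n ≡ n0 ρ [MOD qq pr ρ]), wt n := by
      rw [hA]
      simp only [mul_ite, mul_one, mul_zero]
      rw [← sum_filter]
      apply sum_congr _ (fun n _ => rfl)
      apply filter_congr
      intro n _
      exact hDC ρ n
    have h3 : K * mulc pr (fun p => 1 / ((p : ℝ) - 1)) ρ =
        K / (Nat.totient (qq pr ρ) : ℝ) := by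
      rw [mulc_inv pr hp hinj]
      ring
    rw [h3, h1]
    exact hyp _ (qq_sqfree pr hp hinj ρ) (hover ρ) (n0 ρ) (hnd ρ hρ)
  -- expansion
  set C0 : ℝ := ∏ t, (1 + (Fintype.card J : ℝ) / ((pr t : ℝ) - 1)) *
    ((pr t : ℝ) / ((pr t : ℝ) - 1)) with hC0
  have hbb : ∀ τ, |bb i c τ| * mulc pr (fun p => (p : ℝ)) τ ≤ C0 := bb_bound i pr hp2 c hc
  have hmulc0 : ∀ τ : ι → Option J, 0 ≤ mulc pr (fun p => (p : ℝ)) τ := fun τ => by
    rw [mulc_eq]; positivity
  have hC00 : 0 ≤ C0 := (mul_nonneg (abs_nonneg _) (hmulc0 _)).trans (hbb (fun _ => none))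
  have e1 : ∑ n ∈ S, wt n * (∑ σ, c σ * hNI i L pr σ n) ^ 2 =
      ∑ τ : ι → Option J, ∑ τ' : ι → Option J, bb i c τ * bb i c τ' *
        ∑ n ∈ S, wt n * ((∏ t, el L (pr t) n (τ t)) * (∏ t, el L (pr t) n (τ' t))) := by
    simp_rw [expand, sq, sum_mul_sum, mul_sum]
    rw [sum_comm]
    apply sum_congr rfl
    intro τ _
    rw [sum_comm]
    apply sum_congr rfl
    intro τ' _
    apply sum_congr rfl
    intro n _
    ring
  have e2 : ∑ n ∈ S, wt n * (∑ σ, c σ * hNI i L pr σ n) ^ 2 - K * QI i pr c =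
      ∑ g : (ι → Option J) × (ι → Option J), bb i c g.1 * bb i c g.2 *
        (∑ n ∈ S, wt n * ((∏ t, el L (pr t) n (g.1 t)) * (∏ t, el L (pr t) n (g.2 t))) -
          K * ∏ t, MM (pr t) (g.1 t) (g.2 t)) := by
    rw [e1, QI_eq i pr hp2, Fintype.sum_prod_type, mul_sum, ← sum_sub_distrib]
    apply sum_congr rfl
    intro τ _
    rw [mul_sum, ← sum_sub_distrib]
    apply sum_congr rfl
    intro τ' _
    ring
  set G : Finset ((ι → Option J) × (ι → Option J)) :=
    univ.filter (fun g => Compat g.1 g.2 ∧ bb i c g.1 ≠ 0 ∧ bb i c g.2 ≠ 0) with hG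
  have e3 : |∑ n ∈ S, wt n * (∑ σ, c σ * hNI i L pr σ n) ^ 2 - K * QI i pr c| ≤
      ∑ g ∈ G, C0 ^ 2 * Dev (qq pr (un g.1 g.2)) := by
    rw [e2]
    refine (abs_sum_le_sum_abs _ _).trans ?_
    rw [hG, sum_filter]
    apply sum_le_sum
    intro g _
    have hD0 : 0 ≤ C0 ^ 2 * Dev (qq pr (un g.1 g.2)) :=
      mul_nonneg (sq_nonneg _) (hDev _)
    by_cases hco : Compat g.1 g.2
    · by_cases hb1 : bb i c g.1 = 0
      · rw [hb1, zero_mul, zero_mul, abs_zero]
        split_ifs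
        · exact hD0
        · exact le_rfl
      · by_cases hb2 : bb i c g.2 = 0
        · rw [hb2, mul_zero, zero_mul, abs_zero]
          split_ifs
          · exact hD0
          · exact le_rfl
        · rw [if_pos ⟨hco, hb1, hb2⟩]
          have h1 : ∑ n ∈ S, wt n * ((∏ t, el L (pr t) n (g.1 t)) * (∏ t, el L (pr t) n (g.2 t))) =
              mulc pr (fun p => (p : ℝ)) g.1 * mulc pr (fun p => (p : ℝ)) g.2 * A (un g.1 g.2) := by
            rw [hA, mul_sum]
            apply sum_congr rfl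
            intro n _
            rw [prodE L pr g.1 g.2 hco n]
            ring
          rw [h1, prodM pr g.1 g.2 hco]
          have h2 : bb i c g.1 * bb i c g.2 *
              (mulc pr (fun p => (p : ℝ)) g.1 * mulc pr (fun p => (p : ℝ)) g.2 * A (un g.1 g.2) -
              K * (mulc pr (fun p => (p : ℝ)) g.1 * mulc pr (fun p => (p : ℝ)) g.2 *
                mulc pr (fun p => 1 / ((p : ℝ) - 1)) (un g.1 g.2))) =
              (bb i c g.1 * mulc pr (fun p => (p : ℝ)) g.1) *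
              (bb i c g.2 * mulc pr (fun p => (p : ℝ)) g.2) *
              (A (un g.1 g.2) - K * mulc pr (fun p => 1 / ((p : ℝ) - 1)) (un g.1 g.2)) := by ring
          rw [h2, abs_mul, abs_mul, abs_mul, abs_mul, abs_of_nonneg (hmulc0 g.1),
            abs_of_nonneg (hmulc0 g.2), sq C0]
          have hlab : ∀ t, un g.1 g.2 t ≠ some i := by
            intro t ht
            have l1 := (bb_ne_zero i pr hp c R hcR g.1 hb1).1 t
            have l2 := (bb_ne_zero i pr hp c R hcR g.2 hb2).1 t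
            unfold un at ht
            rw [Option.or_eq_some_iff] at ht
            rcases ht with h | h
            · exact l1 h
            · exact l2 h.2
          apply mul_le_mul _ (hAρ _ hlab) (abs_nonneg _) (by positivity)
          apply mul_le_mul (hbb _) (hbb _) _ hC00
          exact mul_nonneg (abs_nonneg _) (hmulc0 _)
    · rw [if_neg (by tauto)]
      have h1 : ∑ n ∈ S, wt n * ((∏ t, el L (pr t) n (g.1 t)) * (∏ t, el L (pr t) n (g.2 t))) = 0 := by
        apply sum_eq_zero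
        intro n _
        rw [prodE0 L pr g.1 g.2 hco hS.excl n, mul_zero]
      rw [h1, prodM0 pr g.1 g.2 hco]
      simp
  refine e3.trans ?_
  rw [← mul_sum]
  apply mul_le_mul_of_nonneg_left _ (sq_nonneg _)
  -- counting
  set Q := (Icc 1 ⌊R ^ 2⌋₊).filter (fun q => Squarefree q ∧ Over pr q) with hQ
  have hmaps : ∀ g ∈ G, qq pr (un g.1 g.2) ∈ Q := by
    intro g hg
    rw [hG, mem_filter] at hg
    obtain ⟨_, hco, hb1, hb2⟩ := hg
    have l1 := bb_ne_zero i pr hp c R hcR g.1 hb1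
    have l2 := bb_ne_zero i pr hp c R hcR g.2 hb2
    rw [hQ, mem_filter, mem_Icc]
    refine ⟨⟨qq_pos pr hp _, ?_⟩, qq_sqfree pr hp hinj _, hover _⟩
    apply Nat.le_floor
    calc ((qq pr (un g.1 g.2) : ℕ) : ℝ) ≤ ((qq pr g.1 * qq pr g.2 : ℕ) : ℝ) := by
          exact_mod_cast qq_un_le pr hp g.1 g.2
      _ = (qq pr g.1 : ℝ) * (qq pr g.2 : ℝ) := by push_cast; rfl
      _ ≤ R * R := mul_le_mul l1.2 l2.2 (by positivity) (by linarith)
      _ = R ^ 2 := by ring
  rw [← sum_fiberwise_of_maps_to hmaps]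
  apply sum_le_sum
  intro q hq
  have h1 : ∑ g ∈ G.filter (fun g => qq pr (un g.1 g.2) = q),
      Dev (qq pr (un g.1 g.2)) =
      ∑ g ∈ G.filter (fun g => qq pr (un g.1 g.2) = q), Dev q := by
    apply sum_congr rfl
    intro g hg
    rw [(mem_filter.1 hg).2]
  rw [h1, sum_const, nsmul_eq_mul]
  apply mul_le_mul_of_nonneg_right
  · apply count_pairs pr hp hinj i q
    · rw [hQ, mem_filter, mem_Icc] at hq
      omega
    · intro g hg
      rw [mem_filter, hG, mem_filter] at hg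
      exact ⟨hg.1.2.1, hg.2⟩
  · exact hDev _

end Pool.Agent.W924.UNS2G
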