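import Pool.Agent.W518.PR.Stm

set_option autoImplicit false

open Pool.Agent.H907R3 Pool.Agent.W518.PR

namespace Pool.Agent.W924.PRProj

/-- reduced exponents -/
abbrev RR : Type := (Fin 6 → Fin 3) × Fin 2

/-- the index of the monomial `x^{3m + r} z^e` -/
def idx (m : Fin 6 →₀ ℕ) (r : RR) : Idx :=
  (fun k => 3 * (m k : ℤ) + (((r.1 k : Fin 3) : ℕ) : ℤ), r.2)

lemma idx_inj {m m' : Fin 6 →₀ ℕ} {r r' : RR} (h : idx m r = idx m' r') : m = m' ∧ r = r' := by
  have h1 := congrArg Prod.fst h
  have h2' := congrArg Prod.snd h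
  have h2 : r.2 = r'.2 := h2'
  have h3 : ∀ k, m k = m' k ∧ r.1 k = r'.1 k := by
    intro k
    have h4 : 3 * (m k : ℤ) + (((r.1 k : Fin 3) : ℕ) : ℤ) =
      3 * (m' k : ℤ) + (((r'.1 k : Fin 3) : ℕ) : ℤ) := congrFun h1 k
    have h5 := (r.1 k).isLt
    have h6 := (r'.1 k).isLt
    exact ⟨by omega, Fin.ext (by omega)⟩
  exact ⟨Finsupp.ext fun k => (h3 k).1, Prod.ext (funext fun k => (h3 k).2) h2⟩

/-- reduced monomials -/
noncomputable def mr (r : RR) : K := nf (idx 0 r)

lemma cub_monomial (m : Fin 6 →₀ ℕ) (c : ℂ) (r : RR) :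
    cub (MvPolynomial.monomial m c) * mr r = c • nf (idx m r) := by
  rw [cub, MvPolynomial.aeval_monomial, mr, nf, nf, mon, mon, Algebra.smul_def, mul_assoc]
  congr 1
  rw [Finsupp.prod_fintype _ _ (by simp), ← mul_assoc, ← Finset.prod_mul_distrib]
  congr 1
  refine Finset.prod_congr rfl fun k _ => ?_
  rw [← pow_mul, ← zpow_natCast, ← zpow_add₀ (x_ne k)]
  congr 1
  simp only [idx, Finsupp.coe_zero, Pi.zero_apply]
  push_cast
  ring

lemma coord_cub (p : MP) (r r' : RR) (m : Fin 6 →₀ ℕ) :
    coord (cub p * mr r) (idx m r') = if r = r' then MvPolynomial.coeff m p else 0 := by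
  classical
  induction p using MvPolynomial.induction_on' with
  | monomial m' c =>
    rw [cub_monomial, map_smul, coord_nf, Finsupp.smul_apply, Finsupp.single_apply,
      MvPolynomial.coeff_monomial]
    by_cases h : idx m' r = idx m r'
    · obtain ⟨h1, h2⟩ := idx_inj h
      rw [if_pos h, if_pos h2, if_pos h1, smul_eq_mul, mul_one]
    · rw [if_neg h, smul_zero]
      split_ifs with h1 h2
      · exact absurd (by rw [h1, h2]) h
      · rfl
      · rfl
  | add p q hp hq =>
    rw [map_add, add_mul, map_add, Finsupp.add_apply, hp, hq, MvPolynomial.coeff_add]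
    split_ifs <;> simp

lemma eM_cases (q : ℕ) (k : Fin q → Fin 7) : (eM q k : Lam) = 0 ∨
    ∃ (u : ℤˣ) (s : Finset (Fin 7)), (eM q k : Lam) = u • bL s := by
  induction q with
  | zero => exact Or.inr ⟨1, ∅, by rw [eM_zero, bL_empty, one_smul]⟩
  | succ q ih =>
    rw [eM_succ, ← bL_singleton]
    rcases ih (Fin.tail k) with h | ⟨u, s, h⟩
    · left
      rw [h, mul_zero]
    · rw [h]
      rcases bL_mul (R := K) (k 0) s with h' | ⟨u', t, h'⟩
      · left
        rcases Int.units_eq_one_or u with rfl | rfl
        · rw [one_smul, h']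
        · rw [Units.neg_smul, one_smul, mul_neg, h', neg_zero]
      · right
        refine ⟨u * u', t, ?_⟩
        rcases Int.units_eq_one_or u with rfl | rfl
        · rw [one_smul, h', one_mul]
        · rw [Units.neg_smul, one_smul, mul_neg, h', neg_mul, one_mul, Units.neg_smul]

/-- index sets of the basis -/
def SI (q : ℕ) : Type := {s : Finset (Fin 7) // ∃ (u : ℤˣ) (k : Fin q → Fin 7),
  (eM q k : Lam) = u • bL s}

def RI (b : ℤ) : Type := {r : RR // (3 : ℤ) ∣ deg (idx 0 r) - b}

noncomputable instance (q : ℕ) : Fintype (SI q) := by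
  classical
  exact Fintype.ofInjective (fun s : SI q => s.1) Subtype.val_injective

noncomputable instance (b : ℤ) : Fintype (RI b) := by
  classical
  exact Fintype.ofInjective (fun s : RI b => s.1) Subtype.val_injective

/-- the identity -/
noncomputable def idF : Lam →+ FL where
  toFun ω := ω
  map_zero' := rfl
  map_add' _ _ := rfl

/-- the basis -/
noncomputable def bv (q : ℕ) (b : ℤ) (j : SI q × RI b) : FL :=
  (show Lam from mr j.2.1 • bL j.1.1)

/-- coefficient functionals -/
noncomputable def cf (s : Finset (Fin 7)) (r : RR) (m : Fin 6 →₀ ℕ) : FL →+ ℂ where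
  toFun ω := coord (bL.repr (show Lam from ω) s) (idx m r)
  map_zero' := by
    change coord (bL.repr (0 : Lam) s) (idx m r) = 0
    simp
  map_add' a b := by
    change coord (bL.repr ((show Lam from a) + (show Lam from b)) s) (idx m r) = _
    simp

lemma cf_smul (q : ℕ) (b : ℤ) (j j' : SI q × RI b) (m : Fin 6 →₀ ℕ) (p : MP) [DecidableEq (SI q × RI b)] :
    cf j'.1.1 j'.2.1 m (p • bv q b j) = if j = j' then MvPolynomial.coeff m p else 0 := by
  change coord (bL.repr (cub p • (mr j.2.1 • bL j.1.1 : Lam)) j'.1.1) (idx m j'.2.1) = _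
  rw [smul_smul, map_smul, Finsupp.smul_apply, Module.Basis.repr_self, Finsupp.single_apply]
  split_ifs with h1 h2 h2
  · rw [smul_eq_mul, mul_one, coord_cub, if_pos (by rw [h2])]
  · rw [smul_eq_mul, mul_one, coord_cub, if_neg]
    intro h3
    exact h2 (Prod.ext (Subtype.ext h1) (Subtype.ext h3))
  · exact absurd (by rw [h2]) h1
  · simp

lemma li_bv (q : ℕ) (b : ℤ) : LinearIndependent MP (bv q b) := by
  classical
  rw [Fintype.linearIndependent_iff]
  intro g hg j
  ext m
  have h := congrArg (cf j.1.1 j.2.1 m) hg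
  rw [map_sum, map_zero] at h
  simp only [cf_smul] at h
  rw [Finset.sum_ite_eq' ] at h
  simpa using h

lemma deg_idx_nonneg (r : RR) : 0 ≤ deg (idx 0 r) := by
  simp only [deg, idx, Finsupp.coe_zero, Pi.zero_apply]
  positivity

lemma deg_idx (m : Fin 6 →₀ ℕ) (r : RR) : deg (idx m r) = 3 * ∑ k, (m k : ℤ) + deg (idx 0 r) := by
  simp only [deg, idx, Finsupp.coe_zero, Pi.zero_apply, Finset.sum_add_distrib, Finset.mul_sum]
  push_cast
  simp
  ring

lemma span_bv (q : ℕ) (b : ℤ) (hb : b ≤ 2) : Submodule.span MP (Set.range (bv q b)) = TP q b ∅ := by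
  apply le_antisymm
  · rw [Submodule.span_le]
    rintro _ ⟨⟨⟨s, u, k, hs⟩, ⟨r, hr⟩⟩, rfl⟩
    change (mr r • bL s : Lam) ∈ T q ∅ (Gm b)
    have h1 : mr r ∈ V ∅ (Gm b) := by
      apply nf_mem
      refine ⟨fun k _ => ?_, ?_, hr⟩
      · simp only [idx]
        positivity
      · have := deg_idx_nonneg r
        omega
    have h2 : (mr r • eM q k : Lam) ∈ T q ∅ (Gm b) := gen_mem h1 k
    rw [hs] at h2
    rcases Int.units_eq_one_or u with rfl | rfl
    · rwa [one_smul] at h2
    · rw [Units.neg_smul, one_smul, smul_neg] at h2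
      exact (AddSubgroup.neg_mem_iff _).1 h2
  · intro ω hω
    have hω' : (show Lam from ω) ∈ T q ∅ (Gm b) := hω
    have key : ∀ (s : SI q) (f : K), f ∈ V ∅ (Gm b) →
        (show FL from (f • bL s.1 : Lam)) ∈ Submodule.span MP (Set.range (bv q b)) := by
      intro s f hf
      refine V_induction (fun f => (show FL from (f • bL s.1 : Lam)) ∈
        Submodule.span MP (Set.range (bv q b))) ?_ ?_ ?_ ?_ hf
      · rintro ⟨a, e⟩ ⟨h1, h2, h3⟩
        have h1' : ∀ k, 0 ≤ a k := fun k => h1 k (Finset.notMem_empty k)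
        let m : Fin 6 →₀ ℕ := Finsupp.equivFunOnFinite.symm fun k => (a k / 3).toNat
        let r : Fin 6 → Fin 3 := fun k => ⟨(a k % 3).toNat, by omega⟩
        have hqr : (a, e) = idx m (r, e) := by
          refine Prod.ext (funext fun k => ?_) rfl
          have := h1' k
          simp only [idx, m, r, Finsupp.equivFunOnFinite_symm_apply_apply]
          omega
        have hr : (3 : ℤ) ∣ deg (idx 0 (r, e)) - b := by
          rw [hqr, deg_idx] at h3
          have h4 : (3 : ℤ) ∣ 3 * ∑ k, (m k : ℤ) := dvd_mul_right _ _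
          have h5 := dvd_sub h3 h4
          rwa [show 3 * ∑ k, (m k : ℤ) + deg (idx 0 (r, e)) - b - 3 * ∑ k, (m k : ℤ) =
            deg (idx 0 (r, e)) - b by ring] at h5
        have h6 : (show FL from (nf (a, e) • bL s.1 : Lam)) =
            (MvPolynomial.monomial m (1 : ℂ) : MP) • bv q b (s, ⟨(r, e), hr⟩) := by
          change (nf (a, e) • bL s.1 : Lam) =
            cub (MvPolynomial.monomial m (1 : ℂ)) • (mr (r, e) • bL s.1 : Lam)
          rw [smul_smul, cub_monomial, one_smul, hqr]
        rw [h6]
        exact Submodule.smul_mem _ _ (Submodule.subset_span ⟨_, rfl⟩)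
      · have h : (show FL from ((0 : K) • bL s.1 : Lam)) = 0 := zero_smul K (bL s.1 : Lam)
        rw [h]
        exact Submodule.zero_mem _
      · intro f g hf hg
        have h : (show FL from ((f + g) • bL s.1 : Lam)) =
          (show FL from (f • bL s.1 : Lam)) + (show FL from (g • bL s.1 : Lam)) :=
          add_smul f g (bL s.1 : Lam)
        rw [h]
        exact Submodule.add_mem _ hf hg
      · intro c f hf
        have h : (show FL from ((c • f) • bL s.1 : Lam)) =
            (MvPolynomial.C c : MP) • (show FL from (f • bL s.1 : Lam)) := by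
          change ((c • f) • bL s.1 : Lam) = cub (MvPolynomial.C c) • (f • bL s.1 : Lam)
          rw [smul_smul, cub, MvPolynomial.aeval_C, Algebra.smul_def c f]
        rw [h]
        exact Submodule.smul_mem _ _ hf
    have h2 := T_map (F := FL) idF
      (Submodule.span MP (Set.range (bv q b))).toAddSubgroup (fun f hf k => by
        rcases eM_cases q k with h | ⟨u, s, h⟩
        · have h3 : idF (f • eM q k : Lam) = 0 := by
            rw [h, smul_zero, map_zero]
          rw [h3]
          exact AddSubgroup.zero_mem _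
        · have h3 := key ⟨s, u, k, h⟩ f hf
          rcases Int.units_eq_one_or u with rfl | rfl
          · have h4 : idF (f • eM q k : Lam) = idF (f • bL s : Lam) := by
              rw [h, one_smul]
            rw [h4]
            exact h3
          · have h4 : idF (f • eM q k : Lam) = -idF (f • bL s : Lam) := by
              rw [h, Units.neg_smul, one_smul, smul_neg, map_neg]
            rw [h4]
            exact AddSubgroup.neg_mem _ h3) hω'
    exact h2

theorem main : S_proj := by
  intro q b hb
  have h1 : Module.Free MP (Submodule.span MP (Set.range (bv q b))) :=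
    Module.Free.of_basis (Module.Basis.span (li_bv q b))
  rw [span_bv q b hb] at h1
  exact Module.Projective.of_free

end Pool.Agent.W924.PRProj
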