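import Pool.Agent.W868.FI.Stms2

/-! Project FI, (9a): facts on the refilling. -/

open MeasureTheory Set Pool.Agent.W868.FI

namespace Pool.Agent.W924.FI

variable {Γ Sg : Type} [Group Γ]

theorem ctr_sh (t : (Γ → Bool) → Γ) (e : Γ → Bool) (k g : Γ) :
    ctr t (sh k e) (g * k⁻¹) = ctr t e g * k⁻¹ := by
  unfold ctr
  rw [sh_sh, inv_mul_cancel_right, mul_assoc]

theorem ctr_sh' (t : (Γ → Bool) → Γ) (e : Γ → Bool) (k g : Γ) :
    ctr t (sh k e) g = ctr t e (g * k) * k⁻¹ := by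
  rw [← ctr_sh, mul_inv_cancel_right]

theorem cell_sh (t : (Γ → Bool) → Γ) (e : Γ → Bool) (k j : Γ) :
    cell t (sh k e) (j * k⁻¹) = {x | x * k ∈ cell t e j} := by
  ext x
  show ctr t (sh k e) x = j * k⁻¹ ↔ ctr t e (x * k) = j
  rw [ctr_sh']
  exact mul_left_inj _

theorem cell_sh_one (t : (Γ → Bool) → Γ) (e : Γ → Bool) (k : Γ) :
    cell t (sh k e) 1 = {x | x * k ∈ cell t e k} := by
  rw [← cell_sh, mul_inv_cancel]

theorem inn_sh (F : Finset Γ) (τ : Set Γ) (k g : Γ) :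
    g ∈ inn F {x | x * k ∈ τ} ↔ g * k ∈ inn F τ := by
  constructor
  · rintro ⟨h1, h2⟩
    refine ⟨h1, ?_⟩
    rintro γ ⟨δ, hδ, h3⟩ δ' hδ'
    have h4 := h2 (γ * k⁻¹) ⟨δ, hδ, by rw [← mul_assoc, h3, mul_inv_cancel_right]⟩ δ' hδ'
    have h5 : δ' * (γ * k⁻¹) * k ∈ τ := h4
    rwa [← mul_assoc, inv_mul_cancel_right] at h5
  · rintro ⟨h1, h2⟩
    refine ⟨h1, ?_⟩
    rintro γ ⟨δ, hδ, h3⟩ δ' hδ'
    have h4 := h2 (γ * k) ⟨δ, hδ, by rw [← mul_assoc, h3]⟩ δ' hδ'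
    show δ' * γ * k ∈ τ
    rw [mul_assoc]
    exact h4

theorem known_sh (F : Finset Γ) (t : (Γ → Bool) → Γ) (e : Γ → Bool) (C : Set Γ) (k g : Γ) :
    Known F t (sh k e) {x | x * k ∈ C} g ↔ Known F t e C (g * k) := by
  unfold Known
  rw [ctr_sh', cell_sh, inn_sh]
  refine and_congr ?_ Iff.rfl
  constructor
  · intro h x hx
    have h1 : x * k⁻¹ ∈ {x | x * k ∈ cell t e (ctr t e (g * k))} := by
      show x * k⁻¹ * k ∈ cell t e (ctr t e (g * k))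
      rw [inv_mul_cancel_right]
      exact hx
    have h2 : x * k⁻¹ * k ∈ C := h h1
    rwa [inv_mul_cancel_right] at h2
  · intro h x hx
    exact h hx

theorem unk_sh (F : Finset Γ) (t : (Γ → Bool) → Γ) (e : Γ → Bool) (C : Set Γ) (k g : Γ) :
    g ∈ Unk F t (sh k e) {x | x * k ∈ C} ↔ g * k ∈ Unk F t e C := by
  show (g * k ∈ C ∧ ¬ Known F t (sh k e) {x | x * k ∈ C} g) ↔
    (g * k ∈ C ∧ ¬ Known F t e C (g * k))
  rw [known_sh]

theorem mem_self (t : (Γ → Bool) → Γ) (e : Γ → Bool) (g : Γ) : g ∈ cell t e (ctr t e g) := rfl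

theorem rep_congr [Nonempty Sg] (F : Finset Γ) (Pt : Set (F → Sg)) (τ : Set Γ) (z z' : Γ → Sg)
    (h : ∀ x ∈ τ, x ∉ inn F τ → z x = z' x) : rep F Pt τ z = rep F Pt τ z' := by
  unfold rep
  congr 1
  funext w
  apply propext
  unfold OKP
  refine and_congr ?_ Iff.rfl
  constructor
  · intro h1 x hx hx2
    rw [h1 x hx hx2, h x hx hx2]
  · intro h1 x hx hx2
    rw [h1 x hx hx2, h x hx hx2]

theorem rep_spec [Nonempty Sg] (F : Finset Γ) (Pt : Set (F → Sg)) (τ : Set Γ) (z : Γ → Sg)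
    (h : ∀ γ, Vld F Pt z γ) : OKP F Pt τ z (rep F Pt τ z) :=
  Classical.epsilon_spec (p := OKP F Pt τ z) ⟨z, fun _ _ _ => rfl, fun γ _ => h γ⟩

theorem vld_sh (F : Finset Γ) (Pt : Set (F → Sg)) (z : Γ → Sg) (k γ : Γ) :
    Vld F Pt (sh k z) γ ↔ Vld F Pt z (γ * k) := by
  unfold Vld sh
  simp only [mul_assoc]

theorem part1 [Nonempty Sg] (F : Finset Γ) (Pt : Set (F → Sg)) (t : (Γ → Bool) → Γ)
    (e : Γ → Bool) (C : Set Γ) (z z' : Γ → Sg) (g : Γ) (hg : g ∈ C)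
    (h : ∀ h ∈ Unk F t e C, h = g ∨ ctr t e h = ctr t e g → z h = z' h) :
    dec F Pt t e C z g = dec F Pt t e C z' g := by
  unfold dec
  by_cases hK : Known F t e C g
  · rw [if_pos hK, if_pos hK]
    unfold fil
    rw [rep_congr]
    intro x hx hx2
    rw [cell_sh_one] at hx hx2
    have h1 : ctr t e (x * ctr t e g) = ctr t e g := hx
    show z (x * ctr t e g) = z' (x * ctr t e g)
    refine h _ ⟨hK.1 h1, fun hK2 => hx2 ?_⟩ (Or.inr h1)
    rw [inn_sh]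
    have h2 := hK2.2
    rw [h1] at h2
    exact h2
  · rw [if_neg hK, if_neg hK]
    exact h g ⟨hg, hK⟩ (Or.inl rfl)

theorem part2 [Nonempty Sg] (F : Finset Γ) (Pt : Set (F → Sg)) (t : (Γ → Bool) → Γ)
    (e : Γ → Bool) (C₁ C₂ : Set Γ) (z : Γ → Sg) (g : Γ) (h1 : cell t e (ctr t e g) ⊆ C₁)
    (h2 : C₁ ⊆ C₂) :
    dec F Pt t e C₁ z g = dec F Pt t e C₂ z g ∧ (g ∈ Unk F t e C₁ ↔ g ∈ Unk F t e C₂) := by
  have hK : Known F t e C₁ g ↔ Known F t e C₂ g :=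
    ⟨fun h => ⟨h1.trans h2, h.2⟩, fun h => ⟨h1, h.2⟩⟩
  constructor
  · unfold dec
    by_cases hk : Known F t e C₁ g
    · rw [if_pos hk, if_pos (hK.1 hk)]
    · rw [if_neg hk, if_neg (fun h => hk (hK.2 h))]
  · show (g ∈ C₁ ∧ ¬ Known F t e C₁ g) ↔ (g ∈ C₂ ∧ ¬ Known F t e C₂ g)
    rw [hK]
    have e1 : g ∈ C₁ := h1 (mem_self t e g)
    have e2 : g ∈ C₂ := h2 e1
    simp [e1, e2]

theorem part3 [Nonempty Sg] (F : Finset Γ) (Pt : Set (F → Sg)) (t : (Γ → Bool) → Γ)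
    (e : Γ → Bool) (C : Set Γ) (z : Γ → Sg) (γ : Γ) (hz : ∀ γ, Vld F Pt z γ)
    (_ : ∀ δ ∈ F, δ * γ ∈ C) : Vld F Pt (dec F Pt t e C z) γ := by
  by_cases hex : ∃ δ₀ ∈ F, Known F t e C (δ₀ * γ)
  · obtain ⟨δ₀, hδ₀, hK⟩ := hex
    obtain ⟨k, hk⟩ : ∃ k, k = ctr t e (δ₀ * γ) := ⟨_, rfl⟩
    have hK1 := hK.1
    have hK2 := hK.2
    rw [← hk] at hK1 hK2
    have hall : ∀ δ ∈ F, ctr t e (δ * γ) = k := hK2.2 γ ⟨δ₀, hδ₀, rfl⟩
    have hzk : ∀ γ, Vld F Pt (sh k z) γ := fun γ => (vld_sh F Pt z k γ).2 (hz _)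
    have hR := rep_spec F Pt (cell t (sh k e) 1) (sh k z) hzk
    have hin : ∀ δ ∈ F, δ * (γ * k⁻¹) ∈ cell t (sh k e) 1 := by
      intro δ hδ
      rw [cell_sh_one]
      show δ * (γ * k⁻¹) * k ∈ cell t e k
      rw [← mul_assoc, inv_mul_cancel_right]
      exact hall δ hδ
    have hv := hR.2 (γ * k⁻¹) hin
    unfold Vld at hv ⊢
    have heq : (fun δ : F => dec F Pt t e C z (δ.1 * γ)) =
        fun δ : F => rep F Pt (cell t (sh k e) 1) (sh k z) (δ.1 * (γ * k⁻¹)) := by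
      funext δ
      have hδ := hall δ.1 δ.2
      unfold dec
      by_cases hkn : Known F t e C (δ.1 * γ)
      · rw [if_pos hkn]
        unfold fil
        rw [hδ, mul_assoc]
      · rw [if_neg hkn]
        have hni : δ.1 * (γ * k⁻¹) ∉ inn F (cell t (sh k e) 1) := by
          rw [cell_sh_one, inn_sh, ← mul_assoc, inv_mul_cancel_right]
          intro hi
          exact hkn ⟨by rw [hδ]; exact hK1, by rw [hδ]; exact hi⟩
        rw [hR.1 _ (hin δ.1 δ.2) hni]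
        show z (δ.1 * γ) = z (δ.1 * (γ * k⁻¹) * k)
        rw [← mul_assoc, inv_mul_cancel_right]
    rw [heq]
    exact hv
  · have hv := hz γ
    unfold Vld at hv ⊢
    have heq : (fun δ : F => dec F Pt t e C z (δ.1 * γ)) = fun δ : F => z (δ.1 * γ) := by
      funext δ
      unfold dec
      rw [if_neg (fun h => hex ⟨δ.1, δ.2, h⟩)]
    rw [heq]
    exact hv

theorem part7 [Nonempty Sg] (F : Finset Γ) (Pt : Set (F → Sg)) (t : (Γ → Bool) → Γ)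
    (e : Γ → Bool) (C : Set Γ) (z : Γ → Sg) (k g : Γ) :
    dec F Pt t (sh k e) {x | x * k ∈ C} (sh k z) (g * k⁻¹) = dec F Pt t e C z g := by
  have hK : Known F t (sh k e) {x | x * k ∈ C} (g * k⁻¹) ↔ Known F t e C g := by
    rw [known_sh, inv_mul_cancel_right]
  unfold dec
  by_cases hk : Known F t e C g
  · rw [if_pos hk, if_pos (hK.2 hk)]
    unfold fil
    rw [ctr_sh, sh_sh, sh_sh, inv_mul_cancel_right, mul_inv_rev, inv_inv, mul_assoc,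
      inv_mul_cancel_left]
  · rw [if_neg hk, if_neg (fun h => hk (hK.1 h))]
    show z (g * k⁻¹ * k) = z g
    rw [inv_mul_cancel_right]

/-- (9a) -/
theorem decf : S_DEC := by
  intro Γ Sg _ _ F Pt t e
  refine ⟨part1 F Pt t e, part2 F Pt t e, part3 F Pt t e, ctr_sh t e, fun k j g => ?_,
    fun C k g => unk_sh F t e C k g, part7 F Pt t e⟩
  rw [cell_sh]
  rfl

end Pool.Agent.W924.FI
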