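import Pool.Agent.W217.BE.Stm

set_option autoImplicit false

open Pool.Agent.W217.BE

namespace Pool.Agent.W924.BELIFT

theorem lift {S : Type} [CommRing S] {P Y Z : Type} [AddCommGroup P] [Module S P]
    [AddCommGroup Y] [Module S Y] [AddCommGroup Z] [Module S Z] [Module.Projective S P]
    (g : P →ₗ[S] Y) (d : Z →ₗ[S] Y) (h : ∀ x, g x ∈ LinearMap.range d) :
    ∃ f : P →ₗ[S] Z, ∀ x, d (f x) = g x := by
  obtain ⟨f, hf⟩ := Module.projective_lifting_property d.rangeRestrict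
    (g.codRestrict (LinearMap.range d) h) (LinearMap.surjective_rangeRestrict d)
  refine ⟨f, fun x => ?_⟩
  have := congrArg (fun l => ((l x : LinearMap.range d) : Y)) hf
  simpa using this

theorem main : LIFT := by
  intro S _ M N _ _ _ _ X Y _ _ _ _ _ dX εX dY εY φ hX0 hX hY
  obtain ⟨hsurj, h0, hex⟩ := hY
  -- the first two maps
  obtain ⟨f0, hf0⟩ := lift (φ ∘ₗ εX) εY (fun x => hsurj _)
  obtain ⟨f1, hf1⟩ := lift (f0 ∘ₗ dX 0) (dY 0) (fun x => by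
    rw [h0, LinearMap.mem_ker, LinearMap.comp_apply, hf0, LinearMap.comp_apply, hX0, map_zero])
  -- the step
  have step : ∀ (i : ℕ) (p : {p : (X i →ₗ[S] Y i) × (X (i + 1) →ₗ[S] Y (i + 1)) //
      ∀ x, dY i (p.2 x) = p.1 (dX i x)}),
      ∃ p' : {p : (X (i + 1) →ₗ[S] Y (i + 1)) × (X (i + 1 + 1) →ₗ[S] Y (i + 1 + 1)) //
        ∀ x, dY (i + 1) (p.2 x) = p.1 (dX (i + 1) x)}, p'.1.1 = p.1.2 := by
    intro i p
    obtain ⟨f2, hf2⟩ := lift (p.1.2 ∘ₗ dX (i + 1)) (dY (i + 1)) (fun x => by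
      rw [hex, LinearMap.mem_ker, LinearMap.comp_apply, p.2, hX, map_zero])
    exact ⟨⟨(p.1.2, f2), hf2⟩, rfl⟩
  choose st hst using step
  let F : ∀ i : ℕ, {p : (X i →ₗ[S] Y i) × (X (i + 1) →ₗ[S] Y (i + 1)) //
      ∀ x, dY i (p.2 x) = p.1 (dX i x)} := fun i => Nat.rec ⟨(f0, f1), hf1⟩ (fun i p => st i p) i
  refine ⟨fun i => (F i).1.1, hf0, fun i x => ?_⟩
  have h1 : (F (i + 1)).1.1 = (F i).1.2 := hst i (F i)
  show dY i ((F (i + 1)).1.1 x) = (F i).1.1 (dX i x)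
  rw [h1]
  exact (F i).2 x

end Pool.Agent.W924.BELIFT
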