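import Pool.Agent.W743.BT.Bas
set_option autoImplicit false

/-! The kernels of the box pieces are negligible far out. -/

namespace Pool.Agent.W924.BTK

open Set MeasureTheory
open Filter hiding mk
open SchwartzMap hiding mk
open scoped Topology ContDiff FourierTransform ENNReal RealInnerProductSpace LineDeriv
open Pool.Agent.W773.BRA (E Bmp chi chi_zero chi_nonneg chi_le_one)
open Pool.Agent.W743.BT

variable {n : ℕ}

/-- unit vector -/
noncomputable def ev (j : Fin n) : E n := EuclideanSpace.single j (1 : ℝ)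

/-- iterated line derivative in coordinate `j` -/
noncomputable def D (j : Fin n) (f : 𝓢(E n, ℂ)) : ℕ → 𝓢(E n, ℂ)
  | 0 => f
  | a + 1 => ∂_{ev j} (D j f a)

lemma fourierInv_D (j : Fin n) (f : 𝓢(E n, ℂ)) (a : ℕ) (x : E n) :
    𝓕⁻ (D j f a) x = (-(2 * Real.pi * Complex.I) * (x j : ℂ)) ^ a * 𝓕⁻ f x := by
  induction a with
  | zero => simp [D]
  | succ a ih =>
    unfold D
    rw [fourierInv_lineDerivOp_eq]
    rw [_root_.smul_apply, smulLeftCLM_apply_apply (by fun_prop), ih]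
    have h1 : inner ℝ x (ev j) = x j := by
      unfold ev
      rw [EuclideanSpace.inner_single_right]
      simp
    rw [h1, pow_succ]
    simp only [Complex.real_smul, smul_eq_mul]
    ring

lemma norm_fourierInv_le (f : 𝓢(E n, ℂ)) (x : E n) : ‖𝓕⁻ f x‖ ≤ ∫ ξ, ‖f ξ‖ := by
  rw [SchwartzMap.fourierInv_coe, Real.fourierInv_eq]
  refine (norm_integral_le_integral_norm _).trans (le_of_eq ?_)
  congr 1
  funext v
  rw [Circle.norm_smul]

/-- the profile in the variable `j` -/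
noncomputable def ph (h : ℝ → ℝ) (N : ℝ) (K : ℕ) (κ : Fin n → ℕ) (j : Fin n) (ξ : E n) (t : ℝ) : ℝ :=
  h (N * (1 - ∑ l ∈ Finset.univ.erase j, ξ l ^ 2) - N * t ^ 2) * w K (κ j) t

/-- the product of the other weights -/
noncomputable def pr (K : ℕ) (κ : Fin n → ℕ) (j : Fin n) (ξ : E n) : ℝ :=
  ∏ l ∈ Finset.univ.erase j, w K (κ l) (ξ l)

lemma mk_eq (h : ℝ → ℝ) (N : ℝ) (K : ℕ) (κ : Fin n → ℕ) (j : Fin n) (ξ : E n) :
    mk h N K κ ξ = ((ph h N K κ j ξ (ξ j) * pr K κ j ξ : ℝ) : ℂ) := by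
  unfold mk ph pr W
  congr 1
  rw [← Finset.mul_prod_erase Finset.univ (fun l => w K (κ l) (ξ l)) (Finset.mem_univ j)]
  rw [EuclideanSpace.norm_sq_eq]
  rw [← Finset.add_sum_erase Finset.univ (fun l => ‖ξ l‖ ^ 2) (Finset.mem_univ j)]
  simp only [Real.norm_eq_abs, sq_abs]
  rw [show N * (1 - (ξ j ^ 2 + ∑ x ∈ Finset.univ.erase j, ξ x ^ 2)) =
    N * (1 - ∑ l ∈ Finset.univ.erase j, ξ l ^ 2) - N * ξ j ^ 2 by ring]
  ring

lemma add_ev_same (j : Fin n) (ξ : E n) (t : ℝ) : (ξ + t • ev j) j = ξ j + t := by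
  simp [ev]

lemma add_ev_ne {j l : Fin n} (hl : l ≠ j) (ξ : E n) (t : ℝ) : (ξ + t • ev j) l = ξ l := by
  simp [ev, hl]

lemma ph_add (h : ℝ → ℝ) (N : ℝ) (K : ℕ) (κ : Fin n → ℕ) (j : Fin n) (ξ : E n) (t : ℝ) :
    ph h N K κ j (ξ + t • ev j) = ph h N K κ j ξ := by
  funext s
  unfold ph
  congr 5
  apply Finset.sum_congr rfl
  intro l hl
  rw [add_ev_ne (Finset.ne_of_mem_erase hl)]

lemma pr_add (K : ℕ) (κ : Fin n → ℕ) (j : Fin n) (ξ : E n) (t : ℝ) :
    pr K κ j (ξ + t • ev j) = pr K κ j ξ := by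
  unfold pr
  apply Finset.prod_congr rfl
  intro l hl
  rw [add_ev_ne (Finset.ne_of_mem_erase hl)]

lemma D_apply {h : ℝ → ℝ} {N : ℝ} {K : ℕ} {κ : Fin n → ℕ} {j : Fin n} {f : 𝓢(E n, ℂ)}
    (hf : ∀ ξ, f ξ = mk h N K κ ξ) (hc : ∀ ξ, ContDiff ℝ ∞ (ph h N K κ j ξ)) (a : ℕ) (ξ : E n) :
    D j f a ξ = ((iteratedDeriv a (ph h N K κ j ξ) (ξ j) * pr K κ j ξ : ℝ) : ℂ) := by
  induction a generalizing ξ with
  | zero =>
    unfold D
    rw [hf, mk_eq h N K κ j, iteratedDeriv_zero]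
  | succ a ih =>
    unfold D
    rw [lineDerivOp_apply]
    unfold lineDeriv
    have h1 : (fun t : ℝ => (D j f a) (ξ + t • ev j)) = fun t : ℝ =>
        ((iteratedDeriv a (ph h N K κ j ξ) (ξ j + t) * pr K κ j ξ : ℝ) : ℂ) := by
      funext t
      rw [ih, ph_add, pr_add, add_ev_same]
    rw [h1]
    have h2 : HasDerivAt (iteratedDeriv a (ph h N K κ j ξ))
        (iteratedDeriv (a + 1) (ph h N K κ j ξ) (ξ j + 0)) (ξ j + 0) := by
      rw [iteratedDeriv_succ]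
      apply DifferentiableAt.hasDerivAt
      apply ContDiff.differentiable_iteratedDeriv a (hc ξ)
      exact_mod_cast WithTop.coe_lt_top _
    have h3 : HasDerivAt (fun t : ℝ => ξ j + t) 1 0 := (hasDerivAt_id (0 : ℝ)).const_add _
    have h4 := (((h2.comp 0 h3).mul_const (pr K κ j ξ))).ofReal_comp
    rw [show (fun t : ℝ => ((iteratedDeriv a (ph h N K κ j ξ) (ξ j + t) * pr K κ j ξ : ℝ) : ℂ)) =
      (fun t : ℝ => (((iteratedDeriv a (ph h N K κ j ξ) ∘ fun t : ℝ => ξ j + t) t * pr K κ j ξ : ℝ) : ℂ))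
      from rfl]
    rw [h4.deriv, add_zero, mul_one]

lemma tsupport_D (j : Fin n) (f : 𝓢(E n, ℂ)) (a : ℕ) : tsupport (D j f a) ⊆ tsupport f := by
  induction a with
  | zero => exact subset_rfl
  | succ a ih =>
    refine subset_trans ?_ ih
    apply closure_minimal _ (isClosed_tsupport _)
    intro ξ hξ
    by_contra hcon
    apply hξ
    unfold D
    rw [lineDerivOp_apply_eq_fderiv]
    have h1 : (D j f a : E n → ℂ) =ᶠ[𝓝 ξ] fun _ => (0 : ℂ) := by
      have := (isClosed_tsupport (D j f a)).isOpen_compl.mem_nhds hcon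
      filter_upwards [this] with y hy
      exact image_eq_zero_of_notMem_tsupport hy
    rw [h1.fderiv_eq]
    simp

lemma th_nonneg (t : ℝ) : 0 ≤ th t := chi_nonneg _
lemma th_le_one (t : ℝ) : th t ≤ 1 := chi_le_one _

lemma w_abs_le (K i : ℕ) (t : ℝ) : |w K i t| ≤ 1 := by
  unfold w
  split_ifs
  · rw [abs_le]
    constructor
    · linarith [th_nonneg (2 ^ i * t), th_le_one (2 ^ (i + 1) * t)]
    · linarith [th_nonneg (2 ^ (i + 1) * t), th_le_one (2 ^ i * t)]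
  · rw [abs_of_nonneg (th_nonneg _)]
    exact th_le_one _

lemma pr_abs_le (K : ℕ) (κ : Fin n → ℕ) (j : Fin n) (ξ : E n) : |pr K κ j ξ| ≤ 1 := by
  unfold pr
  rw [Finset.abs_prod]
  exact Finset.prod_le_one (fun _ _ => abs_nonneg _) fun _ _ => w_abs_le _ _ _

/-- the decay of the kernel in one variable -/
lemma decay (hD : S_D1) (hM : S_MK) (n : ℕ) (h : ℝ → ℝ) (hh : Bmp h) (a : ℕ) :
    ∃ C : ℝ, 0 < C ∧ ∀ (N : ℝ) (K : ℕ) (κ : Fin n → ℕ), 1 ≤ N → (4 : ℝ) ^ K ≤ N →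
      (∀ j, κ j ≤ K) → ∀ (j : Fin n) (x : E n),
      |x j| ^ a * ‖𝓕⁻ (mk (n := n) h N K κ) x‖ ≤ C * (N * (1 / 2 : ℝ) ^ κ j) ^ a := by
  obtain ⟨C, hC, hCb⟩ := hD h hh a
  set V : ℝ := (volume (Metric.closedBall (0 : E n) 1)).toReal with hV
  refine ⟨C * (V + 1), by positivity, fun N K κ hN hK hκ j x => ?_⟩
  obtain ⟨hcd, hcs, hsup, -⟩ := (hM n h hh N K hN).1 κ
  set f : 𝓢(E n, ℂ) := hcs.toSchwartzMap hcd with hf
  have hfa : ∀ ξ, f ξ = mk h N K κ ξ := fun ξ => rfl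
  have hc : ∀ ξ, ContDiff ℝ ∞ (ph h N K κ j ξ) := fun ξ => (hCb _ N K (κ j) hN hK (hκ j)).1
  have hts : tsupport f ⊆ Metric.closedBall (0 : E n) 1 := by
    apply closure_minimal _ Metric.isClosed_closedBall
    intro ξ hξ
    rw [mem_closedBall_zero_iff]
    exact (hsup ξ hκ hξ).2
  have hb : ∀ ξ, ‖D j f a ξ‖ ≤ (Metric.closedBall (0 : E n) 1).indicator
      (fun _ => C * (N * (1 / 2 : ℝ) ^ κ j) ^ a) ξ := by
    intro ξ
    by_cases hξ : ξ ∈ Metric.closedBall (0 : E n) 1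
    · rw [indicator_of_mem hξ, D_apply hfa hc, Complex.norm_real, norm_mul, Real.norm_eq_abs,
        Real.norm_eq_abs]
      have h1 := (hCb (N * (1 - ∑ l ∈ Finset.univ.erase j, ξ l ^ 2)) N K (κ j) hN hK (hκ j)).2.2 (ξ j)
      have h2 := pr_abs_le K κ j ξ
      calc |iteratedDeriv a (ph h N K κ j ξ) (ξ j)| * |pr K κ j ξ|
          ≤ |iteratedDeriv a (ph h N K κ j ξ) (ξ j)| * 1 :=
            mul_le_mul_of_nonneg_left h2 (abs_nonneg _)
        _ ≤ _ := by rw [mul_one]; exact h1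
    · rw [indicator_of_notMem hξ]
      have h1 : ξ ∉ tsupport (D j f a) := fun hm => hξ (hts (tsupport_D j f a hm))
      rw [image_eq_zero_of_notMem_tsupport h1, norm_zero]
  have hNl : 0 ≤ C * (N * (1 / 2 : ℝ) ^ κ j) ^ a := by positivity
  have hint : ∫ ξ, ‖D j f a ξ‖ ≤ V * (C * (N * (1 / 2 : ℝ) ^ κ j) ^ a) := by
    have hfin : volume (Metric.closedBall (0 : E n) 1) ≠ ⊤ :=
      (isCompact_closedBall (0 : E n) 1).measure_lt_top.ne
    calc ∫ ξ, ‖D j f a ξ‖ ≤ ∫ ξ, (Metric.closedBall (0 : E n) 1).indicator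
          (fun _ => C * (N * (1 / 2 : ℝ) ^ κ j) ^ a) ξ := by
          apply integral_mono (D j f a).integrable.norm _ hb
          exact (integrable_indicator_iff Metric.isClosed_closedBall.measurableSet).2
            (integrableOn_const hfin)
      _ = _ := by
          rw [integral_indicator Metric.isClosed_closedBall.measurableSet, setIntegral_const]
          simp [hV, Measure.real]
  have hF := norm_fourierInv_le (D j f a) x
  rw [fourierInv_D, norm_mul, norm_pow] at hF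
  have hk : 𝓕⁻ f x = 𝓕⁻ (mk (n := n) h N K κ) x := by
    rw [SchwartzMap.fourierInv_coe]
    rfl
  rw [hk] at hF
  have h2 : |x j| ≤ ‖-(2 * Real.pi * Complex.I) * (x j : ℂ)‖ := by
    rw [norm_mul, norm_neg, norm_mul, norm_mul, Complex.norm_I, Complex.norm_real, Complex.norm_real]
    simp only [Complex.norm_ofNat, mul_one, Real.norm_eq_abs]
    rw [abs_of_pos Real.pi_pos]
    have := Real.pi_gt_three
    nlinarith [abs_nonneg (x j)]
  have h3 : |x j| ^ a ≤ ‖-(2 * Real.pi * Complex.I) * (x j : ℂ)‖ ^ a :=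
    pow_le_pow_left₀ (abs_nonneg _) h2 a
  have hV0 : 0 ≤ V := ENNReal.toReal_nonneg
  calc |x j| ^ a * ‖𝓕⁻ (mk (n := n) h N K κ) x‖
      ≤ ‖-(2 * Real.pi * Complex.I) * (x j : ℂ)‖ ^ a * ‖𝓕⁻ (mk (n := n) h N K κ) x‖ :=
        mul_le_mul_of_nonneg_right h3 (norm_nonneg _)
    _ ≤ V * (C * (N * (1 / 2 : ℝ) ^ κ j) ^ a) := hF.trans hint
    _ ≤ (V + 1) * (C * (N * (1 / 2 : ℝ) ^ κ j) ^ a) :=
        mul_le_mul_of_nonneg_right (by linarith) hNl
    _ = _ := by ring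

/-- the integral of the rescaled Cauchy density -/
lemma lint_cauchy {s : ℝ} (hs : 0 < s) :
    ∫⁻ t : ℝ, ENNReal.ofReal ((1 + (t / s) ^ 2)⁻¹) = ENNReal.ofReal (Real.pi * s) := by
  have h1 : Integrable (fun t : ℝ => (1 + (t / s) ^ 2)⁻¹) :=
    integrable_inv_one_add_sq.comp_div hs.ne'
  rw [← ofReal_integral_eq_lintegral_ofReal h1 (ae_of_all _ fun t => by positivity)]
  congr 1
  have h2 := Measure.integral_comp_div (fun t : ℝ => (1 + t ^ 2)⁻¹) s
  rw [h2, integral_univ_inv_one_add_sq, abs_of_pos hs, smul_eq_mul, mul_comm]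

theorem ker : S_D1 → S_MK → S_KER := by
  intro hD hM n h hh ε hε
  obtain ⟨b, hb⟩ := exists_nat_ge ((n : ℝ) / ε)
  obtain ⟨C, hC, hCb⟩ := decay hD hM n h hh (2 * n + b)
  refine ⟨C * (2 * Real.pi) ^ n, by positivity, fun N K κ hN hK hκ => ?_⟩
  have hN0 : 0 < N := by linarith
  set s : Fin n → ℝ := fun j => N * (1 / 2 : ℝ) ^ κ j with hs
  have hs0 : ∀ j, 0 < s j := fun j => by positivity
  have hsN : ∀ j, s j ≤ N := fun j => by
    have : (1 / 2 : ℝ) ^ κ j ≤ 1 := pow_le_one₀ (by norm_num) (by norm_num)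
    simp only [hs]
    nlinarith
  have hbn : (n : ℝ) ≤ b * ε := by rwa [div_le_iff₀ hε] at hb
  have hNe : 1 ≤ N ^ ε := Real.one_le_rpow hN hε.le
  have hNb : (N ^ ε) ^ b ≥ N ^ n := by
    rw [← Real.rpow_natCast (N ^ ε), ← Real.rpow_mul hN0.le, ← Real.rpow_natCast N]
    apply Real.rpow_le_rpow_of_exponent_le hN
    rw [mul_comm]; exact hbn
  have key : ∀ x : E n, x ∈ {x : E n | ∃ j, Len N (N ^ ε) (κ j) ≤ |x j|} →
      ‖𝓕⁻ (mk (n := n) h N K κ) x‖ ≤ C * 2 ^ n / N ^ n * ∏ j, (1 + (x j / s j) ^ 2)⁻¹ := by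
    rintro x ⟨j, hj⟩
    obtain ⟨j0, -, hj0⟩ := Finset.exists_max_image Finset.univ (fun l => |x l| / s l) ⟨j, Finset.mem_univ j⟩
    set y : ℝ := |x j0| / s j0 with hy
    have hyj : N ^ ε ≤ y := by
      refine le_trans ?_ (hj0 j (Finset.mem_univ j))
      rw [le_div_iff₀ (hs0 j)]
      exact hj
    have hy1 : 1 ≤ y := hNe.trans hyj
    have hy0 : 0 < y := by linarith
    have hx0 : |x j0| = y * s j0 := by rw [hy, div_mul_cancel₀ _ (hs0 j0).ne']
    have hK1 := hCb N K κ hN hK hκ j0 x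
    change |x j0| ^ (2 * n + b) * _ ≤ C * (s j0) ^ (2 * n + b) at hK1
    rw [hx0, mul_pow] at hK1
    have hsp : 0 < s j0 ^ (2 * n + b) := pow_pos (hs0 j0) _
    have hK2 : y ^ (2 * n + b) * ‖𝓕⁻ (mk (n := n) h N K κ) x‖ ≤ C := by
      by_contra hcon
      rw [not_le] at hcon
      nlinarith
    have hprod : ∏ j, (1 + (x j / s j) ^ 2) ≤ (2 * y ^ 2) ^ n := by
      calc ∏ j, (1 + (x j / s j) ^ 2) ≤ ∏ _j : Fin n, (2 * y ^ 2) := by
            apply Finset.prod_le_prod (fun l _ => by positivity)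
            intro l _
            have h1 : |x l| / s l ≤ y := hj0 l (Finset.mem_univ l)
            have h2 : (x l / s l) ^ 2 ≤ y ^ 2 := by
              rw [← sq_abs, abs_div, abs_of_pos (hs0 l)]
              exact pow_le_pow_left₀ (by have := hs0 l; positivity) h1 2
            nlinarith
        _ = _ := by simp
    have hP0 : 0 < ∏ j, (1 + (x j / s j) ^ 2) := Finset.prod_pos fun l _ => by positivity
    rw [Finset.prod_inv_distrib, ← div_eq_mul_inv, le_div_iff₀ hP0, div_eq_mul_inv, mul_assoc,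
      ← div_eq_mul_inv (2 ^ n : ℝ)]
    have hKn := norm_nonneg (𝓕⁻ (mk (n := n) h N K κ) x)
    have hyb : N ^ n ≤ y ^ b := hNb.le.trans (pow_le_pow_left₀ (by linarith) hyj b)
    have hNn : 0 < N ^ n := by positivity
    have h5 : ‖𝓕⁻ (mk (n := n) h N K κ) x‖ * (2 * y ^ 2) ^ n * N ^ n ≤ C * 2 ^ n := by
      calc ‖𝓕⁻ (mk (n := n) h N K κ) x‖ * (2 * y ^ 2) ^ n * N ^ n
          ≤ ‖𝓕⁻ (mk (n := n) h N K κ) x‖ * (2 * y ^ 2) ^ n * y ^ b :=
            mul_le_mul_of_nonneg_left hyb (by positivity)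
        _ = (y ^ (2 * n + b) * ‖𝓕⁻ (mk (n := n) h N K κ) x‖) * 2 ^ n := by
            rw [mul_pow, pow_add, pow_mul]; ring
        _ ≤ C * 2 ^ n := mul_le_mul_of_nonneg_right hK2 (by positivity)
    calc ‖𝓕⁻ (mk (n := n) h N K κ) x‖ * ∏ j, (1 + (x j / s j) ^ 2)
        ≤ ‖𝓕⁻ (mk (n := n) h N K κ) x‖ * (2 * y ^ 2) ^ n :=
          mul_le_mul_of_nonneg_left hprod hKn
      _ ≤ C * (2 ^ n / N ^ n) := by
          rw [← mul_div_assoc, le_div_iff₀ hNn]
          exact h5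
  have hmeas : MeasurableSet {x : E n | ∃ j, Len N (N ^ ε) (κ j) ≤ |x j|} := by
    have : {x : E n | ∃ j, Len N (N ^ ε) (κ j) ≤ |x j|} = ⋃ j, {x : E n | Len N (N ^ ε) (κ j) ≤ |x j|} := by
      ext x; simp
    rw [this]
    apply MeasurableSet.iUnion
    intro j
    apply measurableSet_le measurable_const
    have : Measurable fun x : E n => x j := by fun_prop
    exact this.abs
  have hB0 : 0 ≤ C * 2 ^ n / N ^ n := by positivity
  calc ∫⁻ x in {x : E n | ∃ j, Len N (N ^ ε) (κ j) ≤ |x j|}, ‖𝓕⁻ (mk (n := n) h N K κ) x‖ₑ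
      ≤ ∫⁻ x in {x : E n | ∃ j, Len N (N ^ ε) (κ j) ≤ |x j|},
        ENNReal.ofReal (C * 2 ^ n / N ^ n) * ∏ j, ENNReal.ofReal ((1 + (x j / s j) ^ 2)⁻¹) := by
        apply setLIntegral_mono' hmeas
        intro x hx
        rw [← ofReal_norm, ← ENNReal.ofReal_prod_of_nonneg (fun l _ => by positivity),
          ← ENNReal.ofReal_mul hB0]
        exact ENNReal.ofReal_le_ofReal (key x hx)
    _ ≤ ∫⁻ x : E n,
        ENNReal.ofReal (C * 2 ^ n / N ^ n) * ∏ j, ENNReal.ofReal ((1 + (x j / s j) ^ 2)⁻¹) :=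
        setLIntegral_le_lintegral _ _
    _ = ENNReal.ofReal (C * 2 ^ n / N ^ n) *
        ∏ j, ∫⁻ t : ℝ, ENNReal.ofReal ((1 + (t / s j) ^ 2)⁻¹) := by
        rw [lintegral_const_mul' _ _ ENNReal.ofReal_ne_top]
        rw [lint_E_prod (fun j t => ENNReal.ofReal ((1 + (t / s j) ^ 2)⁻¹)) (fun j => by fun_prop)]
    _ = ENNReal.ofReal (C * 2 ^ n / N ^ n) * ∏ j, ENNReal.ofReal (Real.pi * s j) := by
        congr 1
        exact Finset.prod_congr rfl fun j _ => lint_cauchy (hs0 j)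
    _ ≤ ENNReal.ofReal (C * 2 ^ n / N ^ n) * ∏ _j : Fin n, ENNReal.ofReal (Real.pi * N) := by
        gcongr with j
        exact hsN j
    _ = ENNReal.ofReal (C * (2 * Real.pi) ^ n) := by
        rw [Finset.prod_const, Finset.card_univ, Fintype.card_fin, ← ENNReal.ofReal_pow (by positivity),
          ← ENNReal.ofReal_mul hB0]
        congr 1
        rw [mul_pow, mul_pow]
        field_simp

end Pool.Agent.W924.BTK
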