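import Pool.Agent.W924.PolS

/-!
# Complete separable metric spaces
-/

set_option maxHeartbeats 1000000
set_option linter.all false

namespace Pool.Agent.W924

open FirstOrder FirstOrder.Language
open Pool.Agent.Helper672.ZFA
open Pool.Agent.H310

universe u u₁ u₂

variable {M : Type u} [L.Structure M] [hM : IsModel M]

theorem exists_polS {α : Type u₁} {β : Type u₂} [ITy M α] [ITy M β] [Field β] [LinearOrder β]
    [IsStrictOrderedRing β] (hle : Int M (fun q : β × β => q.1 ≤ q.2)) {d : α → α → β}
    (hd : IntF M (fun q : α × α => d q.1 q.2)) (d0 : ∀ a b, d a b = 0 ↔ a = b)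
    (ds : ∀ a b, d a b = d b a) (dt : ∀ a b c, d a c ≤ d a b + d b c) {q : INat M → β}
    (hq : IntF M q) (qpos : ∀ n, 0 < q n) (qanti : ∀ m n, m ≤ n → q n ≤ q m)
    (qlim : ∀ ε, 0 < ε → ∃ n, q n < ε) {Op : IPow M (IPow M α)}
    (hOp : ∀ U, U ∈ Op ↔ ∀ a, a ∈ U → ∃ ε, 0 < ε ∧ ∀ b, d a b < ε → b ∈ U) {D : IPow M α}
    {ι : α → INat M → Prop} (hι : Int M (fun q : α × INat M => ι q.1 q.2))
    (hex : ∀ a, a ∈ D → ∃ m, ι a m)
    (hinj : ∀ a b m, a ∈ D → b ∈ D → ι a m → ι b m → a = b)
    (hdense : ∀ U, U ∈ Op → (∃ z, z ∈ U) → ∃ z, z ∈ U ∧ z ∈ D)
    (hcomp : ∀ p : INat M → α, IntF M p → (∀ ε, 0 < ε → ∃ n, ∀ k l, n ≤ k → n ≤ l →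
      d (p k) (p l) < ε) → ∃ c, ∀ ε, 0 < ε → ∃ n, ∀ k, n ≤ k → d (p k) c < ε) :
    ∃ S : PolS M α, S.Op = Op := by
  have hlt : Int M (fun q : β × β => q.1 < q.2) := by
    refine Int.congr (p := fun q : β × β => ¬ q.2 ≤ q.1) ?_ fun q => not_le
    have h1 : Helper672.ZFA.Int M (fun q : β × β => q.2 ≤ q.1) :=
      Int.comp₂ (p := fun a b : β => a ≤ b) hle IntF.snd' IntF.fst'
    exact h1.not
  have hpr := int_pr (M := M)
  have dself : ∀ a, d a a = 0 := fun a => (d0 a a).2 rfl
  have dnn : ∀ a b, 0 ≤ d a b := fun a b => by
    have h1 := dt a b a
    rw [dself, ds b a] at h1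
    linarith
  -- balls
  have ib : ∀ a ε, Int M (fun b => d a b < ε) := fun a ε => by (repeat' (first | with_reducible exact IntF.id | with_reducible exact IntF.fst' | with_reducible exact IntF.snd' | with_reducible exact IntF.const _ | with_reducible exact Int.const _ | assumption | with_reducible apply Int.and | with_reducible apply Int.or | with_reducible apply Int.not | with_reducible apply Int.imp | with_reducible apply Int.iff | with_reducible apply Int.ne | with_reducible apply Int.eq | with_reducible apply Int.mem | with_reducible apply Int.subset | with_reducible apply Int.ltN | with_reducible apply Int.leN | with_reducible apply Int.fin | with_reducible apply Int.unique | with_reducible apply Int.all | with_reducible apply Int.ex | with_reducible apply IntF.fst | with_reducible apply IntF.snd | with_reducible apply IntF.app | with_reducible apply IntF.ite | with_reducible apply IntF.sep | with_reducible apply IntF.lam | with_reducible apply IntF.insert | with_reducible apply IntF.singleton | with_reducible apply IntF.union | with_reducible apply IntF.inter | with_reducible apply IntF.sdiff | with_reducible apply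 IntF.isUnion | with_reducible apply IntF.iimage | with_reducible apply IntF.the | with_reducible apply IntF.irec | with_reducible_and_instances apply IntF.mul | with_reducible_and_instances apply IntF.inv | with_reducible_and_instances apply IntF.smul | with_reducible apply IntF.succ | with_reducible apply IntF.val | with_reducible apply IntF.mk | (with_reducible refine Int.comp ?_ ?_; assumption) | (with_reducible refine Int.comp₂ ?_ ?_ ?_; assumption) | (with_reducible refine Int.comp₃ ?_ ?_ ?_ ?_; assumption) | (with_reducible refine Int.comp₄ ?_ ?_ ?_ ?_ ?_; assumption) | (with_reducible refine IntF.comp ?_ ?_; assumption) | (with_reducible refine IntF.comp₂ ?_ ?_ ?_; assumption) | (with_reducible refine Helper672.ZFA.IntF.comp₃ ?_ ?_ ?_ ?_; assumption) | with_reducible apply IntF.pair))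
  have hball : ∀ a ε, sep M (fun b => d a b < ε) ∈ Op := by
    intro a ε
    rw [hOp]
    intro b hb
    rw [mem_sep (ib a ε)] at hb
    refine ⟨ε - d a b, by linarith, fun c hc => ?_⟩
    rw [mem_sep (ib a ε)]
    have := dt a b c
    linarith
  have hinter : ∀ U V, U ∈ Op → V ∈ Op → U ∩ V ∈ Op := by
    intro U V hU hV
    rw [hOp] at hU hV ⊢
    intro a ha
    obtain ⟨h1, h2⟩ := mem_inter.1 ha
    obtain ⟨ε, h3, h4⟩ := hU a h1
    obtain ⟨δ, h5, h6⟩ := hV a h2
    exact ⟨min ε δ, lt_min h3 h5, fun b hb => mem_inter.2 ⟨h4 b (hb.trans_le (min_le_left _ _)),
      h6 b (hb.trans_le (min_le_right _ _))⟩⟩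
  have hloc : ∀ U : IPow M α, (∀ x, x ∈ U → ∃ V, V ∈ Op ∧ x ∈ V ∧ V ⊆ U) → U ∈ Op := by
    intro U h
    rw [hOp]
    intro a ha
    obtain ⟨V, hV, h1, h2⟩ := h a ha
    obtain ⟨ε, h3, h4⟩ := (hOp V).1 hV a h1
    exact ⟨ε, h3, fun b hb => h2 b (h4 b hb)⟩
  -- the base
  have iB : IntF M (fun n : INat M => sep M fun b => n = 0 ∨ ∃ a k m, a ∈ D ∧
      n = INat.succ (pr k m) ∧ ι a m ∧ d a b < q k) := by (repeat' (first | with_reducible exact IntF.id | with_reducible exact IntF.fst' | with_reducible exact IntF.snd' | with_reducible exact IntF.const _ | with_reducible exact Int.const _ | assumption | with_reducible apply Int.and | with_reducible apply Int.or | with_reducible apply Int.not | with_reducible apply Int.imp | with_reducible apply Int.iff | with_reducible apply Int.ne | with_reducible apply Int.eq | with_reducible apply Int.mem | with_reducible apply Int.subset | with_reducible apply Int.ltN | with_reducible apply Int.leN | with_reducible apply Int.fin | with_reducible apply Int.unique | with_reducible apply Int.all | with_reducible apply Int.ex | with_reducible apply IntF.fst | with_reducible apply IntF.snd | with_reducible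 apply IntF.app | with_reducible apply IntF.ite | with_reducible apply IntF.sep | with_reducible apply IntF.lam | with_reducible apply IntF.insert | with_reducible apply IntF.singleton | with_reducible apply IntF.union | with_reducible apply IntF.inter | with_reducible apply IntF.sdiff | with_reducible apply IntF.isUnion | with_reducible apply IntF.iimage | with_reducible apply IntF.the | with_reducible apply IntF.irec | with_reducible_and_instances apply IntF.mul | with_reducible_and_instances apply IntF.inv | with_reducible_and_instances apply IntF.smul | with_reducible apply IntF.succ | with_reducible apply IntF.val | with_reducible apply IntF.mk | (with_reducible refine Int.comp ?_ ?_; assumption) | (with_reducible refine Int.comp₂ ?_ ?_ ?_; assumption) | (with_reducible refine Int.comp₃ ?_ ?_ ?_ ?_; assumption) | (with_reducible refine Int.comp₄ ?_ ?_ ?_ ?_ ?_; assumption) | (with_reducible refine IntF.comp ?_ ?_; assumption) | (with_reducible refine IntF.comp₂ ?_ ?_ ?_; assumption) | (with_reducible refine Helper672.ZFA.IntF.comp₃ ?_ ?_ ?_ ?_; assumption) | with_reducible apply IntF.pair))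
  have mB : ∀ (n : INat M) b, b ∈ sep M (fun b => n = 0 ∨ ∃ a k m, a ∈ D ∧
      n = INat.succ (pr k m) ∧ ι a m ∧ d a b < q k) ↔ (n = 0 ∨ ∃ a k m, a ∈ D ∧
      n = INat.succ (pr k m) ∧ ι a m ∧ d a b < q k) := fun n b => mem_sep (by (repeat' (first | with_reducible exact IntF.id | with_reducible exact IntF.fst' | with_reducible exact IntF.snd' | with_reducible exact IntF.const _ | with_reducible exact Int.const _ | assumption | with_reducible apply Int.and | with_reducible apply Int.or | with_reducible apply Int.not | with_reducible apply Int.imp | with_reducible apply Int.iff | with_reducible apply Int.ne | with_reducible apply Int.eq | with_reducible apply Int.mem | with_reducible apply Int.subset | with_reducible apply Int.ltN | with_reducible apply Int.leN | with_reducible apply Int.fin | with_reducible apply Int.unique | with_reducible apply Int.all | with_reducible apply Int.ex | with_reducible apply IntF.fst | with_reducible apply IntF.snd | with_reducible apply IntF.app | with_reducible apply IntF.ite | with_reducible apply IntF.sep | with_reducible apply IntF.lam | with_reducible apply IntF.insert | with_reducible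 apply IntF.singleton | with_reducible apply IntF.union | with_reducible apply IntF.inter | with_reducible apply IntF.sdiff | with_reducible apply IntF.isUnion | with_reducible apply IntF.iimage | with_reducible apply IntF.the | with_reducible apply IntF.irec | with_reducible_and_instances apply IntF.mul | with_reducible_and_instances apply IntF.inv | with_reducible_and_instances apply IntF.smul | with_reducible apply IntF.succ | with_reducible apply IntF.val | with_reducible apply IntF.mk | (with_reducible refine Int.comp ?_ ?_; assumption) | (with_reducible refine Int.comp₂ ?_ ?_ ?_; assumption) | (with_reducible refine Int.comp₃ ?_ ?_ ?_ ?_; assumption) | (with_reducible refine Int.comp₄ ?_ ?_ ?_ ?_ ?_; assumption) | (with_reducible refine IntF.comp ?_ ?_; assumption) | (with_reducible refine IntF.comp₂ ?_ ?_ ?_; assumption) | (with_reducible refine Helper672.ZFA.IntF.comp₃ ?_ ?_ ?_ ?_; assumption) | with_reducible apply IntF.pair)))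
  -- small sets
  have iS : Int M (fun c : INat M × IPow M α => ∀ a b, a ∈ c.2 → b ∈ c.2 → d a b ≤ q c.1) := by
    (repeat' (first | with_reducible exact IntF.id | with_reducible exact IntF.fst' | with_reducible exact IntF.snd' | with_reducible exact IntF.const _ | with_reducible exact Int.const _ | assumption | with_reducible apply Int.and | with_reducible apply Int.or | with_reducible apply Int.not | with_reducible apply Int.imp | with_reducible apply Int.iff | with_reducible apply Int.ne | with_reducible apply Int.eq | with_reducible apply Int.mem | with_reducible apply Int.subset | with_reducible apply Int.ltN | with_reducible apply Int.leN | with_reducible apply Int.fin | with_reducible apply Int.unique | with_reducible apply Int.all | with_reducible apply Int.ex | with_reducible apply IntF.fst | with_reducible apply IntF.snd | with_reducible apply IntF.app | with_reducible apply IntF.ite | with_reducible apply IntF.sep | with_reducible apply IntF.lam | with_reducible apply IntF.insert | with_reducible apply IntF.singleton | with_reducible apply IntF.union | with_reducible apply IntF.inter | with_reducible apply IntF.sdiff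 | with_reducible apply IntF.isUnion | with_reducible apply IntF.iimage | with_reducible apply IntF.the | with_reducible apply IntF.irec | with_reducible_and_instances apply IntF.mul | with_reducible_and_instances apply IntF.inv | with_reducible_and_instances apply IntF.smul | with_reducible apply IntF.succ | with_reducible apply IntF.val | with_reducible apply IntF.mk | (with_reducible refine Int.comp ?_ ?_; assumption) | (with_reducible refine Int.comp₂ ?_ ?_ ?_; assumption) | (with_reducible refine Int.comp₃ ?_ ?_ ?_ ?_; assumption) | (with_reducible refine Int.comp₄ ?_ ?_ ?_ ?_ ?_; assumption) | (with_reducible refine IntF.comp ?_ ?_; assumption) | (with_reducible refine IntF.comp₂ ?_ ?_ ?_; assumption) | (with_reducible refine Helper672.ZFA.IntF.comp₃ ?_ ?_ ?_ ?_; assumption) | with_reducible apply IntF.pair))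
  refine ⟨{
    Op := Op
    B := ⟨_, iB⟩
    sm := ⟨_, iS⟩
    B_op := ?_
    B_zero := ?_
    inter := hinter
    loc := hloc
    base := ?_
    sm_le := ?_
    sep := ?_
    haus := ?_
    complete := ?_ }, rfl⟩
  · intro n
    refine hloc _ fun b hb => ?_
    change b ∈ sep M _ at hb
    rw [mB] at hb
    rcases hb with rfl | ⟨a, k, m, h1, rfl, h2, h3⟩
    · refine ⟨sep M (fun c => d b c < 1), hball _ _, ?_, fun c _ => ?_⟩
      · rw [mem_sep (ib _ _), dself]
        exact one_pos
      · change c ∈ sep M _
        rw [mB]
        exact Or.inl rfl
    · refine ⟨sep M (fun c => d a c < q k), hball _ _, (mem_sep (ib _ _)).2 h3, fun c hc => ?_⟩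
      change c ∈ sep M _
      rw [mB]
      exact Or.inr ⟨a, k, m, h1, rfl, h2, (mem_sep (ib _ _)).1 hc⟩
  · intro x
    change x ∈ sep M _
    rw [mB]
    exact Or.inl rfl
  · intro U x n hU hx
    obtain ⟨ε, h1, h2⟩ := (hOp U).1 hU x hx
    obtain ⟨k, hk⟩ := qlim (min (ε / 2) (q n / 2)) (lt_min (half_pos h1) (half_pos (qpos n)))
    have hk1 : 2 * q k < ε := by
      have := hk.trans_le (min_le_left _ _)
      linarith
    have hk2 : 2 * q k < q n := by
      have := hk.trans_le (min_le_right _ _)
      linarith
    obtain ⟨a, ha, haD⟩ := hdense _ (hball x (q k)) ⟨x, by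
      rw [mem_sep (ib _ _), dself]
      exact qpos k⟩
    rw [mem_sep (ib _ _)] at ha
    obtain ⟨m, hm⟩ := hex a haD
    have mB' : ∀ b, b ∈ (⟨_, iB⟩ : IFun M (INat M) (IPow M α)) (INat.succ (pr k m)) ↔
        d a b < q k := by
      intro b
      change b ∈ sep M _ ↔ _
      rw [mB]
      constructor
      · rintro (h | ⟨a', k', m', h3, h4, h5, h6⟩)
        · exact absurd h (INat.succ_ne_zero _)
        · obtain ⟨rfl, rfl⟩ := pr_inj (INat.succ_inj h4)
          rw [hinj a a' m haD h3 hm h5]
          exact h6
      · exact fun h => Or.inr ⟨a, k, m, haD, rfl, hm, h⟩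
    refine ⟨INat.succ (pr k m), ?_, ?_, ?_⟩
    · rw [mB', ds]
      exact ha
    · intro z hz
      refine h2 z ?_
      obtain ⟨y, h3, h4⟩ := hz _ (hball z (ε - 2 * q k)) (by
        rw [mem_sep (ib _ _), dself]
        linarith)
      rw [mB'] at h4
      rw [mem_sep (ib _ _)] at h3
      have h5 := dt x a z
      have h6 := dt a y z
      rw [ds y z] at h6
      linarith
    · change ∀ a b, _ → _ → _
      intro b c hb hc
      rw [mB'] at hb hc
      have h5 := dt b a c
      rw [ds b a] at h5
      change d b c ≤ q n
      linarith
  · intro m n U V hmn hVU h a b ha hb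
    exact (h a b (hVU a ha) (hVU b hb)).trans (qanti m n hmn)
  · intro U x hU hx
    obtain ⟨ε, h1, h2⟩ := (hOp U).1 hU x hx
    obtain ⟨n, hn⟩ := qlim (ε / 2) (half_pos h1)
    refine ⟨n, sep M (fun b => d x b < ε / 2), hball _ _, ?_, ?_⟩
    · rw [mem_sep (ib _ _), dself]
      exact half_pos h1
    · rintro W hW ⟨z, hz, hz'⟩ w hw
      rw [mem_sep (ib _ _)] at hz'
      refine h2 w ?_
      have h3 : d z w ≤ q n := hW z w hz hw
      have h4 := dt x z w
      linarith
  · intro x y hxy
    have h1 : 0 < d x y := lt_of_le_of_ne (dnn x y) fun h => hxy ((d0 x y).1 h.symm)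
    refine ⟨_, _, hball x (d x y / 2), hball y (d x y / 2), ?_, ?_, fun z hz hz' => ?_⟩
    · rw [mem_sep (ib _ _), dself]
      exact half_pos h1
    · rw [mem_sep (ib _ _), dself]
      exact half_pos h1
    · rw [mem_sep (ib _ _)] at hz hz'
      have h2 := dt x z y
      rw [ds z y] at h2
      linarith
  · intro s hs hsop hsne hsLL hssm
    have hssm' : ∀ n : INat M, ∀ a b, a ∈ s n.succ → b ∈ s n.succ → d a b ≤ q n := hssm
    obtain ⟨a0, -⟩ := hsne 0
    have hp1 : ∀ n : INat M, ∃ m, ∃ a, (a ∈ D ∧ a ∈ s n.succ) ∧ ι a m := fun n => by
      obtain ⟨a, h1, h2⟩ := hdense _ (hsop n.succ) (hsne n.succ)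
      obtain ⟨m, hm⟩ := hex a h2
      exact ⟨m, a, ⟨h2, h1⟩, hm⟩
    have im : IntF M (fun n : INat M => lst (fun a b : INat M => a < b)
        (fun m => ∃ a, (a ∈ D ∧ a ∈ s n.succ) ∧ ι a m) 0) :=
      IWo.nat.intF_lst (p := fun (n : INat M) m => ∃ a, (a ∈ D ∧ a ∈ s n.succ) ∧ ι a m)
        (by (repeat' (first | with_reducible exact IntF.id | with_reducible exact IntF.fst' | with_reducible exact IntF.snd' | with_reducible exact IntF.const _ | with_reducible exact Int.const _ | assumption | with_reducible apply Int.and | with_reducible apply Int.or | with_reducible apply Int.not | with_reducible apply Int.imp | with_reducible apply Int.iff | with_reducible apply Int.ne | with_reducible apply Int.eq | with_reducible apply Int.mem | with_reducible apply Int.subset | with_reducible apply Int.ltN | with_reducible apply Int.leN | with_reducible apply Int.fin | with_reducible apply Int.unique | with_reducible apply Int.all | with_reducible apply Int.ex | with_reducible apply IntF.fst | with_reducible apply IntF.snd | with_reducible apply IntF.app | with_reducible apply IntF.ite | with_reducible apply IntF.sep | with_reducible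 apply IntF.lam | with_reducible apply IntF.insert | with_reducible apply IntF.singleton | with_reducible apply IntF.union | with_reducible apply IntF.inter | with_reducible apply IntF.sdiff | with_reducible apply IntF.isUnion | with_reducible apply IntF.iimage | with_reducible apply IntF.the | with_reducible apply IntF.irec | with_reducible_and_instances apply IntF.mul | with_reducible_and_instances apply IntF.inv | with_reducible_and_instances apply IntF.smul | with_reducible apply IntF.succ | with_reducible apply IntF.val | with_reducible apply IntF.mk | (with_reducible refine Int.comp ?_ ?_; assumption) | (with_reducible refine Int.comp₂ ?_ ?_ ?_; assumption) | (with_reducible refine Int.comp₃ ?_ ?_ ?_ ?_; assumption) | (with_reducible refine Int.comp₄ ?_ ?_ ?_ ?_ ?_; assumption) | (with_reducible refine IntF.comp ?_ ?_; assumption) | (with_reducible refine IntF.comp₂ ?_ ?_ ?_; assumption) | (with_reducible refine Helper672.ZFA.IntF.comp₃ ?_ ?_ ?_ ?_; assumption) | with_reducible apply IntF.pair))) (IntF.const _)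
    have hm : ∀ n : INat M, ∃ a, (a ∈ D ∧ a ∈ s n.succ) ∧ ι a (lst (fun a b : INat M => a < b)
        (fun m => ∃ a, (a ∈ D ∧ a ∈ s n.succ) ∧ ι a m) 0) := fun n =>
      IWo.nat.lst_spec (p := fun m => ∃ a, (a ∈ D ∧ a ∈ s n.succ) ∧ ι a m) (by (repeat' (first | with_reducible exact IntF.id | with_reducible exact IntF.fst' | with_reducible exact IntF.snd' | with_reducible exact IntF.const _ | with_reducible exact Int.const _ | assumption | with_reducible apply Int.and | with_reducible apply Int.or | with_reducible apply Int.not | with_reducible apply Int.imp | with_reducible apply Int.iff | with_reducible apply Int.ne | with_reducible apply Int.eq | with_reducible apply Int.mem | with_reducible apply Int.subset | with_reducible apply Int.ltN | with_reducible apply Int.leN | with_reducible apply Int.fin | with_reducible apply Int.unique | with_reducible apply Int.all | with_reducible apply Int.ex | with_reducible apply IntF.fst | with_reducible apply IntF.snd | with_reducible apply IntF.app | with_reducible apply IntF.ite | with_reducible apply IntF.sep | with_reducible apply IntF.lam | with_reducible apply IntF.insert | with_reducible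 apply IntF.singleton | with_reducible apply IntF.union | with_reducible apply IntF.inter | with_reducible apply IntF.sdiff | with_reducible apply IntF.isUnion | with_reducible apply IntF.iimage | with_reducible apply IntF.the | with_reducible apply IntF.irec | with_reducible_and_instances apply IntF.mul | with_reducible_and_instances apply IntF.inv | with_reducible_and_instances apply IntF.smul | with_reducible apply IntF.succ | with_reducible apply IntF.val | with_reducible apply IntF.mk | (with_reducible refine Int.comp ?_ ?_; assumption) | (with_reducible refine Int.comp₂ ?_ ?_ ?_; assumption) | (with_reducible refine Int.comp₃ ?_ ?_ ?_ ?_; assumption) | (with_reducible refine Int.comp₄ ?_ ?_ ?_ ?_ ?_; assumption) | (with_reducible refine IntF.comp ?_ ?_; assumption) | (with_reducible refine IntF.comp₂ ?_ ?_ ?_; assumption) | (with_reducible refine Helper672.ZFA.IntF.comp₃ ?_ ?_ ?_ ?_; assumption) | with_reducible apply IntF.pair))) (hp1 n) 0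
    obtain ⟨m, im, hm⟩ : ∃ m : INat M → INat M, IntF M m ∧
        ∀ n : INat M, ∃ a, (a ∈ D ∧ a ∈ s n.succ) ∧ ι a (m n) := ⟨_, im, hm⟩
    have hp2 : ∀ n, ∃! a, (a ∈ D ∧ a ∈ s (INat.succ n)) ∧ ι a (m n) := fun n => by
      obtain ⟨a, h1, h2⟩ := hm n
      exact ⟨a, ⟨h1, h2⟩, fun b hb => hinj _ _ _ hb.1.1 h1.1 hb.2 h2⟩
    have ip : IntF M (fun n : INat M => the (fun a => (a ∈ D ∧ a ∈ s n.succ) ∧ ι a (m n)) a0) := by
      (repeat' (first | with_reducible exact IntF.id | with_reducible exact IntF.fst' | with_reducible exact IntF.snd' | with_reducible exact IntF.const _ | with_reducible exact Int.const _ | assumption | with_reducible apply Int.and | with_reducible apply Int.or | with_reducible apply Int.not | with_reducible apply Int.imp | with_reducible apply Int.iff | with_reducible apply Int.ne | with_reducible apply Int.eq | with_reducible apply Int.mem | with_reducible apply Int.subset | with_reducible apply Int.ltN | with_reducible apply Int.leN | with_reducible apply Int.fin | with_reducible apply Int.unique | with_reducible apply Int.all | with_reducible apply Int.ex | with_reducible apply IntF.fst | with_reducible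 apply IntF.snd | with_reducible apply IntF.app | with_reducible apply IntF.ite | with_reducible apply IntF.sep | with_reducible apply IntF.lam | with_reducible apply IntF.insert | with_reducible apply IntF.singleton | with_reducible apply IntF.union | with_reducible apply IntF.inter | with_reducible apply IntF.sdiff | with_reducible apply IntF.isUnion | with_reducible apply IntF.iimage | with_reducible apply IntF.the | with_reducible apply IntF.irec | with_reducible_and_instances apply IntF.mul | with_reducible_and_instances apply IntF.inv | with_reducible_and_instances apply IntF.smul | with_reducible apply IntF.succ | with_reducible apply IntF.val | with_reducible apply IntF.mk | (with_reducible refine Int.comp ?_ ?_; assumption) | (with_reducible refine Int.comp₂ ?_ ?_ ?_; assumption) | (with_reducible refine Int.comp₃ ?_ ?_ ?_ ?_; assumption) | (with_reducible refine Int.comp₄ ?_ ?_ ?_ ?_ ?_; assumption) | (with_reducible refine IntF.comp ?_ ?_; assumption) | (with_reducible refine IntF.comp₂ ?_ ?_ ?_; assumption) | (with_reducible refine Helper672.ZFA.IntF.comp₃ ?_ ?_ ?_ ?_; assumption) | with_reducible apply IntF.pair))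
    obtain ⟨p, ip, hp⟩ : ∃ p : INat M → α, IntF M p ∧ ∀ n : INat M, p n ∈ s n.succ :=
      ⟨_, ip, fun n => (the_spec (hp2 n)).1.2⟩
    have hanti : ∀ m n, m ≤ n → s n ⊆ s m := by
      intro m
      refine INat.ind (p := fun n => m ≤ n → s n ⊆ s m) (by (repeat' (first | with_reducible exact IntF.id | with_reducible exact IntF.fst' | with_reducible exact IntF.snd' | with_reducible exact IntF.const _ | with_reducible exact Int.const _ | assumption | with_reducible apply Int.and | with_reducible apply Int.or | with_reducible apply Int.not | with_reducible apply Int.imp | with_reducible apply Int.iff | with_reducible apply Int.ne | with_reducible apply Int.eq | with_reducible apply Int.mem | with_reducible apply Int.subset | with_reducible apply Int.ltN | with_reducible apply Int.leN | with_reducible apply Int.fin | with_reducible apply Int.unique | with_reducible apply Int.all | with_reducible apply Int.ex | with_reducible apply IntF.fst | with_reducible apply IntF.snd | with_reducible apply IntF.app | with_reducible apply IntF.ite | with_reducible apply IntF.sep | with_reducible apply IntF.lam | with_reducible apply IntF.insert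 | with_reducible apply IntF.singleton | with_reducible apply IntF.union | with_reducible apply IntF.inter | with_reducible apply IntF.sdiff | with_reducible apply IntF.isUnion | with_reducible apply IntF.iimage | with_reducible apply IntF.the | with_reducible apply IntF.irec | with_reducible_and_instances apply IntF.mul | with_reducible_and_instances apply IntF.inv | with_reducible_and_instances apply IntF.smul | with_reducible apply IntF.succ | with_reducible apply IntF.val | with_reducible apply IntF.mk | (with_reducible refine Int.comp ?_ ?_; assumption) | (with_reducible refine Int.comp₂ ?_ ?_ ?_; assumption) | (with_reducible refine Int.comp₃ ?_ ?_ ?_ ?_; assumption) | (with_reducible refine Int.comp₄ ?_ ?_ ?_ ?_ ?_; assumption) | (with_reducible refine IntF.comp ?_ ?_; assumption) | (with_reducible refine IntF.comp₂ ?_ ?_ ?_; assumption) | (with_reducible refine Helper672.ZFA.IntF.comp₃ ?_ ?_ ?_ ?_; assumption) | with_reducible apply IntF.pair))) ?_ ?_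
      · intro h1
        obtain rfl : m = 0 := le_antisymm h1 (INat.zero_le m)
        exact fun _ => id
      · intro n ih h1
        rcases h1.lt_or_eq with h2 | rfl
        · exact fun x hx => ih (INat.lt_succ_iff.1 h2) x ((hsLL n).sub x hx)
        · exact fun _ => id
    have hp3 : ∀ n k : INat M, n ≤ k → p k ∈ s n.succ := fun n k h =>
      hanti _ _ (by
        rw [INat.succ_le_iff, INat.lt_succ_iff]
        exact h) _ (hp k)
    obtain ⟨c, hc⟩ := hcomp p ip (fun ε hε => by
      obtain ⟨n, hn⟩ := qlim ε hε
      exact ⟨n, fun k l hk hl => (hssm' n _ _ (hp3 n k hk) (hp3 n l hl)).trans_lt hn⟩)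
    refine ⟨c, fun n => hsLL n c fun O hO hcO => ?_⟩
    obtain ⟨ε, h1, h2⟩ := (hOp O).1 hO c hcO
    obtain ⟨m', hm'⟩ := hc ε h1
    refine ⟨p (max n m'), h2 _ ?_, hp3 _ _ (le_max_left _ _)⟩
    rw [ds]
    exact hm' _ (le_max_right _ _)

end Pool.Agent.W924
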