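import Pool.Agent.W924.Stmt
import Pool.Agent.W924.Met
import Pool.Agent.H310R3.Bridge

/-!
# From Polish spaces in a model to the internal structure
-/

set_option maxHeartbeats 1000000
set_option linter.all false
set_option synthInstance.maxSize 2000

namespace Pool.Agent.W924

open FirstOrder FirstOrder.Language
open Pool.Agent.Helper672.ZFA
open Pool.Agent.H310
open Pool.Agent.H310Cards
open Pool.Agent.H635Amen (IsReals IsGroupIn)
open Pool.Agent.H310Top (IsTopology IsBase)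
open Pool.Agent.H310Metric (IsMetric)
open Pool.Agent.W924St

universe u u₁ u₂

section

attribute [local instance] Helper672.Plain.toL

variable {M : Type u} [Helper672.Plain.LSet.Structure M] [hZ : Helper672.Plain.Zermelo M]

local instance instModelW : IsModel M := Helper672.Plain.isModel_toL

/-- The elements of a set. -/
abbrev EL (x : M) : Type u := Helper672.Plain.El x

noncomputable instance instEL (x : M) : ITy M (EL x) := (inferInstance : ITy M (El x))

theorem code_EL {x : M} (z : EL x) : code (M := M) z = z.1 := rfl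

theorem opGraph_iff {g x y z : M} : (∃ p q, Helper672.Plain.IsOrdPair p x y ∧
    Helper672.Plain.IsOrdPair q p z ∧ Mem q g) ↔ Mem (op (op x y) z) g := by
  constructor
  · rintro ⟨p, q, h1, h2, h3⟩
    rw [ordPair_iff] at h1 h2
    subst h1 h2
    exact h3
  · intro h
    exact ⟨_, _, ordPair_iff.2 rfl, ordPair_iff.2 rfl, h⟩

theorem graph_iff {g x y : M} : (∃ p, Helper672.Plain.IsOrdPair p x y ∧ Mem p g) ↔
    Mem (op x y) g := by
  constructor
  · rintro ⟨p, h1, h3⟩
    rw [ordPair_iff] at h1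
    subst h1
    exact h3
  · intro h
    exact ⟨_, ordPair_iff.2 rfl, h⟩

theorem int_of_opGraph {a b c : M} {f : EL a → EL b → EL c}
    (h : ∃ g : M, ∀ (x : EL a) (y : EL b) (z : EL c), f x y = z ↔ ∃ p q,
      Helper672.Plain.IsOrdPair p x.1 y.1 ∧ Helper672.Plain.IsOrdPair q p z.1 ∧ Mem q g) :
    IntF M (fun q : EL a × EL b => f q.1 q.2) := by
  obtain ⟨g, hg⟩ := h
  exact ⟨g, fun q => ((hg q.1.1 q.1.2 q.2).trans opGraph_iff).symm⟩

theorem int_of_graph {a b : M} {f : EL a → EL b}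
    (h : ∃ g : M, ∀ (x : EL a) (y : EL b), f x = y ↔ ∃ p,
      Helper672.Plain.IsOrdPair p x.1 y.1 ∧ Mem p g) : IntF M f := by
  obtain ⟨g, hg⟩ := h
  exact ⟨g, fun q => ((hg q.1 q.2).trans graph_iff).symm⟩

theorem exists_q {r : M} [Field (EL r)] [LinearOrder (EL r)] [IsStrictOrderedRing (EL r)]
    (hr : IsReals r) : ∃ q : INat M → EL r, IntF M q ∧ (∀ n, 0 < q n) ∧
      (∀ m n, m ≤ n → q n ≤ q m) ∧ ∀ ε, 0 < ε → ∃ n, q n < ε := by
  have hadd : IntF M (fun q : EL r × EL r => q.1 + q.2) :=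
    int_of_opGraph (f := fun x y : EL r => x + y) hr.add
  obtain ⟨gl, hl⟩ := hr.le
  have hl' : Int M (fun q : EL r × EL r => q.1 ≤ q.2) :=
    ⟨gl, fun q => ((hl q.1 q.2).trans graph_iff).symm⟩
  obtain ⟨F, hF, hFy⟩ : ∃ F : EL r → EL r, IntF M F ∧ ∀ y, F y = y / 2 := by
    refine ⟨fun y => y / 2, ?_, fun y => rfl⟩
    refine IntF.of_rel (r := fun y z => z + z = y) (by
      refine Int.eq ?_ IntF.fst'
      exact IntF.comp₂ (p := fun a b : EL r => a + b) hadd IntF.snd' IntF.snd') fun y z => ?_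
    rw [div_eq_iff two_ne_zero, mul_two]
    exact eq_comm
  obtain ⟨q, hq, h0, hs⟩ := exists_irec (M := M) (st := fun (_ : INat M) y => F y)
    (hF.comp IntF.snd') (1 : EL r)
  have hs' : ∀ n : INat M, q n.succ = q n / 2 := fun n => by rw [hs, hFy]
  have hlt' : Int M (fun q : EL r × EL r => q.1 < q.2) := by
    have h1 : Int M (fun q : EL r × EL r => q.2 ≤ q.1) :=
      Int.comp₂ (p := fun a b : EL r => a ≤ b) hl' IntF.snd' IntF.fst'
    exact h1.not.congr fun q => not_le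
  have hpos : ∀ n : INat M, 0 < q n := by
    refine INat.ind (Int.comp₂ (p := fun a b : EL r => a < b) hlt' (IntF.const _) hq) ?_ ?_
    · rw [h0]
      exact one_pos
    · intro n ih
      rw [hs']
      exact half_pos ih
  refine ⟨q, hq, hpos, ?_, ?_⟩
  · intro m
    refine INat.ind (p := fun n : INat M => m ≤ n → q n ≤ q m) (by
      refine Int.imp (Int.leN (IntF.const _) IntF.id) ?_
      exact Int.comp₂ (p := fun a b : EL r => a ≤ b) hl' hq (IntF.const _)) ?_ ?_
    · intro h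
      rw [le_antisymm h (INat.zero_le m)]
    · intro n ih h
      rcases h.lt_or_eq with h | rfl
      · have h1 := ih (INat.lt_succ_iff.1 h)
        have h2 := hpos n
        rw [hs']
        linarith
      · exact le_rfl
  · intro ε hε
    by_contra hc
    push Not at hc
    have hS : Int M (fun x : EL r => ∀ n : INat M, x ≤ q n) := by
      refine Int.all ?_
      exact Int.comp₂ (p := fun a b : EL r => a ≤ b) hl' IntF.fst' (hq.comp IntF.snd')
    obtain ⟨s, hs1⟩ : ∃ s : M, ∀ z, Helper672.Plain.Mem z s ↔ ∃ x : EL r,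
        (∀ n : INat M, x ≤ q n) ∧ x.1 = z := ⟨hS.small.elt, fun z => hS.small.mem⟩
    have hs2 : ∀ x : EL r, Helper672.Plain.Mem x.1 s ↔ ∀ n : INat M, x ≤ q n := fun x =>
      (hs1 x.1).trans ⟨fun ⟨y, h1, h2⟩ => (Subtype.ext h2 : y = x) ▸ h1, fun h => ⟨x, h, rfl⟩⟩
    obtain ⟨c, h1, h2⟩ := hr.complete ⟨s, fun x hx => by
        obtain ⟨y, -, rfl⟩ := (hs1 x).1 hx
        exact y.2⟩ ⟨ε.1, (hs2 ε).2 hc⟩ ⟨1, fun x hx => by
        have := (hs2 x).1 hx 0
        rwa [h0] at this⟩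
    have h3 : ∀ n : INat M, c ≤ q n := fun n => h2 fun x hx => (hs2 x).1 hx n
    have h4 : c + c ≤ c := h1 ((hs2 (c + c)).2 fun n => by
      have := h3 n.succ
      rw [hs'] at this
      linarith)
    have h5 : ε ≤ c := h1 ((hs2 ε).2 hc)
    linarith

/-- Subsets of `x` are codes. -/
theorem exists_codeE {x u : M} (h : ∀ z, Mem z u → Mem z x) :
    ∃ U : IPow M (EL x), code U = u := by
  have hs : Int M (fun a : EL x => Mem (code a) u) := ⟨u, fun a => Iff.rfl⟩
  refine ⟨⟨_, hs⟩, extM fun t => ?_⟩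
  refine (mem_code_pow (s := (⟨_, hs⟩ : IPow M (EL x)))).trans ⟨?_, fun ht => ?_⟩
  · rintro ⟨a, ha, rfl⟩
    exact ha
  · exact ⟨⟨t, h t ht⟩, ht, rfl⟩

theorem mem_cE {x : M} {U : IPow M (EL x)} {z : M} :
    Mem z (code (M := M) U) ↔ ∃ a, a ∈ U ∧ a.1 = z := mem_code_pow (s := U)

theorem mem_cE' {x : M} {U : IPow M (EL x)} {a : EL x} :
    Mem a.1 (code (M := M) U) ↔ a ∈ U := mem_code_iff (M := M) (α := EL x) (s := U) (a := a)

theorem val_isNat (n : INat M) : IsNat n.val := fun i hi => n.prop i (ind_iff.2 hi)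

theorem exists_val {n : M} (h : IsNat n) : ∃ m : INat M, m.val = n :=
  ⟨⟨n, fun i hi => h i (ind_iff.1 hi)⟩, rfl⟩

theorem not_mem_val {k n : INat M} : ¬ Mem k.val n.val ↔ n ≤ k := by
  rw [← not_lt]
  exact Iff.rfl

/-- The internal structure of a Polish space. -/
theorem exists_PolS {t x : M} (h : IsPolish t x) :
    ∃ S : PolS M (EL x), ∀ U : IPow M (EL x), U ∈ S.Op ↔ Mem (code (M := M) U) t := by
  obtain ⟨-, ⟨r, iF, iL, iO, d, hr, hd, hcomp, htop⟩, s, w, f, hs, hw, hf, hdense⟩ := h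
  obtain ⟨q, hq, qpos, qanti, qlim⟩ := exists_q hr
  obtain ⟨gl, hl⟩ := hr.le
  have hl' : Int M (fun q : EL r × EL r => q.1 ≤ q.2) :=
    ⟨gl, fun q => ((hl q.1 q.2).trans graph_iff).symm⟩
  have hdi : IntF M (fun q : EL x × EL x => d q.1 q.2) := int_of_opGraph (f := d) hd.graph
  let Op : IPow M (IPow M (EL x)) := ⟨fun U => Mem (code (M := M) U) t, ⟨t, fun _ => Iff.rfl⟩⟩
  obtain ⟨D, rfl⟩ := exists_codeE hs
  have hι : Int M (fun q : EL x × INat M => App f (code (M := M) q.1) (code (M := M) q.2)) :=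
    ⟨f, fun q => app_iff.symm⟩
  obtain ⟨S, hS⟩ := exists_polS (M := M) hl' hdi hd.zero hd.symm hd.tri hq qpos qanti qlim (Op := Op)
    (fun U => by
      refine (htop _).trans ⟨fun h a ha => ?_, fun h => ⟨fun z hz => ?_, fun a ha => ?_⟩⟩
      · obtain ⟨ε, h1, h2⟩ := h.2 a (mem_cE'.2 ha)
        exact ⟨ε, h1, fun b hb => mem_cE'.1 (h2 b hb)⟩
      · obtain ⟨a, -, rfl⟩ := mem_cE.1 hz
        exact a.2
      · obtain ⟨ε, h1, h2⟩ := h a (mem_cE'.1 ha)
        exact ⟨ε, h1, fun b hb => mem_cE'.2 (h2 b hb)⟩) (D := D)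
    (ι := fun a m => App f (code (M := M) a) (code (M := M) m)) hι
    (fun a ha => by
      obtain ⟨y, hy, -⟩ := hf.1.2 a.1 (mem_cE'.2 ha)
      obtain ⟨q', h1, h2⟩ := hy
      obtain ⟨x', y', h3, h4, h5⟩ := hf.1.1 q' h2
      obtain ⟨-, rfl⟩ := op_inj ((ordPair_iff.1 h1).symm.trans (ordPair_iff.1 h5))
      obtain ⟨m, rfl⟩ := (mem_omega hw).1 h4
      exact ⟨m, ⟨q', h1, h2⟩⟩)
    (fun a b m ha hb h1 h2 => Subtype.ext (hf.2 _ _ _ h1 h2))
    (fun U hU ⟨z, hz⟩ => by
      obtain ⟨z', h1, h2⟩ := hdense (code (M := M) U) hU ⟨z.1, mem_cE'.2 hz⟩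
      obtain ⟨a, ha, rfl⟩ := mem_cE.1 h1
      exact ⟨a, ha, mem_cE'.1 h2⟩)
    (fun p hp hC => by
      let P : IFun M (INat M) (EL x) := ⟨p, hp⟩
      have hP : ∀ (k : INat M) (a : EL x), App (code (M := M) P) k.val a.1 ↔ p k = a := by
        intro k a
        rw [app_code]
        constructor
        · rintro ⟨k', h1, h2⟩
          obtain rfl : k' = k := ITy.inj (M := M) h1
          exact ITy.inj (M := M) h2
        · rintro rfl
          exact ⟨k, rfl, rfl⟩
      obtain ⟨c, hc⟩ := hcomp w (code (M := M) P) hw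
        (isFun_code P (fun z => mem_omega hw) fun n => (p n).2) (fun ε hε => by
          obtain ⟨n, hn⟩ := hC ε hε
          refine ⟨n.val, val_isNat n, fun k l a b hk hl hkn hln hka hlb => ?_⟩
          obtain ⟨k, rfl⟩ := exists_val hk
          obtain ⟨l, rfl⟩ := exists_val hl
          rw [← (hP k a).1 hka, ← (hP l b).1 hlb]
          exact hn k l (not_mem_val.1 hkn) (not_mem_val.1 hln))
      refine ⟨c, fun ε hε => ?_⟩
      obtain ⟨n, hn, h1⟩ := hc ε hε
      obtain ⟨n, rfl⟩ := exists_val hn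
      exact ⟨n, fun k hk => h1 k.val (p k) (val_isNat k) (not_mem_val.2 hk) ((hP k _).2 rfl)⟩)
  exact ⟨S, fun U => by rw [hS]; exact Iff.rfl⟩

end

end Pool.Agent.W924
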