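import Pool.Agent.W924.Win

/-!
# The topology
-/

set_option maxHeartbeats 1000000
set_option linter.all false

namespace Pool.Agent.W924

open FirstOrder FirstOrder.Language
open Pool.Agent.Helper672.ZFA
open Pool.Agent.H310

universe u

variable {M : Type u} [L.Structure M] [hM : IsModel M]

namespace Dat

variable {G X Y : Type u} [ITy M G] [ITy M X] [ITy M Y] [Group G] [MulAction G X] [IMul M G]
  [ISMul M G X] {D : Dat M G X Y}

theorem isT_VV (θ : D.Tt) : D.IsT (D.VV θ) := fun _ hz => ⟨θ, hz, fun _ => id⟩

theorem isT_P : D.IsT D.P := fun z hz => ⟨D.top0, mem_top0.2 hz, fun w hw => mem_top0.1 hw⟩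

theorem IsT.inter {U V : IPow M X} (hU : D.IsT U) (hV : D.IsT V) : D.IsT (U ∩ V) := by
  intro z hz
  obtain ⟨h1, h2⟩ := mem_inter.1 hz
  obtain ⟨θ, h3, h4⟩ := hU z h1
  obtain ⟨θ₁, h5, h6⟩ := hV z h2
  obtain ⟨θ', h7, h8, h9⟩ := exists_ref 0 h3 h5
  refine ⟨θ', h9, fun w hw => mem_inter.2 ⟨h4 w (VV_below h7 w hw), h6 w ?_⟩⟩
  obtain ⟨hP, W, hW, ⟨g, hg⟩, h⟩ := D.mem_VV.1 hw
  exact mem_of_ref h8 (h g hg) hP

theorem IsT.union {C : IPow M (IPow M X)} (h : ∀ U, U ∈ C → D.IsT U) : D.IsT (isUnion C) := by
  intro z hz
  obtain ⟨U, hU, hz⟩ := mem_isUnion.1 hz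
  obtain ⟨θ, h1, h2⟩ := h U hU z hz
  exact ⟨θ, h1, fun w hw => mem_isUnion.2 ⟨U, hU, h2 w hw⟩⟩

theorem isT_finer {U : IPow M X} (hU : U ∈ D.SX.Op) : D.IsT (U ∩ D.P) := by
  intro x hx
  obtain ⟨hxU, hxP⟩ := mem_inter.1 hx
  obtain ⟨V, W, hV, hW, h1, h2, h3⟩ := D.smulc 1 x U hU (by rwa [one_smul])
  obtain ⟨V', hV', h4, h5⟩ := D.invc 1 V hV (by rwa [inv_one])
  obtain ⟨i, h6, h7⟩ := D.SG.nbhd hV' h4
  obtain ⟨j, h8, h9⟩ := D.SX.nbhd hW h2
  have hmv : Int M (fun g : G => g • x ∈ D.SX.B j) := by (repeat' (first | with_reducible exact IntF.id | with_reducible exact IntF.fst' | with_reducible exact IntF.snd' | with_reducible exact IntF.const _ | with_reducible exact Int.const _ | assumption | with_reducible apply Int.and | with_reducible apply Int.or | with_reducible apply Int.not | with_reducible apply Int.imp | with_reducible apply Int.iff | with_reducible apply Int.ne | with_reducible apply Int.eq | with_reducible apply Int.mem | with_reducible apply Int.subset | with_reducible apply Int.ltN | with_reducible apply Int.leN | with_reducible apply Int.fin | with_reducible apply Int.unique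 | with_reducible apply Int.all | with_reducible apply Int.ex | with_reducible apply IntF.fst | with_reducible apply IntF.snd | with_reducible apply IntF.app | with_reducible apply IntF.ite | with_reducible apply IntF.sep | with_reducible apply IntF.lam | with_reducible apply IntF.insert | with_reducible apply IntF.singleton | with_reducible apply IntF.union | with_reducible apply IntF.inter | with_reducible apply IntF.sdiff | with_reducible apply IntF.isUnion | with_reducible apply IntF.iimage | with_reducible apply IntF.the | with_reducible apply IntF.irec | with_reducible_and_instances apply IntF.mul | with_reducible_and_instances apply IntF.inv | with_reducible_and_instances apply IntF.smul | with_reducible apply IntF.succ | with_reducible apply IntF.val | with_reducible apply IntF.mk | (with_reducible refine Int.comp ?_ ?_; assumption) | (with_reducible refine Int.comp₂ ?_ ?_ ?_; assumption) | (with_reducible refine Int.comp₃ ?_ ?_ ?_ ?_; assumption) | (with_reducible refine Int.comp₄ ?_ ?_ ?_ ?_ ?_; assumption) | (with_reducible refine IntF.comp ?_ ?_; assumption) | (with_reducible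 refine IntF.comp₂ ?_ ?_ ?_; assumption) | (with_reducible refine Helper672.ZFA.IntF.comp₃ ?_ ?_ ?_ ?_; assumption) | with_reducible apply IntF.pair))
  refine ⟨((i, j), ⟨∅, IFin.empty⟩), D.mem_VV.2 ⟨hxP,
    D.SG.B i ∩ sep M (fun g : G => g • x ∈ D.SX.B j),
    D.SG.inter _ _ (D.SG.B_op _) (D.mov_op (D.SX.B_op _) x),
    ⟨1, mem_inter.2 ⟨h6, (mem_sep hmv).2 (by rwa [one_smul])⟩⟩, fun w hw =>
    ⟨(mem_inter.1 hw).1, (mem_sep hmv).1 (mem_inter.1 hw).2, fun f hf => ?_⟩⟩, fun z hz => ?_⟩
  · change f ∈ (∅ : IPow M D.Fct) at hf
    simp at hf
  · obtain ⟨hP, W', hW', ⟨w, hw⟩, h⟩ := D.mem_VV.1 hz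
    have h10 := h3 _ _ (h5 _ (h7 _ (h w hw).1)) (h9 _ (h w hw).2.1)
    rw [inv_smul_smul] at h10
    exact mem_inter.2 ⟨h10, hP⟩

theorem isT_cont {h : G} {x : X} {U : IPow M X} (hU : D.IsT U) (hxP : x ∈ D.P)
    (hx : h • x ∈ U) : ∃ V W, V ∈ D.SG.Op ∧ D.IsT W ∧ h ∈ V ∧ x ∈ W ∧
      ∀ h' x', h' ∈ V → x' ∈ W → h' • x' ∈ U := by
  obtain ⟨θ, h1, h2⟩ := hU _ hx
  obtain ⟨hP, W, hW, ⟨w, hw⟩, h3⟩ := D.mem_VV.1 h1
  obtain ⟨V₁, V₂, hV₁, hV₂, h4, h5, h6⟩ := D.mulc (w * h) h⁻¹ W hW (by rwa [mul_inv_cancel_right])
  obtain ⟨V₃, hV₃, h7, h8⟩ := D.invc h V₂ hV₂ h5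
  obtain ⟨i, h9, h10⟩ := D.SG.nbhd hV₁ h4
  refine ⟨V₃, D.VV ((i, θ.1.2), θ.2), hV₃, isT_VV _, h7, ?_, fun h' x' hh' hx' => h2 _ ?_⟩
  · refine D.mem_VV.2 ⟨hxP, rt W h ∩ D.SG.B i, D.SG.inter _ _ (D.rt_op hW h) (D.SG.B_op i),
      ⟨w * h, mem_inter.2 ⟨mul_mem_rt.2 hw, h9⟩⟩, fun v hv => ?_⟩
    obtain ⟨hv1, hv2⟩ := mem_inter.1 hv
    have h11 := h3 _ (mem_rt.1 hv1)
    have e : (v * h⁻¹) • h • x = v • x := by rw [smul_smul, inv_mul_cancel_right]
    refine ⟨hv2, ?_, fun f hf => ?_⟩
    · rw [← e]
      exact h11.2.1
    · rw [← e]
      exact h11.2.2 f hf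
  · obtain ⟨hP', W', hW', ⟨w', hw'⟩, h11⟩ := D.mem_VV.1 hx'
    refine D.mem_VV.2 ⟨D.Pinv _ _ hP', rt W' h'⁻¹, D.rt_op hW' _, ⟨w' * h'⁻¹, mul_mem_rt.2 hw'⟩,
      fun v hv => ?_⟩
    have h12 := h11 (v * h') (by
      rw [mem_rt, inv_inv] at hv
      exact hv)
    have h13 : v ∈ W := by
      have h14 := h6 _ _ (h10 _ h12.1) (h8 _ hh')
      rwa [mul_inv_cancel_right] at h14
    refine ⟨(h3 v h13).1, ?_, fun f hf => ?_⟩
    · rw [smul_smul]
      exact h12.2.1
    · rw [smul_smul]
      exact h12.2.2 f hf

variable (D) in
/-- The index of a set of the base. -/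
noncomputable def ix (V : IPow M X) : D.Tt := lst D.ltT (fun θ => D.VV θ = V) D.top0

variable (D) in
theorem int_ix : IntF M D.ix := by
  have h := D.int_VV
  have h1 : IntF M (fun V => D.ix V) := by
    unfold ix
    exact D.iwoT.intF_lst (p := fun (V : IPow M X) θ => D.VV θ = V) (by (repeat' (first | with_reducible exact IntF.id | with_reducible exact IntF.fst' | with_reducible exact IntF.snd' | with_reducible exact IntF.const _ | with_reducible exact Int.const _ | assumption | with_reducible apply Int.and | with_reducible apply Int.or | with_reducible apply Int.not | with_reducible apply Int.imp | with_reducible apply Int.iff | with_reducible apply Int.ne | with_reducible apply Int.eq | with_reducible apply Int.mem | with_reducible apply Int.subset | with_reducible apply Int.ltN | with_reducible apply Int.leN | with_reducible apply Int.fin | with_reducible apply Int.unique | with_reducible apply Int.all | with_reducible apply Int.ex | with_reducible apply IntF.fst | with_reducible apply IntF.snd | with_reducible apply IntF.app | with_reducible apply IntF.ite | with_reducible apply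 IntF.sep | with_reducible apply IntF.lam | with_reducible apply IntF.insert | with_reducible apply IntF.singleton | with_reducible apply IntF.union | with_reducible apply IntF.inter | with_reducible apply IntF.sdiff | with_reducible apply IntF.isUnion | with_reducible apply IntF.iimage | with_reducible apply IntF.the | with_reducible apply IntF.irec | with_reducible_and_instances apply IntF.mul | with_reducible_and_instances apply IntF.inv | with_reducible_and_instances apply IntF.smul | with_reducible apply IntF.succ | with_reducible apply IntF.val | with_reducible apply IntF.mk | (with_reducible refine Int.comp ?_ ?_; assumption) | (with_reducible refine Int.comp₂ ?_ ?_ ?_; assumption) | (with_reducible refine Int.comp₃ ?_ ?_ ?_ ?_; assumption) | (with_reducible refine Int.comp₄ ?_ ?_ ?_ ?_ ?_; assumption) | (with_reducible refine IntF.comp ?_ ?_; assumption) | (with_reducible refine IntF.comp₂ ?_ ?_ ?_; assumption) | (with_reducible refine Helper672.ZFA.IntF.comp₃ ?_ ?_ ?_ ?_; assumption) | with_reducible apply IntF.pair))) (IntF.const _)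
  exact h1

theorem VV_ix {V : IPow M X} (h : ∃ θ, D.VV θ = V) : D.VV (D.ix V) = V := by
  have h1 := D.int_VV
  exact D.iwoT.lst_spec (p := fun θ => D.VV θ = V) (by (repeat' (first | with_reducible exact IntF.id | with_reducible exact IntF.fst' | with_reducible exact IntF.snd' | with_reducible exact IntF.const _ | with_reducible exact Int.const _ | assumption | with_reducible apply Int.and | with_reducible apply Int.or | with_reducible apply Int.not | with_reducible apply Int.imp | with_reducible apply Int.iff | with_reducible apply Int.ne | with_reducible apply Int.eq | with_reducible apply Int.mem | with_reducible apply Int.subset | with_reducible apply Int.ltN | with_reducible apply Int.leN | with_reducible apply Int.fin | with_reducible apply Int.unique | with_reducible apply Int.all | with_reducible apply Int.ex | with_reducible apply IntF.fst | with_reducible apply IntF.snd | with_reducible apply IntF.app | with_reducible apply IntF.ite | with_reducible apply IntF.sep | with_reducible apply IntF.lam | with_reducible apply IntF.insert | with_reducible apply IntF.singleton | with_reducible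 apply IntF.union | with_reducible apply IntF.inter | with_reducible apply IntF.sdiff | with_reducible apply IntF.isUnion | with_reducible apply IntF.iimage | with_reducible apply IntF.the | with_reducible apply IntF.irec | with_reducible_and_instances apply IntF.mul | with_reducible_and_instances apply IntF.inv | with_reducible_and_instances apply IntF.smul | with_reducible apply IntF.succ | with_reducible apply IntF.val | with_reducible apply IntF.mk | (with_reducible refine Int.comp ?_ ?_; assumption) | (with_reducible refine Int.comp₂ ?_ ?_ ?_; assumption) | (with_reducible refine Int.comp₃ ?_ ?_ ?_ ?_; assumption) | (with_reducible refine Int.comp₄ ?_ ?_ ?_ ?_ ?_; assumption) | (with_reducible refine IntF.comp ?_ ?_; assumption) | (with_reducible refine IntF.comp₂ ?_ ?_ ?_; assumption) | (with_reducible refine Helper672.ZFA.IntF.comp₃ ?_ ?_ ?_ ?_; assumption) | with_reducible apply IntF.pair))) h _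

variable (D) in
/-- The order of the base. -/
noncomputable def ltV (V V' : IPow M X) : Prop := D.ltT (D.ix V) (D.ix V')

variable (D) in
theorem int_ltV : Int M (fun q : IPow M X × IPow M X => D.ltV q.1 q.2) := by
  have h := D.iwoT.int
  have h1 := D.int_ix
  unfold ltV
  (repeat' (first | with_reducible exact IntF.id | with_reducible exact IntF.fst' | with_reducible exact IntF.snd' | with_reducible exact IntF.const _ | with_reducible exact Int.const _ | assumption | with_reducible apply Int.and | with_reducible apply Int.or | with_reducible apply Int.not | with_reducible apply Int.imp | with_reducible apply Int.iff | with_reducible apply Int.ne | with_reducible apply Int.eq | with_reducible apply Int.mem | with_reducible apply Int.subset | with_reducible apply Int.ltN | with_reducible apply Int.leN | with_reducible apply Int.fin | with_reducible apply Int.unique | with_reducible apply Int.all | with_reducible apply Int.ex | with_reducible apply IntF.fst | with_reducible apply IntF.snd | with_reducible apply IntF.app | with_reducible apply IntF.ite | with_reducible apply IntF.sep |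 with_reducible apply IntF.lam | with_reducible apply IntF.insert | with_reducible apply IntF.singleton | with_reducible apply IntF.union | with_reducible apply IntF.inter | with_reducible apply IntF.sdiff | with_reducible apply IntF.isUnion | with_reducible apply IntF.iimage | with_reducible apply IntF.the | with_reducible apply IntF.irec | with_reducible_and_instances apply IntF.mul | with_reducible_and_instances apply IntF.inv | with_reducible_and_instances apply IntF.smul | with_reducible apply IntF.succ | with_reducible apply IntF.val | with_reducible apply IntF.mk | (with_reducible refine Int.comp ?_ ?_; assumption) | (with_reducible refine Int.comp₂ ?_ ?_ ?_; assumption) | (with_reducible refine Int.comp₃ ?_ ?_ ?_ ?_; assumption) | (with_reducible refine Int.comp₄ ?_ ?_ ?_ ?_ ?_; assumption) | (with_reducible refine IntF.comp ?_ ?_; assumption) | (with_reducible refine IntF.comp₂ ?_ ?_ ?_; assumption) | (with_reducible refine Helper672.ZFA.IntF.comp₃ ?_ ?_ ?_ ?_; assumption) | with_reducible apply IntF.pair))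

theorem ltV_irr (V : IPow M X) : ¬ D.ltV V V := D.iwoT.irr _

theorem ltV_tr {U V W : IPow M X} (h : D.ltV U V) (h' : D.ltV V W) : D.ltV U W :=
  D.iwoT.tr _ _ _ h h'

theorem ltV_tri {V V' : IPow M X} (h : ∃ θ, D.VV θ = V) (h' : ∃ θ, D.VV θ = V') :
    D.ltV V V' ∨ V = V' ∨ D.ltV V' V := by
  unfold ltV
  rcases D.iwoT.tri (D.ix V) (D.ix V') with h1 | h1 | h1
  · exact Or.inl h1
  · refine Or.inr (Or.inl ?_)
    rw [← VV_ix h, ← VV_ix h', h1]
  · exact Or.inr (Or.inr h1)

theorem ltV_wf {p : IPow M X → Prop} (hp : Int M p) (hne : ∃ V, p V) :
    ∃ V, p V ∧ ∀ V', p V' → ¬ D.ltV V' V := by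
  have h1 := D.int_ix
  obtain ⟨V, hV⟩ := hne
  obtain ⟨_, ⟨V, hV, rfl⟩, h⟩ := D.iwoT.least (p := fun θ => ∃ V, p V ∧ D.ix V = θ) (by (repeat' (first | with_reducible exact IntF.id | with_reducible exact IntF.fst' | with_reducible exact IntF.snd' | with_reducible exact IntF.const _ | with_reducible exact Int.const _ | assumption | with_reducible apply Int.and | with_reducible apply Int.or | with_reducible apply Int.not | with_reducible apply Int.imp | with_reducible apply Int.iff | with_reducible apply Int.ne | with_reducible apply Int.eq | with_reducible apply Int.mem | with_reducible apply Int.subset | with_reducible apply Int.ltN | with_reducible apply Int.leN | with_reducible apply Int.fin | with_reducible apply Int.unique | with_reducible apply Int.all | with_reducible apply Int.ex | with_reducible apply IntF.fst | with_reducible apply IntF.snd | with_reducible apply IntF.app | with_reducible apply IntF.ite | with_reducible apply IntF.sep | with_reducible apply IntF.lam | with_reducible apply IntF.insert | with_reducible apply IntF.singleton | with_reducible apply IntF.union | with_reducible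 apply IntF.inter | with_reducible apply IntF.sdiff | with_reducible apply IntF.isUnion | with_reducible apply IntF.iimage | with_reducible apply IntF.the | with_reducible apply IntF.irec | with_reducible_and_instances apply IntF.mul | with_reducible_and_instances apply IntF.inv | with_reducible_and_instances apply IntF.smul | with_reducible apply IntF.succ | with_reducible apply IntF.val | with_reducible apply IntF.mk | (with_reducible refine Int.comp ?_ ?_; assumption) | (with_reducible refine Int.comp₂ ?_ ?_ ?_; assumption) | (with_reducible refine Int.comp₃ ?_ ?_ ?_ ?_; assumption) | (with_reducible refine Int.comp₄ ?_ ?_ ?_ ?_ ?_; assumption) | (with_reducible refine IntF.comp ?_ ?_; assumption) | (with_reducible refine IntF.comp₂ ?_ ?_ ?_; assumption) | (with_reducible refine Helper672.ZFA.IntF.comp₃ ?_ ?_ ?_ ?_; assumption) | with_reducible apply IntF.pair)))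
    ⟨_, V, hV, rfl⟩
  exact ⟨V, hV, fun V' hV' => h _ ⟨V', hV', rfl⟩⟩

end Dat

end Pool.Agent.W924
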