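import Pool.Agent.W924.Br1
import Pool.Agent.W924.Topo

/-!
# The theorem for a model
-/

set_option maxHeartbeats 1000000
set_option linter.all false
set_option synthInstance.maxSize 2000

namespace Pool.Agent.W924

open FirstOrder FirstOrder.Language
open Pool.Agent.Helper672.ZFA
open Pool.Agent.H310
open Pool.Agent.H310Cards
open Pool.Agent.H635Amen (IsReals IsGroupIn)
open Pool.Agent.H310Top (IsTopology IsBase)
open Pool.Agent.H310Metric (IsMetric)
open Pool.Agent.W924St

universe u u₁ u₂

section

attribute [local instance] Helper672.Plain.toL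

variable {M : Type u} [Helper672.Plain.LSet.Structure M] [hZ : Helper672.Plain.Zermelo M]

local instance instModelW2 : IsModel M := Helper672.Plain.isModel_toL

theorem cts₂_of {a b c ta tb tc : M} {f : EL a → EL b → EL c} (h : Cts₂ ta tb tc f)
    (hta : IsTopology ta a) (htb : IsTopology tb b) {Sa : PolS M (EL a)} {Sb : PolS M (EL b)}
    {Sc : PolS M (EL c)} (ha : ∀ U : IPow M (EL a), U ∈ Sa.Op ↔ Mem (code (M := M) U) ta)
    (hb : ∀ U : IPow M (EL b), U ∈ Sb.Op ↔ Mem (code (M := M) U) tb)
    (hc : ∀ U : IPow M (EL c), U ∈ Sc.Op ↔ Mem (code (M := M) U) tc) (x : EL a) (y : EL b)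
    (U : IPow M (EL c)) (hU : U ∈ Sc.Op) (hxy : f x y ∈ U) : ∃ V W, V ∈ Sa.Op ∧ W ∈ Sb.Op ∧
      x ∈ V ∧ y ∈ W ∧ ∀ x' y', x' ∈ V → y' ∈ W → f x' y' ∈ U := by
  obtain ⟨v, w, hv, hw, h1, h2, h3⟩ := h x y (code (M := M) U) ((hc U).1 hU) (mem_cE'.2 hxy)
  obtain ⟨V, rfl⟩ := exists_codeE (hta.sub v hv)
  obtain ⟨W, rfl⟩ := exists_codeE (htb.sub w hw)
  exact ⟨V, W, (ha V).2 hv, (hb W).2 hw, mem_cE'.1 h1, mem_cE'.1 h2, fun x' y' hx' hy' =>
    mem_cE'.1 (h3 x' y' (mem_cE'.2 hx') (mem_cE'.2 hy'))⟩

theorem cts_of {a b ta tb : M} {f : EL a → EL b} (h : Cts ta tb f)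
    (hta : IsTopology ta a) {Sa : PolS M (EL a)} {Sb : PolS M (EL b)}
    (ha : ∀ U : IPow M (EL a), U ∈ Sa.Op ↔ Mem (code (M := M) U) ta)
    (hb : ∀ U : IPow M (EL b), U ∈ Sb.Op ↔ Mem (code (M := M) U) tb) (x : EL a)
    (U : IPow M (EL b)) (hU : U ∈ Sb.Op) (hxy : f x ∈ U) : ∃ V, V ∈ Sa.Op ∧
      x ∈ V ∧ ∀ x', x' ∈ V → f x' ∈ U := by
  obtain ⟨v, hv, h1, h3⟩ := h x (code (M := M) U) ((hb U).1 hU) (mem_cE'.2 hxy)
  obtain ⟨V, rfl⟩ := exists_codeE (hta.sub v hv)
  exact ⟨V, (ha V).2 hv, mem_cE'.1 h1, fun x' hx' => mem_cE'.1 (h3 x' (mem_cE'.2 hx'))⟩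

section strat

variable {X : Type u} [ITy M X]

/-- The restriction of a run. -/
noncomputable def rs (q : IFun M (INat M) (X × IPow M X)) (n : INat M) :
    IPow M (INat M × (X × IPow M X)) := sep M fun c => c.1 < n ∧ q c.1 = c.2

theorem mem_rs {q : IFun M (INat M) (X × IPow M X)} {n : INat M}
    {c : INat M × (X × IPow M X)} : c ∈ rs q n ↔ c.1 < n ∧ q c.1 = c.2 := by
  unfold rs
  rw [mem_sep (by (repeat' (first | with_reducible exact IntF.id | with_reducible exact IntF.fst' | with_reducible exact IntF.snd' | with_reducible exact IntF.const _ | with_reducible exact Int.const _ | assumption | with_reducible apply Int.and | with_reducible apply Int.or | with_reducible apply Int.not | with_reducible apply Int.imp | with_reducible apply Int.iff | with_reducible apply Int.ne | with_reducible apply Int.eq | with_reducible apply Int.mem | with_reducible apply Int.subset | with_reducible apply Int.ltN | with_reducible apply Int.leN | with_reducible apply Int.fin | with_reducible apply Int.unique | with_reducible apply Int.all | with_reducible apply Int.ex | with_reducible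 apply IntF.fst | with_reducible apply IntF.snd | with_reducible apply IntF.app | with_reducible apply IntF.ite | with_reducible apply IntF.sep | with_reducible apply IntF.lam | with_reducible apply IntF.insert | with_reducible apply IntF.singleton | with_reducible apply IntF.union | with_reducible apply IntF.inter | with_reducible apply IntF.sdiff | with_reducible apply IntF.isUnion | with_reducible apply IntF.iimage | with_reducible apply IntF.the | with_reducible apply IntF.irec | with_reducible_and_instances apply IntF.mul | with_reducible_and_instances apply IntF.inv | with_reducible_and_instances apply IntF.smul | with_reducible apply IntF.succ | with_reducible apply IntF.val | with_reducible apply IntF.mk | (with_reducible refine Int.comp ?_ ?_; assumption) | (with_reducible refine Int.comp₂ ?_ ?_ ?_; assumption) | (with_reducible refine Int.comp₃ ?_ ?_ ?_ ?_; assumption) | (with_reducible refine Int.comp₄ ?_ ?_ ?_ ?_ ?_; assumption) | (with_reducible refine IntF.comp ?_ ?_; assumption) | (with_reducible refine IntF.comp₂ ?_ ?_ ?_; assumption) | (with_reducible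 refine Helper672.ZFA.IntF.comp₃ ?_ ?_ ?_ ?_; assumption) | with_reducible apply IntF.pair)))]

theorem int_rs : IntF M (fun c : IFun M (INat M) (X × IPow M X) × INat M => rs c.1 c.2) := by
  unfold rs
  (repeat' (first | with_reducible exact IntF.id | with_reducible exact IntF.fst' | with_reducible exact IntF.snd' | with_reducible exact IntF.const _ | with_reducible exact Int.const _ | assumption | with_reducible apply Int.and | with_reducible apply Int.or | with_reducible apply Int.not | with_reducible apply Int.imp | with_reducible apply Int.iff | with_reducible apply Int.ne | with_reducible apply Int.eq | with_reducible apply Int.mem | with_reducible apply Int.subset | with_reducible apply Int.ltN | with_reducible apply Int.leN | with_reducible apply Int.fin | with_reducible apply Int.unique | with_reducible apply Int.all | with_reducible apply Int.ex | with_reducible apply IntF.fst | with_reducible apply IntF.snd | with_reducible apply IntF.app | with_reducible apply IntF.ite | with_reducible apply IntF.sep | with_reducible apply IntF.lam | with_reducible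 apply IntF.insert | with_reducible apply IntF.singleton | with_reducible apply IntF.union | with_reducible apply IntF.inter | with_reducible apply IntF.sdiff | with_reducible apply IntF.isUnion | with_reducible apply IntF.iimage | with_reducible apply IntF.the | with_reducible apply IntF.irec | with_reducible_and_instances apply IntF.mul | with_reducible_and_instances apply IntF.inv | with_reducible_and_instances apply IntF.smul | with_reducible apply IntF.succ | with_reducible apply IntF.val | with_reducible apply IntF.mk | (with_reducible refine Int.comp ?_ ?_; assumption) | (with_reducible refine Int.comp₂ ?_ ?_ ?_; assumption) | (with_reducible refine Int.comp₃ ?_ ?_ ?_ ?_; assumption) | (with_reducible refine Int.comp₄ ?_ ?_ ?_ ?_ ?_; assumption) | (with_reducible refine IntF.comp ?_ ?_; assumption) | (with_reducible refine IntF.comp₂ ?_ ?_ ?_; assumption) | (with_reducible refine Helper672.ZFA.IntF.comp₃ ?_ ?_ ?_ ?_; assumption) | with_reducible apply IntF.pair))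

theorem rs_inj {q q' : IFun M (INat M) (X × IPow M X)} {n n' : INat M}
    (h : rs q n.succ = rs q' n'.succ) : n = n' ∧ ∀ k, k < n.succ → q k = q' k := by
  have h1 : ∀ k, k < n.succ → k < n'.succ ∧ q' k = q k := fun k hk =>
    mem_rs.1 (h ▸ (mem_rs.2 ⟨hk, rfl⟩ : (k, q k) ∈ rs q n.succ))
  have h2 : ∀ k, k < n'.succ → k < n.succ := fun k hk =>
    (mem_rs.1 (h ▸ (mem_rs.2 ⟨hk, rfl⟩ : (k, q' k) ∈ rs q' n'.succ))).1
  exact ⟨le_antisymm (INat.lt_succ_iff.1 (h1 n (INat.lt_succ_self n)).1)
    (INat.lt_succ_iff.1 (h2 n' (INat.lt_succ_self n'))), fun k hk => (h1 k hk).2.symm⟩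

theorem plays_iff {q : IFun M (INat M) (X × IPow M X)} {k y u : M} :
    Plays (code (M := M) q) k y u ↔
      ∃ n : INat M, code n = k ∧ code (q n).1 = y ∧ code (q n).2 = u := by
  unfold Plays
  constructor
  · rintro ⟨c, h1, h2⟩
    obtain ⟨n, h3, h4⟩ := app_code.1 h2
    rw [ordPair_iff] at h1
    obtain ⟨h5, h6⟩ := op_inj (h4.trans h1)
    exact ⟨n, h3, h5, h6⟩
  · rintro ⟨n, rfl, rfl, rfl⟩
    exact ⟨code (q n), ordPair_iff.2 rfl, app_code.2 ⟨n, rfl, rfl⟩⟩

theorem isSucc_iff {n' : M} {n : INat M} : IsSucc n' n.val ↔ n' = n.succ.val := by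
  constructor
  · intro h
    exact extM fun z => (h z).trans (INat.mem_succ (M := M) (n := n) (z := z)).symm
  · rintro rfl z
    exact INat.mem_succ (M := M) (n := n) (z := z)

theorem isRestr_iff {s : M} {q : IFun M (INat M) (X × IPow M X)} {n : INat M} :
    IsRestr s (code (M := M) q) n.val ↔ s = code (M := M) (rs q n) := by
  have key : ∀ z : M, Mem z (code (M := M) (rs q n)) ↔ (Mem z (code (M := M) q) ∧
      ∃ k v, Mem k n.val ∧ Helper672.Plain.IsOrdPair z k v) := by
    intro z
    refine (mem_code_pow (s := rs q n)).trans ?_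
    rw [mem_code_fun]
    constructor
    · rintro ⟨⟨k, m⟩, h1, rfl⟩
      obtain ⟨h2, h3⟩ := mem_rs.1 h1
      have h3' : q k = m := h3
      subst h3'
      exact ⟨⟨k, rfl⟩, k.val, code (q k), h2, ordPair_iff.2 rfl⟩
    · rintro ⟨⟨k, rfl⟩, k', v, h1, h2⟩
      rw [ordPair_iff] at h2
      obtain ⟨h3, h4⟩ := op_inj h2
      refine ⟨(k, q k), mem_rs.2 ⟨?_, rfl⟩, rfl⟩
      rw [← h3] at h1
      exact h1
  constructor
  · intro h
    exact extM fun z => (h z).trans (key z).symm
  · rintro rfl z
    exact key z

end strat

section main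

variable {G X Y : Type u} [ITy M G] [ITy M X] [ITy M Y] [Group G] [MulAction G X] [IMul M G]
  [ISMul M G X] (D : Dat M G X Y)

/-- The graph of the strategy. -/
def sg (c : IPow M (INat M × (X × IPow M X)) × IPow M X) : Prop :=
  ∃ q n, c.1 = rs q (INat.succ n) ∧ c.2 = D.VV (D.idx q n.succ)

theorem int_sg : Int M (sg D) := by
  have h1 := int_rs (M := M) (X := X)
  have h2 := D.int_VV
  have h3 := D.int_idx
  have h4 : Int M (fun c => sg D c) := by
    unfold sg
    (repeat' (first | with_reducible exact IntF.id | with_reducible exact IntF.fst' | with_reducible exact IntF.snd' | with_reducible exact IntF.const _ | with_reducible exact Int.const _ | assumption | with_reducible apply Int.and | with_reducible apply Int.or | with_reducible apply Int.not | with_reducible apply Int.imp | with_reducible apply Int.iff | with_reducible apply Int.ne | with_reducible apply Int.eq | with_reducible apply Int.mem | with_reducible apply Int.subset | with_reducible apply Int.ltN | with_reducible apply Int.leN | with_reducible apply Int.fin | with_reducible apply Int.unique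 | with_reducible apply Int.all | with_reducible apply Int.ex | with_reducible apply IntF.fst | with_reducible apply IntF.snd | with_reducible apply IntF.app | with_reducible apply IntF.ite | with_reducible apply IntF.sep | with_reducible apply IntF.lam | with_reducible apply IntF.insert | with_reducible apply IntF.singleton | with_reducible apply IntF.union | with_reducible apply IntF.inter | with_reducible apply IntF.sdiff | with_reducible apply IntF.isUnion | with_reducible apply IntF.iimage | with_reducible apply IntF.the | with_reducible apply IntF.irec | with_reducible_and_instances apply IntF.mul | with_reducible_and_instances apply IntF.inv | with_reducible_and_instances apply IntF.smul | with_reducible apply IntF.succ | with_reducible apply IntF.val | with_reducible apply IntF.mk | (with_reducible refine Int.comp ?_ ?_; assumption) | (with_reducible refine Int.comp₂ ?_ ?_ ?_; assumption) | (with_reducible refine Int.comp₃ ?_ ?_ ?_ ?_; assumption) | (with_reducible refine Int.comp₄ ?_ ?_ ?_ ?_ ?_; assumption) | (with_reducible refine IntF.comp ?_ ?_;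 assumption) | (with_reducible refine IntF.comp₂ ?_ ?_ ?_; assumption) | (with_reducible refine Helper672.ZFA.IntF.comp₃ ?_ ?_ ?_ ?_; assumption) | with_reducible apply IntF.pair))
  exact h4

/-- The strategy. -/
noncomputable def sσ : M := (int_sg D).small.elt

theorem app_sσ {s v : M} : App (sσ D) s v ↔ ∃ (q : IFun M (INat M) (X × IPow M X)) (n : INat M),
    s = code (M := M) (rs q n.succ) ∧ v = code (M := M) (D.VV (D.idx q n.succ)) := by
  rw [app_iff, sσ, (int_sg D).small.mem]
  constructor
  · rintro ⟨⟨r, V⟩, ⟨q, n, h1, h2⟩, h3⟩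
    obtain ⟨h4, h5⟩ := op_inj h3
    have h1' : r = _ := h1
    have h2' : V = _ := h2
    subst h1' h2'
    exact ⟨q, n, h4.symm, h5.symm⟩
  · rintro ⟨q, n, rfl, rfl⟩
    exact ⟨(rs q n.succ, D.VV (D.idx q n.succ)), ⟨q, n, rfl, rfl⟩, rfl⟩

theorem sσ_unique {s v v' : M} (h : App (sσ D) s v) (h' : App (sσ D) s v') : v = v' := by
  obtain ⟨q, n, h1, h2⟩ := (app_sσ D).1 h
  obtain ⟨q', n', h3, h4⟩ := (app_sσ D).1 h'
  have h5 : rs q n.succ = rs q' n'.succ := ITy.inj (M := M) (h1.symm.trans h3)
  obtain ⟨rfl, h6⟩ := rs_inj h5
  rw [h2, h4, D.idx_congr q q' _ h6]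

theorem answers_iff {q : IFun M (INat M) (X × IPow M X)} {n : INat M} {v : M} :
    Answers (sσ D) (code (M := M) q) n.val v ↔
      v = code (M := M) (D.VV (D.idx q n.succ)) := by
  unfold Answers
  constructor
  · rintro ⟨n', s, h1, h2, h3⟩
    rw [isSucc_iff] at h1
    subst h1
    rw [isRestr_iff] at h2
    subst h2
    exact sσ_unique D h3 ((app_sσ D).2 ⟨q, n, rfl, rfl⟩)
  · rintro rfl
    exact ⟨_, _, isSucc_iff.2 rfl, isRestr_iff.2 rfl, (app_sσ D).2 ⟨q, n, rfl, rfl⟩⟩

end main

end

end Pool.Agent.W924
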