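import Pool.Agent.W924.Br2

/-!
# The theorem
-/

set_option maxHeartbeats 1000000
set_option linter.all false
set_option synthInstance.maxSize 2000

namespace Pool.Agent.W924

open FirstOrder FirstOrder.Language
open Pool.Agent.Helper672.ZFA
open Pool.Agent.H310
open Pool.Agent.H310Cards
open Pool.Agent.H635Amen (IsReals IsGroupIn)
open Pool.Agent.H310Top (IsTopology IsBase)
open Pool.Agent.H310Metric (IsMetric)
open Pool.Agent.W924St

universe u u₁ u₂

section

attribute [local instance] Helper672.Plain.toL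

variable {M : Type u} [Helper672.Plain.LSet.Structure M] [hZ : Helper672.Plain.Zermelo M]

local instance instModelW3 : IsModel M := Helper672.Plain.isModel_toL

section win

variable {G X Y : Type u} [ITy M G] [ITy M X] [ITy M Y] [Group G] [MulAction G X] [IMul M G]
  [ISMul M G X] (D : Dat M G X Y)

/-- The set of the open sets. -/
noncomputable def TT : IPow M (IPow M X) := sep M fun U => D.IsT U

theorem mem_TT {U : IPow M X} : U ∈ TT D ↔ D.IsT U := by
  unfold TT
  rw [mem_sep D.int_IsT]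

theorem mem_cTT {u : M} : Mem u (code (M := M) (TT D)) ↔ ∃ U : IPow M X, D.IsT U ∧ code U = u := by
  refine (mem_code_pow (s := TT D)).trans ?_
  simp only [mem_TT]

theorem mem_cc {α : Type u} [ITy M α] {U : IPow M α} {z : M} :
    Mem z (code (M := M) U) ↔ ∃ a, a ∈ U ∧ code a = z := mem_code_pow (s := U)

theorem mem_cc' {α : Type u} [ITy M α] {U : IPow M α} {a : α} :
    Mem (code (M := M) a) (code (M := M) U) ↔ a ∈ U := mem_code_iff

/-- A run of player I. -/
theorem exists_run {w m f : M} (hw : IsOmega w)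
    (hm : IsProd m (code (M := M) D.P) (code (M := M) (TT D))) (hf : IsFun f w m) :
    ∃ q : IFun M (INat M) (X × IPow M X), f = code (M := M) q ∧
      ∀ n, (q n).1 ∈ D.P ∧ D.IsT (q n).2 := by
  have hm' : ∀ z, Mem z m → ∃ y : X × IPow M X, (y.1 ∈ D.P ∧ D.IsT y.2) ∧ code y = z := by
    intro z hz
    obtain ⟨a, b, h1, h2, h3⟩ := (hm z).1 hz
    obtain ⟨a, ha, rfl⟩ := mem_cc.1 h1
    obtain ⟨b, hb, rfl⟩ := (mem_cTT D).1 h2
    rw [ordPair_iff] at h3
    exact ⟨(a, b), ⟨ha, hb⟩, h3.symm⟩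
  obtain ⟨φ, h1, h2⟩ := exists_fun (α := INat M) (β := X × IPow M X) hf
    (fun n => (mem_omega hw).2 ⟨n, rfl⟩) fun z hz => by
      obtain ⟨y, -, h⟩ := hm' z hz
      exact ⟨y, h⟩
  refine ⟨⟨φ, h1⟩, extM fun z => ?_, fun n => ?_⟩
  · refine Iff.trans ?_ (mem_code_fun (f := ⟨φ, h1⟩)).symm
    constructor
    · intro hz
      obtain ⟨n, y, h3, h4, h5⟩ := hf.1 z hz
      obtain ⟨n, rfl⟩ := (mem_omega hw).1 h3
      obtain ⟨y, -, rfl⟩ := hm' y h4
      have h6 : φ n = y := (h2 n y).2 ⟨z, h5, hz⟩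
      refine ⟨n, ?_⟩
      change z = op (code n) (code (φ n))
      rw [h6]
      exact ordPair_iff.1 h5
    · rintro ⟨n, rfl⟩
      exact app_iff.1 ((h2 n (φ n)).1 rfl)
  · obtain ⟨z, h3, h4⟩ := (h2 n (φ n)).1 rfl
    obtain ⟨n', y', h5, h6, h7⟩ := hf.1 z h4
    obtain ⟨-, h8⟩ := op_inj ((ordPair_iff.1 h3).symm.trans (ordPair_iff.1 h7))
    obtain ⟨y, h9, h10⟩ := hm' y' h6
    have h11 : φ n = y := ITy.inj (M := M) (h8.trans h10.symm)
    change (φ n).1 ∈ D.P ∧ D.IsT (φ n).2
    rw [h11]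
    exact h9

/-- The answer in a round in which player I has followed the rules is good. -/
theorem good_of_legal {q : IFun M (INat M) (X × IPow M X)}
    (hq : ∀ n, (q n).1 ∈ D.P ∧ D.IsT (q n).2) {n : INat M}
    (h : IsLegal (sσ D) (code (M := M) q) n.val) :
    D.good n (D.idx q n) (q n).1 (q n).2 (D.idx q n.succ) := by
  obtain ⟨h1, h2⟩ := h
  refine Dat.good_stp ?_ (hq n).2 ?_
  · exact mem_cc'.1 (h1 n.val _ _ (Or.inr rfl) (plays_iff.2 ⟨n, rfl, rfl, rfl⟩))
  · rintro k rfl z hz
    exact mem_cc'.1 (h2 k.val k.succ.val _ _ _ (isSucc_iff.2 rfl) (Or.inr rfl)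
      (plays_iff.2 ⟨k.succ, rfl, rfl, rfl⟩) ((answers_iff D).2 rfl) _ (mem_cc'.2 hz))

theorem isWinning : IsWinning (sσ D) (code (M := M) (TT D)) (code (M := M) D.P) := by
  refine ⟨fun s v v' => sσ_unique D, fun w m f hw hm hf => ?_⟩
  obtain ⟨q, rfl, hq⟩ := exists_run D hw hm hf
  refine ⟨fun n hn hl => ?_, fun hl => ?_⟩
  · obtain ⟨n, rfl⟩ := (mem_omega hw).1 hn
    have hg := good_of_legal D hq hl
    refine ⟨_, (answers_iff D).2 rfl, (mem_cTT D).2 ⟨_, Dat.isT_VV _, rfl⟩, fun y u hyu => ?_⟩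
    obtain ⟨k, h1, rfl, rfl⟩ := plays_iff.1 hyu
    obtain rfl : k = n := ITy.inj (M := M) h1
    refine ⟨mem_cc'.2 hg.2.1, fun z hz => ?_⟩
    obtain ⟨a, ha, rfl⟩ := mem_cc.1 hz
    exact mem_cc'.2 (hg.sub a ha)
  · have hg : ∀ n : INat M, D.good n (D.idx q n) (q n).1 (q n).2 (D.idx q n.succ) := fun n =>
      good_of_legal D hq (hl n.val ((mem_omega hw).2 ⟨n, rfl⟩))
    have hi := D.int_idx
    obtain ⟨z, hz⟩ := Dat.exists_lim (x := fun n => (q n).1) (U := fun n => (q n).2)
      (θ := fun n => D.idx q n) hg (by (repeat' (first | with_reducible exact IntF.id | with_reducible exact IntF.fst' | with_reducible exact IntF.snd' | with_reducible exact IntF.const _ | with_reducible exact Int.const _ | assumption | with_reducible apply Int.and | with_reducible apply Int.or | with_reducible apply Int.not | with_reducible apply Int.imp | with_reducible apply Int.iff | with_reducible apply Int.ne | with_reducible apply Int.eq | with_reducible apply Int.mem | with_reducible apply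 Int.subset | with_reducible apply Int.ltN | with_reducible apply Int.leN | with_reducible apply Int.fin | with_reducible apply Int.unique | with_reducible apply Int.all | with_reducible apply Int.ex | with_reducible apply IntF.fst | with_reducible apply IntF.snd | with_reducible apply IntF.app | with_reducible apply IntF.ite | with_reducible apply IntF.sep | with_reducible apply IntF.lam | with_reducible apply IntF.insert | with_reducible apply IntF.singleton | with_reducible apply IntF.union | with_reducible apply IntF.inter | with_reducible apply IntF.sdiff | with_reducible apply IntF.isUnion | with_reducible apply IntF.iimage | with_reducible apply IntF.the | with_reducible apply IntF.irec | with_reducible_and_instances apply IntF.mul | with_reducible_and_instances apply IntF.inv | with_reducible_and_instances apply IntF.smul | with_reducible apply IntF.succ | with_reducible apply IntF.val | with_reducible apply IntF.mk | (with_reducible refine Int.comp ?_ ?_; assumption)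 | (with_reducible refine Int.comp₂ ?_ ?_ ?_; assumption) | (with_reducible refine Int.comp₃ ?_ ?_ ?_ ?_; assumption) | (with_reducible refine Int.comp₄ ?_ ?_ ?_ ?_ ?_; assumption) | (with_reducible refine IntF.comp ?_ ?_; assumption) | (with_reducible refine IntF.comp₂ ?_ ?_ ?_; assumption) | (with_reducible refine Helper672.ZFA.IntF.comp₃ ?_ ?_ ?_ ?_; assumption) | with_reducible apply IntF.pair)))
    refine ⟨code (M := M) z, fun n v hn hv => ?_⟩
    obtain ⟨n, rfl⟩ := (mem_omega hw).1 hn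
    have hl' := (hl n.succ.val ((mem_omega hw).2 ⟨n.succ, rfl⟩)).2
    exact hl' n.val n.succ.val _ _ _ (isSucc_iff.2 rfl) (Or.inr rfl)
      (plays_iff.2 ⟨n.succ, rfl, rfl, rfl⟩) hv _ (mem_cc'.2 (hz n.succ))

theorem isTopology_TT : IsTopology (code (M := M) (TT D)) (code (M := M) D.P) where
  sub u hu z hz := by
    obtain ⟨U, hU, rfl⟩ := (mem_cTT D).1 hu
    obtain ⟨a, ha, rfl⟩ := mem_cc.1 hz
    exact mem_cc'.2 (hU.sub a ha)
  univ := (mem_cTT D).2 ⟨_, Dat.isT_P, rfl⟩
  inter u v w hu hv hw := by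
    obtain ⟨U, hU, rfl⟩ := (mem_cTT D).1 hu
    obtain ⟨V, hV, rfl⟩ := (mem_cTT D).1 hv
    refine (mem_cTT D).2 ⟨U ∩ V, hU.inter hV, extM fun z => ?_⟩
    refine Iff.trans ?_ (hw z).symm
    refine mem_cc.trans ?_
    constructor
    · rintro ⟨a, ha, rfl⟩
      exact ⟨mem_cc'.2 (mem_inter.1 ha).1, mem_cc'.2 (mem_inter.1 ha).2⟩
    · rintro ⟨h1, h2⟩
      obtain ⟨a, ha, rfl⟩ := mem_cc.1 h1
      exact ⟨a, mem_inter.2 ⟨ha, mem_cc'.1 h2⟩, rfl⟩
  union c w hc hw := by
    have hs : Int M (fun U : IPow M X => Mem (code (M := M) U) c) := ⟨c, fun a => Iff.rfl⟩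
    have hm : ∀ U : IPow M X, U ∈ (⟨_, hs⟩ : IPow M (IPow M X)) ↔ Mem (code (M := M) U) c :=
      fun U => Iff.rfl
    refine (mem_cTT D).2 ⟨isUnion ⟨_, hs⟩, Dat.IsT.union fun U hU => ?_, extM fun z => ?_⟩
    · obtain ⟨V, hV, h⟩ := (mem_cTT D).1 (hc _ ((hm U).1 hU))
      rwa [← ITy.inj (M := M) h]
    · refine Iff.trans ?_ (hw z).symm
      refine mem_cc.trans ?_
      constructor
      · rintro ⟨a, ha, rfl⟩
        obtain ⟨U, hU, haU⟩ := mem_isUnion.1 ha
        exact ⟨code (M := M) U, (hm U).1 hU, mem_cc'.2 haU⟩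
      · rintro ⟨u, hu, hz⟩
        obtain ⟨U, hU, rfl⟩ := (mem_cTT D).1 (hc u hu)
        obtain ⟨a, ha, rfl⟩ := mem_cc.1 hz
        exact ⟨a, mem_isUnion.2 ⟨U, (hm U).2 hu, ha⟩, rfl⟩

/-- The base. -/
noncomputable def BB : IPow M (IPow M X) := sep M fun V => ∃ θ, D.VV θ = V

theorem mem_BB {V : IPow M X} : V ∈ BB D ↔ ∃ θ, D.VV θ = V := by
  have h := D.int_VV
  unfold BB
  rw [mem_sep (by (repeat' (first | with_reducible exact IntF.id | with_reducible exact IntF.fst' | with_reducible exact IntF.snd' | with_reducible exact IntF.const _ | with_reducible exact Int.const _ | assumption | with_reducible apply Int.and | with_reducible apply Int.or | with_reducible apply Int.not | with_reducible apply Int.imp | with_reducible apply Int.iff | with_reducible apply Int.ne | with_reducible apply Int.eq | with_reducible apply Int.mem | with_reducible apply Int.subset | with_reducible apply Int.ltN | with_reducible apply Int.leN | with_reducible apply Int.fin | with_reducible apply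 Int.unique | with_reducible apply Int.all | with_reducible apply Int.ex | with_reducible apply IntF.fst | with_reducible apply IntF.snd | with_reducible apply IntF.app | with_reducible apply IntF.ite | with_reducible apply IntF.sep | with_reducible apply IntF.lam | with_reducible apply IntF.insert | with_reducible apply IntF.singleton | with_reducible apply IntF.union | with_reducible apply IntF.inter | with_reducible apply IntF.sdiff | with_reducible apply IntF.isUnion | with_reducible apply IntF.iimage | with_reducible apply IntF.the | with_reducible apply IntF.irec | with_reducible_and_instances apply IntF.mul | with_reducible_and_instances apply IntF.inv | with_reducible_and_instances apply IntF.smul | with_reducible apply IntF.succ | with_reducible apply IntF.val | with_reducible apply IntF.mk | (with_reducible refine Int.comp ?_ ?_; assumption) | (with_reducible refine Int.comp₂ ?_ ?_ ?_; assumption) | (with_reducible refine Int.comp₃ ?_ ?_ ?_ ?_; assumption) | (with_reducible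 refine Int.comp₄ ?_ ?_ ?_ ?_ ?_; assumption) | (with_reducible refine IntF.comp ?_ ?_; assumption) | (with_reducible refine IntF.comp₂ ?_ ?_ ?_; assumption) | (with_reducible refine Helper672.ZFA.IntF.comp₃ ?_ ?_ ?_ ?_; assumption) | with_reducible apply IntF.pair)))]

theorem isBase_BB : IsBase (code (M := M) (BB D)) (code (M := M) (TT D)) := by
  constructor
  · intro u hu
    obtain ⟨V, hV, rfl⟩ := mem_cc.1 hu
    obtain ⟨θ, rfl⟩ := (mem_BB D).1 hV
    exact (mem_cTT D).2 ⟨_, Dat.isT_VV θ, rfl⟩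
  · intro u z hu hz
    obtain ⟨U, hU, rfl⟩ := (mem_cTT D).1 hu
    obtain ⟨a, ha, rfl⟩ := mem_cc.1 hz
    obtain ⟨θ, h1, h2⟩ := hU a ha
    refine ⟨code (M := M) (D.VV θ), mem_cc'.2 ((mem_BB D).2 ⟨θ, rfl⟩), mem_cc'.2 h1,
      fun y hy => ?_⟩
    obtain ⟨b, hb, rfl⟩ := mem_cc.1 hy
    exact mem_cc'.2 (h2 b hb)

theorem isWellOrderable_BB : IsWellOrderable (code (M := M) (BB D)) := by
  obtain ⟨r, hr⟩ := D.int_ltV
  have hr' : ∀ U V : IPow M X, App r (code (M := M) U) (code (M := M) V) ↔ D.ltV U V := fun U V =>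
    app_iff.trans (hr (U, V))
  refine ⟨r, fun x hx h => ?_, fun x y z hx hy hz hxy hyz => ?_, fun x y hx hy => ?_,
    fun s hs hne => ?_⟩
  · obtain ⟨U, -, rfl⟩ := mem_cc.1 hx
    exact Dat.ltV_irr U ((hr' U U).1 h)
  · obtain ⟨U, -, rfl⟩ := mem_cc.1 hx
    obtain ⟨V, -, rfl⟩ := mem_cc.1 hy
    obtain ⟨W, -, rfl⟩ := mem_cc.1 hz
    exact (hr' U W).2 (Dat.ltV_tr ((hr' U V).1 hxy) ((hr' V W).1 hyz))
  · obtain ⟨U, hU, rfl⟩ := mem_cc.1 hx
    obtain ⟨V, hV, rfl⟩ := mem_cc.1 hy
    rcases Dat.ltV_tri ((mem_BB D).1 hU) ((mem_BB D).1 hV) with h | h | h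
    · exact Or.inl ((hr' U V).2 h)
    · exact Or.inr (Or.inl (by rw [h]))
    · exact Or.inr (Or.inr ((hr' V U).2 h))
  · have hi : Int M (fun U : IPow M X => Mem (code (M := M) U) s) := ⟨s, fun a => Iff.rfl⟩
    obtain ⟨V, h1, h2⟩ := Dat.ltV_wf (D := D) hi (by
      obtain ⟨x, hx⟩ := hne
      obtain ⟨U, -, rfl⟩ := mem_cc.1 (hs x hx)
      exact ⟨U, hx⟩)
    refine ⟨code (M := M) V, h1, fun y hy h => ?_⟩
    obtain ⟨U, -, rfl⟩ := mem_cc.1 (hs y hy)
    exact h2 U hy ((hr' U V).1 h)

end win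

/-- The theorem. -/
theorem main {g tg x tx p : M} [Group (EL g)] [MulAction (EL g) (EL x)]
    (hG : IsPolishGroup tg g) (hX : IsPolish tx x) (hA : IsCtsAction tg g tx x)
    (hp : IsCoanalytic p tx x) (hinv : ∀ (a : EL g) (y : EL x), Helper672.Plain.Mem y.1 p →
      Helper672.Plain.Mem (a • y).1 p) :
    ∃ t, IsTopology t p ∧ IsFiner t p tx ∧ IsStrongChoquet t p ∧
      (∃ b, IsBase b t ∧ IsWellOrderable b) ∧ IsCtsOn tg g x t p := by
  have iM : IMul M (EL g) := ⟨int_of_opGraph (f := fun a b : EL g => a * b) hG.group⟩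
  have iS : ISMul M (EL g) (EL x) :=
    ⟨int_of_opGraph (f := fun (a : EL g) (y : EL x) => a • y) hA.graph⟩
  obtain ⟨hpx, s, ⟨y, ty, f, hY, hfg, hfc, hfs⟩, hsp⟩ := hp
  obtain ⟨SG, hSG⟩ := exists_PolS hG.polish
  obtain ⟨SX, hSX⟩ := exists_PolS hX
  obtain ⟨SY, hSY⟩ := exists_PolS hY
  obtain ⟨P, rfl⟩ := exists_codeE hpx
  have hfi : IntF M f := int_of_graph (f := f) hfg
  let D : Dat M (EL g) (EL x) (EL y) := {
    SG := SG
    SX := SX
    SY := SY
    mulc := fun a b U hU h => cts₂_of hG.mul hG.polish.top hG.polish.top hSG hSG hSG a b U hU h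
    invc := fun a U hU h => cts_of hG.inv hG.polish.top hSG hSG a U hU h
    smulc := fun a b U hU h => cts₂_of hA.cts hG.polish.top hX.top hSG hSX hSX a b U hU h
    f := ⟨f, hfi⟩
    fc := fun a U hU h => cts_of hfc hY.top hSY hSX a U hU h
    P := P
    Pinv := fun a z hz => mem_cE'.1 (hinv a z (mem_cE'.2 hz))
    Pf := fun z => by
      constructor
      · intro hz a ha
        have ha' : f a = z := ha
        exact ((hsp z.1).1 ((hfs z.1).2 ⟨a, by rw [ha']⟩)).2 (mem_cE'.2 hz)
      · intro h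
        by_contra hc
        obtain ⟨a, ha⟩ := (hfs z.1).1 ((hsp z.1).2 ⟨z.2, fun h' => hc (mem_cE'.1 h')⟩)
        exact h a (Subtype.ext ha) }
  refine ⟨code (M := M) (TT D), isTopology_TT D, fun u v hu hv => ?_, ⟨_, isWinning D⟩,
    ⟨_, isBase_BB D, isWellOrderable_BB D⟩, fun a z u hz hu h => ?_⟩
  · obtain ⟨U, rfl⟩ := exists_codeE (hX.top.sub u hu)
    refine (mem_cTT D).2 ⟨U ∩ P, Dat.isT_finer ((hSX U).2 hu), extM fun z => ?_⟩
    refine Iff.trans ?_ (hv z).symm
    refine mem_cc.trans ?_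
    constructor
    · rintro ⟨a, ha, rfl⟩
      exact ⟨mem_cc'.2 (mem_inter.1 ha).1, mem_cc'.2 (mem_inter.1 ha).2⟩
    · rintro ⟨h1, h2⟩
      obtain ⟨a, ha, rfl⟩ := mem_cc.1 h1
      exact ⟨a, mem_inter.2 ⟨ha, mem_cc'.1 h2⟩, rfl⟩
  · obtain ⟨U, hU, rfl⟩ := (mem_cTT D).1 hu
    obtain ⟨V, W, hV, hW, h1, h2, h3⟩ := Dat.isT_cont hU (mem_cE'.1 hz) (mem_cE'.1 h)
    refine ⟨code (M := M) V, code (M := M) W, (hSG V).1 hV, (mem_cTT D).2 ⟨W, hW, rfl⟩,
      mem_cE'.2 h1, mem_cE'.2 h2, fun a' z' ha' hz' => ?_⟩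
    exact mem_cE'.2 (h3 a' z' (mem_cE'.1 ha') (mem_cE'.1 hz'))

end

end Pool.Agent.W924
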