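import Pool.Agent.W924.PolS

/-!
# The stages for a coanalytic set
-/

set_option maxHeartbeats 1000000
set_option linter.all false

namespace Pool.Agent.W924

open FirstOrder FirstOrder.Language
open Pool.Agent.Helper672.ZFA
open Pool.Agent.H310

universe u

variable {M : Type u} [L.Structure M] [hM : IsModel M]

variable (M) in
/-- Nodes. -/
abbrev Nd : Type u := INat M × INat M

variable (M) in
/-- Points, nodes, and sets of group elements. -/
abbrev Zt (G X : Type u) [ITy M G] : Type u := (X × Nd M) × IPow M G

namespace Dat

variable {G X Y : Type u} [ITy M G] [ITy M X] [ITy M Y] [Group G] [MulAction G X] [IMul M G]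
  [ISMul M G X] (D : Dat M G X Y)

/-- The point `x` meets the node `ν`. -/
def meets (x : X) (ν : Nd M) : Prop :=
  ∃ j y, y ∈ D.SY.B ν.2 ∧ x ∈ D.SX.B j ∧ D.f y ∈ D.SX.B j ∧ (ν.1, D.SX.B j) ∈ D.SX.sm

theorem int_meets : Int M (fun q : X × Nd M => D.meets q.1 q.2) := by
  unfold meets
  (repeat' (first | with_reducible exact IntF.id | with_reducible exact IntF.fst' | with_reducible exact IntF.snd' | with_reducible exact IntF.const _ | with_reducible exact Int.const _ | assumption | with_reducible apply Int.and | with_reducible apply Int.or | with_reducible apply Int.not | with_reducible apply Int.imp | with_reducible apply Int.iff | with_reducible apply Int.ne | with_reducible apply Int.eq | with_reducible apply Int.mem | with_reducible apply Int.subset | with_reducible apply Int.ltN | with_reducible apply Int.leN | with_reducible apply Int.fin | with_reducible apply Int.unique | with_reducible apply Int.all | with_reducible apply Int.ex | with_reducible apply IntF.fst | with_reducible apply IntF.snd | with_reducible apply IntF.app | with_reducible apply IntF.ite | with_reducible apply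 IntF.sep | with_reducible apply IntF.lam | with_reducible apply IntF.insert | with_reducible apply IntF.singleton | with_reducible apply IntF.union | with_reducible apply IntF.inter | with_reducible apply IntF.sdiff | with_reducible apply IntF.isUnion | with_reducible apply IntF.iimage | with_reducible apply IntF.the | with_reducible apply IntF.irec | with_reducible_and_instances apply IntF.mul | with_reducible_and_instances apply IntF.inv | with_reducible_and_instances apply IntF.smul | with_reducible apply IntF.succ | with_reducible apply IntF.val | with_reducible apply IntF.mk | (with_reducible refine Int.comp ?_ ?_; assumption) | (with_reducible refine Int.comp₂ ?_ ?_ ?_; assumption) | (with_reducible refine Int.comp₃ ?_ ?_ ?_ ?_; assumption) | (with_reducible refine Int.comp₄ ?_ ?_ ?_ ?_ ?_; assumption) | (with_reducible refine IntF.comp ?_ ?_; assumption) | (with_reducible refine IntF.comp₂ ?_ ?_ ?_; assumption) | (with_reducible refine Helper672.ZFA.IntF.comp₃ ?_ ?_ ?_ ?_; assumption) | with_reducible apply IntF.pair))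

/-- The node `ν'` is a child of the node `ν`. -/
def chd (ν ν' : Nd M) : Prop :=
  ν'.1 = ν.1.succ ∧ LL D.SY.Op (D.SY.B ν'.2) (D.SY.B ν.2) ∧ (ν.1, D.SY.B ν'.2) ∈ D.SY.sm

theorem int_chd : Int M (fun q : Nd M × Nd M => D.chd q.1 q.2) := by
  unfold chd
  (repeat' (first | with_reducible exact IntF.id | with_reducible exact IntF.fst' | with_reducible exact IntF.snd' | with_reducible exact IntF.const _ | with_reducible exact Int.const _ | assumption | with_reducible apply Int.LL | with_reducible apply Int.and | with_reducible apply Int.or | with_reducible apply Int.not | with_reducible apply Int.imp | with_reducible apply Int.iff | with_reducible apply Int.ne | with_reducible apply Int.eq | with_reducible apply Int.mem | with_reducible apply Int.subset | with_reducible apply Int.ltN | with_reducible apply Int.leN | with_reducible apply Int.fin | with_reducible apply Int.unique | with_reducible apply Int.all | with_reducible apply Int.ex | with_reducible apply IntF.fst | with_reducible apply IntF.snd | with_reducible apply IntF.app | with_reducible apply IntF.ite | with_reducible apply IntF.sep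 | with_reducible apply IntF.lam | with_reducible apply IntF.insert | with_reducible apply IntF.singleton | with_reducible apply IntF.union | with_reducible apply IntF.inter | with_reducible apply IntF.sdiff | with_reducible apply IntF.isUnion | with_reducible apply IntF.iimage | with_reducible apply IntF.the | with_reducible apply IntF.irec | with_reducible_and_instances apply IntF.mul | with_reducible_and_instances apply IntF.inv | with_reducible_and_instances apply IntF.smul | with_reducible apply IntF.succ | with_reducible apply IntF.val | with_reducible apply IntF.mk | (with_reducible refine Int.comp ?_ ?_; assumption) | (with_reducible refine Int.comp₂ ?_ ?_ ?_; assumption) | (with_reducible refine Int.comp₃ ?_ ?_ ?_ ?_; assumption) | (with_reducible refine Int.comp₄ ?_ ?_ ?_ ?_ ?_; assumption) | (with_reducible refine IntF.comp ?_ ?_; assumption) | (with_reducible refine IntF.comp₂ ?_ ?_ ?_; assumption) | (with_reducible refine Helper672.ZFA.IntF.comp₃ ?_ ?_ ?_ ?_; assumption) | with_reducible apply IntF.pair))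

variable {D} in
theorem meets_mono {ν ν' : Nd M} (h : D.chd ν ν') {x : X} (hx : D.meets x ν') :
    D.meets x ν := by
  obtain ⟨j, y, h1, h2, h3, h4⟩ := hx
  refine ⟨j, y, h.2.1.sub _ h1, h2, h3, D.SX.sm_le _ _ _ _ ?_ (fun _ => id) h4⟩
  rw [h.1]
  exact INat.le_succ_self _

/-- The first stage. -/
noncomputable def bs : IPow M (Zt M G X) :=
  sep M fun z => ∀ k, k ∈ z.2 → ¬ D.meets (k • z.1.1) z.1.2

theorem mem_bs {x : X} {ν : Nd M} {O : IPow M G} :
    ((x, ν), O) ∈ D.bs ↔ ∀ k, k ∈ O → ¬ D.meets (k • x) ν := by
  have h := D.int_meets
  unfold bs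
  rw [mem_sep (by (repeat' (first | with_reducible exact IntF.id | with_reducible exact IntF.fst' | with_reducible exact IntF.snd' | with_reducible exact IntF.const _ | with_reducible exact Int.const _ | assumption | with_reducible apply Int.and | with_reducible apply Int.or | with_reducible apply Int.not | with_reducible apply Int.imp | with_reducible apply Int.iff | with_reducible apply Int.ne | with_reducible apply Int.eq | with_reducible apply Int.mem | with_reducible apply Int.subset | with_reducible apply Int.ltN | with_reducible apply Int.leN | with_reducible apply Int.fin | with_reducible apply Int.unique | with_reducible apply Int.all | with_reducible apply Int.ex | with_reducible apply IntF.fst | with_reducible apply IntF.snd | with_reducible apply IntF.app | with_reducible apply IntF.ite | with_reducible apply IntF.sep | with_reducible apply IntF.lam | with_reducible apply IntF.insert | with_reducible apply IntF.singleton | with_reducible apply IntF.union | with_reducible apply IntF.inter | with_reducible apply IntF.sdiff | with_reducible apply IntF.isUnion | with_reducible apply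 IntF.iimage | with_reducible apply IntF.the | with_reducible apply IntF.irec | with_reducible_and_instances apply IntF.mul | with_reducible_and_instances apply IntF.inv | with_reducible_and_instances apply IntF.smul | with_reducible apply IntF.succ | with_reducible apply IntF.val | with_reducible apply IntF.mk | (with_reducible refine Int.comp ?_ ?_; assumption) | (with_reducible refine Int.comp₂ ?_ ?_ ?_; assumption) | (with_reducible refine Int.comp₃ ?_ ?_ ?_ ?_; assumption) | (with_reducible refine Int.comp₄ ?_ ?_ ?_ ?_ ?_; assumption) | (with_reducible refine IntF.comp ?_ ?_; assumption) | (with_reducible refine IntF.comp₂ ?_ ?_ ?_; assumption) | (with_reducible refine Helper672.ZFA.IntF.comp₃ ?_ ?_ ?_ ?_; assumption) | with_reducible apply IntF.pair)))]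

/-- The next stage. -/
noncomputable def gm (A : IPow M (Zt M G X)) : IPow M (Zt M G X) :=
  sep M fun z => ∀ ν', D.chd z.1.2 ν' → ∀ O', O' ∈ D.SG.Op → O' ⊆ z.2 → (∃ h, h ∈ O') →
    ∃ O'', O'' ∈ D.SG.Op ∧ O'' ⊆ O' ∧ (∃ h, h ∈ O'') ∧ ((z.1.1, ν'), O'') ∈ A

theorem mem_gm {A : IPow M (Zt M G X)} {x : X} {ν : Nd M} {O : IPow M G} :
    ((x, ν), O) ∈ D.gm A ↔ ∀ ν', D.chd ν ν' → ∀ O', O' ∈ D.SG.Op → O' ⊆ O → (∃ h, h ∈ O') →
      ∃ O'', O'' ∈ D.SG.Op ∧ O'' ⊆ O' ∧ (∃ h, h ∈ O'') ∧ ((x, ν'), O'') ∈ A := by
  have h := D.int_chd
  unfold gm
  rw [mem_sep (by (repeat' (first | with_reducible exact IntF.id | with_reducible exact IntF.fst' | with_reducible exact IntF.snd' | with_reducible exact IntF.const _ | with_reducible exact Int.const _ | assumption | with_reducible apply Int.and | with_reducible apply Int.or | with_reducible apply Int.not | with_reducible apply Int.imp | with_reducible apply Int.iff | with_reducible apply Int.ne | with_reducible apply Int.eq | with_reducible apply Int.mem | with_reducible apply Int.subset | with_reducible apply Int.ltN | with_reducible apply Int.leN | with_reducible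 apply Int.fin | with_reducible apply Int.unique | with_reducible apply Int.all | with_reducible apply Int.ex | with_reducible apply IntF.fst | with_reducible apply IntF.snd | with_reducible apply IntF.app | with_reducible apply IntF.ite | with_reducible apply IntF.sep | with_reducible apply IntF.lam | with_reducible apply IntF.insert | with_reducible apply IntF.singleton | with_reducible apply IntF.union | with_reducible apply IntF.inter | with_reducible apply IntF.sdiff | with_reducible apply IntF.isUnion | with_reducible apply IntF.iimage | with_reducible apply IntF.the | with_reducible apply IntF.irec | with_reducible_and_instances apply IntF.mul | with_reducible_and_instances apply IntF.inv | with_reducible_and_instances apply IntF.smul | with_reducible apply IntF.succ | with_reducible apply IntF.val | with_reducible apply IntF.mk | (with_reducible refine Int.comp ?_ ?_; assumption) | (with_reducible refine Int.comp₂ ?_ ?_ ?_; assumption) | (with_reducible refine Int.comp₃ ?_ ?_ ?_ ?_; assumption) | (with_reducible refine Int.comp₄ ?_ ?_ ?_ ?_ ?_; assumption) | (with_reducible refine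 IntF.comp ?_ ?_; assumption) | (with_reducible refine IntF.comp₂ ?_ ?_ ?_; assumption) | (with_reducible refine Helper672.ZFA.IntF.comp₃ ?_ ?_ ?_ ?_; assumption) | with_reducible apply IntF.pair)))]

theorem int_gm : IntF M D.gm := by
  have h := D.int_chd
  have h1 : IntF M (fun A => D.gm A) := by
    unfold gm
    (repeat' (first | with_reducible exact IntF.id | with_reducible exact IntF.fst' | with_reducible exact IntF.snd' | with_reducible exact IntF.const _ | with_reducible exact Int.const _ | assumption | with_reducible apply Int.and | with_reducible apply Int.or | with_reducible apply Int.not | with_reducible apply Int.imp | with_reducible apply Int.iff | with_reducible apply Int.ne | with_reducible apply Int.eq | with_reducible apply Int.mem | with_reducible apply Int.subset | with_reducible apply Int.ltN | with_reducible apply Int.leN | with_reducible apply Int.fin | with_reducible apply Int.unique | with_reducible apply Int.all | with_reducible apply Int.ex | with_reducible apply IntF.fst | with_reducible apply IntF.snd | with_reducible apply IntF.app | with_reducible apply IntF.ite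 | with_reducible apply IntF.sep | with_reducible apply IntF.lam | with_reducible apply IntF.insert | with_reducible apply IntF.singleton | with_reducible apply IntF.union | with_reducible apply IntF.inter | with_reducible apply IntF.sdiff | with_reducible apply IntF.isUnion | with_reducible apply IntF.iimage | with_reducible apply IntF.the | with_reducible apply IntF.irec | with_reducible_and_instances apply IntF.mul | with_reducible_and_instances apply IntF.inv | with_reducible_and_instances apply IntF.smul | with_reducible apply IntF.succ | with_reducible apply IntF.val | with_reducible apply IntF.mk | (with_reducible refine Int.comp ?_ ?_; assumption) | (with_reducible refine Int.comp₂ ?_ ?_ ?_; assumption) | (with_reducible refine Int.comp₃ ?_ ?_ ?_ ?_; assumption) | (with_reducible refine Int.comp₄ ?_ ?_ ?_ ?_ ?_; assumption) | (with_reducible refine IntF.comp ?_ ?_; assumption) | (with_reducible refine IntF.comp₂ ?_ ?_ ?_; assumption) | (with_reducible refine Helper672.ZFA.IntF.comp₃ ?_ ?_ ?_ ?_; assumption) | with_reducible apply IntF.pair))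
  exact h1

/-- The stages. -/
noncomputable def tw : Tw M (Zt M G X) where
  Γ := D.gm
  b := D.bs
  int := D.int_gm
  mono s t h := by
    rintro ⟨⟨x, ν⟩, O⟩ hz
    rw [mem_gm] at hz ⊢
    intro ν' h1 O' h2 h3 h4
    obtain ⟨O'', h5, h6, h7, h8⟩ := hz ν' h1 O' h2 h3 h4
    exact ⟨O'', h5, h6, h7, h _ h8⟩
  infl := by
    rintro ⟨⟨x, ν⟩, O⟩ hz
    rw [mem_gm]
    rw [mem_bs] at hz
    intro ν' h1 O' h2 h3 h4
    refine ⟨O', h2, fun _ => id, h4, ?_⟩
    rw [mem_bs]
    exact fun k hk h => hz k (h3 k hk) (meets_mono h1 h)

theorem tw_b : D.tw.b = D.bs := rfl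

theorem tw_Γ (A : IPow M (Zt M G X)) : D.tw.Γ A = D.gm A := rfl

variable {D}

/-- The stages are monotone in the set of group elements. -/
theorem mono {S : IPow M (Zt M G X)} (hS : D.tw.Stg S) {x : X} {ν : Nd M} {O O₁ : IPow M G}
    (h : O₁ ⊆ O) (hz : ((x, ν), O) ∈ S) : ((x, ν), O₁) ∈ S := by
  revert x ν O O₁
  refine Tw.Stg.ind (T := D.tw) (p := fun S => ∀ {x : X} {ν : Nd M} {O O₁ : IPow M G},
    O₁ ⊆ O → ((x, ν), O) ∈ S → ((x, ν), O₁) ∈ S) (by (repeat' (first | with_reducible exact IntF.id | with_reducible exact IntF.fst' | with_reducible exact IntF.snd' | with_reducible exact IntF.const _ | with_reducible exact Int.const _ | assumption | with_reducible apply Int.and | with_reducible apply Int.or | with_reducible apply Int.not | with_reducible apply Int.imp | with_reducible apply Int.iff | with_reducible apply Int.ne | with_reducible apply Int.eq | with_reducible apply Int.mem | with_reducible apply Int.subset | with_reducible apply Int.ltN | with_reducible apply Int.leN | with_reducible apply Int.fin | with_reducible apply Int.unique | with_reducible apply Int.all | with_reducible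 apply Int.ex | with_reducible apply IntF.fst | with_reducible apply IntF.snd | with_reducible apply IntF.app | with_reducible apply IntF.ite | with_reducible apply IntF.sep | with_reducible apply IntF.lam | with_reducible apply IntF.insert | with_reducible apply IntF.singleton | with_reducible apply IntF.union | with_reducible apply IntF.inter | with_reducible apply IntF.sdiff | with_reducible apply IntF.isUnion | with_reducible apply IntF.iimage | with_reducible apply IntF.the | with_reducible apply IntF.irec | with_reducible_and_instances apply IntF.mul | with_reducible_and_instances apply IntF.inv | with_reducible_and_instances apply IntF.smul | with_reducible apply IntF.succ | with_reducible apply IntF.val | with_reducible apply IntF.mk | (with_reducible refine Int.comp ?_ ?_; assumption) | (with_reducible refine Int.comp₂ ?_ ?_ ?_; assumption) | (with_reducible refine Int.comp₃ ?_ ?_ ?_ ?_; assumption) | (with_reducible refine Int.comp₄ ?_ ?_ ?_ ?_ ?_; assumption) | (with_reducible refine IntF.comp ?_ ?_; assumption) | (with_reducible refine IntF.comp₂ ?_ ?_ ?_; assumption) | (with_reducible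 refine Helper672.ZFA.IntF.comp₃ ?_ ?_ ?_ ?_; assumption) | with_reducible apply IntF.pair))) ?_ ?_ ?_ S hS
  · intro x ν O O₁ h hz
    rw [tw_b, mem_bs] at hz ⊢
    exact fun k hk => hz k (h k hk)
  · intro S _ _ x ν O O₁ h hz
    rw [tw_Γ, mem_gm] at hz ⊢
    exact fun ν' h1 O' h2 h3 h4 => hz ν' h1 O' h2 (fun k hk => h k (h3 k hk)) h4
  · intro C hC _ x ν O O₁ h hz
    obtain ⟨s, hs, hz⟩ := mem_isUnion.1 hz
    exact mem_isUnion.2 ⟨s, hs, (hC s hs).2 h hz⟩

theorem equi_aux {S : IPow M (Zt M G X)} (hS : D.tw.Stg S) : ∀ (k : G) (x : X) (ν : Nd M)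
    (O : IPow M G), ((k • x, ν), O) ∈ S → ((x, ν), rt O k) ∈ S := by
  refine Tw.Stg.ind (T := D.tw) (p := fun S => ∀ (k : G) (x : X) (ν : Nd M)
    (O : IPow M G), ((k • x, ν), O) ∈ S → ((x, ν), rt O k) ∈ S) (by (repeat' (first | with_reducible exact IntF.id | with_reducible exact IntF.fst' | with_reducible exact IntF.snd' | with_reducible exact IntF.const _ | with_reducible exact Int.const _ | assumption | with_reducible apply IntF.rt | with_reducible apply Int.and | with_reducible apply Int.or | with_reducible apply Int.not | with_reducible apply Int.imp | with_reducible apply Int.iff | with_reducible apply Int.ne | with_reducible apply Int.eq | with_reducible apply Int.mem | with_reducible apply Int.subset | with_reducible apply Int.ltN | with_reducible apply Int.leN | with_reducible apply Int.fin | with_reducible apply Int.unique | with_reducible apply Int.all | with_reducible apply Int.ex | with_reducible apply IntF.fst | with_reducible apply IntF.snd | with_reducible apply IntF.app | with_reducible apply IntF.ite | with_reducible apply IntF.sep | with_reducible apply IntF.lam | with_reducible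 apply IntF.insert | with_reducible apply IntF.singleton | with_reducible apply IntF.union | with_reducible apply IntF.inter | with_reducible apply IntF.sdiff | with_reducible apply IntF.isUnion | with_reducible apply IntF.iimage | with_reducible apply IntF.the | with_reducible apply IntF.irec | with_reducible_and_instances apply IntF.mul | with_reducible_and_instances apply IntF.inv | with_reducible_and_instances apply IntF.smul | with_reducible apply IntF.succ | with_reducible apply IntF.val | with_reducible apply IntF.mk | (with_reducible refine Int.comp ?_ ?_; assumption) | (with_reducible refine Int.comp₂ ?_ ?_ ?_; assumption) | (with_reducible refine Int.comp₃ ?_ ?_ ?_ ?_; assumption) | (with_reducible refine Int.comp₄ ?_ ?_ ?_ ?_ ?_; assumption) | (with_reducible refine IntF.comp ?_ ?_; assumption) | (with_reducible refine IntF.comp₂ ?_ ?_ ?_; assumption) | (with_reducible refine Helper672.ZFA.IntF.comp₃ ?_ ?_ ?_ ?_; assumption) | with_reducible apply IntF.pair))) ?_ ?_ ?_ S hS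
  · intro k x ν O hz
    rw [tw_b, mem_bs] at hz ⊢
    intro h hh
    have h1 := hz _ (mem_rt.1 hh)
    rwa [smul_smul, inv_mul_cancel_right] at h1
  · intro S _ ih k x ν O hz
    rw [tw_Γ, mem_gm] at hz ⊢
    rintro ν' h1 O' h2 h3 ⟨h, hh⟩
    obtain ⟨O'', h5, h6, ⟨h', hh'⟩, h8⟩ := hz ν' h1 (rt O' k⁻¹) (D.rt_op h2 _) (fun a ha => by
      have h4 := h3 _ (mem_rt.1 ha)
      rw [mem_rt, inv_inv] at h4
      rwa [mul_inv_cancel_right] at h4) ⟨h * k⁻¹, mul_mem_rt.2 hh⟩
    refine ⟨rt O'' k, D.rt_op h5 _, fun a ha => ?_, ⟨h' * k, mul_mem_rt.2 hh'⟩, ih k x ν' O'' h8⟩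
    have h9 := h6 _ (mem_rt.1 ha)
    rw [mem_rt, inv_inv] at h9
    rwa [inv_mul_cancel_right] at h9
  · intro C hC _ k x ν O hz
    obtain ⟨s, hs, hz⟩ := mem_isUnion.1 hz
    exact mem_isUnion.2 ⟨s, hs, (hC s hs).2 k x ν O hz⟩

/-- Equivariance. -/
theorem equi {S : IPow M (Zt M G X)} (hS : D.tw.Stg S) {k : G} {x : X} {ν : Nd M}
    {O : IPow M G} : ((k • x, ν), O) ∈ S ↔ ((x, ν), rt O k) ∈ S := by
  refine ⟨equi_aux hS k x ν O, fun h => ?_⟩
  have h1 := equi_aux hS k⁻¹ (k • x) ν (rt O k) (by rwa [inv_smul_smul])
  refine mono hS (fun a ha => ?_) h1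
  rw [mem_rt, mem_rt, inv_inv, mul_inv_cancel_right]
  exact ha

/-- From a product to a translate. -/
theorem unloc {S : IPow M (Zt M G X)} (hS : D.tw.Stg S) {x : X} {ν : Nd M}
    {O K : IPow M G} (h : ((x, ν), pm O K) ∈ S) {k : G} (hk : k ∈ K) : ((k • x, ν), O) ∈ S :=
  (equi hS).2 (mono hS (rt_sub_pm hk) h)

/-- Locality. -/
theorem local_ {S : IPow M (Zt M G X)} (hS : D.tw.PSt S) {x : X} {ν : Nd M}
    {O K : IPow M G} (hO : O ∈ D.SG.Op) (h : ∀ k, k ∈ K → ((k • x, ν), O) ∈ S) :
    ((x, ν), pm O K) ∈ S := by
  rcases hS with rfl | ⟨T, hT, rfl, -⟩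
  · rw [tw_b, mem_bs]
    intro a ha
    obtain ⟨k, hk, h1⟩ := mem_pm.1 ha
    have h2 := h k hk
    rw [tw_b, mem_bs] at h2
    have h3 := h2 _ h1
    rwa [smul_smul, inv_mul_cancel_right] at h3
  · rw [tw_Γ, mem_gm]
    rintro ν' h1 O' h2 h3 ⟨a, ha⟩
    obtain ⟨k, hk, h4⟩ := mem_pm.1 (h3 a ha)
    have h5 := (equi hT.step).1 (h k hk)
    rw [tw_Γ, mem_gm] at h5
    obtain ⟨O'', h6, h7, h8, h9⟩ := h5 ν' h1 (O' ∩ rt O k) (D.SG.inter _ _ h2 (D.rt_op hO k))
      (fun b hb => (mem_inter.1 hb).2) ⟨a, mem_inter.2 ⟨ha, mem_rt.2 h4⟩⟩
    exact ⟨O'', h6, fun b hb => (mem_inter.1 (h7 b hb)).1, h8, h9⟩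

/-- Extension to a neighbourhood. -/
theorem extend {T : IPow M (Zt M G X)} (hT : D.tw.Stg T) {x : X} {ν : Nd M}
    {Q N W : IPow M G} (hQ : Q ∈ D.SG.Op) (hz : ((x, ν), Q) ∈ T) {o w : G} (how : o * w ∈ Q)
    (hN : N ∈ D.SG.Op) (ho : o ∈ N) (hW : W ∈ D.SG.Op) (hw : w ∈ W) :
    ∃ c W' S, o ∈ D.SG.B c ∧ D.SG.B c ⊆ N ∧ W' ∈ D.SG.Op ∧ w ∈ W' ∧ W' ⊆ W ∧ D.tw.PSt S ∧
      S ⊆ T ∧ ∀ k, k ∈ W' → ((k • x, ν), D.SG.B c) ∈ S := by
  obtain ⟨V, W₁, hV, hW₁, h1, h2, h3⟩ := D.mulc o w Q hQ how
  obtain ⟨c, h4, h5⟩ := D.SG.nbhd (D.SG.inter _ _ hV hN) (mem_inter.2 ⟨h1, ho⟩)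
  have h6 : pm (D.SG.B c) (W₁ ∩ W) ⊆ Q := by
    intro a ha
    obtain ⟨k, hk, h7⟩ := mem_pm.1 ha
    have h8 := h3 _ _ (mem_inter.1 (h5 _ h7)).1 (mem_inter.1 hk).1
    rwa [inv_mul_cancel_right] at h8
  obtain ⟨S, hS, h7, h8⟩ := Tw.exists_first hT (mono hT h6 hz)
  exact ⟨c, W₁ ∩ W, S, h4, fun a ha => (mem_inter.1 (h5 a ha)).2, D.SG.inter _ _ hW₁ hW,
    mem_inter.2 ⟨h2, hw⟩, fun a ha => (mem_inter.1 ha).2, hS, h8, fun k hk => unloc hS.stg h7 hk⟩

end Dat

end Pool.Agent.W924
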