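import Pool.Agent.W924.Idx

/-!
# The strategy
-/

set_option maxHeartbeats 1000000
set_option linter.all false

namespace Pool.Agent.W924

open FirstOrder FirstOrder.Language
open Pool.Agent.Helper672.ZFA
open Pool.Agent.H310

universe u

variable {M : Type u} [L.Structure M] [hM : IsModel M]

namespace Dat

variable {G X Y : Type u} [ITy M G] [ITy M X] [ITy M Y] [Group G] [MulAction G X] [IMul M G]
  [ISMul M G X] (D : Dat M G X Y)

/-- The root fact. -/
def g2 (θ' : D.Tt) : Prop :=
  ∃ f, f ∈ θ'.2.1 ∧ f.1.1 = ((0 : INat M), (0 : INat M)) ∧ (1 : G) ∈ D.cod f.2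

/-- The first kind of requests. -/
def q3 (r : D.Fct × (Nd M × INat M)) : Prop :=
  r.1.1.2.1 ≠ D.bs ∧ D.chd r.1.1.1 r.2.1 ∧ D.SG.B r.2.2 ⊆ D.cod r.1.2 ∧ ∃ h, h ∈ D.SG.B r.2.2

/-- The answers to the first kind of requests. -/
def a3 (r : D.Fct × (Nd M × INat M)) (f' : D.Fct) : Prop :=
  f'.1.1 = r.2.1 ∧ D.tw.ltS f'.1.2 r.1.1.2 ∧ D.cod f'.2 ⊆ D.SG.B r.2.2 ∧ ∃ h, h ∈ D.cod f'.2

/-- The second kind of requests. -/
def q5 (r : D.Fct × Nd M) : Prop :=
  r.1.1.2.1 ≠ D.bs ∧ D.chd r.1.1.1 r.2 ∧ (1 : G) ∈ D.cod r.1.2

/-- The answers to the second kind of requests. -/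
def a5 (r : D.Fct × Nd M) (f' : D.Fct) : Prop :=
  f'.1.1 = r.2 ∧ D.tw.ltS f'.1.2 r.1.1.2 ∧ (1 : G) ∈ D.cod f'.2

theorem int_q3 : Int M (fun r => D.q3 r) := by
  have h := D.int_chd
  unfold q3
  (repeat' (first | with_reducible exact IntF.id | with_reducible exact IntF.fst' | with_reducible exact IntF.snd' | with_reducible exact IntF.const _ | with_reducible exact Int.const _ | assumption | with_reducible apply Int.and | with_reducible apply Int.or | with_reducible apply Int.not | with_reducible apply Int.imp | with_reducible apply Int.iff | with_reducible apply Int.ne | with_reducible apply Int.eq | with_reducible apply Int.mem | with_reducible apply Int.subset | with_reducible apply Int.ltN | with_reducible apply Int.leN | with_reducible apply Int.fin | with_reducible apply Int.unique | with_reducible apply Int.all | with_reducible apply Int.ex | with_reducible apply IntF.fst | with_reducible apply IntF.snd | with_reducible apply IntF.app | with_reducible apply IntF.ite | with_reducible apply IntF.sep | with_reducible apply IntF.lam | with_reducible apply IntF.insert | with_reducible apply IntF.singleton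 | with_reducible apply IntF.union | with_reducible apply IntF.inter | with_reducible apply IntF.sdiff | with_reducible apply IntF.isUnion | with_reducible apply IntF.iimage | with_reducible apply IntF.the | with_reducible apply IntF.irec | with_reducible_and_instances apply IntF.mul | with_reducible_and_instances apply IntF.inv | with_reducible_and_instances apply IntF.smul | with_reducible apply IntF.succ | with_reducible apply IntF.val | with_reducible apply IntF.mk | (with_reducible refine Int.comp ?_ ?_; assumption) | (with_reducible refine Int.comp₂ ?_ ?_ ?_; assumption) | (with_reducible refine Int.comp₃ ?_ ?_ ?_ ?_; assumption) | (with_reducible refine Int.comp₄ ?_ ?_ ?_ ?_ ?_; assumption) | (with_reducible refine IntF.comp ?_ ?_; assumption) | (with_reducible refine IntF.comp₂ ?_ ?_ ?_; assumption) | (with_reducible refine Helper672.ZFA.IntF.comp₃ ?_ ?_ ?_ ?_; assumption) | with_reducible apply IntF.pair))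

theorem int_q5 : Int M (fun r => D.q5 r) := by
  have h := D.int_chd
  unfold q5
  (repeat' (first | with_reducible exact IntF.id | with_reducible exact IntF.fst' | with_reducible exact IntF.snd' | with_reducible exact IntF.const _ | with_reducible exact Int.const _ | assumption | with_reducible apply Int.and | with_reducible apply Int.or | with_reducible apply Int.not | with_reducible apply Int.imp | with_reducible apply Int.iff | with_reducible apply Int.ne | with_reducible apply Int.eq | with_reducible apply Int.mem | with_reducible apply Int.subset | with_reducible apply Int.ltN | with_reducible apply Int.leN | with_reducible apply Int.fin | with_reducible apply Int.unique | with_reducible apply Int.all | with_reducible apply Int.ex | with_reducible apply IntF.fst | with_reducible apply IntF.snd | with_reducible apply IntF.app | with_reducible apply IntF.ite | with_reducible apply IntF.sep | with_reducible apply IntF.lam | with_reducible apply IntF.insert | with_reducible apply IntF.singleton | with_reducible apply IntF.union | with_reducible apply IntF.inter | with_reducible apply IntF.sdiff | with_reducible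 apply IntF.isUnion | with_reducible apply IntF.iimage | with_reducible apply IntF.the | with_reducible apply IntF.irec | with_reducible_and_instances apply IntF.mul | with_reducible_and_instances apply IntF.inv | with_reducible_and_instances apply IntF.smul | with_reducible apply IntF.succ | with_reducible apply IntF.val | with_reducible apply IntF.mk | (with_reducible refine Int.comp ?_ ?_; assumption) | (with_reducible refine Int.comp₂ ?_ ?_ ?_; assumption) | (with_reducible refine Int.comp₃ ?_ ?_ ?_ ?_; assumption) | (with_reducible refine Int.comp₄ ?_ ?_ ?_ ?_ ?_; assumption) | (with_reducible refine IntF.comp ?_ ?_; assumption) | (with_reducible refine IntF.comp₂ ?_ ?_ ?_; assumption) | (with_reducible refine Helper672.ZFA.IntF.comp₃ ?_ ?_ ?_ ?_; assumption) | with_reducible apply IntF.pair))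

theorem int_a3 : Int M (fun q : (D.Fct × (Nd M × INat M)) × D.Fct => D.a3 q.1 q.2) := by
  have h := D.tw.iwo.int
  unfold a3
  (repeat' (first | with_reducible exact IntF.id | with_reducible exact IntF.fst' | with_reducible exact IntF.snd' | with_reducible exact IntF.const _ | with_reducible exact Int.const _ | assumption | with_reducible apply Int.and | with_reducible apply Int.or | with_reducible apply Int.not | with_reducible apply Int.imp | with_reducible apply Int.iff | with_reducible apply Int.ne | with_reducible apply Int.eq | with_reducible apply Int.mem | with_reducible apply Int.subset | with_reducible apply Int.ltN | with_reducible apply Int.leN | with_reducible apply Int.fin | with_reducible apply Int.unique | with_reducible apply Int.all | with_reducible apply Int.ex | with_reducible apply IntF.fst | with_reducible apply IntF.snd | with_reducible apply IntF.app | with_reducible apply IntF.ite | with_reducible apply IntF.sep | with_reducible apply IntF.lam | with_reducible apply IntF.insert | with_reducible apply IntF.singleton | with_reducible apply IntF.union | with_reducible apply IntF.inter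 | with_reducible apply IntF.sdiff | with_reducible apply IntF.isUnion | with_reducible apply IntF.iimage | with_reducible apply IntF.the | with_reducible apply IntF.irec | with_reducible_and_instances apply IntF.mul | with_reducible_and_instances apply IntF.inv | with_reducible_and_instances apply IntF.smul | with_reducible apply IntF.succ | with_reducible apply IntF.val | with_reducible apply IntF.mk | (with_reducible refine Int.comp ?_ ?_; assumption) | (with_reducible refine Int.comp₂ ?_ ?_ ?_; assumption) | (with_reducible refine Int.comp₃ ?_ ?_ ?_ ?_; assumption) | (with_reducible refine Int.comp₄ ?_ ?_ ?_ ?_ ?_; assumption) | (with_reducible refine IntF.comp ?_ ?_; assumption) | (with_reducible refine IntF.comp₂ ?_ ?_ ?_; assumption) | (with_reducible refine Helper672.ZFA.IntF.comp₃ ?_ ?_ ?_ ?_; assumption) | with_reducible apply IntF.pair))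

theorem int_a5 : Int M (fun q : (D.Fct × Nd M) × D.Fct => D.a5 q.1 q.2) := by
  have h := D.tw.iwo.int
  unfold a5
  (repeat' (first | with_reducible exact IntF.id | with_reducible exact IntF.fst' | with_reducible exact IntF.snd' | with_reducible exact IntF.const _ | with_reducible exact Int.const _ | assumption | with_reducible apply Int.and | with_reducible apply Int.or | with_reducible apply Int.not | with_reducible apply Int.imp | with_reducible apply Int.iff | with_reducible apply Int.ne | with_reducible apply Int.eq | with_reducible apply Int.mem | with_reducible apply Int.subset | with_reducible apply Int.ltN | with_reducible apply Int.leN | with_reducible apply Int.fin | with_reducible apply Int.unique | with_reducible apply Int.all | with_reducible apply Int.ex | with_reducible apply IntF.fst | with_reducible apply IntF.snd | with_reducible apply IntF.app | with_reducible apply IntF.ite | with_reducible apply IntF.sep | with_reducible apply IntF.lam | with_reducible apply IntF.insert | with_reducible apply IntF.singleton | with_reducible apply IntF.union | with_reducible apply IntF.inter | with_reducible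 apply IntF.sdiff | with_reducible apply IntF.isUnion | with_reducible apply IntF.iimage | with_reducible apply IntF.the | with_reducible apply IntF.irec | with_reducible_and_instances apply IntF.mul | with_reducible_and_instances apply IntF.inv | with_reducible_and_instances apply IntF.smul | with_reducible apply IntF.succ | with_reducible apply IntF.val | with_reducible apply IntF.mk | (with_reducible refine Int.comp ?_ ?_; assumption) | (with_reducible refine Int.comp₂ ?_ ?_ ?_; assumption) | (with_reducible refine Int.comp₃ ?_ ?_ ?_ ?_; assumption) | (with_reducible refine Int.comp₄ ?_ ?_ ?_ ?_ ?_; assumption) | (with_reducible refine IntF.comp ?_ ?_; assumption) | (with_reducible refine IntF.comp₂ ?_ ?_ ?_; assumption) | (with_reducible refine Helper672.ZFA.IntF.comp₃ ?_ ?_ ?_ ?_; assumption) | with_reducible apply IntF.pair))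

/-- The good answers of player II in round `n`. -/
def good (n : INat M) (θ : D.Tt) (x : X) (U : IPow M X) (θ' : D.Tt) : Prop :=
  (∃ θ₁, D.VV θ₁ ⊆ U ∧ D.ref θ' θ₁) ∧ x ∈ D.VV θ' ∧ D.below n θ θ' ∧ D.g2 θ' ∧
    (∀ r : D.Fct × (Nd M × INat M), r.1 ∈ θ.2.1 → D.q3 r → r.2.1.1 ≤ n → r.2.1.2 ≤ n →
      r.2.2 ≤ n → ∃ f', f' ∈ θ'.2.1 ∧ D.a3 r f') ∧
    ∀ r : D.Fct × Nd M, r.1 ∈ θ.2.1 → D.q5 r → r.2.1 ≤ n → r.2.2 ≤ n →
      ∃ f', f' ∈ θ'.2.1 ∧ D.a5 r f'

theorem int_good : Int M (fun q : ((INat M × D.Tt) × (X × IPow M X)) × D.Tt =>
    D.good q.1.1.1 q.1.1.2 q.1.2.1 q.1.2.2 q.2) := by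
  have h1 := D.int_VV
  have h2 := D.int_ref
  have h3 := D.int_below
  have h4 := D.int_q3
  have h5 := D.int_q5
  have h6 := D.int_a3
  have h7 := D.int_a5
  unfold good g2
  (repeat' (first | with_reducible exact IntF.id | with_reducible exact IntF.fst' | with_reducible exact IntF.snd' | with_reducible exact IntF.const _ | with_reducible exact Int.const _ | assumption | with_reducible apply Int.and | with_reducible apply Int.or | with_reducible apply Int.not | with_reducible apply Int.imp | with_reducible apply Int.iff | with_reducible apply Int.ne | with_reducible apply Int.eq | with_reducible apply Int.mem | with_reducible apply Int.subset | with_reducible apply Int.ltN | with_reducible apply Int.leN | with_reducible apply Int.fin | with_reducible apply Int.unique | with_reducible apply Int.all | with_reducible apply Int.ex | with_reducible apply IntF.fst | with_reducible apply IntF.snd | with_reducible apply IntF.app | with_reducible apply IntF.ite | with_reducible apply IntF.sep | with_reducible apply IntF.lam | with_reducible apply IntF.insert | with_reducible apply IntF.singleton | with_reducible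 apply IntF.union | with_reducible apply IntF.inter | with_reducible apply IntF.sdiff | with_reducible apply IntF.isUnion | with_reducible apply IntF.iimage | with_reducible apply IntF.the | with_reducible apply IntF.irec | with_reducible_and_instances apply IntF.mul | with_reducible_and_instances apply IntF.inv | with_reducible_and_instances apply IntF.smul | with_reducible apply IntF.succ | with_reducible apply IntF.val | with_reducible apply IntF.mk | (with_reducible refine Int.comp ?_ ?_; assumption) | (with_reducible refine Int.comp₂ ?_ ?_ ?_; assumption) | (with_reducible refine Int.comp₃ ?_ ?_ ?_ ?_; assumption) | (with_reducible refine Int.comp₄ ?_ ?_ ?_ ?_ ?_; assumption) | (with_reducible refine IntF.comp ?_ ?_; assumption) | (with_reducible refine IntF.comp₂ ?_ ?_ ?_; assumption) | (with_reducible refine Helper672.ZFA.IntF.comp₃ ?_ ?_ ?_ ?_; assumption) | with_reducible apply IntF.pair))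

variable {D}

/-- More facts. -/
def ext (θ θ' : D.Tt) : Prop := θ'.1 = θ.1 ∧ θ.2.1 ⊆ θ'.2.1

theorem ext.trans {θ θ' θ'' : D.Tt} (h : ext θ θ') (h' : ext θ' θ'') : ext θ θ'' :=
  ⟨h'.1.trans h.1, fun f hf => h'.2 f (h.2 f hf)⟩

theorem below.ext {n : INat M} {θ θ' θ'' : D.Tt} (h : D.below n θ θ') (h' : Dat.ext θ' θ'') :
    D.below n θ θ'' := by
  unfold Dat.below at h ⊢
  rw [h'.1]
  exact ⟨h.1, h.2.1, fun f hf => h'.2 f (h.2.2 f hf)⟩

theorem ref.ext {θ₁ θ' θ'' : D.Tt} (h : D.ref θ' θ₁) (h' : Dat.ext θ' θ'') : D.ref θ'' θ₁ := by
  obtain ⟨j, h1, h2, h3, h4⟩ := h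
  unfold Dat.ref
  rw [h'.1]
  exact ⟨j, h1, h2, h3, fun f hf => h'.2 _ (h4 f hf)⟩

/-- Adding one fact. -/
theorem add_fact {θ : D.Tt} {x : X} (hx : x ∈ D.P) {f : D.Fct} {W : IPow M G}
    (hW : W ∈ D.SG.Op) (hne : ∃ w, w ∈ W) (h : ∀ w, w ∈ W → D.sat θ w x)
    (hf : ∀ w, w ∈ W → D.holds (w • x) f) :
    ∃ θ', ext θ θ' ∧ x ∈ D.VV θ' ∧ f ∈ θ'.2.1 := by
  refine ⟨(θ.1, ⟨insert f θ.2.1, θ.2.2.insert f⟩), ⟨rfl, fun f' hf' => mem_insert.2 (Or.inr hf')⟩,
    ?_, mem_insert.2 (Or.inl rfl)⟩
  rw [mem_VV]
  refine ⟨hx, W, hW, hne, fun w hw => ⟨(h w hw).1, (h w hw).2.1, fun f' hf' => ?_⟩⟩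
  rcases mem_insert.1 hf' with rfl | hf'
  · exact hf w hw
  · exact (h w hw).2.2 f' hf'

theorem add_ext {θ : D.Tt} {x : X} (hx : x ∈ D.P) {T : IPow M (Zt M G X)} (hT : D.tw.Stg T)
    {ν : Nd M} {Q N W : IPow M G} (hW : W ∈ D.SG.Op) (h : ∀ w, w ∈ W → D.sat θ w x)
    (hQ : Q ∈ D.SG.Op) (hz : ((x, ν), Q) ∈ T) {o w : G} (how : o * w ∈ Q) (hN : N ∈ D.SG.Op)
    (ho : o ∈ N) (hw : w ∈ W) :
    ∃ θ' f, ext θ θ' ∧ x ∈ D.VV θ' ∧ f ∈ θ'.2.1 ∧ f.1.1 = ν ∧ f.1.2.1 ⊆ T ∧ o ∈ D.cod f.2 ∧
      D.cod f.2 ⊆ N := by
  obtain ⟨c, W', S, h1, h2, h3, h4, h5, hS, h6, h7⟩ := extend hT hQ hz how hN ho hW hw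
  obtain ⟨θ', h8, h9, h10⟩ := add_fact (θ := θ) hx (f := ((ν, ⟨S, hS⟩), (0, c))) h3 ⟨w, h4⟩
    (fun k hk => h k (h5 k hk)) (fun k hk => by
      unfold holds
      change ((k • x, ν), D.cod (0, c)) ∈ S
      rw [D.cod_zero]
      exact h7 k hk)
  refine ⟨θ', _, h8, h9, h10, rfl, h6, ?_, ?_⟩
  · change o ∈ D.cod (0, c)
    rw [D.cod_zero]
    exact h1
  · change D.cod (0, c) ⊆ N
    rw [D.cod_zero]
    exact h2

theorem add2 {θ : D.Tt} {x : X} (hx : x ∈ D.VV θ) : ∃ θ', ext θ θ' ∧ x ∈ D.VV θ' ∧ D.g2 θ' := by
  rw [mem_VV] at hx
  obtain ⟨hP, W, hW, ⟨w, hw⟩, h⟩ := hx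
  obtain ⟨S, hS, h1⟩ := exists_root hP
  obtain ⟨θ', f, h2, h3, h4, h5, -, h6, -⟩ := add_ext (θ := θ) (o := 1) hP hS hW h D.SG.univ_op h1
    (mem_iuniv.2 trivial) D.SG.univ_op (mem_iuniv.2 trivial) hw
  exact ⟨θ', h2, h3, f, h4, h5, h6⟩

theorem add3 {θ : D.Tt} {x : X} (hx : x ∈ D.VV θ) {r : D.Fct × (Nd M × INat M)}
    (hr : r.1 ∈ θ.2.1) (hq : D.q3 r) :
    ∃ θ' f', ext θ θ' ∧ x ∈ D.VV θ' ∧ f' ∈ θ'.2.1 ∧ D.a3 r f' := by
  rw [mem_VV] at hx
  obtain ⟨hP, W, hW, ⟨w, hw⟩, h⟩ := hx
  obtain ⟨h1, h2, h3, h4⟩ := hq
  obtain ⟨T, hT, hS, hpred⟩ := Tw.PSt.pred r.1.1.2.2 h1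
  have h5 := (h w hw).2.2 _ hr
  unfold holds at h5
  rw [hS, tw_Γ, mem_gm] at h5
  obtain ⟨O, h6, h7, ⟨o, ho⟩, h8⟩ := h5 _ h2 _ (D.SG.B_op _) h3 h4
  obtain ⟨θ', f, h9, h10, h11, h12, h13, h14, h15⟩ := add_ext (θ := θ) hP hT hW h
    (D.rt_op h6 w) ((equi hT).1 h8) (mul_mem_rt.2 ho) h6 ho hw
  refine ⟨θ', f, h9, h10, h11, h12, ?_, fun a ha => h7 a (h15 a ha), ⟨o, h14⟩⟩
  exact (hpred _ f.1.2.2.stg).1 h13

theorem add5 {θ : D.Tt} {x : X} (hx : x ∈ D.VV θ) {r : D.Fct × Nd M}
    (hr : r.1 ∈ θ.2.1) (hq : D.q5 r) :
    ∃ θ' f', ext θ θ' ∧ x ∈ D.VV θ' ∧ f' ∈ θ'.2.1 ∧ D.a5 r f' := by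
  rw [mem_VV] at hx
  obtain ⟨hP, W, hW, ⟨w, hw⟩, h⟩ := hx
  obtain ⟨h1, h2, h3⟩ := hq
  obtain ⟨T, hT, hS, hpred⟩ := Tw.PSt.pred r.1.1.2.2 h1
  have h5 := (h w hw).2.2 _ hr
  unfold holds at h5
  rw [hS, tw_Γ, mem_gm] at h5
  obtain ⟨O, h6, h7, ⟨o, ho⟩, h8⟩ := h5 _ h2 (D.cod r.1.2 ∩ rt W w⁻¹)
    (D.SG.inter _ _ (D.cod_op _) (D.rt_op hW _)) (fun a ha => (mem_inter.1 ha).1)
    ⟨1, mem_inter.2 ⟨h3, mem_rt.2 (by rwa [inv_inv, one_mul])⟩⟩
  have how : o * w ∈ W := by
    have h9 := (mem_inter.1 (h7 o ho)).2
    rwa [mem_rt, inv_inv] at h9
  obtain ⟨θ', f, h9, h10, h11, h12, h13, h14, h15⟩ := add_ext (θ := θ) (o := 1) (w := o * w) hP hT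
    hW h (D.rt_op h6 w) ((equi hT).1 h8) (by
      rw [one_mul]
      exact mul_mem_rt.2 ho) D.SG.univ_op (mem_iuniv.2 trivial) how
  exact ⟨θ', f, h9, h10, h11, h12, (hpred _ f.1.2.2.stg).1 h13, h14⟩

/-- Finitely many requests. -/
theorem fulfil {ρ : Type u} [ITy M ρ] {x : X} {θ : D.Tt} (hx : x ∈ D.VV θ)
    {A : ρ → D.Fct → Prop} (hA : Int M (fun q : ρ × D.Fct => A q.1 q.2)) {R : IPow M ρ}
    (hR : IFin R) (h : ∀ r, r ∈ R → ∀ θ', ext θ θ' → x ∈ D.VV θ' →
      ∃ θ'' f', ext θ' θ'' ∧ x ∈ D.VV θ'' ∧ f' ∈ θ''.2.1 ∧ A r f') :
    ∃ θ', ext θ θ' ∧ x ∈ D.VV θ' ∧ ∀ r, r ∈ R → ∃ f', f' ∈ θ'.2.1 ∧ A r f' := by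
  have hV := D.int_VV
  revert h
  refine IFin.ind (p := fun R => (∀ r, r ∈ R → ∀ θ' : D.Tt, (θ'.1 = θ.1 ∧ θ.2.1 ⊆ θ'.2.1) →
      x ∈ D.VV θ' → ∃ (θ'' : D.Tt) (f' : D.Fct), (θ''.1 = θ'.1 ∧ θ'.2.1 ⊆ θ''.2.1) ∧
        x ∈ D.VV θ'' ∧ f' ∈ θ''.2.1 ∧ A r f') →
    ∃ θ' : D.Tt, (θ'.1 = θ.1 ∧ θ.2.1 ⊆ θ'.2.1) ∧ x ∈ D.VV θ' ∧
      ∀ r, r ∈ R → ∃ f', f' ∈ θ'.2.1 ∧ A r f') (by (repeat' (first | with_reducible exact IntF.id | with_reducible exact IntF.fst' | with_reducible exact IntF.snd' | with_reducible exact IntF.const _ | with_reducible exact Int.const _ | assumption | with_reducible apply Int.and | with_reducible apply Int.or | with_reducible apply Int.not | with_reducible apply Int.imp | with_reducible apply Int.iff | with_reducible apply Int.ne | with_reducible apply Int.eq | with_reducible apply Int.mem | with_reducible apply Int.subset | with_reducible apply Int.ltN | with_reducible apply Int.leN | with_reducible apply Int.fin | with_reducible apply Int.unique | with_reducible apply Int.all | with_reducible apply Int.ex | with_reducible apply IntF.fst | with_reducible apply IntF.snd | with_reducible apply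 IntF.app | with_reducible apply IntF.ite | with_reducible apply IntF.sep | with_reducible apply IntF.lam | with_reducible apply IntF.insert | with_reducible apply IntF.singleton | with_reducible apply IntF.union | with_reducible apply IntF.inter | with_reducible apply IntF.sdiff | with_reducible apply IntF.isUnion | with_reducible apply IntF.iimage | with_reducible apply IntF.the | with_reducible apply IntF.irec | with_reducible_and_instances apply IntF.mul | with_reducible_and_instances apply IntF.inv | with_reducible_and_instances apply IntF.smul | with_reducible apply IntF.succ | with_reducible apply IntF.val | with_reducible apply IntF.mk | (with_reducible refine Int.comp ?_ ?_; assumption) | (with_reducible refine Int.comp₂ ?_ ?_ ?_; assumption) | (with_reducible refine Int.comp₃ ?_ ?_ ?_ ?_; assumption) | (with_reducible refine Int.comp₄ ?_ ?_ ?_ ?_ ?_; assumption) | (with_reducible refine IntF.comp ?_ ?_; assumption) | (with_reducible refine IntF.comp₂ ?_ ?_ ?_; assumption) | (with_reducible refine Helper672.ZFA.IntF.comp₃ ?_ ?_ ?_ ?_; assumption) | with_reducible apply IntF.pair))) ?_ ?_ R hR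
  · intro _
    exact ⟨θ, ⟨rfl, fun _ => id⟩, hx, fun r hr => absurd hr (by simp)⟩
  · intro R r _ _ ih h
    obtain ⟨θ', h1, h2, h3⟩ := ih fun r' hr' => h r' (mem_insert.2 (Or.inr hr'))
    obtain ⟨θ'', f', h4, h5, h6, h7⟩ := h r (mem_insert.2 (Or.inl rfl)) θ' h1 h2
    refine ⟨θ'', ext.trans h1 h4, h5, fun r' hr' => ?_⟩
    rcases mem_insert.1 hr' with rfl | hr'
    · exact ⟨f', h6, h7⟩
    · obtain ⟨f'', h8, h9⟩ := h3 r' hr'
      exact ⟨f'', h4.2 _ h8, h9⟩

theorem fin_le (n : INat M) : IFin (sep M fun m : INat M => m ≤ n) := by
  have h : Int M (fun m : INat M => m ≤ n) := by (repeat' (first | with_reducible exact IntF.id | with_reducible exact IntF.fst' | with_reducible exact IntF.snd' | with_reducible exact IntF.const _ | with_reducible exact Int.const _ | assumption | with_reducible apply Int.and | with_reducible apply Int.or | with_reducible apply Int.not | with_reducible apply Int.imp | with_reducible apply Int.iff | with_reducible apply Int.ne | with_reducible apply Int.eq | with_reducible apply Int.mem | with_reducible apply Int.subset | with_reducible apply Int.ltN | with_reducible apply Int.leN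 | with_reducible apply Int.fin | with_reducible apply Int.unique | with_reducible apply Int.all | with_reducible apply Int.ex | with_reducible apply IntF.fst | with_reducible apply IntF.snd | with_reducible apply IntF.app | with_reducible apply IntF.ite | with_reducible apply IntF.sep | with_reducible apply IntF.lam | with_reducible apply IntF.insert | with_reducible apply IntF.singleton | with_reducible apply IntF.union | with_reducible apply IntF.inter | with_reducible apply IntF.sdiff | with_reducible apply IntF.isUnion | with_reducible apply IntF.iimage | with_reducible apply IntF.the | with_reducible apply IntF.irec | with_reducible_and_instances apply IntF.mul | with_reducible_and_instances apply IntF.inv | with_reducible_and_instances apply IntF.smul | with_reducible apply IntF.succ | with_reducible apply IntF.val | with_reducible apply IntF.mk | (with_reducible refine Int.comp ?_ ?_; assumption) | (with_reducible refine Int.comp₂ ?_ ?_ ?_; assumption) | (with_reducible refine Int.comp₃ ?_ ?_ ?_ ?_; assumption) | (with_reducible refine Int.comp₄ ?_ ?_ ?_ ?_ ?_; assumption) | (with_reducible refine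 IntF.comp ?_ ?_; assumption) | (with_reducible refine IntF.comp₂ ?_ ?_ ?_; assumption) | (with_reducible refine Helper672.ZFA.IntF.comp₃ ?_ ?_ ?_ ?_; assumption) | with_reducible apply IntF.pair))
  exact (finP_iff h).1 (finP_le n)

/-- Existence of good answers. -/
theorem exists_good (n : INat M) {θ θ₁ : D.Tt} {x : X} {U : IPow M X} (hx : x ∈ D.VV θ)
    (hx₁ : x ∈ D.VV θ₁) (hU : D.VV θ₁ ⊆ U) : ∃ θ', D.good n θ x U θ' := by
  have i3 := D.int_q3
  have i5 := D.int_q5
  have hle : Int M (fun m : INat M => m ≤ n) := by (repeat' (first | with_reducible exact IntF.id | with_reducible exact IntF.fst' | with_reducible exact IntF.snd' | with_reducible exact IntF.const _ | with_reducible exact Int.const _ | assumption | with_reducible apply Int.and | with_reducible apply Int.or | with_reducible apply Int.not | with_reducible apply Int.imp | with_reducible apply Int.iff | with_reducible apply Int.ne | with_reducible apply Int.eq | with_reducible apply Int.mem | with_reducible apply Int.subset | with_reducible apply Int.ltN | with_reducible apply Int.leN | with_reducible apply Int.fin | with_reducible apply Int.unique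 | with_reducible apply Int.all | with_reducible apply Int.ex | with_reducible apply IntF.fst | with_reducible apply IntF.snd | with_reducible apply IntF.app | with_reducible apply IntF.ite | with_reducible apply IntF.sep | with_reducible apply IntF.lam | with_reducible apply IntF.insert | with_reducible apply IntF.singleton | with_reducible apply IntF.union | with_reducible apply IntF.inter | with_reducible apply IntF.sdiff | with_reducible apply IntF.isUnion | with_reducible apply IntF.iimage | with_reducible apply IntF.the | with_reducible apply IntF.irec | with_reducible_and_instances apply IntF.mul | with_reducible_and_instances apply IntF.inv | with_reducible_and_instances apply IntF.smul | with_reducible apply IntF.succ | with_reducible apply IntF.val | with_reducible apply IntF.mk | (with_reducible refine Int.comp ?_ ?_; assumption) | (with_reducible refine Int.comp₂ ?_ ?_ ?_; assumption) | (with_reducible refine Int.comp₃ ?_ ?_ ?_ ?_; assumption) | (with_reducible refine Int.comp₄ ?_ ?_ ?_ ?_ ?_; assumption) | (with_reducible refine IntF.comp ?_ ?_; assumption) | (with_reducible refine IntF.comp₂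 ?_ ?_ ?_; assumption) | (with_reducible refine Helper672.ZFA.IntF.comp₃ ?_ ?_ ?_ ?_; assumption) | with_reducible apply IntF.pair))
  obtain ⟨θa, ha1, ha2, ha3⟩ := exists_ref n hx hx₁
  obtain ⟨θb, hb1, hb2, f₀, hb3, hb4, hb5⟩ := add2 ha3
  have hR3 : IFin (sep M fun r : D.Fct × (Nd M × INat M) =>
      r.1 ∈ θ.2.1 ∧ D.q3 r ∧ r.2.1.1 ≤ n ∧ r.2.1.2 ≤ n ∧ r.2.2 ≤ n) := by
    refine (IFin.prod θ.2.2 (IFin.prod (IFin.prod (fin_le n) (fin_le n)) (fin_le n))).subset
      fun r hr => ?_
    rw [mem_sep (by (repeat' (first | with_reducible exact IntF.id | with_reducible exact IntF.fst' | with_reducible exact IntF.snd' | with_reducible exact IntF.const _ | with_reducible exact Int.const _ | assumption | with_reducible apply Int.and | with_reducible apply Int.or | with_reducible apply Int.not | with_reducible apply Int.imp | with_reducible apply Int.iff | with_reducible apply Int.ne | with_reducible apply Int.eq | with_reducible apply Int.mem | with_reducible apply Int.subset | with_reducible apply Int.ltN | with_reducible apply Int.leN | with_reducible apply Int.fin | with_reducible apply Int.unique | with_reducible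 apply Int.all | with_reducible apply Int.ex | with_reducible apply IntF.fst | with_reducible apply IntF.snd | with_reducible apply IntF.app | with_reducible apply IntF.ite | with_reducible apply IntF.sep | with_reducible apply IntF.lam | with_reducible apply IntF.insert | with_reducible apply IntF.singleton | with_reducible apply IntF.union | with_reducible apply IntF.inter | with_reducible apply IntF.sdiff | with_reducible apply IntF.isUnion | with_reducible apply IntF.iimage | with_reducible apply IntF.the | with_reducible apply IntF.irec | with_reducible_and_instances apply IntF.mul | with_reducible_and_instances apply IntF.inv | with_reducible_and_instances apply IntF.smul | with_reducible apply IntF.succ | with_reducible apply IntF.val | with_reducible apply IntF.mk | (with_reducible refine Int.comp ?_ ?_; assumption) | (with_reducible refine Int.comp₂ ?_ ?_ ?_; assumption) | (with_reducible refine Int.comp₃ ?_ ?_ ?_ ?_; assumption) | (with_reducible refine Int.comp₄ ?_ ?_ ?_ ?_ ?_; assumption) | (with_reducible refine IntF.comp ?_ ?_; assumption) | (with_reducible refine IntF.comp₂ ?_ ?_ ?_; assumption)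 | (with_reducible refine Helper672.ZFA.IntF.comp₃ ?_ ?_ ?_ ?_; assumption) | with_reducible apply IntF.pair)))] at hr
    rw [mem_iprod, mem_iprod, mem_iprod, mem_sep hle, mem_sep hle, mem_sep hle]
    exact ⟨hr.1, ⟨hr.2.2.1, hr.2.2.2.1⟩, hr.2.2.2.2⟩
  have hR5 : IFin (sep M fun r : D.Fct × Nd M =>
      r.1 ∈ θ.2.1 ∧ D.q5 r ∧ r.2.1 ≤ n ∧ r.2.2 ≤ n) := by
    refine (IFin.prod θ.2.2 (IFin.prod (fin_le n) (fin_le n))).subset fun r hr => ?_
    rw [mem_sep (by (repeat' (first | with_reducible exact IntF.id | with_reducible exact IntF.fst' | with_reducible exact IntF.snd' | with_reducible exact IntF.const _ | with_reducible exact Int.const _ | assumption | with_reducible apply Int.and | with_reducible apply Int.or | with_reducible apply Int.not | with_reducible apply Int.imp | with_reducible apply Int.iff | with_reducible apply Int.ne | with_reducible apply Int.eq | with_reducible apply Int.mem | with_reducible apply Int.subset | with_reducible apply Int.ltN | with_reducible apply Int.leN | with_reducible apply Int.fin | with_reducible apply Int.unique | with_reducible apply Int.all | with_reducible apply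 Int.ex | with_reducible apply IntF.fst | with_reducible apply IntF.snd | with_reducible apply IntF.app | with_reducible apply IntF.ite | with_reducible apply IntF.sep | with_reducible apply IntF.lam | with_reducible apply IntF.insert | with_reducible apply IntF.singleton | with_reducible apply IntF.union | with_reducible apply IntF.inter | with_reducible apply IntF.sdiff | with_reducible apply IntF.isUnion | with_reducible apply IntF.iimage | with_reducible apply IntF.the | with_reducible apply IntF.irec | with_reducible_and_instances apply IntF.mul | with_reducible_and_instances apply IntF.inv | with_reducible_and_instances apply IntF.smul | with_reducible apply IntF.succ | with_reducible apply IntF.val | with_reducible apply IntF.mk | (with_reducible refine Int.comp ?_ ?_; assumption) | (with_reducible refine Int.comp₂ ?_ ?_ ?_; assumption) | (with_reducible refine Int.comp₃ ?_ ?_ ?_ ?_; assumption) | (with_reducible refine Int.comp₄ ?_ ?_ ?_ ?_ ?_; assumption) | (with_reducible refine IntF.comp ?_ ?_; assumption) | (with_reducible refine IntF.comp₂ ?_ ?_ ?_; assumption) | (with_reducible refine Helper672.ZFA.IntF.comp₃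 ?_ ?_ ?_ ?_; assumption) | with_reducible apply IntF.pair)))] at hr
    rw [mem_iprod, mem_iprod, mem_sep hle, mem_sep hle]
    exact ⟨hr.1, hr.2.2⟩
  obtain ⟨θc, hc1, hc2, hc3⟩ := fulfil hb2 D.int_a3 hR3 (fun r hr θ' h1 h2 => by
    rw [mem_sep (by (repeat' (first | with_reducible exact IntF.id | with_reducible exact IntF.fst' | with_reducible exact IntF.snd' | with_reducible exact IntF.const _ | with_reducible exact Int.const _ | assumption | with_reducible apply Int.and | with_reducible apply Int.or | with_reducible apply Int.not | with_reducible apply Int.imp | with_reducible apply Int.iff | with_reducible apply Int.ne | with_reducible apply Int.eq | with_reducible apply Int.mem | with_reducible apply Int.subset | with_reducible apply Int.ltN | with_reducible apply Int.leN | with_reducible apply Int.fin | with_reducible apply Int.unique | with_reducible apply Int.all | with_reducible apply Int.ex | with_reducible apply IntF.fst | with_reducible apply IntF.snd | with_reducible apply IntF.app | with_reducible apply IntF.ite | with_reducible apply IntF.sep | with_reducible apply IntF.lam | with_reducible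 apply IntF.insert | with_reducible apply IntF.singleton | with_reducible apply IntF.union | with_reducible apply IntF.inter | with_reducible apply IntF.sdiff | with_reducible apply IntF.isUnion | with_reducible apply IntF.iimage | with_reducible apply IntF.the | with_reducible apply IntF.irec | with_reducible_and_instances apply IntF.mul | with_reducible_and_instances apply IntF.inv | with_reducible_and_instances apply IntF.smul | with_reducible apply IntF.succ | with_reducible apply IntF.val | with_reducible apply IntF.mk | (with_reducible refine Int.comp ?_ ?_; assumption) | (with_reducible refine Int.comp₂ ?_ ?_ ?_; assumption) | (with_reducible refine Int.comp₃ ?_ ?_ ?_ ?_; assumption) | (with_reducible refine Int.comp₄ ?_ ?_ ?_ ?_ ?_; assumption) | (with_reducible refine IntF.comp ?_ ?_; assumption) | (with_reducible refine IntF.comp₂ ?_ ?_ ?_; assumption) | (with_reducible refine Helper672.ZFA.IntF.comp₃ ?_ ?_ ?_ ?_; assumption) | with_reducible apply IntF.pair)))] at hr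
    exact add3 h2 (h1.2 _ (hb1.2 _ (ha1.2.2 _ hr.1))) hr.2.1)
  obtain ⟨θd, hd1, hd2, hd3⟩ := fulfil hc2 D.int_a5 hR5 (fun r hr θ' h1 h2 => by
    rw [mem_sep (by (repeat' (first | with_reducible exact IntF.id | with_reducible exact IntF.fst' | with_reducible exact IntF.snd' | with_reducible exact IntF.const _ | with_reducible exact Int.const _ | assumption | with_reducible apply Int.and | with_reducible apply Int.or | with_reducible apply Int.not | with_reducible apply Int.imp | with_reducible apply Int.iff | with_reducible apply Int.ne | with_reducible apply Int.eq | with_reducible apply Int.mem | with_reducible apply Int.subset | with_reducible apply Int.ltN | with_reducible apply Int.leN | with_reducible apply Int.fin | with_reducible apply Int.unique | with_reducible apply Int.all | with_reducible apply Int.ex | with_reducible apply IntF.fst | with_reducible apply IntF.snd | with_reducible apply IntF.app | with_reducible apply IntF.ite | with_reducible apply IntF.sep | with_reducible apply IntF.lam | with_reducible apply IntF.insert | with_reducible apply IntF.singleton | with_reducible apply IntF.union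 | with_reducible apply IntF.inter | with_reducible apply IntF.sdiff | with_reducible apply IntF.isUnion | with_reducible apply IntF.iimage | with_reducible apply IntF.the | with_reducible apply IntF.irec | with_reducible_and_instances apply IntF.mul | with_reducible_and_instances apply IntF.inv | with_reducible_and_instances apply IntF.smul | with_reducible apply IntF.succ | with_reducible apply IntF.val | with_reducible apply IntF.mk | (with_reducible refine Int.comp ?_ ?_; assumption) | (with_reducible refine Int.comp₂ ?_ ?_ ?_; assumption) | (with_reducible refine Int.comp₃ ?_ ?_ ?_ ?_; assumption) | (with_reducible refine Int.comp₄ ?_ ?_ ?_ ?_ ?_; assumption) | (with_reducible refine IntF.comp ?_ ?_; assumption) | (with_reducible refine IntF.comp₂ ?_ ?_ ?_; assumption) | (with_reducible refine Helper672.ZFA.IntF.comp₃ ?_ ?_ ?_ ?_; assumption) | with_reducible apply IntF.pair)))] at hr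
    exact add5 h2 (h1.2 _ (hc1.2 _ (hb1.2 _ (ha1.2.2 _ hr.1)))) hr.2.1)
  refine ⟨θd, ⟨θ₁, hU, ((ha2.ext hb1).ext hc1).ext hd1⟩, hd2, ((ha1.ext hb1).ext hc1).ext hd1,
    ⟨f₀, hd1.2 _ (hc1.2 _ hb3), hb4, hb5⟩, ?_, ?_⟩
  · intro r h1 h2 h3 h4 h5
    obtain ⟨f', h6, h7⟩ := hc3 r (by
      rw [mem_sep (by (repeat' (first | with_reducible exact IntF.id | with_reducible exact IntF.fst' | with_reducible exact IntF.snd' | with_reducible exact IntF.const _ | with_reducible exact Int.const _ | assumption | with_reducible apply Int.and | with_reducible apply Int.or | with_reducible apply Int.not | with_reducible apply Int.imp | with_reducible apply Int.iff | with_reducible apply Int.ne | with_reducible apply Int.eq | with_reducible apply Int.mem | with_reducible apply Int.subset | with_reducible apply Int.ltN | with_reducible apply Int.leN | with_reducible apply Int.fin | with_reducible apply Int.unique | with_reducible apply Int.all | with_reducible apply Int.ex | with_reducible apply IntF.fst | with_reducible apply IntF.snd | with_reducible apply IntF.app | with_reducible apply IntF.ite | with_reducible apply IntF.sep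 | with_reducible apply IntF.lam | with_reducible apply IntF.insert | with_reducible apply IntF.singleton | with_reducible apply IntF.union | with_reducible apply IntF.inter | with_reducible apply IntF.sdiff | with_reducible apply IntF.isUnion | with_reducible apply IntF.iimage | with_reducible apply IntF.the | with_reducible apply IntF.irec | with_reducible_and_instances apply IntF.mul | with_reducible_and_instances apply IntF.inv | with_reducible_and_instances apply IntF.smul | with_reducible apply IntF.succ | with_reducible apply IntF.val | with_reducible apply IntF.mk | (with_reducible refine Int.comp ?_ ?_; assumption) | (with_reducible refine Int.comp₂ ?_ ?_ ?_; assumption) | (with_reducible refine Int.comp₃ ?_ ?_ ?_ ?_; assumption) | (with_reducible refine Int.comp₄ ?_ ?_ ?_ ?_ ?_; assumption) | (with_reducible refine IntF.comp ?_ ?_; assumption) | (with_reducible refine IntF.comp₂ ?_ ?_ ?_; assumption) | (with_reducible refine Helper672.ZFA.IntF.comp₃ ?_ ?_ ?_ ?_; assumption) | with_reducible apply IntF.pair)))]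
      exact ⟨h1, h2, h3, h4, h5⟩)
    exact ⟨f', hd1.2 _ h6, h7⟩
  · intro r h1 h2 h3 h4
    exact hd3 r (by
      rw [mem_sep (by (repeat' (first | with_reducible exact IntF.id | with_reducible exact IntF.fst' | with_reducible exact IntF.snd' | with_reducible exact IntF.const _ | with_reducible exact Int.const _ | assumption | with_reducible apply Int.and | with_reducible apply Int.or | with_reducible apply Int.not | with_reducible apply Int.imp | with_reducible apply Int.iff | with_reducible apply Int.ne | with_reducible apply Int.eq | with_reducible apply Int.mem | with_reducible apply Int.subset | with_reducible apply Int.ltN | with_reducible apply Int.leN | with_reducible apply Int.fin | with_reducible apply Int.unique | with_reducible apply Int.all | with_reducible apply Int.ex | with_reducible apply IntF.fst | with_reducible apply IntF.snd | with_reducible apply IntF.app | with_reducible apply IntF.ite | with_reducible apply IntF.sep | with_reducible apply IntF.lam | with_reducible apply IntF.insert | with_reducible apply IntF.singleton | with_reducible apply IntF.union | with_reducible apply IntF.inter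 | with_reducible apply IntF.sdiff | with_reducible apply IntF.isUnion | with_reducible apply IntF.iimage | with_reducible apply IntF.the | with_reducible apply IntF.irec | with_reducible_and_instances apply IntF.mul | with_reducible_and_instances apply IntF.inv | with_reducible_and_instances apply IntF.smul | with_reducible apply IntF.succ | with_reducible apply IntF.val | with_reducible apply IntF.mk | (with_reducible refine Int.comp ?_ ?_; assumption) | (with_reducible refine Int.comp₂ ?_ ?_ ?_; assumption) | (with_reducible refine Int.comp₃ ?_ ?_ ?_ ?_; assumption) | (with_reducible refine Int.comp₄ ?_ ?_ ?_ ?_ ?_; assumption) | (with_reducible refine IntF.comp ?_ ?_; assumption) | (with_reducible refine IntF.comp₂ ?_ ?_ ?_; assumption) | (with_reducible refine Helper672.ZFA.IntF.comp₃ ?_ ?_ ?_ ?_; assumption) | with_reducible apply IntF.pair)))]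
      exact ⟨h1, h2, h3, h4⟩)

end Dat

end Pool.Agent.W924
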