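import Pool.Agent.W924.Root

/-!
# The base of the topology
-/

set_option maxHeartbeats 1000000
set_option linter.all false

namespace Pool.Agent.W924

open FirstOrder FirstOrder.Language
open Pool.Agent.Helper672.ZFA
open Pool.Agent.H310

universe u

variable {M : Type u} [L.Structure M] [hM : IsModel M]

namespace Tw

variable {Z : Type u} [ITy M Z] (T : Tw M Z)

instance instFactPSt : Fact (Int M (fun s : IPow M Z => T.PSt s)) := ⟨T.int_PSt⟩

/-- The order of the stages. -/
def ltS (s t : {s : IPow M Z // T.PSt s}) : Prop := s.1 ⊆ t.1 ∧ s.1 ≠ t.1

theorem iwo : IWo M T.ltS where
  int := by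
    unfold ltS
    (repeat' (first | with_reducible exact IntF.id | with_reducible exact IntF.fst' | with_reducible exact IntF.snd' | with_reducible exact IntF.const _ | with_reducible exact Int.const _ | assumption | with_reducible apply Int.and | with_reducible apply Int.or | with_reducible apply Int.not | with_reducible apply Int.imp | with_reducible apply Int.iff | with_reducible apply Int.ne | with_reducible apply Int.eq | with_reducible apply Int.mem | with_reducible apply Int.subset | with_reducible apply Int.ltN | with_reducible apply Int.leN | with_reducible apply Int.fin | with_reducible apply Int.unique | with_reducible apply Int.all | with_reducible apply Int.ex | with_reducible apply IntF.fst | with_reducible apply IntF.snd | with_reducible apply IntF.app | with_reducible apply IntF.ite | with_reducible apply IntF.sep | with_reducible apply IntF.lam | with_reducible apply IntF.insert | with_reducible apply IntF.singleton | with_reducible apply IntF.union | with_reducible apply IntF.inter | with_reducible apply IntF.sdiff | with_reducible apply IntF.isUnion | with_reducible apply IntF.iimage | with_reducible apply IntF.the | with_reducible apply IntF.irec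 | with_reducible_and_instances apply IntF.mul | with_reducible_and_instances apply IntF.inv | with_reducible_and_instances apply IntF.smul | with_reducible apply IntF.succ | with_reducible apply IntF.val | with_reducible apply IntF.mk | (with_reducible refine Int.comp ?_ ?_; assumption) | (with_reducible refine Int.comp₂ ?_ ?_ ?_; assumption) | (with_reducible refine Int.comp₃ ?_ ?_ ?_ ?_; assumption) | (with_reducible refine Int.comp₄ ?_ ?_ ?_ ?_ ?_; assumption) | (with_reducible refine IntF.comp ?_ ?_; assumption) | (with_reducible refine IntF.comp₂ ?_ ?_ ?_; assumption) | (with_reducible refine Helper672.ZFA.IntF.comp₃ ?_ ?_ ?_ ?_; assumption) | with_reducible apply IntF.pair))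
  tri s t := by
    by_cases h : s = t
    · exact Or.inr (Or.inl h)
    · rcases Stg.total s.2.stg t.2.stg with h1 | h1
      · exact Or.inr (Or.inr ⟨h1, fun h2 => h (Subtype.ext h2.symm)⟩)
      · exact Or.inl ⟨h1, fun h2 => h (Subtype.ext h2)⟩
  wf C hne := by
    obtain ⟨a, ha⟩ := hne
    obtain ⟨_, ⟨s, hs, rfl⟩, h1⟩ := exists_least (T := T)
      (p := fun S => ∃ s : {s : IPow M Z // T.PSt s}, s ∈ C ∧ s.1 = S) (by (repeat' (first | with_reducible exact IntF.id | with_reducible exact IntF.fst' | with_reducible exact IntF.snd' | with_reducible exact IntF.const _ | with_reducible exact Int.const _ | assumption | with_reducible apply Int.and | with_reducible apply Int.or | with_reducible apply Int.not | with_reducible apply Int.imp | with_reducible apply Int.iff | with_reducible apply Int.ne | with_reducible apply Int.eq | with_reducible apply Int.mem | with_reducible apply Int.subset | with_reducible apply Int.ltN | with_reducible apply Int.leN | with_reducible apply Int.fin | with_reducible apply Int.unique | with_reducible apply Int.all | with_reducible apply Int.ex | with_reducible apply IntF.fst | with_reducible apply IntF.snd | with_reducible apply IntF.app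 | with_reducible apply IntF.ite | with_reducible apply IntF.sep | with_reducible apply IntF.lam | with_reducible apply IntF.insert | with_reducible apply IntF.singleton | with_reducible apply IntF.union | with_reducible apply IntF.inter | with_reducible apply IntF.sdiff | with_reducible apply IntF.isUnion | with_reducible apply IntF.iimage | with_reducible apply IntF.the | with_reducible apply IntF.irec | with_reducible_and_instances apply IntF.mul | with_reducible_and_instances apply IntF.inv | with_reducible_and_instances apply IntF.smul | with_reducible apply IntF.succ | with_reducible apply IntF.val | with_reducible apply IntF.mk | (with_reducible refine Int.comp ?_ ?_; assumption) | (with_reducible refine Int.comp₂ ?_ ?_ ?_; assumption) | (with_reducible refine Int.comp₃ ?_ ?_ ?_ ?_; assumption) | (with_reducible refine Int.comp₄ ?_ ?_ ?_ ?_ ?_; assumption) | (with_reducible refine IntF.comp ?_ ?_; assumption) | (with_reducible refine IntF.comp₂ ?_ ?_ ?_; assumption) | (with_reducible refine Helper672.ZFA.IntF.comp₃ ?_ ?_ ?_ ?_; assumption) | with_reducible apply IntF.pair))) (by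
        rintro S ⟨s, -, rfl⟩
        exact s.2.stg) ⟨a.1, a, ha, rfl⟩
    exact ⟨s, hs, fun t ht h2 => h2.2 (subset_antisymm' h2.1 (h1 _ ⟨t, ht, rfl⟩))⟩

end Tw

namespace Dat

variable {G X Y : Type u} [ITy M G] [ITy M X] [ITy M Y] [Group G] [MulAction G X] [IMul M G]
  [ISMul M G X] (D : Dat M G X Y)

theorem exists_cod : ∃ cod : IFun M (Nd M) (IPow M G), (∀ c, cod c ∈ D.SG.Op) ∧
    (∀ i, cod (0, i) = D.SG.B i) ∧
    ∀ n i j, cod (INat.succ n, pr i j) = pm (cod (n, i)) (D.SG.B j) := by
  have hpr := int_pr (M := M)
  have hst : IntF M (fun q : INat M × IFun M (INat M) (IPow M G) =>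
      (fun (_ : INat M) (A : IFun M (INat M) (IPow M G)) => lam M (fun k : INat M =>
        sep M fun h => ∃ i j, k = pr i j ∧ h ∈ pm (A i) (D.SG.B j))) q.1 q.2) := by
    (repeat' (first | with_reducible exact IntF.id | with_reducible exact IntF.fst' | with_reducible exact IntF.snd' | with_reducible exact IntF.const _ | with_reducible exact Int.const _ | assumption | with_reducible apply IntF.pm | with_reducible apply Int.and | with_reducible apply Int.or | with_reducible apply Int.not | with_reducible apply Int.imp | with_reducible apply Int.iff | with_reducible apply Int.ne | with_reducible apply Int.eq | with_reducible apply Int.mem | with_reducible apply Int.subset | with_reducible apply Int.ltN | with_reducible apply Int.leN | with_reducible apply Int.fin | with_reducible apply Int.unique | with_reducible apply Int.all | with_reducible apply Int.ex | with_reducible apply IntF.fst | with_reducible apply IntF.snd | with_reducible apply IntF.app | with_reducible apply IntF.ite | with_reducible apply IntF.sep | with_reducible apply IntF.lam | with_reducible apply IntF.insert | with_reducible apply IntF.singleton | with_reducible apply IntF.union | with_reducible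 apply IntF.inter | with_reducible apply IntF.sdiff | with_reducible apply IntF.isUnion | with_reducible apply IntF.iimage | with_reducible apply IntF.the | with_reducible apply IntF.irec | with_reducible_and_instances apply IntF.mul | with_reducible_and_instances apply IntF.inv | with_reducible_and_instances apply IntF.smul | with_reducible apply IntF.succ | with_reducible apply IntF.val | with_reducible apply IntF.mk | (with_reducible refine Int.comp ?_ ?_; assumption) | (with_reducible refine Int.comp₂ ?_ ?_ ?_; assumption) | (with_reducible refine Int.comp₃ ?_ ?_ ?_ ?_; assumption) | (with_reducible refine Int.comp₄ ?_ ?_ ?_ ?_ ?_; assumption) | (with_reducible refine IntF.comp ?_ ?_; assumption) | (with_reducible refine IntF.comp₂ ?_ ?_ ?_; assumption) | (with_reducible refine Helper672.ZFA.IntF.comp₃ ?_ ?_ ?_ ?_; assumption) | with_reducible apply IntF.pair))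
  obtain ⟨A, hA, hA0, hAs⟩ := exists_irec (st := fun (_ : INat M)
    (A : IFun M (INat M) (IPow M G)) => lam M (fun k : INat M =>
        sep M fun h => ∃ i j, k = pr i j ∧ h ∈ pm (A i) (D.SG.B j))) hst D.SG.B
  have hs : ∀ n i j, A (INat.succ n) (pr i j) = pm (A n i) (D.SG.B j) := by
    intro n i j
    have h1 : IntF M (fun k : INat M =>
        sep M fun h => ∃ i j, k = pr i j ∧ h ∈ pm (A n i) (D.SG.B j)) := by (repeat' (first | with_reducible exact IntF.id | with_reducible exact IntF.fst' | with_reducible exact IntF.snd' | with_reducible exact IntF.const _ | with_reducible exact Int.const _ | assumption | with_reducible apply IntF.pm | with_reducible apply Int.and | with_reducible apply Int.or | with_reducible apply Int.not | with_reducible apply Int.imp | with_reducible apply Int.iff | with_reducible apply Int.ne | with_reducible apply Int.eq | with_reducible apply Int.mem | with_reducible apply Int.subset | with_reducible apply Int.ltN | with_reducible apply Int.leN | with_reducible apply Int.fin | with_reducible apply Int.unique | with_reducible apply Int.all | with_reducible apply Int.ex | with_reducible apply IntF.fst | with_reducible apply IntF.snd | with_reducible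 apply IntF.app | with_reducible apply IntF.ite | with_reducible apply IntF.sep | with_reducible apply IntF.lam | with_reducible apply IntF.insert | with_reducible apply IntF.singleton | with_reducible apply IntF.union | with_reducible apply IntF.inter | with_reducible apply IntF.sdiff | with_reducible apply IntF.isUnion | with_reducible apply IntF.iimage | with_reducible apply IntF.the | with_reducible apply IntF.irec | with_reducible_and_instances apply IntF.mul | with_reducible_and_instances apply IntF.inv | with_reducible_and_instances apply IntF.smul | with_reducible apply IntF.succ | with_reducible apply IntF.val | with_reducible apply IntF.mk | (with_reducible refine Int.comp ?_ ?_; assumption) | (with_reducible refine Int.comp₂ ?_ ?_ ?_; assumption) | (with_reducible refine Int.comp₃ ?_ ?_ ?_ ?_; assumption) | (with_reducible refine Int.comp₄ ?_ ?_ ?_ ?_ ?_; assumption) | (with_reducible refine IntF.comp ?_ ?_; assumption) | (with_reducible refine IntF.comp₂ ?_ ?_ ?_; assumption) | (with_reducible refine Helper672.ZFA.IntF.comp₃ ?_ ?_ ?_ ?_; assumption) | with_reducible apply IntF.pair))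
    have h2 : ∀ k, Int M (fun h => ∃ i j, k = pr i j ∧ h ∈ pm (A n i) (D.SG.B j)) := by
      intro k
      (repeat' (first | with_reducible exact IntF.id | with_reducible exact IntF.fst' | with_reducible exact IntF.snd' | with_reducible exact IntF.const _ | with_reducible exact Int.const _ | assumption | with_reducible apply IntF.pm | with_reducible apply Int.and | with_reducible apply Int.or | with_reducible apply Int.not | with_reducible apply Int.imp | with_reducible apply Int.iff | with_reducible apply Int.ne | with_reducible apply Int.eq | with_reducible apply Int.mem | with_reducible apply Int.subset | with_reducible apply Int.ltN | with_reducible apply Int.leN | with_reducible apply Int.fin | with_reducible apply Int.unique | with_reducible apply Int.all | with_reducible apply Int.ex | with_reducible apply IntF.fst | with_reducible apply IntF.snd | with_reducible apply IntF.app | with_reducible apply IntF.ite | with_reducible apply IntF.sep | with_reducible apply IntF.lam | with_reducible apply IntF.insert | with_reducible apply IntF.singleton | with_reducible apply IntF.union | with_reducible apply IntF.inter | with_reducible apply IntF.sdiff | with_reducible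 apply IntF.isUnion | with_reducible apply IntF.iimage | with_reducible apply IntF.the | with_reducible apply IntF.irec | with_reducible_and_instances apply IntF.mul | with_reducible_and_instances apply IntF.inv | with_reducible_and_instances apply IntF.smul | with_reducible apply IntF.succ | with_reducible apply IntF.val | with_reducible apply IntF.mk | (with_reducible refine Int.comp ?_ ?_; assumption) | (with_reducible refine Int.comp₂ ?_ ?_ ?_; assumption) | (with_reducible refine Int.comp₃ ?_ ?_ ?_ ?_; assumption) | (with_reducible refine Int.comp₄ ?_ ?_ ?_ ?_ ?_; assumption) | (with_reducible refine IntF.comp ?_ ?_; assumption) | (with_reducible refine IntF.comp₂ ?_ ?_ ?_; assumption) | (with_reducible refine Helper672.ZFA.IntF.comp₃ ?_ ?_ ?_ ?_; assumption) | with_reducible apply IntF.pair))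
    rw [hAs, lam_apply h1]
    refine IPow.ext' fun h => ?_
    rw [mem_sep (h2 _)]
    constructor
    · rintro ⟨i', j', h3, h4⟩
      obtain ⟨rfl, rfl⟩ := pr_inj h3
      exact h4
    · exact fun h3 => ⟨i, j, rfl, h3⟩
  have hop : ∀ n i, A n i ∈ D.SG.Op := by
    refine INat.ind (by (repeat' (first | with_reducible exact IntF.id | with_reducible exact IntF.fst' | with_reducible exact IntF.snd' | with_reducible exact IntF.const _ | with_reducible exact Int.const _ | assumption | with_reducible apply Int.and | with_reducible apply Int.or | with_reducible apply Int.not | with_reducible apply Int.imp | with_reducible apply Int.iff | with_reducible apply Int.ne | with_reducible apply Int.eq | with_reducible apply Int.mem | with_reducible apply Int.subset | with_reducible apply Int.ltN | with_reducible apply Int.leN | with_reducible apply Int.fin | with_reducible apply Int.unique | with_reducible apply Int.all | with_reducible apply Int.ex | with_reducible apply IntF.fst | with_reducible apply IntF.snd | with_reducible apply IntF.app | with_reducible apply IntF.ite | with_reducible apply IntF.sep | with_reducible apply IntF.lam | with_reducible apply IntF.insert | with_reducible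 apply IntF.singleton | with_reducible apply IntF.union | with_reducible apply IntF.inter | with_reducible apply IntF.sdiff | with_reducible apply IntF.isUnion | with_reducible apply IntF.iimage | with_reducible apply IntF.the | with_reducible apply IntF.irec | with_reducible_and_instances apply IntF.mul | with_reducible_and_instances apply IntF.inv | with_reducible_and_instances apply IntF.smul | with_reducible apply IntF.succ | with_reducible apply IntF.val | with_reducible apply IntF.mk | (with_reducible refine Int.comp ?_ ?_; assumption) | (with_reducible refine Int.comp₂ ?_ ?_ ?_; assumption) | (with_reducible refine Int.comp₃ ?_ ?_ ?_ ?_; assumption) | (with_reducible refine Int.comp₄ ?_ ?_ ?_ ?_ ?_; assumption) | (with_reducible refine IntF.comp ?_ ?_; assumption) | (with_reducible refine IntF.comp₂ ?_ ?_ ?_; assumption) | (with_reducible refine Helper672.ZFA.IntF.comp₃ ?_ ?_ ?_ ?_; assumption) | with_reducible apply IntF.pair))) ?_ ?_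
    · intro i
      rw [hA0]
      exact D.SG.B_op i
    · intro n ih i
      have h1 : IntF M (fun k : INat M =>
          sep M fun h => ∃ i j, k = pr i j ∧ h ∈ pm (A n i) (D.SG.B j)) := by (repeat' (first | with_reducible exact IntF.id | with_reducible exact IntF.fst' | with_reducible exact IntF.snd' | with_reducible exact IntF.const _ | with_reducible exact Int.const _ | assumption | with_reducible apply IntF.pm | with_reducible apply Int.and | with_reducible apply Int.or | with_reducible apply Int.not | with_reducible apply Int.imp | with_reducible apply Int.iff | with_reducible apply Int.ne | with_reducible apply Int.eq | with_reducible apply Int.mem | with_reducible apply Int.subset | with_reducible apply Int.ltN | with_reducible apply Int.leN | with_reducible apply Int.fin | with_reducible apply Int.unique | with_reducible apply Int.all | with_reducible apply Int.ex | with_reducible apply IntF.fst | with_reducible apply IntF.snd | with_reducible apply IntF.app | with_reducible apply IntF.ite | with_reducible apply IntF.sep | with_reducible apply IntF.lam | with_reducible apply IntF.insert | with_reducible apply IntF.singleton | with_reducible apply IntF.union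 | with_reducible apply IntF.inter | with_reducible apply IntF.sdiff | with_reducible apply IntF.isUnion | with_reducible apply IntF.iimage | with_reducible apply IntF.the | with_reducible apply IntF.irec | with_reducible_and_instances apply IntF.mul | with_reducible_and_instances apply IntF.inv | with_reducible_and_instances apply IntF.smul | with_reducible apply IntF.succ | with_reducible apply IntF.val | with_reducible apply IntF.mk | (with_reducible refine Int.comp ?_ ?_; assumption) | (with_reducible refine Int.comp₂ ?_ ?_ ?_; assumption) | (with_reducible refine Int.comp₃ ?_ ?_ ?_ ?_; assumption) | (with_reducible refine Int.comp₄ ?_ ?_ ?_ ?_ ?_; assumption) | (with_reducible refine IntF.comp ?_ ?_; assumption) | (with_reducible refine IntF.comp₂ ?_ ?_ ?_; assumption) | (with_reducible refine Helper672.ZFA.IntF.comp₃ ?_ ?_ ?_ ?_; assumption) | with_reducible apply IntF.pair))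
      have h2 : ∀ k, Int M (fun h => ∃ i j, k = pr i j ∧ h ∈ pm (A n i) (D.SG.B j)) := by
        intro k
        (repeat' (first | with_reducible exact IntF.id | with_reducible exact IntF.fst' | with_reducible exact IntF.snd' | with_reducible exact IntF.const _ | with_reducible exact Int.const _ | assumption | with_reducible apply IntF.pm | with_reducible apply Int.and | with_reducible apply Int.or | with_reducible apply Int.not | with_reducible apply Int.imp | with_reducible apply Int.iff | with_reducible apply Int.ne | with_reducible apply Int.eq | with_reducible apply Int.mem | with_reducible apply Int.subset | with_reducible apply Int.ltN | with_reducible apply Int.leN | with_reducible apply Int.fin | with_reducible apply Int.unique | with_reducible apply Int.all | with_reducible apply Int.ex | with_reducible apply IntF.fst | with_reducible apply IntF.snd | with_reducible apply IntF.app | with_reducible apply IntF.ite | with_reducible apply IntF.sep | with_reducible apply IntF.lam | with_reducible apply IntF.insert | with_reducible apply IntF.singleton | with_reducible apply IntF.union | with_reducible apply IntF.inter | with_reducible apply IntF.sdiff | with_reducible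 apply IntF.isUnion | with_reducible apply IntF.iimage | with_reducible apply IntF.the | with_reducible apply IntF.irec | with_reducible_and_instances apply IntF.mul | with_reducible_and_instances apply IntF.inv | with_reducible_and_instances apply IntF.smul | with_reducible apply IntF.succ | with_reducible apply IntF.val | with_reducible apply IntF.mk | (with_reducible refine Int.comp ?_ ?_; assumption) | (with_reducible refine Int.comp₂ ?_ ?_ ?_; assumption) | (with_reducible refine Int.comp₃ ?_ ?_ ?_ ?_; assumption) | (with_reducible refine Int.comp₄ ?_ ?_ ?_ ?_ ?_; assumption) | (with_reducible refine IntF.comp ?_ ?_; assumption) | (with_reducible refine IntF.comp₂ ?_ ?_ ?_; assumption) | (with_reducible refine Helper672.ZFA.IntF.comp₃ ?_ ?_ ?_ ?_; assumption) | with_reducible apply IntF.pair))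
      rw [hAs, lam_apply h1]
      refine D.SG.loc _ fun h hh => ?_
      rw [mem_sep (h2 _)] at hh
      obtain ⟨i', j', h3, h4⟩ := hh
      exact ⟨_, D.pm_op (ih i'), h4, fun a ha => (mem_sep (h2 _)).2 ⟨i', j', h3, ha⟩⟩
  exact ⟨⟨fun c => A c.1 c.2, by (repeat' (first | with_reducible exact IntF.id | with_reducible exact IntF.fst' | with_reducible exact IntF.snd' | with_reducible exact IntF.const _ | with_reducible exact Int.const _ | assumption | with_reducible apply Int.and | with_reducible apply Int.or | with_reducible apply Int.not | with_reducible apply Int.imp | with_reducible apply Int.iff | with_reducible apply Int.ne | with_reducible apply Int.eq | with_reducible apply Int.mem | with_reducible apply Int.subset | with_reducible apply Int.ltN | with_reducible apply Int.leN | with_reducible apply Int.fin | with_reducible apply Int.unique | with_reducible apply Int.all | with_reducible apply Int.ex | with_reducible apply IntF.fst | with_reducible apply IntF.snd | with_reducible apply IntF.app | with_reducible apply IntF.ite | with_reducible apply IntF.sep | with_reducible apply IntF.lam | with_reducible apply IntF.insert | with_reducible apply IntF.singleton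 | with_reducible apply IntF.union | with_reducible apply IntF.inter | with_reducible apply IntF.sdiff | with_reducible apply IntF.isUnion | with_reducible apply IntF.iimage | with_reducible apply IntF.the | with_reducible apply IntF.irec | with_reducible_and_instances apply IntF.mul | with_reducible_and_instances apply IntF.inv | with_reducible_and_instances apply IntF.smul | with_reducible apply IntF.succ | with_reducible apply IntF.val | with_reducible apply IntF.mk | (with_reducible refine Int.comp ?_ ?_; assumption) | (with_reducible refine Int.comp₂ ?_ ?_ ?_; assumption) | (with_reducible refine Int.comp₃ ?_ ?_ ?_ ?_; assumption) | (with_reducible refine Int.comp₄ ?_ ?_ ?_ ?_ ?_; assumption) | (with_reducible refine IntF.comp ?_ ?_; assumption) | (with_reducible refine IntF.comp₂ ?_ ?_ ?_; assumption) | (with_reducible refine Helper672.ZFA.IntF.comp₃ ?_ ?_ ?_ ?_; assumption) | with_reducible apply IntF.pair))⟩, fun c => hop _ _, fun i => congrArg (fun F : IFun M _ _ => F i) hA0,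
    hs⟩

/-- The open sets of the countable family. -/
noncomputable def cod : IFun M (Nd M) (IPow M G) := D.exists_cod.choose

theorem cod_op (c : Nd M) : D.cod c ∈ D.SG.Op := D.exists_cod.choose_spec.1 c

theorem cod_zero (i : INat M) : D.cod (0, i) = D.SG.B i := D.exists_cod.choose_spec.2.1 i

/-- The code of the product with a basic set. -/
noncomputable def nx (c : Nd M) (j : INat M) : Nd M := (c.1.succ, pr c.2 j)

theorem cod_nx (c : Nd M) (j : INat M) : D.cod (nx c j) = pm (D.cod c) (D.SG.B j) :=
  D.exists_cod.choose_spec.2.2 c.1 c.2 j

omit hM in
theorem int_nx [IsModel M] : IntF M (fun q : Nd M × INat M => nx q.1 q.2) := by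
  have hpr := int_pr (M := M)
  unfold nx
  (repeat' (first | with_reducible exact IntF.id | with_reducible exact IntF.fst' | with_reducible exact IntF.snd' | with_reducible exact IntF.const _ | with_reducible exact Int.const _ | assumption | with_reducible apply Int.and | with_reducible apply Int.or | with_reducible apply Int.not | with_reducible apply Int.imp | with_reducible apply Int.iff | with_reducible apply Int.ne | with_reducible apply Int.eq | with_reducible apply Int.mem | with_reducible apply Int.subset | with_reducible apply Int.ltN | with_reducible apply Int.leN | with_reducible apply Int.fin | with_reducible apply Int.unique | with_reducible apply Int.all | with_reducible apply Int.ex | with_reducible apply IntF.fst | with_reducible apply IntF.snd | with_reducible apply IntF.app | with_reducible apply IntF.ite | with_reducible apply IntF.sep | with_reducible apply IntF.lam | with_reducible apply IntF.insert | with_reducible apply IntF.singleton | with_reducible apply IntF.union | with_reducible apply IntF.inter | with_reducible apply IntF.sdiff | with_reducible apply IntF.isUnion | with_reducible apply IntF.iimage | with_reducible apply IntF.the | with_reducible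 apply IntF.irec | with_reducible_and_instances apply IntF.mul | with_reducible_and_instances apply IntF.inv | with_reducible_and_instances apply IntF.smul | with_reducible apply IntF.succ | with_reducible apply IntF.val | with_reducible apply IntF.mk | (with_reducible refine Int.comp ?_ ?_; assumption) | (with_reducible refine Int.comp₂ ?_ ?_ ?_; assumption) | (with_reducible refine Int.comp₃ ?_ ?_ ?_ ?_; assumption) | (with_reducible refine Int.comp₄ ?_ ?_ ?_ ?_ ?_; assumption) | (with_reducible refine IntF.comp ?_ ?_; assumption) | (with_reducible refine IntF.comp₂ ?_ ?_ ?_; assumption) | (with_reducible refine Helper672.ZFA.IntF.comp₃ ?_ ?_ ?_ ?_; assumption) | with_reducible apply IntF.pair))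

/-- Facts. -/
abbrev Fct : Type u := (Nd M × {s : IPow M (Zt M G X) // D.tw.PSt s}) × Nd M

/-- The fact `f` holds at the point `x`. -/
def holds (x : X) (f : D.Fct) : Prop := ((x, f.1.1), D.cod f.2) ∈ f.1.2.1

theorem int_holds : Int M (fun q : X × D.Fct => D.holds q.1 q.2) := by
  unfold holds
  (repeat' (first | with_reducible exact IntF.id | with_reducible exact IntF.fst' | with_reducible exact IntF.snd' | with_reducible exact IntF.const _ | with_reducible exact Int.const _ | assumption | with_reducible apply Int.and | with_reducible apply Int.or | with_reducible apply Int.not | with_reducible apply Int.imp | with_reducible apply Int.iff | with_reducible apply Int.ne | with_reducible apply Int.eq | with_reducible apply Int.mem | with_reducible apply Int.subset | with_reducible apply Int.ltN | with_reducible apply Int.leN | with_reducible apply Int.fin | with_reducible apply Int.unique | with_reducible apply Int.all | with_reducible apply Int.ex | with_reducible apply IntF.fst | with_reducible apply IntF.snd | with_reducible apply IntF.app | with_reducible apply IntF.ite | with_reducible apply IntF.sep | with_reducible apply IntF.lam | with_reducible apply IntF.insert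 | with_reducible apply IntF.singleton | with_reducible apply IntF.union | with_reducible apply IntF.inter | with_reducible apply IntF.sdiff | with_reducible apply IntF.isUnion | with_reducible apply IntF.iimage | with_reducible apply IntF.the | with_reducible apply IntF.irec | with_reducible_and_instances apply IntF.mul | with_reducible_and_instances apply IntF.inv | with_reducible_and_instances apply IntF.smul | with_reducible apply IntF.succ | with_reducible apply IntF.val | with_reducible apply IntF.mk | (with_reducible refine Int.comp ?_ ?_; assumption) | (with_reducible refine Int.comp₂ ?_ ?_ ?_; assumption) | (with_reducible refine Int.comp₃ ?_ ?_ ?_ ?_; assumption) | (with_reducible refine Int.comp₄ ?_ ?_ ?_ ?_ ?_; assumption) | (with_reducible refine IntF.comp ?_ ?_; assumption) | (with_reducible refine IntF.comp₂ ?_ ?_ ?_; assumption) | (with_reducible refine Helper672.ZFA.IntF.comp₃ ?_ ?_ ?_ ?_; assumption) | with_reducible apply IntF.pair))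

/-- Indices of the base. -/
abbrev Tt : Type u := (INat M × INat M) × FinS M D.Fct

/-- The condition of the index `θ` at `w` and `x`. -/
def sat (θ : D.Tt) (w : G) (x : X) : Prop :=
  w ∈ D.SG.B θ.1.1 ∧ w • x ∈ D.SX.B θ.1.2 ∧ ∀ f, f ∈ θ.2.1 → D.holds (w • x) f

theorem int_sat : Int M (fun q : (D.Tt × G) × X => D.sat q.1.1 q.1.2 q.2) := by
  have h := D.int_holds
  unfold sat
  (repeat' (first | with_reducible exact IntF.id | with_reducible exact IntF.fst' | with_reducible exact IntF.snd' | with_reducible exact IntF.const _ | with_reducible exact Int.const _ | assumption | with_reducible apply Int.and | with_reducible apply Int.or | with_reducible apply Int.not | with_reducible apply Int.imp | with_reducible apply Int.iff | with_reducible apply Int.ne | with_reducible apply Int.eq | with_reducible apply Int.mem | with_reducible apply Int.subset | with_reducible apply Int.ltN | with_reducible apply Int.leN | with_reducible apply Int.fin | with_reducible apply Int.unique | with_reducible apply Int.all | with_reducible apply Int.ex | with_reducible apply IntF.fst | with_reducible apply IntF.snd | with_reducible apply IntF.app | with_reducible apply IntF.ite | with_reducible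 apply IntF.sep | with_reducible apply IntF.lam | with_reducible apply IntF.insert | with_reducible apply IntF.singleton | with_reducible apply IntF.union | with_reducible apply IntF.inter | with_reducible apply IntF.sdiff | with_reducible apply IntF.isUnion | with_reducible apply IntF.iimage | with_reducible apply IntF.the | with_reducible apply IntF.irec | with_reducible_and_instances apply IntF.mul | with_reducible_and_instances apply IntF.inv | with_reducible_and_instances apply IntF.smul | with_reducible apply IntF.succ | with_reducible apply IntF.val | with_reducible apply IntF.mk | (with_reducible refine Int.comp ?_ ?_; assumption) | (with_reducible refine Int.comp₂ ?_ ?_ ?_; assumption) | (with_reducible refine Int.comp₃ ?_ ?_ ?_ ?_; assumption) | (with_reducible refine Int.comp₄ ?_ ?_ ?_ ?_ ?_; assumption) | (with_reducible refine IntF.comp ?_ ?_; assumption) | (with_reducible refine IntF.comp₂ ?_ ?_ ?_; assumption) | (with_reducible refine Helper672.ZFA.IntF.comp₃ ?_ ?_ ?_ ?_; assumption) | with_reducible apply IntF.pair))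

/-- The set of the base with index `θ`. -/
noncomputable def VV (θ : D.Tt) : IPow M X :=
  sep M fun x => x ∈ D.P ∧ ∃ W, W ∈ D.SG.Op ∧ (∃ w, w ∈ W) ∧ ∀ w, w ∈ W → D.sat θ w x

theorem mem_VV {θ : D.Tt} {x : X} : x ∈ D.VV θ ↔
    x ∈ D.P ∧ ∃ W, W ∈ D.SG.Op ∧ (∃ w, w ∈ W) ∧ ∀ w, w ∈ W → D.sat θ w x := by
  have h := D.int_sat
  unfold VV
  rw [mem_sep (by (repeat' (first | with_reducible exact IntF.id | with_reducible exact IntF.fst' | with_reducible exact IntF.snd' | with_reducible exact IntF.const _ | with_reducible exact Int.const _ | assumption | with_reducible apply Int.and | with_reducible apply Int.or | with_reducible apply Int.not | with_reducible apply Int.imp | with_reducible apply Int.iff | with_reducible apply Int.ne | with_reducible apply Int.eq | with_reducible apply Int.mem | with_reducible apply Int.subset | with_reducible apply Int.ltN | with_reducible apply Int.leN | with_reducible apply Int.fin | with_reducible apply Int.unique | with_reducible apply Int.all | with_reducible apply Int.ex | with_reducible apply IntF.fst | with_reducible apply IntF.snd | with_reducible apply IntF.app | with_reducible apply IntF.ite | with_reducible apply IntF.sep |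 with_reducible apply IntF.lam | with_reducible apply IntF.insert | with_reducible apply IntF.singleton | with_reducible apply IntF.union | with_reducible apply IntF.inter | with_reducible apply IntF.sdiff | with_reducible apply IntF.isUnion | with_reducible apply IntF.iimage | with_reducible apply IntF.the | with_reducible apply IntF.irec | with_reducible_and_instances apply IntF.mul | with_reducible_and_instances apply IntF.inv | with_reducible_and_instances apply IntF.smul | with_reducible apply IntF.succ | with_reducible apply IntF.val | with_reducible apply IntF.mk | (with_reducible refine Int.comp ?_ ?_; assumption) | (with_reducible refine Int.comp₂ ?_ ?_ ?_; assumption) | (with_reducible refine Int.comp₃ ?_ ?_ ?_ ?_; assumption) | (with_reducible refine Int.comp₄ ?_ ?_ ?_ ?_ ?_; assumption) | (with_reducible refine IntF.comp ?_ ?_; assumption) | (with_reducible refine IntF.comp₂ ?_ ?_ ?_; assumption) | (with_reducible refine Helper672.ZFA.IntF.comp₃ ?_ ?_ ?_ ?_; assumption) | with_reducible apply IntF.pair)))]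

theorem int_VV : IntF M (fun θ : D.Tt => D.VV θ) := by
  have h := D.int_sat
  unfold VV
  (repeat' (first | with_reducible exact IntF.id | with_reducible exact IntF.fst' | with_reducible exact IntF.snd' | with_reducible exact IntF.const _ | with_reducible exact Int.const _ | assumption | with_reducible apply Int.and | with_reducible apply Int.or | with_reducible apply Int.not | with_reducible apply Int.imp | with_reducible apply Int.iff | with_reducible apply Int.ne | with_reducible apply Int.eq | with_reducible apply Int.mem | with_reducible apply Int.subset | with_reducible apply Int.ltN | with_reducible apply Int.leN | with_reducible apply Int.fin | with_reducible apply Int.unique | with_reducible apply Int.all | with_reducible apply Int.ex | with_reducible apply IntF.fst | with_reducible apply IntF.snd | with_reducible apply IntF.app | with_reducible apply IntF.ite | with_reducible apply IntF.sep | with_reducible apply IntF.lam | with_reducible apply IntF.insert | with_reducible apply IntF.singleton | with_reducible apply IntF.union | with_reducible apply IntF.inter | with_reducible apply IntF.sdiff | with_reducible apply IntF.isUnion | with_reducible apply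 IntF.iimage | with_reducible apply IntF.the | with_reducible apply IntF.irec | with_reducible_and_instances apply IntF.mul | with_reducible_and_instances apply IntF.inv | with_reducible_and_instances apply IntF.smul | with_reducible apply IntF.succ | with_reducible apply IntF.val | with_reducible apply IntF.mk | (with_reducible refine Int.comp ?_ ?_; assumption) | (with_reducible refine Int.comp₂ ?_ ?_ ?_; assumption) | (with_reducible refine Int.comp₃ ?_ ?_ ?_ ?_; assumption) | (with_reducible refine Int.comp₄ ?_ ?_ ?_ ?_ ?_; assumption) | (with_reducible refine IntF.comp ?_ ?_; assumption) | (with_reducible refine IntF.comp₂ ?_ ?_ ?_; assumption) | (with_reducible refine Helper672.ZFA.IntF.comp₃ ?_ ?_ ?_ ?_; assumption) | with_reducible apply IntF.pair))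

/-- The index `θ'` is below the index `θ`. -/
def below (n : INat M) (θ θ' : D.Tt) : Prop :=
  (LL D.SG.Op (D.SG.B θ'.1.1) (D.SG.B θ.1.1) ∧ (n, D.SG.B θ'.1.1) ∈ D.SG.sm) ∧
    (LL D.SX.Op (D.SX.B θ'.1.2) (D.SX.B θ.1.2) ∧ (n, D.SX.B θ'.1.2) ∈ D.SX.sm) ∧
    θ.2.1 ⊆ θ'.2.1

theorem int_below : Int M (fun q : (INat M × D.Tt) × D.Tt => D.below q.1.1 q.1.2 q.2) := by
  unfold below
  (repeat' (first | with_reducible exact IntF.id | with_reducible exact IntF.fst' | with_reducible exact IntF.snd' | with_reducible exact IntF.const _ | with_reducible exact Int.const _ | assumption | with_reducible apply Int.LL | with_reducible apply Int.and | with_reducible apply Int.or | with_reducible apply Int.not | with_reducible apply Int.imp | with_reducible apply Int.iff | with_reducible apply Int.ne | with_reducible apply Int.eq | with_reducible apply Int.mem | with_reducible apply Int.subset | with_reducible apply Int.ltN | with_reducible apply Int.leN | with_reducible apply Int.fin | with_reducible apply Int.unique | with_reducible apply Int.all | with_reducible apply Int.ex | with_reducible apply IntF.fst | with_reducible apply IntF.snd | with_reducible apply IntF.app | with_reducible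 apply IntF.ite | with_reducible apply IntF.sep | with_reducible apply IntF.lam | with_reducible apply IntF.insert | with_reducible apply IntF.singleton | with_reducible apply IntF.union | with_reducible apply IntF.inter | with_reducible apply IntF.sdiff | with_reducible apply IntF.isUnion | with_reducible apply IntF.iimage | with_reducible apply IntF.the | with_reducible apply IntF.irec | with_reducible_and_instances apply IntF.mul | with_reducible_and_instances apply IntF.inv | with_reducible_and_instances apply IntF.smul | with_reducible apply IntF.succ | with_reducible apply IntF.val | with_reducible apply IntF.mk | (with_reducible refine Int.comp ?_ ?_; assumption) | (with_reducible refine Int.comp₂ ?_ ?_ ?_; assumption) | (with_reducible refine Int.comp₃ ?_ ?_ ?_ ?_; assumption) | (with_reducible refine Int.comp₄ ?_ ?_ ?_ ?_ ?_; assumption) | (with_reducible refine IntF.comp ?_ ?_; assumption) | (with_reducible refine IntF.comp₂ ?_ ?_ ?_; assumption) | (with_reducible refine Helper672.ZFA.IntF.comp₃ ?_ ?_ ?_ ?_; assumption) | with_reducible apply IntF.pair))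

/-- The index `θ'` refines `θ₁`. -/
def ref (θ' θ₁ : D.Tt) : Prop := ∃ j, (∃ k, k ∈ D.SG.B j) ∧
  (∀ k w, k ∈ D.SG.B j → w ∈ D.SG.B θ'.1.1 → k * w ∈ D.SG.B θ₁.1.1) ∧
  (∀ (k : G) (z : X), k ∈ D.SG.B j → z ∈ D.SX.B θ'.1.2 → k • z ∈ D.SX.B θ₁.1.2) ∧
  ∀ f, f ∈ θ₁.2.1 → (f.1, nx f.2 j) ∈ θ'.2.1

theorem int_ref : Int M (fun q : D.Tt × D.Tt => D.ref q.1 q.2) := by
  have h := int_nx (M := M)
  unfold ref
  (repeat' (first | with_reducible exact IntF.id | with_reducible exact IntF.fst' | with_reducible exact IntF.snd' | with_reducible exact IntF.const _ | with_reducible exact Int.const _ | assumption | with_reducible apply Int.and | with_reducible apply Int.or | with_reducible apply Int.not | with_reducible apply Int.imp | with_reducible apply Int.iff | with_reducible apply Int.ne | with_reducible apply Int.eq | with_reducible apply Int.mem | with_reducible apply Int.subset | with_reducible apply Int.ltN | with_reducible apply Int.leN | with_reducible apply Int.fin | with_reducible apply Int.unique | with_reducible apply Int.all | with_reducible apply Int.ex | with_reducible apply IntF.fst | with_reducible apply IntF.snd | with_reducible apply IntF.app | with_reducible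 apply IntF.ite | with_reducible apply IntF.sep | with_reducible apply IntF.lam | with_reducible apply IntF.insert | with_reducible apply IntF.singleton | with_reducible apply IntF.union | with_reducible apply IntF.inter | with_reducible apply IntF.sdiff | with_reducible apply IntF.isUnion | with_reducible apply IntF.iimage | with_reducible apply IntF.the | with_reducible apply IntF.irec | with_reducible_and_instances apply IntF.mul | with_reducible_and_instances apply IntF.inv | with_reducible_and_instances apply IntF.smul | with_reducible apply IntF.succ | with_reducible apply IntF.val | with_reducible apply IntF.mk | (with_reducible refine Int.comp ?_ ?_; assumption) | (with_reducible refine Int.comp₂ ?_ ?_ ?_; assumption) | (with_reducible refine Int.comp₃ ?_ ?_ ?_ ?_; assumption) | (with_reducible refine Int.comp₄ ?_ ?_ ?_ ?_ ?_; assumption) | (with_reducible refine IntF.comp ?_ ?_; assumption) | (with_reducible refine IntF.comp₂ ?_ ?_ ?_; assumption) | (with_reducible refine Helper672.ZFA.IntF.comp₃ ?_ ?_ ?_ ?_; assumption) | with_reducible apply IntF.pair))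

variable {D}

/-- Refinement. -/
theorem mem_of_ref {θ' θ₁ : D.Tt} (h : D.ref θ' θ₁) {g : G} {x : X} (hs : D.sat θ' g x)
    (hx : x ∈ D.P) : x ∈ D.VV θ₁ := by
  obtain ⟨j, ⟨k₀, hk₀⟩, h1, h2, h3⟩ := h
  rw [mem_VV]
  refine ⟨hx, rt (D.SG.B j) g, D.rt_op (D.SG.B_op j) g, ⟨k₀ * g, mul_mem_rt.2 hk₀⟩, fun w hw => ?_⟩
  obtain ⟨k, hk, rfl⟩ : ∃ k, k ∈ D.SG.B j ∧ k * g = w :=
    ⟨w * g⁻¹, mem_rt.1 hw, inv_mul_cancel_right _ _⟩
  refine ⟨h1 k g hk hs.1, ?_, fun f hf => ?_⟩
  · rw [mul_smul]
    exact h2 k _ hk hs.2.1
  · have h4 := hs.2.2 _ (h3 f hf)
    unfold holds at h4 ⊢
    rw [mul_smul]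
    have h5 : ((g • x, f.1.1), D.cod (nx f.2 j)) ∈ f.1.2.1 := h4
    rw [D.cod_nx] at h5
    exact unloc f.1.2.2.stg h5 hk

theorem VV_below {n : INat M} {θ θ' : D.Tt} (h : D.below n θ θ') : D.VV θ' ⊆ D.VV θ := by
  intro x hx
  rw [mem_VV] at hx ⊢
  obtain ⟨hP, W, hW, hne, h1⟩ := hx
  exact ⟨hP, W, hW, hne, fun w hw => ⟨h.1.1.sub _ (h1 w hw).1, h.2.1.1.sub _ (h1 w hw).2.1,
    fun f hf => (h1 w hw).2.2 f (h.2.2 f hf)⟩⟩

/-- Existence of refinements. -/
theorem exists_ref (n : INat M) {θ θ₁ : D.Tt} {x : X} (hx : x ∈ D.VV θ) (hx₁ : x ∈ D.VV θ₁) :
    ∃ θ', D.below n θ θ' ∧ D.ref θ' θ₁ ∧ x ∈ D.VV θ' := by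
  rw [mem_VV] at hx hx₁
  obtain ⟨hP, Wa, hWa, ⟨wa, hwa⟩, ha⟩ := hx
  obtain ⟨-, Wb, hWb, ⟨wb, hwb⟩, hb⟩ := hx₁
  have e1 : (wb * wa⁻¹) * wa = wb := inv_mul_cancel_right _ _
  obtain ⟨K₁, W₁, hK₁, hW₁, h1, h2, h3⟩ := D.mulc (wb * wa⁻¹) wa Wb hWb (by rwa [e1])
  have e2 : (wb * wa⁻¹) • (wa • x) = wb • x := by rw [smul_smul, e1]
  obtain ⟨K₂, U₁, hK₂, hU₁, h4, h5, h6⟩ := D.smulc (wb * wa⁻¹) (wa • x) _ (D.SX.B_op θ₁.1.2)
    (by rw [e2]; exact (hb wb hwb).2.1)
  obtain ⟨j, h7, h8⟩ := D.SG.nbhd (D.SG.inter _ _ hK₁ hK₂) (mem_inter.2 ⟨h1, h4⟩)
  obtain ⟨i₁, h9, h10, h11⟩ := D.SG.base (Wa ∩ W₁ ∩ D.SG.B θ.1.1) wa n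
    (D.SG.inter _ _ (D.SG.inter _ _ hWa hW₁) (D.SG.B_op _))
    (mem_inter.2 ⟨mem_inter.2 ⟨hwa, h2⟩, (ha wa hwa).1⟩)
  obtain ⟨i₂, h12, h13, h14⟩ := D.SX.base (U₁ ∩ D.SX.B θ.1.2) (wa • x) n
    (D.SX.inter _ _ hU₁ (D.SX.B_op _)) (mem_inter.2 ⟨h5, (ha wa hwa).2.1⟩)
  have hmap : IntF M (fun f : D.Fct => (f.1, nx f.2 j)) := by
    have h := int_nx (M := M)
    (repeat' (first | with_reducible exact IntF.id | with_reducible exact IntF.fst' | with_reducible exact IntF.snd' | with_reducible exact IntF.const _ | with_reducible exact Int.const _ | assumption | with_reducible apply Int.and | with_reducible apply Int.or | with_reducible apply Int.not | with_reducible apply Int.imp | with_reducible apply Int.iff | with_reducible apply Int.ne | with_reducible apply Int.eq | with_reducible apply Int.mem | with_reducible apply Int.subset | with_reducible apply Int.ltN | with_reducible apply Int.leN | with_reducible apply Int.fin | with_reducible apply Int.unique | with_reducible apply Int.all | with_reducible apply Int.ex | with_reducible apply IntF.fst | with_reducible apply IntF.snd | with_reducible apply IntF.app | with_reducible apply IntF.ite | with_reducible apply IntF.sep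 | with_reducible apply IntF.lam | with_reducible apply IntF.insert | with_reducible apply IntF.singleton | with_reducible apply IntF.union | with_reducible apply IntF.inter | with_reducible apply IntF.sdiff | with_reducible apply IntF.isUnion | with_reducible apply IntF.iimage | with_reducible apply IntF.the | with_reducible apply IntF.irec | with_reducible_and_instances apply IntF.mul | with_reducible_and_instances apply IntF.inv | with_reducible_and_instances apply IntF.smul | with_reducible apply IntF.succ | with_reducible apply IntF.val | with_reducible apply IntF.mk | (with_reducible refine Int.comp ?_ ?_; assumption) | (with_reducible refine Int.comp₂ ?_ ?_ ?_; assumption) | (with_reducible refine Int.comp₃ ?_ ?_ ?_ ?_; assumption) | (with_reducible refine Int.comp₄ ?_ ?_ ?_ ?_ ?_; assumption) | (with_reducible refine IntF.comp ?_ ?_; assumption) | (with_reducible refine IntF.comp₂ ?_ ?_ ?_; assumption) | (with_reducible refine Helper672.ZFA.IntF.comp₃ ?_ ?_ ?_ ?_; assumption) | with_reducible apply IntF.pair))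
  have hmv : Int M (fun g : G => g • x ∈ D.SX.B i₂) := by (repeat' (first | with_reducible exact IntF.id | with_reducible exact IntF.fst' | with_reducible exact IntF.snd' | with_reducible exact IntF.const _ | with_reducible exact Int.const _ | assumption | with_reducible apply Int.and | with_reducible apply Int.or | with_reducible apply Int.not | with_reducible apply Int.imp | with_reducible apply Int.iff | with_reducible apply Int.ne | with_reducible apply Int.eq | with_reducible apply Int.mem | with_reducible apply Int.subset | with_reducible apply Int.ltN | with_reducible apply Int.leN | with_reducible apply Int.fin | with_reducible apply Int.unique | with_reducible apply Int.all | with_reducible apply Int.ex | with_reducible apply IntF.fst | with_reducible apply IntF.snd | with_reducible apply IntF.app | with_reducible apply IntF.ite | with_reducible apply IntF.sep | with_reducible apply IntF.lam | with_reducible apply IntF.insert | with_reducible apply IntF.singleton | with_reducible apply IntF.union | with_reducible apply IntF.inter | with_reducible apply IntF.sdiff | with_reducible apply IntF.isUnion | with_reducible apply IntF.iimage | with_reducible apply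 IntF.the | with_reducible apply IntF.irec | with_reducible_and_instances apply IntF.mul | with_reducible_and_instances apply IntF.inv | with_reducible_and_instances apply IntF.smul | with_reducible apply IntF.succ | with_reducible apply IntF.val | with_reducible apply IntF.mk | (with_reducible refine Int.comp ?_ ?_; assumption) | (with_reducible refine Int.comp₂ ?_ ?_ ?_; assumption) | (with_reducible refine Int.comp₃ ?_ ?_ ?_ ?_; assumption) | (with_reducible refine Int.comp₄ ?_ ?_ ?_ ?_ ?_; assumption) | (with_reducible refine IntF.comp ?_ ?_; assumption) | (with_reducible refine IntF.comp₂ ?_ ?_ ?_; assumption) | (with_reducible refine Helper672.ZFA.IntF.comp₃ ?_ ?_ ?_ ?_; assumption) | with_reducible apply IntF.pair))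
  refine ⟨((i₁, i₂), ⟨θ.2.1 ∪ iimage (fun f : D.Fct => (f.1, nx f.2 j)) θ₁.2.1,
    θ.2.2.union (θ₁.2.2.image hmap)⟩), ⟨⟨?_, h11⟩, ⟨?_, h14⟩, ?_⟩, ⟨j, ⟨_, h7⟩, ?_, ?_, ?_⟩, ?_⟩
  · exact h10.mono (fun _ => id) fun a ha => (mem_inter.1 ha).2
  · exact h13.mono (fun _ => id) fun a ha => (mem_inter.1 ha).2
  · exact fun f hf => mem_union.2 (Or.inl hf)
  · intro k w hk hw
    exact (hb _ (h3 k w (mem_inter.1 (h8 k hk)).1 (mem_inter.1 (mem_inter.1 (h10.sub w hw)).1).2)).1
  · intro k z hk hz
    exact h6 k z (mem_inter.1 (h8 k hk)).2 (mem_inter.1 (h13.sub z hz)).1
  · intro f hf
    exact mem_union.2 (Or.inr ((mem_iimage hmap).2 ⟨f, hf, rfl⟩))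
  · rw [mem_VV]
    refine ⟨hP, D.SG.B i₁ ∩ sep M (fun g : G => g • x ∈ D.SX.B i₂),
      D.SG.inter _ _ (D.SG.B_op _) (D.mov_op (D.SX.B_op _) x),
      ⟨wa, mem_inter.2 ⟨h9, (mem_sep hmv).2 h12⟩⟩, fun w hw => ?_⟩
    obtain ⟨hw1, hw2⟩ := mem_inter.1 hw
    rw [mem_sep hmv] at hw2
    have hwW := mem_inter.1 (mem_inter.1 (h10.sub w hw1)).1
    refine ⟨hw1, hw2, fun f hf => ?_⟩
    rcases mem_union.1 hf with hf | hf
    · exact (ha w hwW.1).2.2 f hf
    · obtain ⟨f, hf₁, rfl⟩ := (mem_iimage hmap).1 hf
      unfold holds
      change ((w • x, f.1.1), D.cod (nx f.2 j)) ∈ f.1.2.1
      rw [D.cod_nx]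
      refine local_ f.1.2.2 (D.cod_op _) fun k hk => ?_
      have h15 := (hb _ (h3 k w (mem_inter.1 (h8 k hk)).1 hwW.2)).2.2 f hf₁
      rw [mul_smul] at h15
      exact h15

variable (D) in
/-- The order of the facts. -/
noncomputable def ltF : D.Fct → D.Fct → Prop :=
  prodLT (prodLT (prodLT (fun a b : INat M => a < b) (fun a b : INat M => a < b)) D.tw.ltS)
    (prodLT (fun a b : INat M => a < b) (fun a b : INat M => a < b))

variable (D) in
/-- The order of the indices. -/
noncomputable def ltT : D.Tt → D.Tt → Prop :=
  prodLT (prodLT (fun a b : INat M => a < b) (fun a b : INat M => a < b))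
    (fun F F' : FinS M D.Fct => colex D.ltF F.1 F'.1)

variable (D) in
theorem iwoF : IWo M D.ltF :=
  ((IWo.nat.prod IWo.nat).prod D.tw.iwo).prod (IWo.nat.prod IWo.nat)

variable (D) in
theorem iwoT : IWo M D.ltT := (IWo.nat.prod IWo.nat).prod D.iwoF.fins

end Dat

end Pool.Agent.W924
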