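import Pool.Agent.W924.WO

/-!
# Polish spaces and Polish group actions, in internal terms
-/

set_option maxHeartbeats 1000000
set_option linter.all false

namespace Pool.Agent.W924

open FirstOrder FirstOrder.Language
open Pool.Agent.Helper672.ZFA
open Pool.Agent.H310

universe u u₁ u₂ u₃

variable {M : Type u} [L.Structure M] [hM : IsModel M]

section

variable {α : Type u₁} {γ : Type u₂} [ITy M α] [ITy M γ]

/-- The closure of `A` is contained in `U`. -/
def LL (Op : IPow M (IPow M α)) (A U : IPow M α) : Prop :=
  ∀ z, (∀ O, O ∈ Op → z ∈ O → ∃ y, y ∈ O ∧ y ∈ A) → z ∈ U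

theorem Int.LL {Op : IPow M (IPow M α)} {A U : γ → IPow M α} (hA : IntF M A) (hU : IntF M U) :
    Int M (fun c => LL Op (A c) (U c)) := by
  unfold W924.LL
  (repeat' (first | with_reducible exact IntF.id | with_reducible exact IntF.fst' | with_reducible exact IntF.snd' | with_reducible exact IntF.const _ | with_reducible exact Int.const _ | assumption | with_reducible apply Int.and | with_reducible apply Int.or | with_reducible apply Int.not | with_reducible apply Int.imp | with_reducible apply Int.iff | with_reducible apply Int.ne | with_reducible apply Int.eq | with_reducible apply Int.mem | with_reducible apply Int.subset | with_reducible apply Int.ltN | with_reducible apply Int.leN | with_reducible apply Int.fin | with_reducible apply Int.unique | with_reducible apply Int.all | with_reducible apply Int.ex | with_reducible apply IntF.fst | with_reducible apply IntF.snd | with_reducible apply IntF.app | with_reducible apply IntF.ite | with_reducible apply IntF.sep | with_reducible apply IntF.lam | with_reducible apply IntF.insert | with_reducible apply IntF.singleton | with_reducible apply IntF.union | with_reducible apply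 IntF.inter | with_reducible apply IntF.sdiff | with_reducible apply IntF.isUnion | with_reducible apply IntF.iimage | with_reducible apply IntF.the | with_reducible apply IntF.irec | with_reducible_and_instances apply IntF.mul | with_reducible_and_instances apply IntF.inv | with_reducible_and_instances apply IntF.smul | with_reducible apply IntF.succ | with_reducible apply IntF.val | with_reducible apply IntF.mk | (with_reducible refine Int.comp ?_ ?_; assumption) | (with_reducible refine Int.comp₂ ?_ ?_ ?_; assumption) | (with_reducible refine Int.comp₃ ?_ ?_ ?_ ?_; assumption) | (with_reducible refine Int.comp₄ ?_ ?_ ?_ ?_ ?_; assumption) | (with_reducible refine IntF.comp ?_ ?_; assumption) | (with_reducible refine IntF.comp₂ ?_ ?_ ?_; assumption) | (with_reducible refine Helper672.ZFA.IntF.comp₃ ?_ ?_ ?_ ?_; assumption) | with_reducible apply IntF.pair))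

theorem LL.sub {Op : IPow M (IPow M α)} {A U : IPow M α} (h : LL Op A U) : A ⊆ U :=
  fun z hz => h z fun O _ hzO => ⟨z, hzO, hz⟩

theorem LL.mono {Op : IPow M (IPow M α)} {A A' U U' : IPow M α} (h : LL Op A U)
    (h1 : A' ⊆ A) (h2 : U ⊆ U') : LL Op A' U' :=
  fun z hz => h2 z (h z fun O hO hzO => by
    obtain ⟨y, h3, h4⟩ := hz O hO hzO
    exact ⟨y, h3, h1 y h4⟩)

variable (M α) in
/-- A space with a countable base `B`, a notion `sm` of small sets, and completeness. -/
structure PolS where
  Op : IPow M (IPow M α)
  B : IFun M (INat M) (IPow M α)
  sm : IPow M (INat M × IPow M α)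
  B_op : ∀ n, B n ∈ Op
  B_zero : ∀ x, x ∈ B 0
  inter : ∀ U V, U ∈ Op → V ∈ Op → U ∩ V ∈ Op
  loc : ∀ U : IPow M α, (∀ x, x ∈ U → ∃ V, V ∈ Op ∧ x ∈ V ∧ V ⊆ U) → U ∈ Op
  base : ∀ U x n, U ∈ Op → x ∈ U → ∃ i, x ∈ B i ∧ LL Op (B i) U ∧ (n, B i) ∈ sm
  sm_le : ∀ m n U V, m ≤ n → V ⊆ U → (n, U) ∈ sm → (m, V) ∈ sm
  sep : ∀ U x, U ∈ Op → x ∈ U → ∃ n V, V ∈ Op ∧ x ∈ V ∧
    ∀ W, (n, W) ∈ sm → (∃ z, z ∈ W ∧ z ∈ V) → W ⊆ U
  haus : ∀ x y, x ≠ y → ∃ U V, U ∈ Op ∧ V ∈ Op ∧ x ∈ U ∧ y ∈ V ∧ ∀ z, z ∈ U → ¬ z ∈ V
  complete : ∀ s : INat M → IPow M α, IntF M s → (∀ n, s n ∈ Op) → (∀ n, ∃ x, x ∈ s n) →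
    (∀ n : INat M, LL Op (s n.succ) (s n)) → (∀ n : INat M, (n, s n.succ) ∈ sm) → ∃ x, ∀ n, x ∈ s n

end

namespace PolS

section

variable {α : Type u₁} [ITy M α] (S : PolS M α)

/-- Basic neighbourhoods. -/
theorem nbhd {U : IPow M α} {x : α} (hU : U ∈ S.Op) (hx : x ∈ U) :
    ∃ i, x ∈ S.B i ∧ S.B i ⊆ U := by
  obtain ⟨i, h1, h2, -⟩ := S.base U x 0 hU hx
  exact ⟨i, h1, h2.sub⟩

theorem univ_op : iuniv M α ∈ S.Op :=
  S.loc _ fun x _ => ⟨S.B 0, S.B_op 0, S.B_zero x, fun y _ => mem_iuniv.2 trivial⟩

theorem anti {s : INat M → IPow M α} (hs : IntF M s) (h : ∀ n : INat M, s n.succ ⊆ s n) :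
    ∀ m n, m ≤ n → s n ⊆ s m := by
  intro m
  refine INat.ind (p := fun n => m ≤ n → s n ⊆ s m) (by (repeat' (first | with_reducible exact IntF.id | with_reducible exact IntF.fst' | with_reducible exact IntF.snd' | with_reducible exact IntF.const _ | with_reducible exact Int.const _ | assumption | with_reducible apply Int.and | with_reducible apply Int.or | with_reducible apply Int.not | with_reducible apply Int.imp | with_reducible apply Int.iff | with_reducible apply Int.ne | with_reducible apply Int.eq | with_reducible apply Int.mem | with_reducible apply Int.subset | with_reducible apply Int.ltN | with_reducible apply Int.leN | with_reducible apply Int.fin | with_reducible apply Int.unique | with_reducible apply Int.all | with_reducible apply Int.ex | with_reducible apply IntF.fst | with_reducible apply IntF.snd | with_reducible apply IntF.app | with_reducible apply IntF.ite | with_reducible apply IntF.sep | with_reducible apply IntF.lam | with_reducible apply IntF.insert | with_reducible apply IntF.singleton | with_reducible apply IntF.union | with_reducible apply IntF.inter | with_reducible apply IntF.sdiff | with_reducible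 apply IntF.isUnion | with_reducible apply IntF.iimage | with_reducible apply IntF.the | with_reducible apply IntF.irec | with_reducible_and_instances apply IntF.mul | with_reducible_and_instances apply IntF.inv | with_reducible_and_instances apply IntF.smul | with_reducible apply IntF.succ | with_reducible apply IntF.val | with_reducible apply IntF.mk | (with_reducible refine Int.comp ?_ ?_; assumption) | (with_reducible refine Int.comp₂ ?_ ?_ ?_; assumption) | (with_reducible refine Int.comp₃ ?_ ?_ ?_ ?_; assumption) | (with_reducible refine Int.comp₄ ?_ ?_ ?_ ?_ ?_; assumption) | (with_reducible refine IntF.comp ?_ ?_; assumption) | (with_reducible refine IntF.comp₂ ?_ ?_ ?_; assumption) | (with_reducible refine Helper672.ZFA.IntF.comp₃ ?_ ?_ ?_ ?_; assumption) | with_reducible apply IntF.pair))) ?_ ?_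
  · intro h1
    obtain rfl : m = 0 := le_antisymm h1 (INat.zero_le m)
    exact fun _ => id
  · intro n ih h1
    rcases h1.lt_or_eq with h2 | rfl
    · exact fun x hx => ih (INat.lt_succ_iff.1 h2) x (h n x hx)
    · exact fun _ => id

/-- Convergence. -/
theorem conv {s : INat M → IPow M α} {x : α}
    (hx : ∀ n, x ∈ s n) (hsm : ∀ n : INat M, (n, s n.succ) ∈ S.sm) {U : IPow M α} (hU : U ∈ S.Op)
    (hxU : x ∈ U) : ∃ m, ∀ n : INat M, m ≤ n → s n.succ ⊆ U := by
  obtain ⟨m, V, hV, hxV, h1⟩ := S.sep U x hU hxU
  exact ⟨m, fun n hmn => h1 _ (S.sm_le m n _ _ hmn (fun _ => id) (hsm n)) ⟨x, hx _, hxV⟩⟩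

end

end PolS

section

variable {G X : Type u} [ITy M G] [ITy M X] [Group G] [IMul M G]

instance IInv.ofGroup : IInv M G where
  out := by
    refine IntF.of_rel (r := fun a b => a * b = 1) (by (repeat' (first | with_reducible exact IntF.id | with_reducible exact IntF.fst' | with_reducible exact IntF.snd' | with_reducible exact IntF.const _ | with_reducible exact Int.const _ | assumption | with_reducible apply Int.and | with_reducible apply Int.or | with_reducible apply Int.not | with_reducible apply Int.imp | with_reducible apply Int.iff | with_reducible apply Int.ne | with_reducible apply Int.eq | with_reducible apply Int.mem | with_reducible apply Int.subset | with_reducible apply Int.ltN | with_reducible apply Int.leN | with_reducible apply Int.fin | with_reducible apply Int.unique | with_reducible apply Int.all | with_reducible apply Int.ex | with_reducible apply IntF.fst | with_reducible apply IntF.snd | with_reducible apply IntF.app | with_reducible apply IntF.ite | with_reducible apply IntF.sep | with_reducible apply IntF.lam | with_reducible apply IntF.insert | with_reducible apply IntF.singleton | with_reducible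 apply IntF.union | with_reducible apply IntF.inter | with_reducible apply IntF.sdiff | with_reducible apply IntF.isUnion | with_reducible apply IntF.iimage | with_reducible apply IntF.the | with_reducible apply IntF.irec | with_reducible_and_instances apply IntF.mul | with_reducible_and_instances apply IntF.inv | with_reducible_and_instances apply IntF.smul | with_reducible apply IntF.succ | with_reducible apply IntF.val | with_reducible apply IntF.mk | (with_reducible refine Int.comp ?_ ?_; assumption) | (with_reducible refine Int.comp₂ ?_ ?_ ?_; assumption) | (with_reducible refine Int.comp₃ ?_ ?_ ?_ ?_; assumption) | (with_reducible refine Int.comp₄ ?_ ?_ ?_ ?_ ?_; assumption) | (with_reducible refine IntF.comp ?_ ?_; assumption) | (with_reducible refine IntF.comp₂ ?_ ?_ ?_; assumption) | (with_reducible refine Helper672.ZFA.IntF.comp₃ ?_ ?_ ?_ ?_; assumption) | with_reducible apply IntF.pair))) fun a b => ?_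
    exact (eq_inv_iff_mul_eq_one (a := a) (b := b)).symm.trans (by
      constructor
      · rintro rfl
        exact inv_inv b
      · rintro rfl
        exact (inv_inv a).symm)

/-- Right translates. -/
noncomputable def rt (O : IPow M G) (k : G) : IPow M G := sep M fun h => h * k⁻¹ ∈ O

theorem mem_rt {O : IPow M G} {k h : G} : h ∈ rt O k ↔ h * k⁻¹ ∈ O := by
  unfold rt
  rw [mem_sep (by (repeat' (first | with_reducible exact IntF.id | with_reducible exact IntF.fst' | with_reducible exact IntF.snd' | with_reducible exact IntF.const _ | with_reducible exact Int.const _ | assumption | with_reducible apply Int.and | with_reducible apply Int.or | with_reducible apply Int.not | with_reducible apply Int.imp | with_reducible apply Int.iff | with_reducible apply Int.ne | with_reducible apply Int.eq | with_reducible apply Int.mem | with_reducible apply Int.subset | with_reducible apply Int.ltN | with_reducible apply Int.leN | with_reducible apply Int.fin | with_reducible apply Int.unique | with_reducible apply Int.all | with_reducible apply Int.ex | with_reducible apply IntF.fst | with_reducible apply IntF.snd | with_reducible apply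 IntF.app | with_reducible apply IntF.ite | with_reducible apply IntF.sep | with_reducible apply IntF.lam | with_reducible apply IntF.insert | with_reducible apply IntF.singleton | with_reducible apply IntF.union | with_reducible apply IntF.inter | with_reducible apply IntF.sdiff | with_reducible apply IntF.isUnion | with_reducible apply IntF.iimage | with_reducible apply IntF.the | with_reducible apply IntF.irec | with_reducible_and_instances apply IntF.mul | with_reducible_and_instances apply IntF.inv | with_reducible_and_instances apply IntF.smul | with_reducible apply IntF.succ | with_reducible apply IntF.val | with_reducible apply IntF.mk | (with_reducible refine Int.comp ?_ ?_; assumption) | (with_reducible refine Int.comp₂ ?_ ?_ ?_; assumption) | (with_reducible refine Int.comp₃ ?_ ?_ ?_ ?_; assumption) | (with_reducible refine Int.comp₄ ?_ ?_ ?_ ?_ ?_; assumption) | (with_reducible refine IntF.comp ?_ ?_; assumption) | (with_reducible refine IntF.comp₂ ?_ ?_ ?_; assumption) | (with_reducible refine Helper672.ZFA.IntF.comp₃ ?_ ?_ ?_ ?_; assumption) | with_reducible apply IntF.pair)))]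

theorem mul_mem_rt {O : IPow M G} {k h : G} : h * k ∈ rt O k ↔ h ∈ O := by
  rw [mem_rt, mul_inv_cancel_right]

theorem IntF.rt {γ : Type*} [ITy M γ] {O : γ → IPow M G} {k : γ → G} (hO : IntF M O)
    (hk : IntF M k) : IntF M (fun c => rt (O c) (k c)) := by
  unfold W924.rt
  (repeat' (first | with_reducible exact IntF.id | with_reducible exact IntF.fst' | with_reducible exact IntF.snd' | with_reducible exact IntF.const _ | with_reducible exact Int.const _ | assumption | with_reducible apply Int.and | with_reducible apply Int.or | with_reducible apply Int.not | with_reducible apply Int.imp | with_reducible apply Int.iff | with_reducible apply Int.ne | with_reducible apply Int.eq | with_reducible apply Int.mem | with_reducible apply Int.subset | with_reducible apply Int.ltN | with_reducible apply Int.leN | with_reducible apply Int.fin | with_reducible apply Int.unique | with_reducible apply Int.all | with_reducible apply Int.ex | with_reducible apply IntF.fst | with_reducible apply IntF.snd | with_reducible apply IntF.app | with_reducible apply IntF.ite | with_reducible apply IntF.sep | with_reducible apply IntF.lam | with_reducible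 apply IntF.insert | with_reducible apply IntF.singleton | with_reducible apply IntF.union | with_reducible apply IntF.inter | with_reducible apply IntF.sdiff | with_reducible apply IntF.isUnion | with_reducible apply IntF.iimage | with_reducible apply IntF.the | with_reducible apply IntF.irec | with_reducible_and_instances apply IntF.mul | with_reducible_and_instances apply IntF.inv | with_reducible_and_instances apply IntF.smul | with_reducible apply IntF.succ | with_reducible apply IntF.val | with_reducible apply IntF.mk | (with_reducible refine Int.comp ?_ ?_; assumption) | (with_reducible refine Int.comp₂ ?_ ?_ ?_; assumption) | (with_reducible refine Int.comp₃ ?_ ?_ ?_ ?_; assumption) | (with_reducible refine Int.comp₄ ?_ ?_ ?_ ?_ ?_; assumption) | (with_reducible refine IntF.comp ?_ ?_; assumption) | (with_reducible refine IntF.comp₂ ?_ ?_ ?_; assumption) | (with_reducible refine Helper672.ZFA.IntF.comp₃ ?_ ?_ ?_ ?_; assumption) | with_reducible apply IntF.pair))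

/-- Products of sets. -/
noncomputable def pm (O K : IPow M G) : IPow M G := sep M fun h => ∃ k, k ∈ K ∧ h * k⁻¹ ∈ O

theorem mem_pm {O K : IPow M G} {h : G} : h ∈ pm O K ↔ ∃ k, k ∈ K ∧ h * k⁻¹ ∈ O := by
  unfold pm
  rw [mem_sep (by (repeat' (first | with_reducible exact IntF.id | with_reducible exact IntF.fst' | with_reducible exact IntF.snd' | with_reducible exact IntF.const _ | with_reducible exact Int.const _ | assumption | with_reducible apply Int.and | with_reducible apply Int.or | with_reducible apply Int.not | with_reducible apply Int.imp | with_reducible apply Int.iff | with_reducible apply Int.ne | with_reducible apply Int.eq | with_reducible apply Int.mem | with_reducible apply Int.subset | with_reducible apply Int.ltN | with_reducible apply Int.leN | with_reducible apply Int.fin | with_reducible apply Int.unique | with_reducible apply Int.all | with_reducible apply Int.ex | with_reducible apply IntF.fst | with_reducible apply IntF.snd | with_reducible apply IntF.app | with_reducible apply IntF.ite | with_reducible apply IntF.sep | with_reducible apply IntF.lam | with_reducible apply IntF.insert | with_reducible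 apply IntF.singleton | with_reducible apply IntF.union | with_reducible apply IntF.inter | with_reducible apply IntF.sdiff | with_reducible apply IntF.isUnion | with_reducible apply IntF.iimage | with_reducible apply IntF.the | with_reducible apply IntF.irec | with_reducible_and_instances apply IntF.mul | with_reducible_and_instances apply IntF.inv | with_reducible_and_instances apply IntF.smul | with_reducible apply IntF.succ | with_reducible apply IntF.val | with_reducible apply IntF.mk | (with_reducible refine Int.comp ?_ ?_; assumption) | (with_reducible refine Int.comp₂ ?_ ?_ ?_; assumption) | (with_reducible refine Int.comp₃ ?_ ?_ ?_ ?_; assumption) | (with_reducible refine Int.comp₄ ?_ ?_ ?_ ?_ ?_; assumption) | (with_reducible refine IntF.comp ?_ ?_; assumption) | (with_reducible refine IntF.comp₂ ?_ ?_ ?_; assumption) | (with_reducible refine Helper672.ZFA.IntF.comp₃ ?_ ?_ ?_ ?_; assumption) | with_reducible apply IntF.pair)))]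

theorem mul_mem_pm {O K : IPow M G} {h k : G} (hh : h ∈ O) (hk : k ∈ K) : h * k ∈ pm O K :=
  mem_pm.2 ⟨k, hk, by rwa [mul_inv_cancel_right]⟩

theorem IntF.pm {γ : Type*} [ITy M γ] {O K : γ → IPow M G} (hO : IntF M O)
    (hk : IntF M K) : IntF M (fun c => pm (O c) (K c)) := by
  unfold W924.pm
  (repeat' (first | with_reducible exact IntF.id | with_reducible exact IntF.fst' | with_reducible exact IntF.snd' | with_reducible exact IntF.const _ | with_reducible exact Int.const _ | assumption | with_reducible apply Int.and | with_reducible apply Int.or | with_reducible apply Int.not | with_reducible apply Int.imp | with_reducible apply Int.iff | with_reducible apply Int.ne | with_reducible apply Int.eq | with_reducible apply Int.mem | with_reducible apply Int.subset | with_reducible apply Int.ltN | with_reducible apply Int.leN | with_reducible apply Int.fin | with_reducible apply Int.unique | with_reducible apply Int.all | with_reducible apply Int.ex | with_reducible apply IntF.fst | with_reducible apply IntF.snd | with_reducible apply IntF.app | with_reducible apply IntF.ite | with_reducible apply IntF.sep | with_reducible apply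 IntF.lam | with_reducible apply IntF.insert | with_reducible apply IntF.singleton | with_reducible apply IntF.union | with_reducible apply IntF.inter | with_reducible apply IntF.sdiff | with_reducible apply IntF.isUnion | with_reducible apply IntF.iimage | with_reducible apply IntF.the | with_reducible apply IntF.irec | with_reducible_and_instances apply IntF.mul | with_reducible_and_instances apply IntF.inv | with_reducible_and_instances apply IntF.smul | with_reducible apply IntF.succ | with_reducible apply IntF.val | with_reducible apply IntF.mk | (with_reducible refine Int.comp ?_ ?_; assumption) | (with_reducible refine Int.comp₂ ?_ ?_ ?_; assumption) | (with_reducible refine Int.comp₃ ?_ ?_ ?_ ?_; assumption) | (with_reducible refine Int.comp₄ ?_ ?_ ?_ ?_ ?_; assumption) | (with_reducible refine IntF.comp ?_ ?_; assumption) | (with_reducible refine IntF.comp₂ ?_ ?_ ?_; assumption) | (with_reducible refine Helper672.ZFA.IntF.comp₃ ?_ ?_ ?_ ?_; assumption) | with_reducible apply IntF.pair))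

theorem rt_sub_pm {O K : IPow M G} {k : G} (hk : k ∈ K) : rt O k ⊆ pm O K := fun h hh =>
  mem_pm.2 ⟨k, hk, mem_rt.1 hh⟩

end

/-! ### Actions -/

variable (M) in
/-- A Polish group `G` that acts on a Polish space `X`, and an invariant coanalytic subset `P`. -/
structure Dat (G X Y : Type u) [ITy M G] [ITy M X] [ITy M Y] [Group G] [MulAction G X] where
  SG : PolS M G
  SX : PolS M X
  SY : PolS M Y
  mulc : ∀ a b U, U ∈ SG.Op → a * b ∈ U → ∃ V W, V ∈ SG.Op ∧ W ∈ SG.Op ∧ a ∈ V ∧ b ∈ W ∧
    ∀ a' b', a' ∈ V → b' ∈ W → a' * b' ∈ U
  invc : ∀ a U, U ∈ SG.Op → a⁻¹ ∈ U → ∃ V, V ∈ SG.Op ∧ a ∈ V ∧ ∀ a', a' ∈ V → a'⁻¹ ∈ U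
  smulc : ∀ (a : G) (x : X) U, U ∈ SX.Op → a • x ∈ U → ∃ V W, V ∈ SG.Op ∧ W ∈ SX.Op ∧ a ∈ V ∧
    x ∈ W ∧ ∀ a' x', a' ∈ V → x' ∈ W → a' • x' ∈ U
  f : IFun M Y X
  fc : ∀ y U, U ∈ SX.Op → f y ∈ U → ∃ V, V ∈ SY.Op ∧ y ∈ V ∧ ∀ y', y' ∈ V → f y' ∈ U
  P : IPow M X
  Pinv : ∀ (a : G) x, x ∈ P → a • x ∈ P
  Pf : ∀ x, x ∈ P ↔ ∀ y, f y ≠ x

namespace Dat

variable {G X Y : Type u} [ITy M G] [ITy M X] [ITy M Y] [Group G] [MulAction G X] [IMul M G]
  [ISMul M G X] (D : Dat M G X Y)

theorem rt_op {O : IPow M G} (hO : O ∈ D.SG.Op) (k : G) : rt O k ∈ D.SG.Op := by
  refine D.SG.loc _ fun h hh => ?_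
  obtain ⟨V, W, hV, hW, h1, h2, h3⟩ := D.mulc h k⁻¹ O hO (mem_rt.1 hh)
  exact ⟨V, hV, h1, fun a ha => mem_rt.2 (h3 a _ ha h2)⟩

theorem pm_op {O K : IPow M G} (hO : O ∈ D.SG.Op) : pm O K ∈ D.SG.Op := by
  refine D.SG.loc _ fun h hh => ?_
  obtain ⟨k, hk, h1⟩ := mem_pm.1 hh
  exact ⟨rt O k, D.rt_op hO k, mem_rt.2 h1, rt_sub_pm hk⟩

/-- The set of the group elements that move a point into an open set. -/
theorem mov_op {U : IPow M X} (hU : U ∈ D.SX.Op) (x : X) :
    sep M (fun g : G => g • x ∈ U) ∈ D.SG.Op := by
  have hi : Int M (fun g : G => g • x ∈ U) := by (repeat' (first | with_reducible exact IntF.id | with_reducible exact IntF.fst' | with_reducible exact IntF.snd' | with_reducible exact IntF.const _ | with_reducible exact Int.const _ | assumption | with_reducible apply Int.and | with_reducible apply Int.or | with_reducible apply Int.not | with_reducible apply Int.imp | with_reducible apply Int.iff | with_reducible apply Int.ne | with_reducible apply Int.eq | with_reducible apply Int.mem | with_reducible apply Int.subset | with_reducible apply Int.ltN | with_reducible apply Int.leN | with_reducible apply Int.fin | with_reducible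 apply Int.unique | with_reducible apply Int.all | with_reducible apply Int.ex | with_reducible apply IntF.fst | with_reducible apply IntF.snd | with_reducible apply IntF.app | with_reducible apply IntF.ite | with_reducible apply IntF.sep | with_reducible apply IntF.lam | with_reducible apply IntF.insert | with_reducible apply IntF.singleton | with_reducible apply IntF.union | with_reducible apply IntF.inter | with_reducible apply IntF.sdiff | with_reducible apply IntF.isUnion | with_reducible apply IntF.iimage | with_reducible apply IntF.the | with_reducible apply IntF.irec | with_reducible_and_instances apply IntF.mul | with_reducible_and_instances apply IntF.inv | with_reducible_and_instances apply IntF.smul | with_reducible apply IntF.succ | with_reducible apply IntF.val | with_reducible apply IntF.mk | (with_reducible refine Int.comp ?_ ?_; assumption) | (with_reducible refine Int.comp₂ ?_ ?_ ?_; assumption) | (with_reducible refine Int.comp₃ ?_ ?_ ?_ ?_; assumption) | (with_reducible refine Int.comp₄ ?_ ?_ ?_ ?_ ?_; assumption) | (with_reducible refine IntF.comp ?_ ?_; assumption) | (with_reducible refine IntF.comp₂ ?_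 ?_ ?_; assumption) | (with_reducible refine Helper672.ZFA.IntF.comp₃ ?_ ?_ ?_ ?_; assumption) | with_reducible apply IntF.pair))
  refine D.SG.loc _ fun g hg => ?_
  obtain ⟨V, W, hV, hW, h1, h2, h3⟩ := D.smulc g x U hU ((mem_sep hi).1 hg)
  exact ⟨V, hV, h1, fun a ha => (mem_sep hi).2 (h3 a x ha h2)⟩

end Dat

end Pool.Agent.W924
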