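import Pool.Agent.W924.Core

/-!
# The points of the coanalytic set are in the last stage
-/

set_option maxHeartbeats 1000000
set_option linter.all false

namespace Pool.Agent.W924

open FirstOrder FirstOrder.Language
open Pool.Agent.Helper672.ZFA
open Pool.Agent.H310

universe u

variable {M : Type u} [L.Structure M] [hM : IsModel M]

namespace Dat

variable {G X Y : Type u} [ITy M G] [ITy M X] [ITy M Y] [Group G] [MulAction G X] [IMul M G]
  [ISMul M G X] {D : Dat M G X Y}

theorem exists_meets {S : IPow M (Zt M G X)} (hS : D.tw.Stg S) {x : X} {ν : Nd M}
    {O : IPow M G} (h : ¬ ((x, ν), O) ∈ S) : ∃ k, k ∈ O ∧ D.meets (k • x) ν := by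
  by_contra hc
  push Not at hc
  exact h (hS.bot _ (D.mem_bs.2 hc))

theorem root_mem {S : IPow M (Zt M G X)} (hS : D.tw.Stg S) (hfix : D.gm S = S) {x : X}
    (hx : x ∈ D.P) : ((x, ((0 : INat M), (0 : INat M))), iuniv M G) ∈ S := by
  by_contra hcon
  have hu : D.SG.B 0 = iuniv M G := IPow.ext' fun h => ⟨fun _ => mem_iuniv.2 trivial,
    fun _ => D.SG.B_zero h⟩
  have hch := D.int_chd
  have hme := D.int_meets
  obtain ⟨g, hg, hg0, hgs⟩ := (IWo.prod (M := M) IWo.nat IWo.nat).dc
    (R := fun (n : INat M) (a b : INat M × INat M) => D.chd (n, a.1) (n.succ, b.1) ∧
      LL D.SG.Op (D.SG.B b.2) (D.SG.B a.2) ∧ (n, D.SG.B b.2) ∈ D.SG.sm)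
    (by (repeat' (first | with_reducible exact IntF.id | with_reducible exact IntF.fst' | with_reducible exact IntF.snd' | with_reducible exact IntF.const _ | with_reducible exact Int.const _ | assumption | with_reducible apply Int.LL | with_reducible apply Int.and | with_reducible apply Int.or | with_reducible apply Int.not | with_reducible apply Int.imp | with_reducible apply Int.iff | with_reducible apply Int.ne | with_reducible apply Int.eq | with_reducible apply Int.mem | with_reducible apply Int.subset | with_reducible apply Int.ltN | with_reducible apply Int.leN | with_reducible apply Int.fin | with_reducible apply Int.unique | with_reducible apply Int.all | with_reducible apply Int.ex | with_reducible apply IntF.fst | with_reducible apply IntF.snd | with_reducible apply IntF.app | with_reducible apply IntF.ite | with_reducible apply IntF.sep | with_reducible apply IntF.lam | with_reducible apply IntF.insert | with_reducible apply IntF.singleton | with_reducible apply IntF.union | with_reducible apply IntF.inter | with_reducible apply IntF.sdiff | with_reducible apply IntF.isUnion | with_reducible apply IntF.iimage | with_reducible apply IntF.the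 | with_reducible apply IntF.irec | with_reducible_and_instances apply IntF.mul | with_reducible_and_instances apply IntF.inv | with_reducible_and_instances apply IntF.smul | with_reducible apply IntF.succ | with_reducible apply IntF.val | with_reducible apply IntF.mk | (with_reducible refine Int.comp ?_ ?_; assumption) | (with_reducible refine Int.comp₂ ?_ ?_ ?_; assumption) | (with_reducible refine Int.comp₃ ?_ ?_ ?_ ?_; assumption) | (with_reducible refine Int.comp₄ ?_ ?_ ?_ ?_ ?_; assumption) | (with_reducible refine IntF.comp ?_ ?_; assumption) | (with_reducible refine IntF.comp₂ ?_ ?_ ?_; assumption) | (with_reducible refine Helper672.ZFA.IntF.comp₃ ?_ ?_ ?_ ?_; assumption) | with_reducible apply IntF.pair)))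
    (Q := fun (n : INat M) (a : INat M × INat M) => ¬ ((x, (n, a.1)), D.SG.B a.2) ∈ S)
    (by (repeat' (first | with_reducible exact IntF.id | with_reducible exact IntF.fst' | with_reducible exact IntF.snd' | with_reducible exact IntF.const _ | with_reducible exact Int.const _ | assumption | with_reducible apply Int.and | with_reducible apply Int.or | with_reducible apply Int.not | with_reducible apply Int.imp | with_reducible apply Int.iff | with_reducible apply Int.ne | with_reducible apply Int.eq | with_reducible apply Int.mem | with_reducible apply Int.subset | with_reducible apply Int.ltN | with_reducible apply Int.leN | with_reducible apply Int.fin | with_reducible apply Int.unique | with_reducible apply Int.all | with_reducible apply Int.ex | with_reducible apply IntF.fst | with_reducible apply IntF.snd | with_reducible apply IntF.app | with_reducible apply IntF.ite | with_reducible apply IntF.sep | with_reducible apply IntF.lam | with_reducible apply IntF.insert | with_reducible apply IntF.singleton | with_reducible apply IntF.union | with_reducible apply IntF.inter | with_reducible apply IntF.sdiff | with_reducible apply IntF.isUnion | with_reducible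 apply IntF.iimage | with_reducible apply IntF.the | with_reducible apply IntF.irec | with_reducible_and_instances apply IntF.mul | with_reducible_and_instances apply IntF.inv | with_reducible_and_instances apply IntF.smul | with_reducible apply IntF.succ | with_reducible apply IntF.val | with_reducible apply IntF.mk | (with_reducible refine Int.comp ?_ ?_; assumption) | (with_reducible refine Int.comp₂ ?_ ?_ ?_; assumption) | (with_reducible refine Int.comp₃ ?_ ?_ ?_ ?_; assumption) | (with_reducible refine Int.comp₄ ?_ ?_ ?_ ?_ ?_; assumption) | (with_reducible refine IntF.comp ?_ ?_; assumption) | (with_reducible refine IntF.comp₂ ?_ ?_ ?_; assumption) | (with_reducible refine Helper672.ZFA.IntF.comp₃ ?_ ?_ ?_ ?_; assumption) | with_reducible apply IntF.pair))) (a0 := (0, 0)) (by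
      change ¬ ((x, ((0 : INat M), (0 : INat M))), D.SG.B 0) ∈ S
      rw [hu]
      exact hcon) (by
      rintro n ⟨i, j⟩ hn
      change ¬ ((x, (n, i)), D.SG.B j) ∈ S at hn
      rw [← hfix, mem_gm] at hn
      push Not at hn
      obtain ⟨⟨n', i'⟩, h1, O', h2, h3, ⟨h, hh⟩, h4⟩ := hn
      obtain ⟨j', h5, h6, h7⟩ := D.SG.base O' h n h2 hh
      obtain rfl : n' = n.succ := h1.1
      exact ⟨(i', j'), h4 _ (D.SG.B_op _) h6.sub ⟨h, h5⟩, h1,
        h6.mono (fun _ => id) h3, h7⟩)
  have hQ : ∀ n, ¬ ((x, (n, (g n).1)), D.SG.B (g n).2) ∈ S := fun n => (hgs n).1
  have hR := fun n => (hgs n).2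
  have hmt := fun n => exists_meets hS (hQ n)
  -- the limit in the group
  obtain ⟨k, hk⟩ := D.SG.complete (fun n => D.SG.B (g n).2) (by (repeat' (first | with_reducible exact IntF.id | with_reducible exact IntF.fst' | with_reducible exact IntF.snd' | with_reducible exact IntF.const _ | with_reducible exact Int.const _ | assumption | with_reducible apply Int.and | with_reducible apply Int.or | with_reducible apply Int.not | with_reducible apply Int.imp | with_reducible apply Int.iff | with_reducible apply Int.ne | with_reducible apply Int.eq | with_reducible apply Int.mem | with_reducible apply Int.subset | with_reducible apply Int.ltN | with_reducible apply Int.leN | with_reducible apply Int.fin | with_reducible apply Int.unique | with_reducible apply Int.all | with_reducible apply Int.ex | with_reducible apply IntF.fst | with_reducible apply IntF.snd | with_reducible apply IntF.app | with_reducible apply IntF.ite | with_reducible apply IntF.sep | with_reducible apply IntF.lam | with_reducible apply IntF.insert | with_reducible apply IntF.singleton | with_reducible apply IntF.union | with_reducible apply IntF.inter | with_reducible apply IntF.sdiff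 | with_reducible apply IntF.isUnion | with_reducible apply IntF.iimage | with_reducible apply IntF.the | with_reducible apply IntF.irec | with_reducible_and_instances apply IntF.mul | with_reducible_and_instances apply IntF.inv | with_reducible_and_instances apply IntF.smul | with_reducible apply IntF.succ | with_reducible apply IntF.val | with_reducible apply IntF.mk | (with_reducible refine Int.comp ?_ ?_; assumption) | (with_reducible refine Int.comp₂ ?_ ?_ ?_; assumption) | (with_reducible refine Int.comp₃ ?_ ?_ ?_ ?_; assumption) | (with_reducible refine Int.comp₄ ?_ ?_ ?_ ?_ ?_; assumption) | (with_reducible refine IntF.comp ?_ ?_; assumption) | (with_reducible refine IntF.comp₂ ?_ ?_ ?_; assumption) | (with_reducible refine Helper672.ZFA.IntF.comp₃ ?_ ?_ ?_ ?_; assumption) | with_reducible apply IntF.pair))) (fun n => D.SG.B_op _)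
    (fun n => by
      obtain ⟨k, h1, -⟩ := hmt n
      exact ⟨k, h1⟩) (fun n => (hR n).2.1) (fun n => (hR n).2.2)
  obtain ⟨y, hy⟩ := D.SY.complete (fun n => D.SY.B (g n).1) (by (repeat' (first | with_reducible exact IntF.id | with_reducible exact IntF.fst' | with_reducible exact IntF.snd' | with_reducible exact IntF.const _ | with_reducible exact Int.const _ | assumption | with_reducible apply Int.and | with_reducible apply Int.or | with_reducible apply Int.not | with_reducible apply Int.imp | with_reducible apply Int.iff | with_reducible apply Int.ne | with_reducible apply Int.eq | with_reducible apply Int.mem | with_reducible apply Int.subset | with_reducible apply Int.ltN | with_reducible apply Int.leN | with_reducible apply Int.fin | with_reducible apply Int.unique | with_reducible apply Int.all | with_reducible apply Int.ex | with_reducible apply IntF.fst | with_reducible apply IntF.snd | with_reducible apply IntF.app | with_reducible apply IntF.ite | with_reducible apply IntF.sep | with_reducible apply IntF.lam | with_reducible apply IntF.insert | with_reducible apply IntF.singleton | with_reducible apply IntF.union | with_reducible apply IntF.inter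 | with_reducible apply IntF.sdiff | with_reducible apply IntF.isUnion | with_reducible apply IntF.iimage | with_reducible apply IntF.the | with_reducible apply IntF.irec | with_reducible_and_instances apply IntF.mul | with_reducible_and_instances apply IntF.inv | with_reducible_and_instances apply IntF.smul | with_reducible apply IntF.succ | with_reducible apply IntF.val | with_reducible apply IntF.mk | (with_reducible refine Int.comp ?_ ?_; assumption) | (with_reducible refine Int.comp₂ ?_ ?_ ?_; assumption) | (with_reducible refine Int.comp₃ ?_ ?_ ?_ ?_; assumption) | (with_reducible refine Int.comp₄ ?_ ?_ ?_ ?_ ?_; assumption) | (with_reducible refine IntF.comp ?_ ?_; assumption) | (with_reducible refine IntF.comp₂ ?_ ?_ ?_; assumption) | (with_reducible refine Helper672.ZFA.IntF.comp₃ ?_ ?_ ?_ ?_; assumption) | with_reducible apply IntF.pair))) (fun n => D.SY.B_op _)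
    (fun n => by
      obtain ⟨k, -, j, y, h1, -⟩ := hmt n
      exact ⟨y, h1⟩) (fun n => (hR n).1.2.1) (fun n => (hR n).1.2.2)
  by_cases hfy : k • x = D.f y
  · exact (D.Pf _).1 (D.Pinv k x hx) y hfy.symm
  obtain ⟨U, V, hU, hV, h1, h2, h3⟩ := D.SX.haus _ _ hfy
  obtain ⟨n₀, V₁, hV₁, h4, h5⟩ := D.SX.sep U _ hU h1
  have hmi : Int M (fun a : G => a • x ∈ V₁) := by (repeat' (first | with_reducible exact IntF.id | with_reducible exact IntF.fst' | with_reducible exact IntF.snd' | with_reducible exact IntF.const _ | with_reducible exact Int.const _ | assumption | with_reducible apply Int.and | with_reducible apply Int.or | with_reducible apply Int.not | with_reducible apply Int.imp | with_reducible apply Int.iff | with_reducible apply Int.ne | with_reducible apply Int.eq | with_reducible apply Int.mem | with_reducible apply Int.subset | with_reducible apply Int.ltN | with_reducible apply Int.leN | with_reducible apply Int.fin | with_reducible apply Int.unique | with_reducible apply Int.all | with_reducible apply Int.ex | with_reducible apply IntF.fst | with_reducible apply IntF.snd | with_reducible apply IntF.app | with_reducible apply IntF.ite | with_reducible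 apply IntF.sep | with_reducible apply IntF.lam | with_reducible apply IntF.insert | with_reducible apply IntF.singleton | with_reducible apply IntF.union | with_reducible apply IntF.inter | with_reducible apply IntF.sdiff | with_reducible apply IntF.isUnion | with_reducible apply IntF.iimage | with_reducible apply IntF.the | with_reducible apply IntF.irec | with_reducible_and_instances apply IntF.mul | with_reducible_and_instances apply IntF.inv | with_reducible_and_instances apply IntF.smul | with_reducible apply IntF.succ | with_reducible apply IntF.val | with_reducible apply IntF.mk | (with_reducible refine Int.comp ?_ ?_; assumption) | (with_reducible refine Int.comp₂ ?_ ?_ ?_; assumption) | (with_reducible refine Int.comp₃ ?_ ?_ ?_ ?_; assumption) | (with_reducible refine Int.comp₄ ?_ ?_ ?_ ?_ ?_; assumption) | (with_reducible refine IntF.comp ?_ ?_; assumption) | (with_reducible refine IntF.comp₂ ?_ ?_ ?_; assumption) | (with_reducible refine Helper672.ZFA.IntF.comp₃ ?_ ?_ ?_ ?_; assumption) | with_reducible apply IntF.pair))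
  obtain ⟨m₁, hm₁⟩ := D.SG.conv (s := fun n => D.SG.B (g n).2) hk (fun n => (hR n).2.2)
    (D.mov_op hV₁ x) ((mem_sep hmi).2 h4)
  obtain ⟨V₂, hV₂, h6, h7⟩ := D.fc y V hV h2
  obtain ⟨m₂, hm₂⟩ := D.SY.conv (s := fun n => D.SY.B (g n).1) hy (fun n => (hR n).1.2.2) hV₂ h6
  obtain ⟨k', h8, j, y', h9, h10, h11, h12⟩ := hmt (max n₀ (max m₁ m₂)).succ
  have h13 : k' • x ∈ V₁ := (mem_sep hmi).1 (hm₁ _ ((le_max_left _ _).trans (le_max_right _ _))
    k' h8)
  have h14 := hm₂ _ ((le_max_right m₁ m₂).trans (le_max_right n₀ _)) y' h9
  have h15 : (n₀, D.SX.B j) ∈ D.SX.sm := D.SX.sm_le _ _ _ _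
    ((le_max_left _ _).trans (INat.le_succ_self _)) (fun _ => id) h12
  exact h3 _ (h5 _ h15 ⟨_, h10, h13⟩ _ h11) (h7 _ h14)

/-- The root is in some stage. -/
theorem exists_root {x : X} (hx : x ∈ D.P) :
    ∃ S, D.tw.Stg S ∧ ((x, ((0 : INat M), (0 : INat M))), iuniv M G) ∈ S := by
  obtain ⟨S, h1, h2⟩ := Tw.exists_top (T := D.tw)
  exact ⟨S, h1, root_mem h1 h2 hx⟩

end Dat

end Pool.Agent.W924
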