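import Pool.Agent.H635R2.Statement
import Pool.Agent.H310R3.TopDefs
import Pool.Agent.H310R3.MetDefs

/-!
# Polish group actions and strong Choquet topologies in a structure for the language of set theory

The language `LSet` of set theory has one binary relation symbol. In a structure `M` for it,
`Mem x y` says that `x` is an element of `y` in the sense of `M`, and `El a` is the type of the
`x : M` that are elements of `a` in the sense of `M`. All sets, functions, relations, topologies,
metrics and strategies below are elements of `M`. (`LSet`, `Mem`, `Zermelo`, `IsOrdPair`, `El`,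
`IsReals`, `IsGroupIn`, `IsNat`, `IsOmega`, `IsProd`, `App`, `IsFun`, `IsInj`, `IsTopology`,
`IsBase` and `IsMetric` are from the imported files.)
-/

namespace Pool.Agent.W924St

open FirstOrder FirstOrder.Language
open Pool.Agent.Helper672.Plain (LSet Mem Zermelo IsPair IsOrdPair El IsOpGraph)
open Pool.Agent.H635Amen (IsReals IsGroupIn)
open Pool.Agent.H310Cards
open Pool.Agent.H310Top (IsTopology IsBase)
open Pool.Agent.H310Metric (IsMetric)

universe u

variable {M : Type u} [LSet.Structure M]

/-! ### Polish spaces -/

/-- The metric `d` is complete: every Cauchy sequence `s` (a function with domain the set `w` of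
the natural numbers) converges. For natural numbers `k` and `n` of the model, `¬ Mem k n` says
that `n ≤ k`. -/
def IsComplete {x r : M} [Field (El r)] [LinearOrder (El r)] (d : El x → El x → El r) : Prop :=
  ∀ w s, IsOmega w → IsFun s w x →
    (∀ ε : El r, 0 < ε → ∃ n, IsNat n ∧ ∀ (k l : M) (a b : El x), IsNat k → IsNat l →
      ¬ Mem k n → ¬ Mem l n → App s k a.1 → App s l b.1 → d a b < ε) →
    ∃ c : El x, ∀ ε : El r, 0 < ε → ∃ n, IsNat n ∧ ∀ (k : M) (a : El x), IsNat k → ¬ Mem k n →
      App s k a.1 → d a c < ε

/-- The topology `t` on `x` is given by the metric `d`. -/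
def IsMetricTop {x r : M} [Field (El r)] [LinearOrder (El r)] (d : El x → El x → El r)
    (t : M) : Prop :=
  ∀ u, Mem u t ↔ (∀ z, Mem z u → Mem z x) ∧
    ∀ a : El x, Mem a.1 u → ∃ ε : El r, 0 < ε ∧ ∀ b : El x, d a b < ε → Mem b.1 u

/-- The topology `t` on `x` is given by a complete metric with values in the field `r` of the
real numbers of the model. -/
def IsCompletelyMetrizable (t x : M) : Prop :=
  ∃ (r : M) (_ : Field (El r)) (_ : LinearOrder (El r)) (_ : IsStrictOrderedRing (El r))
    (d : El x → El x → El r), IsReals r ∧ IsMetric d ∧ IsComplete d ∧ IsMetricTop d t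

/-- The space `x` has a countable dense subset `s`: there is an injective function from `s` to
the set `w` of the natural numbers. -/
def IsSeparable (t x : M) : Prop :=
  ∃ s w f, (∀ z, Mem z s → Mem z x) ∧ IsOmega w ∧ IsInj f s w ∧
    ∀ u, Mem u t → (∃ z, Mem z u) → ∃ z, Mem z u ∧ Mem z s

/-- The space `x` with topology `t` is a Polish space. -/
structure IsPolish (t x : M) : Prop where
  top : IsTopology t x
  metrizable : IsCompletelyMetrizable t x
  separable : IsSeparable t x

/-! ### Continuity -/

/-- The function `f` is continuous. -/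
def Cts {a b : M} (ta tb : M) (f : El a → El b) : Prop :=
  ∀ (x : El a) (u : M), Mem u tb → Mem (f x).1 u →
    ∃ v, Mem v ta ∧ Mem x.1 v ∧ ∀ x' : El a, Mem x'.1 v → Mem (f x').1 u

/-- The function `f` of two variables is continuous with respect to the product topology. -/
def Cts₂ {a b c : M} (ta tb tc : M) (f : El a → El b → El c) : Prop :=
  ∀ (x : El a) (y : El b) (u : M), Mem u tc → Mem (f x y).1 u →
    ∃ v w, Mem v ta ∧ Mem w tb ∧ Mem x.1 v ∧ Mem y.1 w ∧
      ∀ (x' : El a) (y' : El b), Mem x'.1 v → Mem y'.1 w → Mem (f x' y').1 u

/-- `g` with the topology `t` is a Polish group in the model. -/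
structure IsPolishGroup (t g : M) [Group (El g)] : Prop where
  group : IsGroupIn g
  polish : IsPolish t g
  mul : Cts₂ t t t (fun a b : El g => a * b)
  inv : Cts t t (fun a : El g => a⁻¹)

/-- The action of the group `g` on the space `x` is in the model, and it is continuous. -/
structure IsCtsAction (tg g tx x : M) [Group (El g)] [MulAction (El g) (El x)] : Prop where
  graph : ∃ h, ∀ (a : El g) (y z : El x),
    a • y = z ↔ ∃ p q, IsOrdPair p a.1 y.1 ∧ IsOrdPair q p z.1 ∧ Mem q h
  cts : Cts₂ tg tx tx (fun (a : El g) (y : El x) => a • y)

/-- The subset `s` of the Polish space `x` is analytic: it is the range of a continuous function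
(in the model) from a Polish space. -/
def IsAnalytic (s t x : M) : Prop :=
  ∃ (y ty : M) (f : El y → El x), IsPolish ty y ∧
    (∃ h, ∀ (a : El y) (b : El x), f a = b ↔ ∃ p, IsOrdPair p a.1 b.1 ∧ Mem p h) ∧ Cts ty t f ∧
    ∀ z, Mem z s ↔ ∃ a, (f a).1 = z

/-- The subset `p` of the Polish space `x` is coanalytic: its complement is analytic. -/
def IsCoanalytic (p t x : M) : Prop :=
  (∀ z, Mem z p → Mem z x) ∧ ∃ s, IsAnalytic s t x ∧ ∀ z, Mem z s ↔ Mem z x ∧ ¬ Mem z p

/-! ### The properties of the new topology -/

/-- The topology `t'` on the subset `p` is finer than the subspace topology given by `t`. -/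
def IsFiner (t' p t : M) : Prop :=
  ∀ u v, Mem u t → (∀ z, Mem z v ↔ Mem z u ∧ Mem z p) → Mem v t'

/-- The set `b` can be well-ordered: there is a strict linear order `r` of `b` such that every
nonempty subset of `b` has a least element. -/
def IsWellOrderable (b : M) : Prop :=
  ∃ r, (∀ x, Mem x b → ¬ App r x x) ∧
    (∀ x y z, Mem x b → Mem y b → Mem z b → App r x y → App r y z → App r x z) ∧
    (∀ x y, Mem x b → Mem y b → App r x y ∨ x = y ∨ App r y x) ∧
    ∀ s, (∀ x, Mem x s → Mem x b) → (∃ x, Mem x s) → ∃ x, Mem x s ∧ ∀ y, Mem y s → ¬ App r y x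

/-- `n'` is the successor `n ∪ {n}` of `n`. -/
def IsSucc (n' n : M) : Prop := ∀ z, Mem z n' ↔ Mem z n ∨ z = n

/-- `s` is the restriction of the function `f` to `n`. -/
def IsRestr (s f n : M) : Prop := ∀ q, Mem q s ↔ Mem q f ∧ ∃ k v, Mem k n ∧ IsOrdPair q k v

/-- In round `n` of the run `f` player I plays the point `y` and the set `u`. -/
def Plays (f n y u : M) : Prop := ∃ q, IsOrdPair q y u ∧ App f n q

/-- When player I plays according to `f`, the answer of the strategy `σ` in round `n` is `v`. It
depends only on the restriction of `f` to the rounds `0, …, n`. -/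
def Answers (σ f n v : M) : Prop := ∃ n' s, IsSucc n' n ∧ IsRestr s f n' ∧ App σ s v

/-- Player I follows the rules in the rounds `0, …, n` against the strategy `σ`: the point played
in a round is in the set played in that round, and this set is contained in the answer in the
round before. -/
def IsLegal (σ f n : M) : Prop :=
  (∀ k y u, Mem k n ∨ k = n → Plays f k y u → Mem y u) ∧
    ∀ k k' y u v, IsSucc k' k → Mem k' n ∨ k' = n → Plays f k' y u → Answers σ f k v →
      ∀ z, Mem z u → Mem z v

/-- `σ` is a winning strategy for player II in the strong Choquet game of the space `p` with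
topology `t`. The moves of player I in a run are given by a function `f` from the set `w` of the
natural numbers to the product `m` of `p` and `t`. The strategy `σ` is a set of pairs of a
position (the sequence of the moves of player I up to now) and the answer. If player I has
followed the rules up to round `n`, then the answer in round `n` exists and is an open set `v`
with `y ∈ v ⊆ u`, where `y` and `u` are the point and the open set played by player I in round
`n`; and if player I follows the rules in all rounds, then the intersection of the answers is not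
empty. -/
def IsWinning (σ t p : M) : Prop :=
  (∀ s v v', App σ s v → App σ s v' → v = v') ∧
  ∀ w m f, IsOmega w → IsProd m p t → IsFun f w m →
    (∀ n, Mem n w → IsLegal σ f n → ∃ v, Answers σ f n v ∧ Mem v t ∧
      ∀ y u, Plays f n y u → Mem y v ∧ ∀ z, Mem z v → Mem z u) ∧
    ((∀ n, Mem n w → IsLegal σ f n) → ∃ z, ∀ n v, Mem n w → Answers σ f n v → Mem z v)

/-- The topology `t` on `p` is strong Choquet. -/
def IsStrongChoquet (t p : M) : Prop := ∃ σ, IsWinning σ t p

/-- The action of `g` on `x` restricts to a continuous function from the product of `g` and `p`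
to `p`, where `p` has the topology `t`. -/
def IsCtsOn (tg g x t p : M) [Group (El g)] [MulAction (El g) (El x)] : Prop :=
  ∀ (a : El g) (y : El x) (u : M), Mem y.1 p → Mem u t → Mem (a • y).1 u →
    ∃ v w, Mem v tg ∧ Mem w t ∧ Mem a.1 v ∧ Mem y.1 w ∧
      ∀ (a' : El g) (y' : El x), Mem a'.1 v → Mem y'.1 w → Mem (a' • y').1 u

end Pool.Agent.W924St
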