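import Pool.Agent.H310R3.Real

/-!
# The stages of the iteration of a monotone operation
-/

set_option maxHeartbeats 1000000
set_option linter.all false

namespace Pool.Agent.W924

open FirstOrder FirstOrder.Language
open Pool.Agent.Helper672.ZFA
open Pool.Agent.H310

universe u u₁

variable {M : Type u} [L.Structure M] [hM : IsModel M]
variable {Z : Type u₁} [ITy M Z]

variable (M Z) in
/-- A monotone operation on subsets, and a subset that it does not decrease. -/
structure Tw where
  Γ : IPow M Z → IPow M Z
  b : IPow M Z
  int : IntF M Γ
  mono : ∀ s t, s ⊆ t → Γ s ⊆ Γ t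
  infl : b ⊆ Γ b

namespace Tw

variable (T : Tw M Z)

/-- Closed families. -/
def Cl (W : IPow M (IPow M Z)) : Prop :=
  T.b ∈ W ∧ (∀ s, s ∈ W → T.Γ s ∈ W) ∧ ∀ C : IPow M (IPow M Z), C ⊆ W → (∃ s, s ∈ C) →
    isUnion C ∈ W

/-- The stages. -/
def Stg (s : IPow M Z) : Prop := ∀ W, T.Cl W → s ∈ W

theorem int_Stg : Int M (fun s : IPow M Z => T.Stg s) := by
  have h := T.int
  unfold Stg Cl
  (repeat' (first | with_reducible exact IntF.id | with_reducible exact IntF.fst' | with_reducible exact IntF.snd' | with_reducible exact IntF.const _ | with_reducible exact Int.const _ | assumption | with_reducible apply Int.and | with_reducible apply Int.or | with_reducible apply Int.not | with_reducible apply Int.imp | with_reducible apply Int.iff | with_reducible apply Int.ne | with_reducible apply Int.eq | with_reducible apply Int.mem | with_reducible apply Int.subset | with_reducible apply Int.ltN | with_reducible apply Int.leN | with_reducible apply Int.fin | with_reducible apply Int.unique | with_reducible apply Int.all | with_reducible apply Int.ex | with_reducible apply IntF.fst | with_reducible apply IntF.snd | with_reducible apply IntF.app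 | with_reducible apply IntF.ite | with_reducible apply IntF.sep | with_reducible apply IntF.lam | with_reducible apply IntF.insert | with_reducible apply IntF.singleton | with_reducible apply IntF.union | with_reducible apply IntF.inter | with_reducible apply IntF.sdiff | with_reducible apply IntF.isUnion | with_reducible apply IntF.iimage | with_reducible apply IntF.the | with_reducible apply IntF.irec | with_reducible_and_instances apply IntF.mul | with_reducible_and_instances apply IntF.inv | with_reducible_and_instances apply IntF.smul | with_reducible apply IntF.succ | with_reducible apply IntF.val | with_reducible apply IntF.mk | (with_reducible refine Int.comp ?_ ?_; assumption) | (with_reducible refine Int.comp₂ ?_ ?_ ?_; assumption) | (with_reducible refine Int.comp₃ ?_ ?_ ?_ ?_; assumption) | (with_reducible refine Int.comp₄ ?_ ?_ ?_ ?_ ?_; assumption) | (with_reducible refine IntF.comp ?_ ?_; assumption) | (with_reducible refine IntF.comp₂ ?_ ?_ ?_; assumption) | (with_reducible refine Helper672.ZFA.IntF.comp₃ ?_ ?_ ?_ ?_; assumption) | with_reducible apply IntF.pair))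

variable {T}

theorem Stg.base : T.Stg T.b := fun _ h => h.1

theorem Stg.step {s : IPow M Z} (h : T.Stg s) : T.Stg (T.Γ s) := fun W hW => hW.2.1 s (h W hW)

theorem Stg.union {C : IPow M (IPow M Z)} (h : ∀ s, s ∈ C → T.Stg s) (hC : ∃ s, s ∈ C) :
    T.Stg (isUnion C) := fun W hW => hW.2.2 C (fun s hs => h s hs W hW) hC

theorem Stg.ind {p : IPow M Z → Prop} (hp : Int M p) (h0 : p T.b)
    (h1 : ∀ s, T.Stg s → p s → p (T.Γ s))
    (h2 : ∀ C : IPow M (IPow M Z), (∀ s, s ∈ C → T.Stg s ∧ p s) → (∃ s, s ∈ C) →
      p (isUnion C)) : ∀ s, T.Stg s → p s := by
  intro s hs
  have hI := T.int_Stg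
  have hi : Int M (fun s => T.Stg s ∧ p s) := Int.and hI hp
  have h := hs (sep M fun s => T.Stg s ∧ p s) ⟨?_, ?_, ?_⟩
  · exact ((mem_sep hi).1 h).2
  · exact (mem_sep hi).2 ⟨Stg.base, h0⟩
  · intro s hs
    rw [mem_sep hi] at hs ⊢
    exact ⟨hs.1.step, h1 s hs.1 hs.2⟩
  · intro C hC hne
    rw [mem_sep hi]
    have h3 : ∀ s, s ∈ C → T.Stg s ∧ p s := fun s hs => (mem_sep hi).1 (hC s hs)
    exact ⟨Stg.union (fun s hs => (h3 s hs).1) hne, h2 C h3 hne⟩

theorem Stg.bot {s : IPow M Z} (h : T.Stg s) : T.b ⊆ s := by
  refine Stg.ind (T := T) (p := fun s => T.b ⊆ s) (by (repeat' (first | with_reducible exact IntF.id | with_reducible exact IntF.fst' | with_reducible exact IntF.snd' | with_reducible exact IntF.const _ | with_reducible exact Int.const _ | assumption | with_reducible apply Int.and | with_reducible apply Int.or | with_reducible apply Int.not | with_reducible apply Int.imp | with_reducible apply Int.iff | with_reducible apply Int.ne | with_reducible apply Int.eq | with_reducible apply Int.mem | with_reducible apply Int.subset | with_reducible apply Int.ltN | with_reducible apply Int.leN | with_reducible apply Int.fin | with_reducible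 apply Int.unique | with_reducible apply Int.all | with_reducible apply Int.ex | with_reducible apply IntF.fst | with_reducible apply IntF.snd | with_reducible apply IntF.app | with_reducible apply IntF.ite | with_reducible apply IntF.sep | with_reducible apply IntF.lam | with_reducible apply IntF.insert | with_reducible apply IntF.singleton | with_reducible apply IntF.union | with_reducible apply IntF.inter | with_reducible apply IntF.sdiff | with_reducible apply IntF.isUnion | with_reducible apply IntF.iimage | with_reducible apply IntF.the | with_reducible apply IntF.irec | with_reducible_and_instances apply IntF.mul | with_reducible_and_instances apply IntF.inv | with_reducible_and_instances apply IntF.smul | with_reducible apply IntF.succ | with_reducible apply IntF.val | with_reducible apply IntF.mk | (with_reducible refine Int.comp ?_ ?_; assumption) | (with_reducible refine Int.comp₂ ?_ ?_ ?_; assumption) | (with_reducible refine Int.comp₃ ?_ ?_ ?_ ?_; assumption) | (with_reducible refine Int.comp₄ ?_ ?_ ?_ ?_ ?_; assumption) | (with_reducible refine IntF.comp ?_ ?_; assumption) | (with_reducible refine IntF.comp₂ ?_ ?_ ?_; assumption)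 | (with_reducible refine Helper672.ZFA.IntF.comp₃ ?_ ?_ ?_ ?_; assumption) | with_reducible apply IntF.pair))) (fun _ => id) ?_ ?_ s h
  · intro s _ h x hx
    exact T.mono _ _ h x (T.infl x hx)
  · rintro C hC ⟨s, hs⟩ x hx
    exact mem_isUnion.2 ⟨s, hs, (hC s hs).2 x hx⟩

theorem Stg.infl {s : IPow M Z} (h : T.Stg s) : s ⊆ T.Γ s := by
  have hg := T.int
  refine Stg.ind (T := T) (p := fun s => s ⊆ T.Γ s) (by (repeat' (first | with_reducible exact IntF.id | with_reducible exact IntF.fst' | with_reducible exact IntF.snd' | with_reducible exact IntF.const _ | with_reducible exact Int.const _ | assumption | with_reducible apply Int.and | with_reducible apply Int.or | with_reducible apply Int.not | with_reducible apply Int.imp | with_reducible apply Int.iff | with_reducible apply Int.ne | with_reducible apply Int.eq | with_reducible apply Int.mem | with_reducible apply Int.subset | with_reducible apply Int.ltN | with_reducible apply Int.leN | with_reducible apply Int.fin | with_reducible apply Int.unique | with_reducible apply Int.all | with_reducible apply Int.ex | with_reducible apply IntF.fst | with_reducible apply IntF.snd | with_reducible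 apply IntF.app | with_reducible apply IntF.ite | with_reducible apply IntF.sep | with_reducible apply IntF.lam | with_reducible apply IntF.insert | with_reducible apply IntF.singleton | with_reducible apply IntF.union | with_reducible apply IntF.inter | with_reducible apply IntF.sdiff | with_reducible apply IntF.isUnion | with_reducible apply IntF.iimage | with_reducible apply IntF.the | with_reducible apply IntF.irec | with_reducible_and_instances apply IntF.mul | with_reducible_and_instances apply IntF.inv | with_reducible_and_instances apply IntF.smul | with_reducible apply IntF.succ | with_reducible apply IntF.val | with_reducible apply IntF.mk | (with_reducible refine Int.comp ?_ ?_; assumption) | (with_reducible refine Int.comp₂ ?_ ?_ ?_; assumption) | (with_reducible refine Int.comp₃ ?_ ?_ ?_ ?_; assumption) | (with_reducible refine Int.comp₄ ?_ ?_ ?_ ?_ ?_; assumption) | (with_reducible refine IntF.comp ?_ ?_; assumption) | (with_reducible refine IntF.comp₂ ?_ ?_ ?_; assumption) | (with_reducible refine Helper672.ZFA.IntF.comp₃ ?_ ?_ ?_ ?_; assumption) | with_reducible apply IntF.pair))) T.infl ?_ ?_ s h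
  · intro s _ h
    exact T.mono _ _ h
  · rintro C hC - x hx
    obtain ⟨s, hs, hx⟩ := mem_isUnion.1 hx
    exact T.mono s _ (fun y hy => mem_isUnion.2 ⟨s, hs, hy⟩) x ((hC s hs).2 x hx)

theorem Stg.all {x : IPow M Z} (hx : T.Stg x) :
    ∀ y, T.Stg y → y ⊆ x → y ≠ x → T.Γ y ⊆ x := by
  have hg := T.int
  have hI := T.int_Stg
  have cmp : ∀ x, T.Stg x → (∀ y, T.Stg y → y ⊆ x → y ≠ x → T.Γ y ⊆ x) →
      ∀ y, T.Stg y → y ⊆ x ∨ T.Γ x ⊆ y := by
    intro x hx hxe
    refine Stg.ind (T := T) (by (repeat' (first | with_reducible exact IntF.id | with_reducible exact IntF.fst' | with_reducible exact IntF.snd' | with_reducible exact IntF.const _ | with_reducible exact Int.const _ | assumption | with_reducible apply Int.and | with_reducible apply Int.or | with_reducible apply Int.not | with_reducible apply Int.imp | with_reducible apply Int.iff | with_reducible apply Int.ne | with_reducible apply Int.eq | with_reducible apply Int.mem | with_reducible apply Int.subset | with_reducible apply Int.ltN | with_reducible apply Int.leN | with_reducible apply Int.fin | with_reducible apply Int.unique | with_reducible apply Int.all | with_reducible apply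 Int.ex | with_reducible apply IntF.fst | with_reducible apply IntF.snd | with_reducible apply IntF.app | with_reducible apply IntF.ite | with_reducible apply IntF.sep | with_reducible apply IntF.lam | with_reducible apply IntF.insert | with_reducible apply IntF.singleton | with_reducible apply IntF.union | with_reducible apply IntF.inter | with_reducible apply IntF.sdiff | with_reducible apply IntF.isUnion | with_reducible apply IntF.iimage | with_reducible apply IntF.the | with_reducible apply IntF.irec | with_reducible_and_instances apply IntF.mul | with_reducible_and_instances apply IntF.inv | with_reducible_and_instances apply IntF.smul | with_reducible apply IntF.succ | with_reducible apply IntF.val | with_reducible apply IntF.mk | (with_reducible refine Int.comp ?_ ?_; assumption) | (with_reducible refine Int.comp₂ ?_ ?_ ?_; assumption) | (with_reducible refine Int.comp₃ ?_ ?_ ?_ ?_; assumption) | (with_reducible refine Int.comp₄ ?_ ?_ ?_ ?_ ?_; assumption) | (with_reducible refine IntF.comp ?_ ?_; assumption) | (with_reducible refine IntF.comp₂ ?_ ?_ ?_; assumption) | (with_reducible refine Helper672.ZFA.IntF.comp₃ ?_ ?_ ?_ ?_; assumption)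 | with_reducible apply IntF.pair))) (Or.inl hx.bot) ?_ ?_
    · rintro y hy (h | h)
      · by_cases h1 : y = x
        · subst h1
          exact Or.inr fun _ => id
        · exact Or.inl (hxe y hy h h1)
      · exact Or.inr fun z hz => hy.infl z (h z hz)
    · intro C h hne
      by_cases h1 : ∀ y, y ∈ C → y ⊆ x
      · refine Or.inl fun z hz => ?_
        obtain ⟨s, hs, hz⟩ := mem_isUnion.1 hz
        exact h1 s hs z hz
      · push Not at h1
        obtain ⟨y, hy, h2⟩ := h1
        exact Or.inr fun z hz => mem_isUnion.2 ⟨y, hy, (h y hy).2.resolve_left h2 z hz⟩
  refine Stg.ind (T := T) (p := fun x => ∀ y, T.Stg y → y ⊆ x → y ≠ x → T.Γ y ⊆ x) (by (repeat' (first | with_reducible exact IntF.id | with_reducible exact IntF.fst' | with_reducible exact IntF.snd' | with_reducible exact IntF.const _ | with_reducible exact Int.const _ | assumption | with_reducible apply Int.and | with_reducible apply Int.or | with_reducible apply Int.not | with_reducible apply Int.imp | with_reducible apply Int.iff | with_reducible apply Int.ne | with_reducible apply Int.eq | with_reducible apply Int.mem | with_reducible apply Int.subset | with_reducible apply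 Int.ltN | with_reducible apply Int.leN | with_reducible apply Int.fin | with_reducible apply Int.unique | with_reducible apply Int.all | with_reducible apply Int.ex | with_reducible apply IntF.fst | with_reducible apply IntF.snd | with_reducible apply IntF.app | with_reducible apply IntF.ite | with_reducible apply IntF.sep | with_reducible apply IntF.lam | with_reducible apply IntF.insert | with_reducible apply IntF.singleton | with_reducible apply IntF.union | with_reducible apply IntF.inter | with_reducible apply IntF.sdiff | with_reducible apply IntF.isUnion | with_reducible apply IntF.iimage | with_reducible apply IntF.the | with_reducible apply IntF.irec | with_reducible_and_instances apply IntF.mul | with_reducible_and_instances apply IntF.inv | with_reducible_and_instances apply IntF.smul | with_reducible apply IntF.succ | with_reducible apply IntF.val | with_reducible apply IntF.mk | (with_reducible refine Int.comp ?_ ?_; assumption) | (with_reducible refine Int.comp₂ ?_ ?_ ?_; assumption) | (with_reducible refine Int.comp₃ ?_ ?_ ?_ ?_; assumption) | (with_reducible refine Int.comp₄ ?_ ?_ ?_ ?_ ?_; assumption) | (with_reducible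 refine IntF.comp ?_ ?_; assumption) | (with_reducible refine IntF.comp₂ ?_ ?_ ?_; assumption) | (with_reducible refine Helper672.ZFA.IntF.comp₃ ?_ ?_ ?_ ?_; assumption) | with_reducible apply IntF.pair)))
    ?_ ?_ ?_ x hx
  · intro y hy h1 h2
    exact absurd (subset_antisymm' h1 hy.bot) h2
  · intro x hx hxe y hy h1 h2
    rcases cmp x hx hxe y hy with h3 | h3
    · exact T.mono _ _ h3
    · exact absurd (subset_antisymm' h1 h3) h2
  · intro C h hne y hy h1 h2
    have h3 : ∃ e, e ∈ C ∧ ¬ e ⊆ y := by
      by_contra h4
      push Not at h4
      refine h2 (subset_antisymm' h1 fun z hz => ?_)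
      obtain ⟨e, he, hz⟩ := mem_isUnion.1 hz
      exact h4 e he z hz
    obtain ⟨e, he, h4⟩ := h3
    rcases cmp e (h e he).1 (h e he).2 y hy with h5 | h5
    · exact fun z hz => mem_isUnion.2 ⟨e, he, (h e he).2 y hy h5 (fun h6 => h4 (h6 ▸ fun _ => id)) z hz⟩
    · exact absurd (fun z hz => h5 z ((h e he).1.infl z hz)) h4

theorem Stg.cmp {x y : IPow M Z} (hx : T.Stg x) (hy : T.Stg y) : y ⊆ x ∨ T.Γ x ⊆ y := by
  have hg := T.int
  refine Stg.ind (T := T) (p := fun y => y ⊆ x ∨ T.Γ x ⊆ y) (by (repeat' (first | with_reducible exact IntF.id | with_reducible exact IntF.fst' | with_reducible exact IntF.snd' | with_reducible exact IntF.const _ | with_reducible exact Int.const _ | assumption | with_reducible apply Int.and | with_reducible apply Int.or | with_reducible apply Int.not | with_reducible apply Int.imp | with_reducible apply Int.iff | with_reducible apply Int.ne | with_reducible apply Int.eq | with_reducible apply Int.mem | with_reducible apply Int.subset | with_reducible apply Int.ltN | with_reducible apply Int.leN | with_reducible apply Int.fin | with_reducible apply Int.unique | with_reducible apply Int.all | with_reducible apply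 Int.ex | with_reducible apply IntF.fst | with_reducible apply IntF.snd | with_reducible apply IntF.app | with_reducible apply IntF.ite | with_reducible apply IntF.sep | with_reducible apply IntF.lam | with_reducible apply IntF.insert | with_reducible apply IntF.singleton | with_reducible apply IntF.union | with_reducible apply IntF.inter | with_reducible apply IntF.sdiff | with_reducible apply IntF.isUnion | with_reducible apply IntF.iimage | with_reducible apply IntF.the | with_reducible apply IntF.irec | with_reducible_and_instances apply IntF.mul | with_reducible_and_instances apply IntF.inv | with_reducible_and_instances apply IntF.smul | with_reducible apply IntF.succ | with_reducible apply IntF.val | with_reducible apply IntF.mk | (with_reducible refine Int.comp ?_ ?_; assumption) | (with_reducible refine Int.comp₂ ?_ ?_ ?_; assumption) | (with_reducible refine Int.comp₃ ?_ ?_ ?_ ?_; assumption) | (with_reducible refine Int.comp₄ ?_ ?_ ?_ ?_ ?_; assumption) | (with_reducible refine IntF.comp ?_ ?_; assumption) | (with_reducible refine IntF.comp₂ ?_ ?_ ?_; assumption) | (with_reducible refine Helper672.ZFA.IntF.comp₃ ?_ ?_ ?_ ?_; assumption)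 | with_reducible apply IntF.pair))) (Or.inl hx.bot) ?_ ?_ y hy
  · rintro y hy (h | h)
    · by_cases h1 : y = x
      · subst h1
        exact Or.inr fun _ => id
      · exact Or.inl (hx.all y hy h h1)
    · exact Or.inr fun z hz => hy.infl z (h z hz)
  · intro C h hne
    by_cases h1 : ∀ y, y ∈ C → y ⊆ x
    · refine Or.inl fun z hz => ?_
      obtain ⟨s, hs, hz⟩ := mem_isUnion.1 hz
      exact h1 s hs z hz
    · push Not at h1
      obtain ⟨y, hy, h2⟩ := h1
      exact Or.inr fun z hz => mem_isUnion.2 ⟨y, hy, (h y hy).2.resolve_left h2 z hz⟩

theorem Stg.total {x y : IPow M Z} (hx : T.Stg x) (hy : T.Stg y) : y ⊆ x ∨ x ⊆ y :=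
  (hx.cmp hy).imp id fun h z hz => h z (hx.infl z hz)

theorem top {U : IPow M Z} (h3 : T.Γ U ⊆ U) (hU : T.Stg U) : ∀ t, T.Stg t → t ⊆ U := by
  refine Stg.ind (T := T) (by (repeat' (first | with_reducible exact IntF.id | with_reducible exact IntF.fst' | with_reducible exact IntF.snd' | with_reducible exact IntF.const _ | with_reducible exact Int.const _ | assumption | with_reducible apply Int.and | with_reducible apply Int.or | with_reducible apply Int.not | with_reducible apply Int.imp | with_reducible apply Int.iff | with_reducible apply Int.ne | with_reducible apply Int.eq | with_reducible apply Int.mem | with_reducible apply Int.subset | with_reducible apply Int.ltN | with_reducible apply Int.leN | with_reducible apply Int.fin | with_reducible apply Int.unique | with_reducible apply Int.all | with_reducible apply Int.ex | with_reducible apply IntF.fst | with_reducible apply IntF.snd | with_reducible apply IntF.app | with_reducible apply IntF.ite | with_reducible apply IntF.sep | with_reducible apply IntF.lam | with_reducible apply IntF.insert | with_reducible apply IntF.singleton | with_reducible apply IntF.union | with_reducible apply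 IntF.inter | with_reducible apply IntF.sdiff | with_reducible apply IntF.isUnion | with_reducible apply IntF.iimage | with_reducible apply IntF.the | with_reducible apply IntF.irec | with_reducible_and_instances apply IntF.mul | with_reducible_and_instances apply IntF.inv | with_reducible_and_instances apply IntF.smul | with_reducible apply IntF.succ | with_reducible apply IntF.val | with_reducible apply IntF.mk | (with_reducible refine Int.comp ?_ ?_; assumption) | (with_reducible refine Int.comp₂ ?_ ?_ ?_; assumption) | (with_reducible refine Int.comp₃ ?_ ?_ ?_ ?_; assumption) | (with_reducible refine Int.comp₄ ?_ ?_ ?_ ?_ ?_; assumption) | (with_reducible refine IntF.comp ?_ ?_; assumption) | (with_reducible refine IntF.comp₂ ?_ ?_ ?_; assumption) | (with_reducible refine Helper672.ZFA.IntF.comp₃ ?_ ?_ ?_ ?_; assumption) | with_reducible apply IntF.pair))) hU.bot ?_ ?_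
  · intro s _ h z hz
    exact h3 z (T.mono _ _ h z hz)
  · intro D hD _ z hz
    obtain ⟨s, hs, hz⟩ := mem_isUnion.1 hz
    exact (hD s hs).2 z hz

/-- Least elements. -/
theorem exists_least {p : IPow M Z → Prop} (hp : Int M p) (hs : ∀ s, p s → T.Stg s)
    (hne : ∃ s, p s) : ∃ s, p s ∧ ∀ t, p t → s ⊆ t := by
  have hI := T.int_Stg
  have hi : Int M (fun s : IPow M Z => T.Stg s ∧ ∀ t, p t → s ⊆ t) := by (repeat' (first | with_reducible exact IntF.id | with_reducible exact IntF.fst' | with_reducible exact IntF.snd' | with_reducible exact IntF.const _ | with_reducible exact Int.const _ | assumption | with_reducible apply Int.and | with_reducible apply Int.or | with_reducible apply Int.not | with_reducible apply Int.imp | with_reducible apply Int.iff | with_reducible apply Int.ne | with_reducible apply Int.eq | with_reducible apply Int.mem | with_reducible apply Int.subset | with_reducible apply Int.ltN | with_reducible apply Int.leN | with_reducible apply Int.fin | with_reducible apply Int.unique | with_reducible apply Int.all | with_reducible apply Int.ex | with_reducible apply IntF.fst | with_reducible apply IntF.snd | with_reducible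 apply IntF.app | with_reducible apply IntF.ite | with_reducible apply IntF.sep | with_reducible apply IntF.lam | with_reducible apply IntF.insert | with_reducible apply IntF.singleton | with_reducible apply IntF.union | with_reducible apply IntF.inter | with_reducible apply IntF.sdiff | with_reducible apply IntF.isUnion | with_reducible apply IntF.iimage | with_reducible apply IntF.the | with_reducible apply IntF.irec | with_reducible_and_instances apply IntF.mul | with_reducible_and_instances apply IntF.inv | with_reducible_and_instances apply IntF.smul | with_reducible apply IntF.succ | with_reducible apply IntF.val | with_reducible apply IntF.mk | (with_reducible refine Int.comp ?_ ?_; assumption) | (with_reducible refine Int.comp₂ ?_ ?_ ?_; assumption) | (with_reducible refine Int.comp₃ ?_ ?_ ?_ ?_; assumption) | (with_reducible refine Int.comp₄ ?_ ?_ ?_ ?_ ?_; assumption) | (with_reducible refine IntF.comp ?_ ?_; assumption) | (with_reducible refine IntF.comp₂ ?_ ?_ ?_; assumption) | (with_reducible refine Helper672.ZFA.IntF.comp₃ ?_ ?_ ?_ ?_; assumption) | with_reducible apply IntF.pair))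
  have hm : ∀ s, s ∈ sep M (fun s : IPow M Z => T.Stg s ∧ ∀ t, p t → s ⊆ t) ↔
      T.Stg s ∧ ∀ t, p t → s ⊆ t := fun s => mem_sep hi
  set C := sep M (fun s : IPow M Z => T.Stg s ∧ ∀ t, p t → s ⊆ t) with hC
  have h0 : T.b ∈ C := (hm _).2 ⟨Stg.base, fun t ht => (hs t ht).bot⟩
  have hU : T.Stg (isUnion C) := Stg.union (fun s hs => ((hm s).1 hs).1) ⟨_, h0⟩
  have hU' : ∀ t, p t → isUnion C ⊆ t := by
    intro t ht z hz
    obtain ⟨s, hs, hz⟩ := mem_isUnion.1 hz
    exact ((hm s).1 hs).2 t ht z hz
  by_contra hcon
  push Not at hcon
  have h1 : ∀ t, p t → T.Γ (isUnion C) ⊆ t := by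
    intro t ht
    refine (hs t ht).all _ hU (hU' t ht) fun h => ?_
    rw [← h] at ht
    obtain ⟨t', ht', h2⟩ := hcon _ ht
    exact h2 (hU' t' ht')
  have h2 : T.Γ (isUnion C) ∈ C := (hm _).2 ⟨hU.step, h1⟩
  have h3 : T.Γ (isUnion C) ⊆ isUnion C := fun z hz => mem_isUnion.2 ⟨_, h2, hz⟩
  have h4 := top h3 hU
  obtain ⟨t, ht⟩ := hne
  obtain ⟨t', ht', h5⟩ := hcon t ht
  exact h5 fun z hz => hU' t' ht' z (h4 t (hs t ht) z hz)

variable (T) in
/-- The first stage and the successor stages. -/
def PSt (s : IPow M Z) : Prop := s = T.b ∨ ∃ t, T.Stg t ∧ s = T.Γ t ∧ t ≠ s

variable (T) in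
theorem int_PSt : Int M (fun s : IPow M Z => T.PSt s) := by
  have hg := T.int
  have hI := T.int_Stg
  unfold PSt
  (repeat' (first | with_reducible exact IntF.id | with_reducible exact IntF.fst' | with_reducible exact IntF.snd' | with_reducible exact IntF.const _ | with_reducible exact Int.const _ | assumption | with_reducible apply Int.and | with_reducible apply Int.or | with_reducible apply Int.not | with_reducible apply Int.imp | with_reducible apply Int.iff | with_reducible apply Int.ne | with_reducible apply Int.eq | with_reducible apply Int.mem | with_reducible apply Int.subset | with_reducible apply Int.ltN | with_reducible apply Int.leN | with_reducible apply Int.fin | with_reducible apply Int.unique | with_reducible apply Int.all | with_reducible apply Int.ex | with_reducible apply IntF.fst | with_reducible apply IntF.snd | with_reducible apply IntF.app | with_reducible apply IntF.ite | with_reducible apply IntF.sep | with_reducible apply IntF.lam | with_reducible apply IntF.insert | with_reducible apply IntF.singleton | with_reducible apply IntF.union | with_reducible apply IntF.inter | with_reducible apply IntF.sdiff | with_reducible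 apply IntF.isUnion | with_reducible apply IntF.iimage | with_reducible apply IntF.the | with_reducible apply IntF.irec | with_reducible_and_instances apply IntF.mul | with_reducible_and_instances apply IntF.inv | with_reducible_and_instances apply IntF.smul | with_reducible apply IntF.succ | with_reducible apply IntF.val | with_reducible apply IntF.mk | (with_reducible refine Int.comp ?_ ?_; assumption) | (with_reducible refine Int.comp₂ ?_ ?_ ?_; assumption) | (with_reducible refine Int.comp₃ ?_ ?_ ?_ ?_; assumption) | (with_reducible refine Int.comp₄ ?_ ?_ ?_ ?_ ?_; assumption) | (with_reducible refine IntF.comp ?_ ?_; assumption) | (with_reducible refine IntF.comp₂ ?_ ?_ ?_; assumption) | (with_reducible refine Helper672.ZFA.IntF.comp₃ ?_ ?_ ?_ ?_; assumption) | with_reducible apply IntF.pair))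

theorem PSt.stg {s : IPow M Z} (h : T.PSt s) : T.Stg s := by
  rcases h with rfl | ⟨t, ht, rfl, -⟩
  · exact Stg.base
  · exact ht.step

/-- The first stage with a given element. -/
theorem exists_first {z : Z} {t : IPow M Z} (ht : T.Stg t) (hz : z ∈ t) :
    ∃ s, T.PSt s ∧ z ∈ s ∧ s ⊆ t := by
  have hg := T.int
  have hI := T.int_Stg
  obtain ⟨s, ⟨hs, hzs⟩, hmin⟩ := exists_least (T := T) (p := fun s => T.Stg s ∧ z ∈ s) (by (repeat' (first | with_reducible exact IntF.id | with_reducible exact IntF.fst' | with_reducible exact IntF.snd' | with_reducible exact IntF.const _ | with_reducible exact Int.const _ | assumption | with_reducible apply Int.and | with_reducible apply Int.or | with_reducible apply Int.not | with_reducible apply Int.imp | with_reducible apply Int.iff | with_reducible apply Int.ne | with_reducible apply Int.eq | with_reducible apply Int.mem | with_reducible apply Int.subset | with_reducible apply Int.ltN | with_reducible apply Int.leN | with_reducible apply Int.fin | with_reducible apply Int.unique | with_reducible apply Int.all | with_reducible apply Int.ex | with_reducible apply IntF.fst | with_reducible apply IntF.snd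 | with_reducible apply IntF.app | with_reducible apply IntF.ite | with_reducible apply IntF.sep | with_reducible apply IntF.lam | with_reducible apply IntF.insert | with_reducible apply IntF.singleton | with_reducible apply IntF.union | with_reducible apply IntF.inter | with_reducible apply IntF.sdiff | with_reducible apply IntF.isUnion | with_reducible apply IntF.iimage | with_reducible apply IntF.the | with_reducible apply IntF.irec | with_reducible_and_instances apply IntF.mul | with_reducible_and_instances apply IntF.inv | with_reducible_and_instances apply IntF.smul | with_reducible apply IntF.succ | with_reducible apply IntF.val | with_reducible apply IntF.mk | (with_reducible refine Int.comp ?_ ?_; assumption) | (with_reducible refine Int.comp₂ ?_ ?_ ?_; assumption) | (with_reducible refine Int.comp₃ ?_ ?_ ?_ ?_; assumption) | (with_reducible refine Int.comp₄ ?_ ?_ ?_ ?_ ?_; assumption) | (with_reducible refine IntF.comp ?_ ?_; assumption) | (with_reducible refine IntF.comp₂ ?_ ?_ ?_; assumption) | (with_reducible refine Helper672.ZFA.IntF.comp₃ ?_ ?_ ?_ ?_; assumption) | with_reducible apply IntF.pair)))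
    (fun s h => h.1) ⟨t, ht, hz⟩
  refine ⟨s, ?_, hzs, hmin t ⟨ht, hz⟩⟩
  by_cases hb : s = T.b
  · exact Or.inl hb
  have hi : Int M (fun t : IPow M Z => T.Stg t ∧ t ⊆ s ∧ t ≠ s) := by (repeat' (first | with_reducible exact IntF.id | with_reducible exact IntF.fst' | with_reducible exact IntF.snd' | with_reducible exact IntF.const _ | with_reducible exact Int.const _ | assumption | with_reducible apply Int.and | with_reducible apply Int.or | with_reducible apply Int.not | with_reducible apply Int.imp | with_reducible apply Int.iff | with_reducible apply Int.ne | with_reducible apply Int.eq | with_reducible apply Int.mem | with_reducible apply Int.subset | with_reducible apply Int.ltN | with_reducible apply Int.leN | with_reducible apply Int.fin | with_reducible apply Int.unique | with_reducible apply Int.all | with_reducible apply Int.ex | with_reducible apply IntF.fst | with_reducible apply IntF.snd | with_reducible apply IntF.app | with_reducible apply IntF.ite | with_reducible apply IntF.sep | with_reducible apply IntF.lam | with_reducible apply IntF.insert | with_reducible apply IntF.singleton | with_reducible apply IntF.union | with_reducible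 apply IntF.inter | with_reducible apply IntF.sdiff | with_reducible apply IntF.isUnion | with_reducible apply IntF.iimage | with_reducible apply IntF.the | with_reducible apply IntF.irec | with_reducible_and_instances apply IntF.mul | with_reducible_and_instances apply IntF.inv | with_reducible_and_instances apply IntF.smul | with_reducible apply IntF.succ | with_reducible apply IntF.val | with_reducible apply IntF.mk | (with_reducible refine Int.comp ?_ ?_; assumption) | (with_reducible refine Int.comp₂ ?_ ?_ ?_; assumption) | (with_reducible refine Int.comp₃ ?_ ?_ ?_ ?_; assumption) | (with_reducible refine Int.comp₄ ?_ ?_ ?_ ?_ ?_; assumption) | (with_reducible refine IntF.comp ?_ ?_; assumption) | (with_reducible refine IntF.comp₂ ?_ ?_ ?_; assumption) | (with_reducible refine Helper672.ZFA.IntF.comp₃ ?_ ?_ ?_ ?_; assumption) | with_reducible apply IntF.pair))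
  have hm : ∀ t, t ∈ sep M (fun t : IPow M Z => T.Stg t ∧ t ⊆ s ∧ t ≠ s) ↔
      T.Stg t ∧ t ⊆ s ∧ t ≠ s := fun t => mem_sep hi
  set C := sep M (fun t : IPow M Z => T.Stg t ∧ t ⊆ s ∧ t ≠ s) with hC
  have hU : T.Stg (isUnion C) := Stg.union (fun t ht => ((hm t).1 ht).1)
    ⟨T.b, (hm _).2 ⟨Stg.base, hs.bot, fun h => hb h.symm⟩⟩
  have hUs : isUnion C ⊆ s := by
    intro w hw
    obtain ⟨t, ht, hw⟩ := mem_isUnion.1 hw
    exact ((hm t).1 ht).2.1 w hw
  have hne : isUnion C ≠ s := by
    intro h
    have hz' : z ∈ isUnion C := h ▸ hzs
    obtain ⟨t, ht, hz'⟩ := mem_isUnion.1 hz'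
    have h1 := (hm t).1 ht
    exact h1.2.2 (subset_antisymm' h1.2.1 (hmin t ⟨h1.1, hz'⟩))
  have h1 := hs.all _ hU hUs hne
  refine Or.inr ⟨isUnion C, hU, ?_, hne⟩
  by_contra h2
  have h3 : T.Γ (isUnion C) ⊆ isUnion C := fun w hw =>
    mem_isUnion.2 ⟨_, (hm _).2 ⟨hU.step, h1, fun h => h2 h.symm⟩, hw⟩
  exact hne (subset_antisymm' hUs (top h3 hU s hs))

/-- Below a successor stage. -/
theorem PSt.pred {s : IPow M Z} (h : T.PSt s) (hb : s ≠ T.b) :
    ∃ t, T.Stg t ∧ s = T.Γ t ∧ ∀ r, T.Stg r → (r ⊆ t ↔ r ⊆ s ∧ r ≠ s) := by
  rcases h with h | ⟨t, ht, rfl, hne⟩
  · exact absurd h hb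
  · refine ⟨t, ht, rfl, fun r hr => ⟨fun h1 => ⟨fun w hw => ht.infl w (h1 w hw), fun h2 => ?_⟩,
      fun ⟨h1, h2⟩ => ?_⟩⟩
    · subst h2
      exact hne (subset_antisymm' ht.infl h1)
    · rcases ht.cmp hr with h3 | h3
      · exact h3
      · exact absurd (subset_antisymm' h1 h3) h2

/-- The last stage. -/
theorem exists_top : ∃ s, T.Stg s ∧ T.Γ s = s := by
  have hI := T.int_Stg
  have hm : ∀ s, s ∈ sep M (fun s : IPow M Z => T.Stg s) ↔ T.Stg s := fun s => mem_sep hI
  have hU : T.Stg (isUnion (sep M (fun s : IPow M Z => T.Stg s))) :=
    Stg.union (fun s hs => (hm s).1 hs) ⟨_, (hm _).2 Stg.base⟩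
  refine ⟨_, hU, subset_antisymm' (fun z hz => ?_) hU.infl⟩
  exact mem_isUnion.2 ⟨_, (hm _).2 hU.step, hz⟩

end Tw

end Pool.Agent.W924
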