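import Pool.Agent.W924.Tower

/-!
# Internal well-orders: products, finite subsets, choice of least elements
-/

set_option maxHeartbeats 1000000
set_option linter.all false

namespace Pool.Agent.W924

open FirstOrder FirstOrder.Language
open Pool.Agent.Helper672.ZFA
open Pool.Agent.H310

universe u u₁ u₂ u₃

variable {M : Type u} [L.Structure M] [hM : IsModel M]
variable {δ : Type u₁} {ε : Type u₂} {γ : Type u₃} [ITy M δ] [ITy M ε] [ITy M γ]

variable (M) in
/-- Internal well-orders. -/
structure IWo (lt : δ → δ → Prop) : Prop where
  int : Int M (fun q : δ × δ => lt q.1 q.2)
  tri : ∀ a b, lt a b ∨ a = b ∨ lt b a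
  wf : ∀ s : IPow M δ, (∃ a, a ∈ s) → ∃ a, a ∈ s ∧ ∀ b, b ∈ s → ¬ lt b a

section

variable {lt : δ → δ → Prop} {lt' : ε → ε → Prop}

theorem IWo.irr (h : IWo M lt) (a : δ) : ¬ lt a a := by
  obtain ⟨b, hb, h1⟩ := h.wf {a} ⟨a, mem_singleton.2 rfl⟩
  obtain rfl := mem_singleton.1 hb
  exact h1 b hb

theorem IWo.tr (h : IWo M lt) (a b c : δ) (h1 : lt a b) (h2 : lt b c) : lt a c := by
  obtain ⟨d, hd, h3⟩ := h.wf (insert a {b, c}) ⟨a, by simp⟩
  have ha : a ∈ (insert a {b, c} : IPow M δ) := by simp
  have hb : b ∈ (insert a {b, c} : IPow M δ) := by simp
  have hc : c ∈ (insert a {b, c} : IPow M δ) := by simp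
  rcases h.tri a c with h4 | rfl | h4
  · exact h4
  · simp only [mem_insert, mem_singleton] at hd
    rcases hd with rfl | rfl | rfl
    · exact absurd h2 (h3 _ hb)
    · exact absurd h1 (h3 _ ha)
    · exact absurd h2 (h3 _ hb)
  · simp only [mem_insert, mem_singleton] at hd
    rcases hd with rfl | rfl | rfl
    · exact absurd h4 (h3 _ hc)
    · exact absurd h1 (h3 _ ha)
    · exact absurd h2 (h3 _ hb)

theorem IWo.asymm (h : IWo M lt) {a b : δ} (h1 : lt a b) (h2 : lt b a) : False :=
  h.irr a (h.tr _ _ _ h1 h2)

theorem IWo.least (h : IWo M lt) {p : δ → Prop} (hp : Int M p) (hne : ∃ a, p a) :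
    ∃ a, p a ∧ ∀ b, p b → ¬ lt b a := by
  obtain ⟨a, ha⟩ := hne
  obtain ⟨b, h1, h2⟩ := h.wf (sep M p) ⟨a, (mem_sep hp).2 ha⟩
  exact ⟨b, (mem_sep hp).1 h1, fun c hc => h2 c ((mem_sep hp).2 hc)⟩

theorem IWo.ind (h : IWo M lt) {p : δ → Prop} (hp : Int M p)
    (hs : ∀ a, (∀ b, lt b a → p b) → p a) (a : δ) : p a := by
  by_contra hc
  obtain ⟨b, h1, h2⟩ := h.least (p := fun a => ¬ p a) hp.not ⟨a, hc⟩
  exact h1 (hs b fun c hc => by
    by_contra h3
    exact h2 c h3 hc)

theorem IWo.nat : IWo M (fun a b : INat M => a < b) where
  int := by (repeat' (first | with_reducible exact IntF.id | with_reducible exact IntF.fst' | with_reducible exact IntF.snd' | with_reducible exact IntF.const _ | with_reducible exact Int.const _ | assumption | with_reducible apply Int.and | with_reducible apply Int.or | with_reducible apply Int.not | with_reducible apply Int.imp | with_reducible apply Int.iff | with_reducible apply Int.ne | with_reducible apply Int.eq | with_reducible apply Int.mem | with_reducible apply Int.subset | with_reducible apply Int.ltN | with_reducible apply Int.leN | with_reducible apply Int.fin | with_reducible apply Int.unique | with_reducible apply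 Int.all | with_reducible apply Int.ex | with_reducible apply IntF.fst | with_reducible apply IntF.snd | with_reducible apply IntF.app | with_reducible apply IntF.ite | with_reducible apply IntF.sep | with_reducible apply IntF.lam | with_reducible apply IntF.insert | with_reducible apply IntF.singleton | with_reducible apply IntF.union | with_reducible apply IntF.inter | with_reducible apply IntF.sdiff | with_reducible apply IntF.isUnion | with_reducible apply IntF.iimage | with_reducible apply IntF.the | with_reducible apply IntF.irec | with_reducible_and_instances apply IntF.mul | with_reducible_and_instances apply IntF.inv | with_reducible_and_instances apply IntF.smul | with_reducible apply IntF.succ | with_reducible apply IntF.val | with_reducible apply IntF.mk | (with_reducible refine Int.comp ?_ ?_; assumption) | (with_reducible refine Int.comp₂ ?_ ?_ ?_; assumption) | (with_reducible refine Int.comp₃ ?_ ?_ ?_ ?_; assumption) | (with_reducible refine Int.comp₄ ?_ ?_ ?_ ?_ ?_; assumption) | (with_reducible refine IntF.comp ?_ ?_; assumption) | (with_reducible refine IntF.comp₂ ?_ ?_ ?_; assumption) | (with_reducible refine Helper672.ZFA.IntF.comp₃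 ?_ ?_ ?_ ?_; assumption) | with_reducible apply IntF.pair))
  tri := lt_trichotomy
  wf s hs := by
    obtain ⟨n, h1, h2⟩ := INat.exists_least (p := fun n => n ∈ s) (by (repeat' (first | with_reducible exact IntF.id | with_reducible exact IntF.fst' | with_reducible exact IntF.snd' | with_reducible exact IntF.const _ | with_reducible exact Int.const _ | assumption | with_reducible apply Int.and | with_reducible apply Int.or | with_reducible apply Int.not | with_reducible apply Int.imp | with_reducible apply Int.iff | with_reducible apply Int.ne | with_reducible apply Int.eq | with_reducible apply Int.mem | with_reducible apply Int.subset | with_reducible apply Int.ltN | with_reducible apply Int.leN | with_reducible apply Int.fin | with_reducible apply Int.unique | with_reducible apply Int.all | with_reducible apply Int.ex | with_reducible apply IntF.fst | with_reducible apply IntF.snd | with_reducible apply IntF.app | with_reducible apply IntF.ite | with_reducible apply IntF.sep | with_reducible apply IntF.lam | with_reducible apply IntF.insert | with_reducible apply IntF.singleton | with_reducible apply IntF.union | with_reducible apply IntF.inter | with_reducible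 apply IntF.sdiff | with_reducible apply IntF.isUnion | with_reducible apply IntF.iimage | with_reducible apply IntF.the | with_reducible apply IntF.irec | with_reducible_and_instances apply IntF.mul | with_reducible_and_instances apply IntF.inv | with_reducible_and_instances apply IntF.smul | with_reducible apply IntF.succ | with_reducible apply IntF.val | with_reducible apply IntF.mk | (with_reducible refine Int.comp ?_ ?_; assumption) | (with_reducible refine Int.comp₂ ?_ ?_ ?_; assumption) | (with_reducible refine Int.comp₃ ?_ ?_ ?_ ?_; assumption) | (with_reducible refine Int.comp₄ ?_ ?_ ?_ ?_ ?_; assumption) | (with_reducible refine IntF.comp ?_ ?_; assumption) | (with_reducible refine IntF.comp₂ ?_ ?_ ?_; assumption) | (with_reducible refine Helper672.ZFA.IntF.comp₃ ?_ ?_ ?_ ?_; assumption) | with_reducible apply IntF.pair))) hs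
    exact ⟨n, h1, fun m hm => not_lt.2 (h2 m hm)⟩

theorem IWo.prod (h : IWo M lt) (h' : IWo M lt') : IWo M (prodLT lt lt') where
  int := by
    have h1 := h.int
    have h2 := h'.int
    unfold prodLT
    (repeat' (first | with_reducible exact IntF.id | with_reducible exact IntF.fst' | with_reducible exact IntF.snd' | with_reducible exact IntF.const _ | with_reducible exact Int.const _ | assumption | with_reducible apply Int.and | with_reducible apply Int.or | with_reducible apply Int.not | with_reducible apply Int.imp | with_reducible apply Int.iff | with_reducible apply Int.ne | with_reducible apply Int.eq | with_reducible apply Int.mem | with_reducible apply Int.subset | with_reducible apply Int.ltN | with_reducible apply Int.leN | with_reducible apply Int.fin | with_reducible apply Int.unique | with_reducible apply Int.all | with_reducible apply Int.ex | with_reducible apply IntF.fst | with_reducible apply IntF.snd | with_reducible apply IntF.app | with_reducible apply IntF.ite | with_reducible apply IntF.sep | with_reducible apply IntF.lam | with_reducible apply IntF.insert | with_reducible apply IntF.singleton | with_reducible apply IntF.union |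 with_reducible apply IntF.inter | with_reducible apply IntF.sdiff | with_reducible apply IntF.isUnion | with_reducible apply IntF.iimage | with_reducible apply IntF.the | with_reducible apply IntF.irec | with_reducible_and_instances apply IntF.mul | with_reducible_and_instances apply IntF.inv | with_reducible_and_instances apply IntF.smul | with_reducible apply IntF.succ | with_reducible apply IntF.val | with_reducible apply IntF.mk | (with_reducible refine Int.comp ?_ ?_; assumption) | (with_reducible refine Int.comp₂ ?_ ?_ ?_; assumption) | (with_reducible refine Int.comp₃ ?_ ?_ ?_ ?_; assumption) | (with_reducible refine Int.comp₄ ?_ ?_ ?_ ?_ ?_; assumption) | (with_reducible refine IntF.comp ?_ ?_; assumption) | (with_reducible refine IntF.comp₂ ?_ ?_ ?_; assumption) | (with_reducible refine Helper672.ZFA.IntF.comp₃ ?_ ?_ ?_ ?_; assumption) | with_reducible apply IntF.pair))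
  tri := by
    rintro ⟨a, b⟩ ⟨c, d⟩
    unfold prodLT
    rcases h.tri a c with h1 | rfl | h1
    · exact Or.inl (Or.inl h1)
    · rcases h'.tri b d with h2 | rfl | h2
      · exact Or.inl (Or.inr ⟨rfl, h2⟩)
      · exact Or.inr (Or.inl rfl)
      · exact Or.inr (Or.inr (Or.inr ⟨rfl, h2⟩))
    · exact Or.inr (Or.inr (Or.inl h1))
  wf s hs := by
    obtain ⟨⟨a, b⟩, hab⟩ := hs
    obtain ⟨a, ⟨b, hb⟩, h1⟩ := h.least (p := fun a => ∃ b, (a, b) ∈ s) (by (repeat' (first | with_reducible exact IntF.id | with_reducible exact IntF.fst' | with_reducible exact IntF.snd' | with_reducible exact IntF.const _ | with_reducible exact Int.const _ | assumption | with_reducible apply Int.and | with_reducible apply Int.or | with_reducible apply Int.not | with_reducible apply Int.imp | with_reducible apply Int.iff | with_reducible apply Int.ne | with_reducible apply Int.eq | with_reducible apply Int.mem | with_reducible apply Int.subset | with_reducible apply Int.ltN | with_reducible apply Int.leN | with_reducible apply Int.fin | with_reducible apply Int.unique | with_reducible apply Int.all | with_reducible apply Int.ex | with_reducible apply IntF.fst | with_reducible apply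 IntF.snd | with_reducible apply IntF.app | with_reducible apply IntF.ite | with_reducible apply IntF.sep | with_reducible apply IntF.lam | with_reducible apply IntF.insert | with_reducible apply IntF.singleton | with_reducible apply IntF.union | with_reducible apply IntF.inter | with_reducible apply IntF.sdiff | with_reducible apply IntF.isUnion | with_reducible apply IntF.iimage | with_reducible apply IntF.the | with_reducible apply IntF.irec | with_reducible_and_instances apply IntF.mul | with_reducible_and_instances apply IntF.inv | with_reducible_and_instances apply IntF.smul | with_reducible apply IntF.succ | with_reducible apply IntF.val | with_reducible apply IntF.mk | (with_reducible refine Int.comp ?_ ?_; assumption) | (with_reducible refine Int.comp₂ ?_ ?_ ?_; assumption) | (with_reducible refine Int.comp₃ ?_ ?_ ?_ ?_; assumption) | (with_reducible refine Int.comp₄ ?_ ?_ ?_ ?_ ?_; assumption) | (with_reducible refine IntF.comp ?_ ?_; assumption) | (with_reducible refine IntF.comp₂ ?_ ?_ ?_; assumption) | (with_reducible refine Helper672.ZFA.IntF.comp₃ ?_ ?_ ?_ ?_; assumption) | with_reducible apply IntF.pair))) ⟨a, b, hab⟩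
    obtain ⟨b, hb, h2⟩ := h'.least (p := fun b => (a, b) ∈ s) (by (repeat' (first | with_reducible exact IntF.id | with_reducible exact IntF.fst' | with_reducible exact IntF.snd' | with_reducible exact IntF.const _ | with_reducible exact Int.const _ | assumption | with_reducible apply Int.and | with_reducible apply Int.or | with_reducible apply Int.not | with_reducible apply Int.imp | with_reducible apply Int.iff | with_reducible apply Int.ne | with_reducible apply Int.eq | with_reducible apply Int.mem | with_reducible apply Int.subset | with_reducible apply Int.ltN | with_reducible apply Int.leN | with_reducible apply Int.fin | with_reducible apply Int.unique | with_reducible apply Int.all | with_reducible apply Int.ex | with_reducible apply IntF.fst | with_reducible apply IntF.snd | with_reducible apply IntF.app | with_reducible apply IntF.ite | with_reducible apply IntF.sep | with_reducible apply IntF.lam | with_reducible apply IntF.insert | with_reducible apply IntF.singleton | with_reducible apply IntF.union | with_reducible apply IntF.inter | with_reducible apply IntF.sdiff | with_reducible apply IntF.isUnion | with_reducible apply IntF.iimage | with_reducible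 apply IntF.the | with_reducible apply IntF.irec | with_reducible_and_instances apply IntF.mul | with_reducible_and_instances apply IntF.inv | with_reducible_and_instances apply IntF.smul | with_reducible apply IntF.succ | with_reducible apply IntF.val | with_reducible apply IntF.mk | (with_reducible refine Int.comp ?_ ?_; assumption) | (with_reducible refine Int.comp₂ ?_ ?_ ?_; assumption) | (with_reducible refine Int.comp₃ ?_ ?_ ?_ ?_; assumption) | (with_reducible refine Int.comp₄ ?_ ?_ ?_ ?_ ?_; assumption) | (with_reducible refine IntF.comp ?_ ?_; assumption) | (with_reducible refine IntF.comp₂ ?_ ?_ ?_; assumption) | (with_reducible refine Helper672.ZFA.IntF.comp₃ ?_ ?_ ?_ ?_; assumption) | with_reducible apply IntF.pair))) ⟨b, hb⟩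
    refine ⟨(a, b), hb, ?_⟩
    rintro ⟨c, d⟩ hcd (h3 | ⟨h3, h4⟩)
    · exact h1 c ⟨d, hcd⟩ h3
    · obtain rfl : c = a := h3
      exact h2 d hcd h4

/-- Transfer along an injection. -/
theorem IWo.inj (h : IWo M lt) {f : ε → δ} (hf : IntF M f) (hinj : ∀ a b, f a = f b → a = b) :
    IWo M (fun a b => lt (f a) (f b)) where
  int := by
    have h1 := h.int
    (repeat' (first | with_reducible exact IntF.id | with_reducible exact IntF.fst' | with_reducible exact IntF.snd' | with_reducible exact IntF.const _ | with_reducible exact Int.const _ | assumption | with_reducible apply Int.and | with_reducible apply Int.or | with_reducible apply Int.not | with_reducible apply Int.imp | with_reducible apply Int.iff | with_reducible apply Int.ne | with_reducible apply Int.eq | with_reducible apply Int.mem | with_reducible apply Int.subset | with_reducible apply Int.ltN | with_reducible apply Int.leN | with_reducible apply Int.fin | with_reducible apply Int.unique | with_reducible apply Int.all | with_reducible apply Int.ex | with_reducible apply IntF.fst | with_reducible apply IntF.snd | with_reducible apply IntF.app | with_reducible apply IntF.ite | with_reducible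 apply IntF.sep | with_reducible apply IntF.lam | with_reducible apply IntF.insert | with_reducible apply IntF.singleton | with_reducible apply IntF.union | with_reducible apply IntF.inter | with_reducible apply IntF.sdiff | with_reducible apply IntF.isUnion | with_reducible apply IntF.iimage | with_reducible apply IntF.the | with_reducible apply IntF.irec | with_reducible_and_instances apply IntF.mul | with_reducible_and_instances apply IntF.inv | with_reducible_and_instances apply IntF.smul | with_reducible apply IntF.succ | with_reducible apply IntF.val | with_reducible apply IntF.mk | (with_reducible refine Int.comp ?_ ?_; assumption) | (with_reducible refine Int.comp₂ ?_ ?_ ?_; assumption) | (with_reducible refine Int.comp₃ ?_ ?_ ?_ ?_; assumption) | (with_reducible refine Int.comp₄ ?_ ?_ ?_ ?_ ?_; assumption) | (with_reducible refine IntF.comp ?_ ?_; assumption) | (with_reducible refine IntF.comp₂ ?_ ?_ ?_; assumption) | (with_reducible refine Helper672.ZFA.IntF.comp₃ ?_ ?_ ?_ ?_; assumption) | with_reducible apply IntF.pair))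
  tri a b := by
    rcases h.tri (f a) (f b) with h1 | h1 | h1
    · exact Or.inl h1
    · exact Or.inr (Or.inl (hinj _ _ h1))
    · exact Or.inr (Or.inr h1)
  wf s hs := by
    obtain ⟨a, ha⟩ := hs
    obtain ⟨_, ⟨b, hb, rfl⟩, h1⟩ := h.least (p := fun d => ∃ a, a ∈ s ∧ f a = d) (by (repeat' (first | with_reducible exact IntF.id | with_reducible exact IntF.fst' | with_reducible exact IntF.snd' | with_reducible exact IntF.const _ | with_reducible exact Int.const _ | assumption | with_reducible apply Int.and | with_reducible apply Int.or | with_reducible apply Int.not | with_reducible apply Int.imp | with_reducible apply Int.iff | with_reducible apply Int.ne | with_reducible apply Int.eq | with_reducible apply Int.mem | with_reducible apply Int.subset | with_reducible apply Int.ltN | with_reducible apply Int.leN | with_reducible apply Int.fin | with_reducible apply Int.unique | with_reducible apply Int.all | with_reducible apply Int.ex | with_reducible apply IntF.fst | with_reducible apply IntF.snd | with_reducible apply IntF.app | with_reducible apply IntF.ite | with_reducible apply IntF.sep | with_reducible apply IntF.lam | with_reducible apply IntF.insert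 | with_reducible apply IntF.singleton | with_reducible apply IntF.union | with_reducible apply IntF.inter | with_reducible apply IntF.sdiff | with_reducible apply IntF.isUnion | with_reducible apply IntF.iimage | with_reducible apply IntF.the | with_reducible apply IntF.irec | with_reducible_and_instances apply IntF.mul | with_reducible_and_instances apply IntF.inv | with_reducible_and_instances apply IntF.smul | with_reducible apply IntF.succ | with_reducible apply IntF.val | with_reducible apply IntF.mk | (with_reducible refine Int.comp ?_ ?_; assumption) | (with_reducible refine Int.comp₂ ?_ ?_ ?_; assumption) | (with_reducible refine Int.comp₃ ?_ ?_ ?_ ?_; assumption) | (with_reducible refine Int.comp₄ ?_ ?_ ?_ ?_ ?_; assumption) | (with_reducible refine IntF.comp ?_ ?_; assumption) | (with_reducible refine IntF.comp₂ ?_ ?_ ?_; assumption) | (with_reducible refine Helper672.ZFA.IntF.comp₃ ?_ ?_ ?_ ?_; assumption) | with_reducible apply IntF.pair)))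
      ⟨f a, a, ha, rfl⟩
    exact ⟨b, hb, fun c hc => h1 _ ⟨c, hc, rfl⟩⟩

/-! ### Finite subsets -/

/-- The greatest element of the symmetric difference is in the second set. -/
def colex (lt : δ → δ → Prop) (F F' : IPow M δ) : Prop :=
  ∃ a, a ∈ F' ∧ ¬ a ∈ F ∧ ∀ b, lt a b → (b ∈ F ↔ b ∈ F')

theorem int_colex (h : IWo M lt) :
    Int M (fun q : IPow M δ × IPow M δ => colex lt q.1 q.2) := by
  have h1 := h.int
  unfold colex
  (repeat' (first | with_reducible exact IntF.id | with_reducible exact IntF.fst' | with_reducible exact IntF.snd' | with_reducible exact IntF.const _ | with_reducible exact Int.const _ | assumption | with_reducible apply Int.and | with_reducible apply Int.or | with_reducible apply Int.not | with_reducible apply Int.imp | with_reducible apply Int.iff | with_reducible apply Int.ne | with_reducible apply Int.eq | with_reducible apply Int.mem | with_reducible apply Int.subset | with_reducible apply Int.ltN | with_reducible apply Int.leN | with_reducible apply Int.fin | with_reducible apply Int.unique | with_reducible apply Int.all | with_reducible apply Int.ex | with_reducible apply IntF.fst | with_reducible apply IntF.snd | with_reducible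 apply IntF.app | with_reducible apply IntF.ite | with_reducible apply IntF.sep | with_reducible apply IntF.lam | with_reducible apply IntF.insert | with_reducible apply IntF.singleton | with_reducible apply IntF.union | with_reducible apply IntF.inter | with_reducible apply IntF.sdiff | with_reducible apply IntF.isUnion | with_reducible apply IntF.iimage | with_reducible apply IntF.the | with_reducible apply IntF.irec | with_reducible_and_instances apply IntF.mul | with_reducible_and_instances apply IntF.inv | with_reducible_and_instances apply IntF.smul | with_reducible apply IntF.succ | with_reducible apply IntF.val | with_reducible apply IntF.mk | (with_reducible refine Int.comp ?_ ?_; assumption) | (with_reducible refine Int.comp₂ ?_ ?_ ?_; assumption) | (with_reducible refine Int.comp₃ ?_ ?_ ?_ ?_; assumption) | (with_reducible refine Int.comp₄ ?_ ?_ ?_ ?_ ?_; assumption) | (with_reducible refine IntF.comp ?_ ?_; assumption) | (with_reducible refine IntF.comp₂ ?_ ?_ ?_; assumption) | (with_reducible refine Helper672.ZFA.IntF.comp₃ ?_ ?_ ?_ ?_; assumption) | with_reducible apply IntF.pair))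

theorem IWo.finMax (h : IWo M lt) {p : δ → Prop} (hp : Int M p) {s : IPow M δ} (hs : IFin s)
    (hps : ∀ a, p a → a ∈ s) (hne : ∃ a, p a) : ∃ a, p a ∧ ∀ b, p b → ¬ lt a b := by
  have h1 := h.int
  obtain ⟨a, ha⟩ := hne
  obtain ⟨a, h2, h3⟩ := IFin.exists_min (lt := fun a b => lt b a) (s := sep M p) (by (repeat' (first | with_reducible exact IntF.id | with_reducible exact IntF.fst' | with_reducible exact IntF.snd' | with_reducible exact IntF.const _ | with_reducible exact Int.const _ | assumption | with_reducible apply Int.and | with_reducible apply Int.or | with_reducible apply Int.not | with_reducible apply Int.imp | with_reducible apply Int.iff | with_reducible apply Int.ne | with_reducible apply Int.eq | with_reducible apply Int.mem | with_reducible apply Int.subset | with_reducible apply Int.ltN | with_reducible apply Int.leN | with_reducible apply Int.fin | with_reducible apply Int.unique | with_reducible apply Int.all | with_reducible apply Int.ex | with_reducible apply IntF.fst | with_reducible apply IntF.snd | with_reducible apply IntF.app | with_reducible apply IntF.ite | with_reducible apply IntF.sep | with_reducible apply IntF.lam | with_reducible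 apply IntF.insert | with_reducible apply IntF.singleton | with_reducible apply IntF.union | with_reducible apply IntF.inter | with_reducible apply IntF.sdiff | with_reducible apply IntF.isUnion | with_reducible apply IntF.iimage | with_reducible apply IntF.the | with_reducible apply IntF.irec | with_reducible_and_instances apply IntF.mul | with_reducible_and_instances apply IntF.inv | with_reducible_and_instances apply IntF.smul | with_reducible apply IntF.succ | with_reducible apply IntF.val | with_reducible apply IntF.mk | (with_reducible refine Int.comp ?_ ?_; assumption) | (with_reducible refine Int.comp₂ ?_ ?_ ?_; assumption) | (with_reducible refine Int.comp₃ ?_ ?_ ?_ ?_; assumption) | (with_reducible refine Int.comp₄ ?_ ?_ ?_ ?_ ?_; assumption) | (with_reducible refine IntF.comp ?_ ?_; assumption) | (with_reducible refine IntF.comp₂ ?_ ?_ ?_; assumption) | (with_reducible refine Helper672.ZFA.IntF.comp₃ ?_ ?_ ?_ ?_; assumption) | with_reducible apply IntF.pair))) h.irr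
    (fun a b c h4 h5 => h.tr _ _ _ h5 h4) (hs.subset fun x hx => hps x ((mem_sep hp).1 hx))
    ⟨a, (mem_sep hp).2 ha⟩
  exact ⟨a, (mem_sep hp).1 h2, fun b hb => h3 b ((mem_sep hp).2 hb)⟩

theorem colex_tri (h : IWo M lt) {F F' : IPow M δ} (hF : IFin F) (hF' : IFin F') :
    colex lt F F' ∨ F = F' ∨ colex lt F' F := by
  by_cases h1 : ∃ a, ¬ (a ∈ F ↔ a ∈ F')
  · obtain ⟨a, h2, h3⟩ := h.finMax (p := fun a => ¬ (a ∈ F ↔ a ∈ F')) (by (repeat' (first | with_reducible exact IntF.id | with_reducible exact IntF.fst' | with_reducible exact IntF.snd' | with_reducible exact IntF.const _ | with_reducible exact Int.const _ | assumption | with_reducible apply Int.and | with_reducible apply Int.or | with_reducible apply Int.not | with_reducible apply Int.imp | with_reducible apply Int.iff | with_reducible apply Int.ne | with_reducible apply Int.eq | with_reducible apply Int.mem | with_reducible apply Int.subset | with_reducible apply Int.ltN | with_reducible apply Int.leN | with_reducible apply Int.fin | with_reducible apply Int.unique | with_reducible apply Int.all | with_reducible apply Int.ex | with_reducible apply IntF.fst | with_reducible apply IntF.snd | with_reducible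 apply IntF.app | with_reducible apply IntF.ite | with_reducible apply IntF.sep | with_reducible apply IntF.lam | with_reducible apply IntF.insert | with_reducible apply IntF.singleton | with_reducible apply IntF.union | with_reducible apply IntF.inter | with_reducible apply IntF.sdiff | with_reducible apply IntF.isUnion | with_reducible apply IntF.iimage | with_reducible apply IntF.the | with_reducible apply IntF.irec | with_reducible_and_instances apply IntF.mul | with_reducible_and_instances apply IntF.inv | with_reducible_and_instances apply IntF.smul | with_reducible apply IntF.succ | with_reducible apply IntF.val | with_reducible apply IntF.mk | (with_reducible refine Int.comp ?_ ?_; assumption) | (with_reducible refine Int.comp₂ ?_ ?_ ?_; assumption) | (with_reducible refine Int.comp₃ ?_ ?_ ?_ ?_; assumption) | (with_reducible refine Int.comp₄ ?_ ?_ ?_ ?_ ?_; assumption) | (with_reducible refine IntF.comp ?_ ?_; assumption) | (with_reducible refine IntF.comp₂ ?_ ?_ ?_; assumption) | (with_reducible refine Helper672.ZFA.IntF.comp₃ ?_ ?_ ?_ ?_; assumption) | with_reducible apply IntF.pair))) (hF.union hF')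
      (fun a ha => by
        rw [mem_union]
        by_contra hc
        push Not at hc
        exact ha ⟨fun h => absurd h hc.1, fun h => absurd h hc.2⟩) h1
    have h4 : ∀ b, lt a b → (b ∈ F ↔ b ∈ F') := fun b hb => by
      by_contra hc
      exact h3 b hc hb
    by_cases h5 : a ∈ F
    · have h6 : ¬ a ∈ F' := fun h6 => h2 ⟨fun _ => h6, fun _ => h5⟩
      exact Or.inr (Or.inr ⟨a, h5, h6, fun b hb => (h4 b hb).symm⟩)
    · have h6 : a ∈ F' := by
        by_contra h6
        exact h2 ⟨fun h => absurd h h5, fun h => absurd h h6⟩
      exact Or.inl ⟨a, h6, h5, h4⟩
  · push Not at h1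
    exact Or.inr (Or.inl (IPow.ext' h1))

/-- The step of the proof that the order is well-founded. -/
theorem colex_step (h : IWo M lt) {q : δ → Prop} (hq : Int M q)
    (hdown : ∀ a b, q a → lt b a → q b)
    (ih : ∀ a, q a → ∀ C : IPow M (IPow M δ), (∃ F, F ∈ C) → (∀ F, F ∈ C → IFin F) →
      (∀ F F', F ∈ C → F' ∈ C → ∀ b, ¬ lt b a → (b ∈ F ↔ b ∈ F')) →
      ∃ F, F ∈ C ∧ ∀ F', F' ∈ C → F' ≠ F → colex lt F F')
    (C : IPow M (IPow M δ)) (hne : ∃ F, F ∈ C) (hC : ∀ F, F ∈ C → IFin F)
    (hag : ∀ F F', F ∈ C → F' ∈ C → ∀ b, ¬ q b → (b ∈ F ↔ b ∈ F')) :
    ∃ F, F ∈ C ∧ ∀ F', F' ∈ C → F' ≠ F → colex lt F F' := by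
  have h1 := h.int
  by_cases h0 : ∃ F, F ∈ C ∧ ∀ b, b ∈ F → ¬ q b
  · obtain ⟨F, hF, hFq⟩ := h0
    refine ⟨F, hF, fun F' hF' hne' => ?_⟩
    rcases colex_tri h (hC F hF) (hC F' hF') with h2 | h2 | h2
    · exact h2
    · exact absurd h2.symm hne'
    · obtain ⟨a, ha, ha', -⟩ := h2
      exact absurd ((hag F F' hF hF' a (hFq a ha)).1 ha) ha'
  push Not at h0
  -- the greatest elements
  have hmax : ∀ F, F ∈ C → ∃ a, (a ∈ F ∧ q a) ∧ ∀ b, (b ∈ F ∧ q b) → ¬ lt a b := fun F hF =>
    h.finMax (p := fun a => a ∈ F ∧ q a) (by (repeat' (first | with_reducible exact IntF.id | with_reducible exact IntF.fst' | with_reducible exact IntF.snd' | with_reducible exact IntF.const _ | with_reducible exact Int.const _ | assumption | with_reducible apply Int.and | with_reducible apply Int.or | with_reducible apply Int.not | with_reducible apply Int.imp | with_reducible apply Int.iff | with_reducible apply Int.ne | with_reducible apply Int.eq | with_reducible apply Int.mem | with_reducible apply Int.subset | with_reducible apply Int.ltN | with_reducible apply Int.leN | with_reducible apply Int.fin | with_reducible apply Int.unique | with_reducible apply Int.all | with_reducible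 apply Int.ex | with_reducible apply IntF.fst | with_reducible apply IntF.snd | with_reducible apply IntF.app | with_reducible apply IntF.ite | with_reducible apply IntF.sep | with_reducible apply IntF.lam | with_reducible apply IntF.insert | with_reducible apply IntF.singleton | with_reducible apply IntF.union | with_reducible apply IntF.inter | with_reducible apply IntF.sdiff | with_reducible apply IntF.isUnion | with_reducible apply IntF.iimage | with_reducible apply IntF.the | with_reducible apply IntF.irec | with_reducible_and_instances apply IntF.mul | with_reducible_and_instances apply IntF.inv | with_reducible_and_instances apply IntF.smul | with_reducible apply IntF.succ | with_reducible apply IntF.val | with_reducible apply IntF.mk | (with_reducible refine Int.comp ?_ ?_; assumption) | (with_reducible refine Int.comp₂ ?_ ?_ ?_; assumption) | (with_reducible refine Int.comp₃ ?_ ?_ ?_ ?_; assumption) | (with_reducible refine Int.comp₄ ?_ ?_ ?_ ?_ ?_; assumption) | (with_reducible refine IntF.comp ?_ ?_; assumption) | (with_reducible refine IntF.comp₂ ?_ ?_ ?_; assumption) | (with_reducible refine Helper672.ZFA.IntF.comp₃ ?_ ?_ ?_ ?_; assumption)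 | with_reducible apply IntF.pair))) (hC F hF) (fun a ha => ha.1) (h0 F hF)
  obtain ⟨F, hF⟩ := hne
  obtain ⟨a0, ha0⟩ := hmax F hF
  obtain ⟨a, ⟨F₁, hF₁, h2, h3⟩, h4⟩ := h.least
    (p := fun a => ∃ F, F ∈ C ∧ (a ∈ F ∧ q a) ∧ ∀ b, (b ∈ F ∧ q b) → ¬ lt a b) (by (repeat' (first | with_reducible exact IntF.id | with_reducible exact IntF.fst' | with_reducible exact IntF.snd' | with_reducible exact IntF.const _ | with_reducible exact Int.const _ | assumption | with_reducible apply Int.and | with_reducible apply Int.or | with_reducible apply Int.not | with_reducible apply Int.imp | with_reducible apply Int.iff | with_reducible apply Int.ne | with_reducible apply Int.eq | with_reducible apply Int.mem | with_reducible apply Int.subset | with_reducible apply Int.ltN | with_reducible apply Int.leN | with_reducible apply Int.fin | with_reducible apply Int.unique | with_reducible apply Int.all | with_reducible apply Int.ex | with_reducible apply IntF.fst | with_reducible apply IntF.snd | with_reducible apply IntF.app | with_reducible apply IntF.ite | with_reducible apply IntF.sep | with_reducible apply IntF.lam | with_reducible apply IntF.insert | with_reducible apply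 IntF.singleton | with_reducible apply IntF.union | with_reducible apply IntF.inter | with_reducible apply IntF.sdiff | with_reducible apply IntF.isUnion | with_reducible apply IntF.iimage | with_reducible apply IntF.the | with_reducible apply IntF.irec | with_reducible_and_instances apply IntF.mul | with_reducible_and_instances apply IntF.inv | with_reducible_and_instances apply IntF.smul | with_reducible apply IntF.succ | with_reducible apply IntF.val | with_reducible apply IntF.mk | (with_reducible refine Int.comp ?_ ?_; assumption) | (with_reducible refine Int.comp₂ ?_ ?_ ?_; assumption) | (with_reducible refine Int.comp₃ ?_ ?_ ?_ ?_; assumption) | (with_reducible refine Int.comp₄ ?_ ?_ ?_ ?_ ?_; assumption) | (with_reducible refine IntF.comp ?_ ?_; assumption) | (with_reducible refine IntF.comp₂ ?_ ?_ ?_; assumption) | (with_reducible refine Helper672.ZFA.IntF.comp₃ ?_ ?_ ?_ ?_; assumption) | with_reducible apply IntF.pair)))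
    ⟨a0, F, hF, ha0⟩
  have hi : Int M (fun F : IPow M δ => F ∈ C ∧ a ∈ F ∧ ∀ b, (b ∈ F ∧ q b) → ¬ lt a b) := by (repeat' (first | with_reducible exact IntF.id | with_reducible exact IntF.fst' | with_reducible exact IntF.snd' | with_reducible exact IntF.const _ | with_reducible exact Int.const _ | assumption | with_reducible apply Int.and | with_reducible apply Int.or | with_reducible apply Int.not | with_reducible apply Int.imp | with_reducible apply Int.iff | with_reducible apply Int.ne | with_reducible apply Int.eq | with_reducible apply Int.mem | with_reducible apply Int.subset | with_reducible apply Int.ltN | with_reducible apply Int.leN | with_reducible apply Int.fin | with_reducible apply Int.unique | with_reducible apply Int.all | with_reducible apply Int.ex | with_reducible apply IntF.fst | with_reducible apply IntF.snd | with_reducible apply IntF.app | with_reducible apply IntF.ite | with_reducible apply IntF.sep | with_reducible apply IntF.lam | with_reducible apply IntF.insert | with_reducible apply IntF.singleton | with_reducible apply IntF.union | with_reducible apply IntF.inter | with_reducible apply IntF.sdiff | with_reducible apply IntF.isUnion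 | with_reducible apply IntF.iimage | with_reducible apply IntF.the | with_reducible apply IntF.irec | with_reducible_and_instances apply IntF.mul | with_reducible_and_instances apply IntF.inv | with_reducible_and_instances apply IntF.smul | with_reducible apply IntF.succ | with_reducible apply IntF.val | with_reducible apply IntF.mk | (with_reducible refine Int.comp ?_ ?_; assumption) | (with_reducible refine Int.comp₂ ?_ ?_ ?_; assumption) | (with_reducible refine Int.comp₃ ?_ ?_ ?_ ?_; assumption) | (with_reducible refine Int.comp₄ ?_ ?_ ?_ ?_ ?_; assumption) | (with_reducible refine IntF.comp ?_ ?_; assumption) | (with_reducible refine IntF.comp₂ ?_ ?_ ?_; assumption) | (with_reducible refine Helper672.ZFA.IntF.comp₃ ?_ ?_ ?_ ?_; assumption) | with_reducible apply IntF.pair))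
  have hm : ∀ F, F ∈ sep M (fun F : IPow M δ => F ∈ C ∧ a ∈ F ∧ ∀ b, (b ∈ F ∧ q b) → ¬ lt a b) ↔
      F ∈ C ∧ a ∈ F ∧ ∀ b, (b ∈ F ∧ q b) → ¬ lt a b := fun F => mem_sep hi
  obtain ⟨F₀, h5, h6⟩ := ih a h2.2
    (sep M (fun F : IPow M δ => F ∈ C ∧ a ∈ F ∧ ∀ b, (b ∈ F ∧ q b) → ¬ lt a b))
    ⟨F₁, (hm _).2 ⟨hF₁, h2.1, h3⟩⟩ (fun F hF => hC F ((hm F).1 hF).1) (fun F F' hF hF' b hb => by
      rw [hm] at hF hF'
      rcases h.tri b a with h7 | rfl | h7
      · exact absurd h7 hb
      · exact ⟨fun _ => hF'.2.1, fun _ => hF.2.1⟩
      · by_cases hqb : q b
        · exact ⟨fun h8 => absurd h7 (hF.2.2 b ⟨h8, hqb⟩),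
            fun h8 => absurd h7 (hF'.2.2 b ⟨h8, hqb⟩)⟩
        · exact hag F F' hF.1 hF'.1 b hqb)
  rw [hm] at h5
  refine ⟨F₀, h5.1, fun F' hF' hne' => ?_⟩
  by_cases h7 : F' ∈ sep M (fun F : IPow M δ => F ∈ C ∧ a ∈ F ∧ ∀ b, (b ∈ F ∧ q b) → ¬ lt a b)
  · exact h6 F' h7 hne'
  · obtain ⟨a', h8, h9⟩ := hmax F' hF'
    have h10 : lt a a' := by
      rcases h.tri a a' with h10 | rfl | h10
      · exact h10
      · exact absurd ((hm F').2 ⟨hF', h8.1, h9⟩) h7
      · exact absurd h10 (h4 a' ⟨F', hF', h8, h9⟩)
    refine ⟨a', h8.1, fun h11 => h5.2.2 a' ⟨h11, h8.2⟩ h10, fun b hb => ?_⟩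
    by_cases hqb : q b
    · exact ⟨fun h12 => absurd (h.tr _ _ _ h10 hb) (h5.2.2 b ⟨h12, hqb⟩),
        fun h12 => absurd hb (h9 b ⟨h12, hqb⟩)⟩
    · exact hag F₀ F' h5.1 hF' b hqb

theorem colex_wf (h : IWo M lt) (C : IPow M (IPow M δ)) (hne : ∃ F, F ∈ C)
    (hC : ∀ F, F ∈ C → IFin F) : ∃ F, F ∈ C ∧ ∀ F', F' ∈ C → F' ≠ F → colex lt F F' := by
  have h1 := h.int
  have h2 := int_colex h
  refine colex_step h (q := fun _ => True) (Int.const _) (fun _ _ _ _ => trivial) (fun a _ => ?_)
    C hne hC (fun _ _ _ _ _ hc => absurd trivial hc)
  refine h.ind (p := fun a => ∀ C : IPow M (IPow M δ), (∃ F, F ∈ C) → (∀ F, F ∈ C → IFin F) →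
      (∀ F F', F ∈ C → F' ∈ C → ∀ b, ¬ lt b a → (b ∈ F ↔ b ∈ F')) →
      ∃ F, F ∈ C ∧ ∀ F', F' ∈ C → F' ≠ F → colex lt F F') (by (repeat' (first | with_reducible exact IntF.id | with_reducible exact IntF.fst' | with_reducible exact IntF.snd' | with_reducible exact IntF.const _ | with_reducible exact Int.const _ | assumption | with_reducible apply Int.and | with_reducible apply Int.or | with_reducible apply Int.not | with_reducible apply Int.imp | with_reducible apply Int.iff | with_reducible apply Int.ne | with_reducible apply Int.eq | with_reducible apply Int.mem | with_reducible apply Int.subset | with_reducible apply Int.ltN | with_reducible apply Int.leN | with_reducible apply Int.fin | with_reducible apply Int.unique | with_reducible apply Int.all | with_reducible apply Int.ex | with_reducible apply IntF.fst | with_reducible apply IntF.snd | with_reducible apply IntF.app | with_reducible apply IntF.ite | with_reducible apply IntF.sep | with_reducible apply IntF.lam | with_reducible apply IntF.insert | with_reducible apply IntF.singleton | with_reducible apply IntF.union | with_reducible apply IntF.inter | with_reducible apply IntF.sdiff | with_reducible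 apply IntF.isUnion | with_reducible apply IntF.iimage | with_reducible apply IntF.the | with_reducible apply IntF.irec | with_reducible_and_instances apply IntF.mul | with_reducible_and_instances apply IntF.inv | with_reducible_and_instances apply IntF.smul | with_reducible apply IntF.succ | with_reducible apply IntF.val | with_reducible apply IntF.mk | (with_reducible refine Int.comp ?_ ?_; assumption) | (with_reducible refine Int.comp₂ ?_ ?_ ?_; assumption) | (with_reducible refine Int.comp₃ ?_ ?_ ?_ ?_; assumption) | (with_reducible refine Int.comp₄ ?_ ?_ ?_ ?_ ?_; assumption) | (with_reducible refine IntF.comp ?_ ?_; assumption) | (with_reducible refine IntF.comp₂ ?_ ?_ ?_; assumption) | (with_reducible refine Helper672.ZFA.IntF.comp₃ ?_ ?_ ?_ ?_; assumption) | with_reducible apply IntF.pair))) ?_ a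
  intro a ih C hne hC hag
  exact colex_step h (q := fun b => lt b a) (by (repeat' (first | with_reducible exact IntF.id | with_reducible exact IntF.fst' | with_reducible exact IntF.snd' | with_reducible exact IntF.const _ | with_reducible exact Int.const _ | assumption | with_reducible apply Int.and | with_reducible apply Int.or | with_reducible apply Int.not | with_reducible apply Int.imp | with_reducible apply Int.iff | with_reducible apply Int.ne | with_reducible apply Int.eq | with_reducible apply Int.mem | with_reducible apply Int.subset | with_reducible apply Int.ltN | with_reducible apply Int.leN | with_reducible apply Int.fin | with_reducible apply Int.unique | with_reducible apply Int.all | with_reducible apply Int.ex | with_reducible apply IntF.fst | with_reducible apply IntF.snd | with_reducible apply IntF.app | with_reducible apply IntF.ite | with_reducible apply IntF.sep | with_reducible apply IntF.lam | with_reducible apply IntF.insert | with_reducible apply IntF.singleton | with_reducible apply IntF.union | with_reducible apply IntF.inter | with_reducible apply IntF.sdiff | with_reducible apply IntF.isUnion | with_reducible apply IntF.iimage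 | with_reducible apply IntF.the | with_reducible apply IntF.irec | with_reducible_and_instances apply IntF.mul | with_reducible_and_instances apply IntF.inv | with_reducible_and_instances apply IntF.smul | with_reducible apply IntF.succ | with_reducible apply IntF.val | with_reducible apply IntF.mk | (with_reducible refine Int.comp ?_ ?_; assumption) | (with_reducible refine Int.comp₂ ?_ ?_ ?_; assumption) | (with_reducible refine Int.comp₃ ?_ ?_ ?_ ?_; assumption) | (with_reducible refine Int.comp₄ ?_ ?_ ?_ ?_ ?_; assumption) | (with_reducible refine IntF.comp ?_ ?_; assumption) | (with_reducible refine IntF.comp₂ ?_ ?_ ?_; assumption) | (with_reducible refine Helper672.ZFA.IntF.comp₃ ?_ ?_ ?_ ?_; assumption) | with_reducible apply IntF.pair))) (fun b c hb hc => h.tr _ _ _ hc hb)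
    (fun b hb => ih b hb) C hne hC hag

instance instFactFin : Fact (Int M (fun F : IPow M δ => IFin F)) := ⟨by (repeat' (first | with_reducible exact IntF.id | with_reducible exact IntF.fst' | with_reducible exact IntF.snd' | with_reducible exact IntF.const _ | with_reducible exact Int.const _ | assumption | with_reducible apply Int.and | with_reducible apply Int.or | with_reducible apply Int.not | with_reducible apply Int.imp | with_reducible apply Int.iff | with_reducible apply Int.ne | with_reducible apply Int.eq | with_reducible apply Int.mem | with_reducible apply Int.subset | with_reducible apply Int.ltN | with_reducible apply Int.leN | with_reducible apply Int.fin | with_reducible apply Int.unique | with_reducible apply Int.all | with_reducible apply Int.ex | with_reducible apply IntF.fst | with_reducible apply IntF.snd | with_reducible apply IntF.app | with_reducible apply IntF.ite | with_reducible apply IntF.sep | with_reducible apply IntF.lam | with_reducible apply IntF.insert | with_reducible apply IntF.singleton | with_reducible apply IntF.union | with_reducible apply IntF.inter | with_reducible apply IntF.sdiff | with_reducible apply IntF.isUnion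 | with_reducible apply IntF.iimage | with_reducible apply IntF.the | with_reducible apply IntF.irec | with_reducible_and_instances apply IntF.mul | with_reducible_and_instances apply IntF.inv | with_reducible_and_instances apply IntF.smul | with_reducible apply IntF.succ | with_reducible apply IntF.val | with_reducible apply IntF.mk | (with_reducible refine Int.comp ?_ ?_; assumption) | (with_reducible refine Int.comp₂ ?_ ?_ ?_; assumption) | (with_reducible refine Int.comp₃ ?_ ?_ ?_ ?_; assumption) | (with_reducible refine Int.comp₄ ?_ ?_ ?_ ?_ ?_; assumption) | (with_reducible refine IntF.comp ?_ ?_; assumption) | (with_reducible refine IntF.comp₂ ?_ ?_ ?_; assumption) | (with_reducible refine Helper672.ZFA.IntF.comp₃ ?_ ?_ ?_ ?_; assumption) | with_reducible apply IntF.pair))⟩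

variable (M δ) in
/-- The internal type of finite subsets. -/
abbrev FinS : Type _ := {F : IPow M δ // IFin F}

theorem IWo.fins (h : IWo M lt) : IWo M (fun F F' : FinS M δ => colex lt F.1 F'.1) where
  int := by
    have h1 := int_colex h
    (repeat' (first | with_reducible exact IntF.id | with_reducible exact IntF.fst' | with_reducible exact IntF.snd' | with_reducible exact IntF.const _ | with_reducible exact Int.const _ | assumption | with_reducible apply Int.and | with_reducible apply Int.or | with_reducible apply Int.not | with_reducible apply Int.imp | with_reducible apply Int.iff | with_reducible apply Int.ne | with_reducible apply Int.eq | with_reducible apply Int.mem | with_reducible apply Int.subset | with_reducible apply Int.ltN | with_reducible apply Int.leN | with_reducible apply Int.fin | with_reducible apply Int.unique | with_reducible apply Int.all | with_reducible apply Int.ex | with_reducible apply IntF.fst | with_reducible apply IntF.snd | with_reducible apply IntF.app | with_reducible apply IntF.ite | with_reducible apply IntF.sep | with_reducible apply IntF.lam | with_reducible apply IntF.insert | with_reducible apply IntF.singleton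 | with_reducible apply IntF.union | with_reducible apply IntF.inter | with_reducible apply IntF.sdiff | with_reducible apply IntF.isUnion | with_reducible apply IntF.iimage | with_reducible apply IntF.the | with_reducible apply IntF.irec | with_reducible_and_instances apply IntF.mul | with_reducible_and_instances apply IntF.inv | with_reducible_and_instances apply IntF.smul | with_reducible apply IntF.succ | with_reducible apply IntF.val | with_reducible apply IntF.mk | (with_reducible refine Int.comp ?_ ?_; assumption) | (with_reducible refine Int.comp₂ ?_ ?_ ?_; assumption) | (with_reducible refine Int.comp₃ ?_ ?_ ?_ ?_; assumption) | (with_reducible refine Int.comp₄ ?_ ?_ ?_ ?_ ?_; assumption) | (with_reducible refine IntF.comp ?_ ?_; assumption) | (with_reducible refine IntF.comp₂ ?_ ?_ ?_; assumption) | (with_reducible refine Helper672.ZFA.IntF.comp₃ ?_ ?_ ?_ ?_; assumption) | with_reducible apply IntF.pair))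
  tri F F' := by
    rcases colex_tri h F.2 F'.2 with h1 | h1 | h1
    · exact Or.inl h1
    · exact Or.inr (Or.inl (Subtype.ext h1))
    · exact Or.inr (Or.inr h1)
  wf s hs := by
    have h1 := h.int
    have hi : Int M (fun F : IPow M δ => ∃ F' : FinS M δ, F' ∈ s ∧ F'.1 = F) := by (repeat' (first | with_reducible exact IntF.id | with_reducible exact IntF.fst' | with_reducible exact IntF.snd' | with_reducible exact IntF.const _ | with_reducible exact Int.const _ | assumption | with_reducible apply Int.and | with_reducible apply Int.or | with_reducible apply Int.not | with_reducible apply Int.imp | with_reducible apply Int.iff | with_reducible apply Int.ne | with_reducible apply Int.eq | with_reducible apply Int.mem | with_reducible apply Int.subset | with_reducible apply Int.ltN | with_reducible apply Int.leN | with_reducible apply Int.fin | with_reducible apply Int.unique | with_reducible apply Int.all | with_reducible apply Int.ex | with_reducible apply IntF.fst | with_reducible apply IntF.snd | with_reducible apply IntF.app | with_reducible apply IntF.ite | with_reducible apply IntF.sep | with_reducible apply IntF.lam | with_reducible apply IntF.insert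 | with_reducible apply IntF.singleton | with_reducible apply IntF.union | with_reducible apply IntF.inter | with_reducible apply IntF.sdiff | with_reducible apply IntF.isUnion | with_reducible apply IntF.iimage | with_reducible apply IntF.the | with_reducible apply IntF.irec | with_reducible_and_instances apply IntF.mul | with_reducible_and_instances apply IntF.inv | with_reducible_and_instances apply IntF.smul | with_reducible apply IntF.succ | with_reducible apply IntF.val | with_reducible apply IntF.mk | (with_reducible refine Int.comp ?_ ?_; assumption) | (with_reducible refine Int.comp₂ ?_ ?_ ?_; assumption) | (with_reducible refine Int.comp₃ ?_ ?_ ?_ ?_; assumption) | (with_reducible refine Int.comp₄ ?_ ?_ ?_ ?_ ?_; assumption) | (with_reducible refine IntF.comp ?_ ?_; assumption) | (with_reducible refine IntF.comp₂ ?_ ?_ ?_; assumption) | (with_reducible refine Helper672.ZFA.IntF.comp₃ ?_ ?_ ?_ ?_; assumption) | with_reducible apply IntF.pair))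
    have hm : ∀ F, F ∈ sep M (fun F : IPow M δ => ∃ F' : FinS M δ, F' ∈ s ∧ F'.1 = F) ↔
        ∃ F' : FinS M δ, F' ∈ s ∧ F'.1 = F := fun F => mem_sep hi
    obtain ⟨a, ha⟩ := hs
    obtain ⟨F, hF, hmin⟩ := colex_wf h
      (sep M (fun F : IPow M δ => ∃ F' : FinS M δ, F' ∈ s ∧ F'.1 = F))
      ⟨a.1, (hm _).2 ⟨a, ha, rfl⟩⟩ (fun F hF => by
        obtain ⟨F', -, rfl⟩ := (hm F).1 hF
        exact F'.2)
    obtain ⟨F, hFs, rfl⟩ := (hm F).1 hF
    refine ⟨F, hFs, fun F' hF' hlt => ?_⟩
    by_cases heq : F' = F
    · subst heq
      obtain ⟨b, h2, h3, -⟩ := hlt
      exact h3 h2
    · obtain ⟨a, h2, h3, h4⟩ := hmin F'.1 ((hm _).2 ⟨F', hF', rfl⟩) fun h => heq (Subtype.ext h)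
      obtain ⟨b, h5, h6, h7⟩ := hlt
      rcases h.tri a b with h8 | rfl | h8
      · exact h6 ((h4 b h8).1 h5)
      · exact h3 h5
      · exact h3 ((h7 a h8).1 h2)

end

/-! ### Choice of least elements -/

section

variable {lt : δ → δ → Prop}

/-- The least element with a property. -/
noncomputable def lst (lt : δ → δ → Prop) (p : δ → Prop) (d : δ) : δ :=
  the (fun a => p a ∧ ∀ b, p b → ¬ lt b a) d

theorem IWo.lst_spec (h : IWo M lt) {p : δ → Prop} (hp : Int M p) (hne : ∃ a, p a) (d : δ) :
    p (lst lt p d) := by
  obtain ⟨a, h1, h2⟩ := h.least hp hne
  have h3 : ∃! a, p a ∧ ∀ b, p b → ¬ lt b a := ⟨a, ⟨h1, h2⟩, fun b hb => by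
    rcases h.tri a b with h4 | h4 | h4
    · exact absurd h4 (hb.2 a h1)
    · exact h4.symm
    · exact absurd h4 (h2 b hb.1)⟩
  exact (the_spec (d := d) h3).1

theorem IWo.intF_lst (h : IWo M lt) {p : γ → δ → Prop}
    (hp : Int M (fun q : γ × δ => p q.1 q.2)) {d : γ → δ} (hd : IntF M d) :
    IntF M (fun c => lst lt (p c) (d c)) := by
  have h1 := h.int
  unfold lst
  (repeat' (first | with_reducible exact IntF.id | with_reducible exact IntF.fst' | with_reducible exact IntF.snd' | with_reducible exact IntF.const _ | with_reducible exact Int.const _ | assumption | with_reducible apply Int.and | with_reducible apply Int.or | with_reducible apply Int.not | with_reducible apply Int.imp | with_reducible apply Int.iff | with_reducible apply Int.ne | with_reducible apply Int.eq | with_reducible apply Int.mem | with_reducible apply Int.subset | with_reducible apply Int.ltN | with_reducible apply Int.leN | with_reducible apply Int.fin | with_reducible apply Int.unique | with_reducible apply Int.all | with_reducible apply Int.ex | with_reducible apply IntF.fst | with_reducible apply IntF.snd | with_reducible apply IntF.app | with_reducible apply IntF.ite | with_reducible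 apply IntF.sep | with_reducible apply IntF.lam | with_reducible apply IntF.insert | with_reducible apply IntF.singleton | with_reducible apply IntF.union | with_reducible apply IntF.inter | with_reducible apply IntF.sdiff | with_reducible apply IntF.isUnion | with_reducible apply IntF.iimage | with_reducible apply IntF.the | with_reducible apply IntF.irec | with_reducible_and_instances apply IntF.mul | with_reducible_and_instances apply IntF.inv | with_reducible_and_instances apply IntF.smul | with_reducible apply IntF.succ | with_reducible apply IntF.val | with_reducible apply IntF.mk | (with_reducible refine Int.comp ?_ ?_; assumption) | (with_reducible refine Int.comp₂ ?_ ?_ ?_; assumption) | (with_reducible refine Int.comp₃ ?_ ?_ ?_ ?_; assumption) | (with_reducible refine Int.comp₄ ?_ ?_ ?_ ?_ ?_; assumption) | (with_reducible refine IntF.comp ?_ ?_; assumption) | (with_reducible refine IntF.comp₂ ?_ ?_ ?_; assumption) | (with_reducible refine Helper672.ZFA.IntF.comp₃ ?_ ?_ ?_ ?_; assumption) | with_reducible apply IntF.pair))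

/-- Iteration of an internal function. -/
theorem exists_irec {st : INat M → δ → δ} (hst : IntF M (fun q : INat M × δ => st q.1 q.2))
    (a0 : δ) : ∃ g : INat M → δ, IntF M g ∧ g 0 = a0 ∧ ∀ n, g n.succ = st n (g n) := by
  refine ⟨fun n => irec a0 (fun n a => st n a) n, ?_, irec_zero hst, irec_succ hst⟩
  refine IntF.irec (γ := INat M) (a := fun _ => a0) (f := fun _ n a => st n a) (n := fun n => n)
    (IntF.const _) ?_ IntF.id
  exact IntF.comp₂ (p := fun n a => st n a) hst (IntF.snd IntF.fst') IntF.snd'

/-- Dependent choice in well-ordered types. -/
theorem IWo.dc (h : IWo M lt) {R : INat M → δ → δ → Prop}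
    (hR : Int M (fun q : (INat M × δ) × δ => R q.1.1 q.1.2 q.2)) {Q : INat M → δ → Prop}
    (hQ : Int M (fun q : INat M × δ => Q q.1 q.2)) {a0 : δ} (h0 : Q 0 a0)
    (hs : ∀ n a, Q n a → ∃ b, Q n.succ b ∧ R n a b) :
    ∃ g : INat M → δ, IntF M g ∧ g 0 = a0 ∧ ∀ n, Q n (g n) ∧ R n (g n) (g n.succ) := by
  have hi : ∀ n a, Int M (fun b => Q n.succ b ∧ R n a b) := fun n a => by
    refine Int.and ?_ ?_
    · exact Int.comp₂ (p := Q) hQ (IntF.const _) IntF.id
    · exact Int.comp₃ (p := R) hR (IntF.const _) (IntF.const _) IntF.id
  have hst : IntF M (fun q : INat M × δ => lst lt (fun b => Q q.1.succ b ∧ R q.1 q.2 b) q.2) := by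
    refine h.intF_lst (p := fun (q : INat M × δ) b => Q q.1.succ b ∧ R q.1 q.2 b) ?_ IntF.snd'
    refine Int.and ?_ ?_
    · exact Int.comp₂ (p := Q) hQ (IntF.succ (IntF.fst IntF.fst')) IntF.snd'
    · exact Int.comp₃ (p := R) hR (IntF.fst IntF.fst') (IntF.snd IntF.fst') IntF.snd'
  obtain ⟨g, hg, h1, h2⟩ := exists_irec
    (st := fun n a => lst lt (fun b => Q n.succ b ∧ R n a b) a) hst a0
  have h3 : ∀ n, Q n (g n) := by
    refine INat.ind (Int.comp₂ (p := Q) hQ IntF.id hg) ?_ ?_
    · rw [h1]
      exact h0
    · intro n ih
      rw [h2]
      exact (h.lst_spec (hi n _) (hs n _ ih) _).1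
  refine ⟨g, hg, h1, fun n => ⟨h3 n, ?_⟩⟩
  rw [h2]
  exact (h.lst_spec (hi n _) (hs n _ (h3 n)) _).2

end

end Pool.Agent.W924
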