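import Pool.Agent.W924.Game

/-!
# The strategy wins
-/

set_option maxHeartbeats 1000000
set_option linter.all false

namespace Pool.Agent.W924

open FirstOrder FirstOrder.Language
open Pool.Agent.Helper672.ZFA
open Pool.Agent.H310

universe u

variable {M : Type u} [L.Structure M] [hM : IsModel M]

namespace Dat

variable {G X Y : Type u} [ITy M G] [ITy M X] [ITy M Y] [Group G] [MulAction G X] [IMul M G]
  [ISMul M G X] (D : Dat M G X Y)

/-- The first index. -/
noncomputable def top0 : D.Tt := ((0, 0), ⟨∅, IFin.empty⟩)

theorem int_goodc {γ : Type u} [ITy M γ] {n : γ → INat M} {θ θ' : γ → D.Tt} {x : γ → X}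
    {U : γ → IPow M X} (hn : IntF M n) (hθ : IntF M θ) (hx : IntF M x) (hU : IntF M U)
    (hθ' : IntF M θ') : Int M (fun c => D.good (n c) (θ c) (x c) (U c) (θ' c)) :=
  Int.comp (p := fun q : ((INat M × D.Tt) × (X × IPow M X)) × D.Tt =>
    D.good q.1.1.1 q.1.1.2 q.1.2.1 q.1.2.2 q.2)
    (f := fun c => (((n c, θ c), (x c, U c)), θ' c)) D.int_good
    (((hn.pair hθ).pair (hx.pair hU)).pair hθ')

/-- The answer. -/
noncomputable def stp (n : INat M) (m : X × IPow M X) (θ : D.Tt) : D.Tt :=
  lst D.ltT (fun θ' => D.good n θ m.1 m.2 θ') θ

theorem int_stp : IntF M (fun q : (INat M × (X × IPow M X)) × D.Tt =>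
    D.stp q.1.1 q.1.2 q.2) := by
  unfold stp
  exact D.iwoT.intF_lst (p := fun (q : (INat M × (X × IPow M X)) × D.Tt) θ' =>
    D.good q.1.1 q.2 q.1.2.1 q.1.2.2 θ') (by (repeat' (first | with_reducible exact IntF.id | with_reducible exact IntF.fst' | with_reducible exact IntF.snd' | with_reducible exact IntF.const _ | with_reducible exact Int.const _ | assumption | with_reducible apply Dat.int_goodc | with_reducible apply Int.and | with_reducible apply Int.or | with_reducible apply Int.not | with_reducible apply Int.imp | with_reducible apply Int.iff | with_reducible apply Int.ne | with_reducible apply Int.eq | with_reducible apply Int.mem | with_reducible apply Int.subset | with_reducible apply Int.ltN | with_reducible apply Int.leN | with_reducible apply Int.fin | with_reducible apply Int.unique | with_reducible apply Int.all | with_reducible apply Int.ex | with_reducible apply IntF.fst | with_reducible apply IntF.snd | with_reducible apply IntF.app | with_reducible apply IntF.ite | with_reducible apply IntF.sep | with_reducible apply IntF.lam | with_reducible apply IntF.insert | with_reducible apply IntF.singleton | with_reducible apply IntF.union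 | with_reducible apply IntF.inter | with_reducible apply IntF.sdiff | with_reducible apply IntF.isUnion | with_reducible apply IntF.iimage | with_reducible apply IntF.the | with_reducible apply IntF.irec | with_reducible_and_instances apply IntF.mul | with_reducible_and_instances apply IntF.inv | with_reducible_and_instances apply IntF.smul | with_reducible apply IntF.succ | with_reducible apply IntF.val | with_reducible apply IntF.mk | (with_reducible refine Int.comp ?_ ?_; assumption) | (with_reducible refine Int.comp₂ ?_ ?_ ?_; assumption) | (with_reducible refine Int.comp₃ ?_ ?_ ?_ ?_; assumption) | (with_reducible refine Int.comp₄ ?_ ?_ ?_ ?_ ?_; assumption) | (with_reducible refine IntF.comp ?_ ?_; assumption) | (with_reducible refine IntF.comp₂ ?_ ?_ ?_; assumption) | (with_reducible refine Helper672.ZFA.IntF.comp₃ ?_ ?_ ?_ ?_; assumption) | with_reducible apply IntF.pair))) IntF.snd'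

/-- The indices of the answers to the moves `q`. -/
noncomputable def idx (q : IFun M (INat M) (X × IPow M X)) (n : INat M) : D.Tt :=
  irec D.top0 (fun n θ => D.stp n (q n) θ) n

theorem int_idx : IntF M (fun c : IFun M (INat M) (X × IPow M X) × INat M =>
    D.idx c.1 c.2) := by
  have h := D.int_stp
  unfold idx
  (repeat' (first | with_reducible exact IntF.id | with_reducible exact IntF.fst' | with_reducible exact IntF.snd' | with_reducible exact IntF.const _ | with_reducible exact Int.const _ | assumption | with_reducible apply Int.and | with_reducible apply Int.or | with_reducible apply Int.not | with_reducible apply Int.imp | with_reducible apply Int.iff | with_reducible apply Int.ne | with_reducible apply Int.eq | with_reducible apply Int.mem | with_reducible apply Int.subset | with_reducible apply Int.ltN | with_reducible apply Int.leN | with_reducible apply Int.fin | with_reducible apply Int.unique | with_reducible apply Int.all | with_reducible apply Int.ex | with_reducible apply IntF.fst | with_reducible apply IntF.snd | with_reducible apply IntF.app | with_reducible apply IntF.ite | with_reducible apply IntF.sep | with_reducible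 apply IntF.lam | with_reducible apply IntF.insert | with_reducible apply IntF.singleton | with_reducible apply IntF.union | with_reducible apply IntF.inter | with_reducible apply IntF.sdiff | with_reducible apply IntF.isUnion | with_reducible apply IntF.iimage | with_reducible apply IntF.the | with_reducible apply IntF.irec | with_reducible_and_instances apply IntF.mul | with_reducible_and_instances apply IntF.inv | with_reducible_and_instances apply IntF.smul | with_reducible apply IntF.succ | with_reducible apply IntF.val | with_reducible apply IntF.mk | (with_reducible refine Int.comp ?_ ?_; assumption) | (with_reducible refine Int.comp₂ ?_ ?_ ?_; assumption) | (with_reducible refine Int.comp₃ ?_ ?_ ?_ ?_; assumption) | (with_reducible refine Int.comp₄ ?_ ?_ ?_ ?_ ?_; assumption) | (with_reducible refine IntF.comp ?_ ?_; assumption) | (with_reducible refine IntF.comp₂ ?_ ?_ ?_; assumption) | (with_reducible refine Helper672.ZFA.IntF.comp₃ ?_ ?_ ?_ ?_; assumption) | with_reducible apply IntF.pair))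

theorem int_stp' (q : IFun M (INat M) (X × IPow M X)) :
    IntF M (fun c : INat M × D.Tt => D.stp c.1 (q c.1) c.2) := by
  have h := D.int_stp
  (repeat' (first | with_reducible exact IntF.id | with_reducible exact IntF.fst' | with_reducible exact IntF.snd' | with_reducible exact IntF.const _ | with_reducible exact Int.const _ | assumption | with_reducible apply Int.and | with_reducible apply Int.or | with_reducible apply Int.not | with_reducible apply Int.imp | with_reducible apply Int.iff | with_reducible apply Int.ne | with_reducible apply Int.eq | with_reducible apply Int.mem | with_reducible apply Int.subset | with_reducible apply Int.ltN | with_reducible apply Int.leN | with_reducible apply Int.fin | with_reducible apply Int.unique | with_reducible apply Int.all | with_reducible apply Int.ex | with_reducible apply IntF.fst | with_reducible apply IntF.snd | with_reducible apply IntF.app | with_reducible apply IntF.ite | with_reducible apply IntF.sep | with_reducible apply IntF.lam | with_reducible apply IntF.insert | with_reducible apply IntF.singleton | with_reducible apply IntF.union | with_reducible apply IntF.inter | with_reducible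 apply IntF.sdiff | with_reducible apply IntF.isUnion | with_reducible apply IntF.iimage | with_reducible apply IntF.the | with_reducible apply IntF.irec | with_reducible_and_instances apply IntF.mul | with_reducible_and_instances apply IntF.inv | with_reducible_and_instances apply IntF.smul | with_reducible apply IntF.succ | with_reducible apply IntF.val | with_reducible apply IntF.mk | (with_reducible refine Int.comp ?_ ?_; assumption) | (with_reducible refine Int.comp₂ ?_ ?_ ?_; assumption) | (with_reducible refine Int.comp₃ ?_ ?_ ?_ ?_; assumption) | (with_reducible refine Int.comp₄ ?_ ?_ ?_ ?_ ?_; assumption) | (with_reducible refine IntF.comp ?_ ?_; assumption) | (with_reducible refine IntF.comp₂ ?_ ?_ ?_; assumption) | (with_reducible refine Helper672.ZFA.IntF.comp₃ ?_ ?_ ?_ ?_; assumption) | with_reducible apply IntF.pair))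

theorem idx_zero (q : IFun M (INat M) (X × IPow M X)) : D.idx q 0 = D.top0 :=
  irec_zero (f := fun n θ => D.stp n (q n) θ) (D.int_stp' q)

theorem idx_succ (q : IFun M (INat M) (X × IPow M X)) (n : INat M) :
    D.idx q n.succ = D.stp n (q n) (D.idx q n) :=
  irec_succ (f := fun n θ => D.stp n (q n) θ) (D.int_stp' q) n

theorem idx_congr (q q' : IFun M (INat M) (X × IPow M X)) :
    ∀ n, (∀ k, k < n → q k = q' k) → D.idx q n = D.idx q' n := by
  have h := D.int_idx
  refine INat.ind (by (repeat' (first | with_reducible exact IntF.id | with_reducible exact IntF.fst' | with_reducible exact IntF.snd' | with_reducible exact IntF.const _ | with_reducible exact Int.const _ | assumption | with_reducible apply Int.and | with_reducible apply Int.or | with_reducible apply Int.not | with_reducible apply Int.imp | with_reducible apply Int.iff | with_reducible apply Int.ne | with_reducible apply Int.eq | with_reducible apply Int.mem | with_reducible apply Int.subset | with_reducible apply Int.ltN | with_reducible apply Int.leN | with_reducible apply Int.fin | with_reducible apply Int.unique | with_reducible apply Int.all | with_reducible apply Int.ex | with_reducible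 apply IntF.fst | with_reducible apply IntF.snd | with_reducible apply IntF.app | with_reducible apply IntF.ite | with_reducible apply IntF.sep | with_reducible apply IntF.lam | with_reducible apply IntF.insert | with_reducible apply IntF.singleton | with_reducible apply IntF.union | with_reducible apply IntF.inter | with_reducible apply IntF.sdiff | with_reducible apply IntF.isUnion | with_reducible apply IntF.iimage | with_reducible apply IntF.the | with_reducible apply IntF.irec | with_reducible_and_instances apply IntF.mul | with_reducible_and_instances apply IntF.inv | with_reducible_and_instances apply IntF.smul | with_reducible apply IntF.succ | with_reducible apply IntF.val | with_reducible apply IntF.mk | (with_reducible refine Int.comp ?_ ?_; assumption) | (with_reducible refine Int.comp₂ ?_ ?_ ?_; assumption) | (with_reducible refine Int.comp₃ ?_ ?_ ?_ ?_; assumption) | (with_reducible refine Int.comp₄ ?_ ?_ ?_ ?_ ?_; assumption) | (with_reducible refine IntF.comp ?_ ?_; assumption) | (with_reducible refine IntF.comp₂ ?_ ?_ ?_; assumption) | (with_reducible refine Helper672.ZFA.IntF.comp₃ ?_ ?_ ?_ ?_; assumption) | with_reducible apply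 IntF.pair))) ?_ ?_
  · intro _
    rw [idx_zero, idx_zero]
  · intro n ih h1
    rw [idx_succ, idx_succ, ih fun k hk => h1 k (hk.trans (INat.lt_succ_self n)),
      h1 n (INat.lt_succ_self n)]

/-- Open sets. -/
def IsT (U : IPow M X) : Prop := ∀ z, z ∈ U → ∃ θ, z ∈ D.VV θ ∧ D.VV θ ⊆ U

theorem int_IsT : Int M (fun U : IPow M X => D.IsT U) := by
  have h := D.int_VV
  unfold IsT
  (repeat' (first | with_reducible exact IntF.id | with_reducible exact IntF.fst' | with_reducible exact IntF.snd' | with_reducible exact IntF.const _ | with_reducible exact Int.const _ | assumption | with_reducible apply Int.and | with_reducible apply Int.or | with_reducible apply Int.not | with_reducible apply Int.imp | with_reducible apply Int.iff | with_reducible apply Int.ne | with_reducible apply Int.eq | with_reducible apply Int.mem | with_reducible apply Int.subset | with_reducible apply Int.ltN | with_reducible apply Int.leN | with_reducible apply Int.fin | with_reducible apply Int.unique | with_reducible apply Int.all | with_reducible apply Int.ex | with_reducible apply IntF.fst | with_reducible apply IntF.snd | with_reducible apply IntF.app | with_reducible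 apply IntF.ite | with_reducible apply IntF.sep | with_reducible apply IntF.lam | with_reducible apply IntF.insert | with_reducible apply IntF.singleton | with_reducible apply IntF.union | with_reducible apply IntF.inter | with_reducible apply IntF.sdiff | with_reducible apply IntF.isUnion | with_reducible apply IntF.iimage | with_reducible apply IntF.the | with_reducible apply IntF.irec | with_reducible_and_instances apply IntF.mul | with_reducible_and_instances apply IntF.inv | with_reducible_and_instances apply IntF.smul | with_reducible apply IntF.succ | with_reducible apply IntF.val | with_reducible apply IntF.mk | (with_reducible refine Int.comp ?_ ?_; assumption) | (with_reducible refine Int.comp₂ ?_ ?_ ?_; assumption) | (with_reducible refine Int.comp₃ ?_ ?_ ?_ ?_; assumption) | (with_reducible refine Int.comp₄ ?_ ?_ ?_ ?_ ?_; assumption) | (with_reducible refine IntF.comp ?_ ?_; assumption) | (with_reducible refine IntF.comp₂ ?_ ?_ ?_; assumption) | (with_reducible refine Helper672.ZFA.IntF.comp₃ ?_ ?_ ?_ ?_; assumption) | with_reducible apply IntF.pair))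

variable {D}

theorem mem_top0 {x : X} : x ∈ D.VV D.top0 ↔ x ∈ D.P := by
  rw [mem_VV]
  refine ⟨fun h => h.1, fun h => ⟨h, iuniv M G, D.SG.univ_op, ⟨1, mem_iuniv.2 trivial⟩,
    fun w _ => ⟨D.SG.B_zero w, D.SX.B_zero _, fun f hf => absurd hf (by
      change ¬ f ∈ (∅ : IPow M D.Fct)
      simp)⟩⟩⟩

theorem IsT.sub {U : IPow M X} (h : D.IsT U) : U ⊆ D.P := by
  intro z hz
  obtain ⟨θ, h1, -⟩ := h z hz
  exact (D.mem_VV.1 h1).1

/-- The answers are good. -/
theorem good_stp {q : IFun M (INat M) (X × IPow M X)} {n : INat M} (h1 : (q n).1 ∈ (q n).2)
    (h2 : D.IsT (q n).2) (h3 : ∀ k, n = INat.succ k → (q n).2 ⊆ D.VV (D.idx q n)) :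
    D.good n (D.idx q n) (q n).1 (q n).2 (D.idx q n.succ) := by
  have hx : (q n).1 ∈ D.VV (D.idx q n) := by
    rcases INat.eq_zero_or_succ n with h | ⟨k, h⟩
    · rw [h, idx_zero, mem_top0, ← h]
      exact h2.sub _ h1
    · exact h3 k h _ h1
  obtain ⟨θ₁, h4, h5⟩ := h2 _ h1
  rw [idx_succ]
  exact D.iwoT.lst_spec (p := fun θ' => D.good n (D.idx q n) (q n).1 (q n).2 θ') (by (repeat' (first | with_reducible exact IntF.id | with_reducible exact IntF.fst' | with_reducible exact IntF.snd' | with_reducible exact IntF.const _ | with_reducible exact Int.const _ | assumption | with_reducible apply Dat.int_goodc | with_reducible apply Int.and | with_reducible apply Int.or | with_reducible apply Int.not | with_reducible apply Int.imp | with_reducible apply Int.iff | with_reducible apply Int.ne | with_reducible apply Int.eq | with_reducible apply Int.mem | with_reducible apply Int.subset | with_reducible apply Int.ltN | with_reducible apply Int.leN | with_reducible apply Int.fin | with_reducible apply Int.unique | with_reducible apply Int.all | with_reducible apply Int.ex | with_reducible apply IntF.fst | with_reducible apply IntF.snd | with_reducible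 apply IntF.app | with_reducible apply IntF.ite | with_reducible apply IntF.sep | with_reducible apply IntF.lam | with_reducible apply IntF.insert | with_reducible apply IntF.singleton | with_reducible apply IntF.union | with_reducible apply IntF.inter | with_reducible apply IntF.sdiff | with_reducible apply IntF.isUnion | with_reducible apply IntF.iimage | with_reducible apply IntF.the | with_reducible apply IntF.irec | with_reducible_and_instances apply IntF.mul | with_reducible_and_instances apply IntF.inv | with_reducible_and_instances apply IntF.smul | with_reducible apply IntF.succ | with_reducible apply IntF.val | with_reducible apply IntF.mk | (with_reducible refine Int.comp ?_ ?_; assumption) | (with_reducible refine Int.comp₂ ?_ ?_ ?_; assumption) | (with_reducible refine Int.comp₃ ?_ ?_ ?_ ?_; assumption) | (with_reducible refine Int.comp₄ ?_ ?_ ?_ ?_ ?_; assumption) | (with_reducible refine IntF.comp ?_ ?_; assumption) | (with_reducible refine IntF.comp₂ ?_ ?_ ?_; assumption) | (with_reducible refine Helper672.ZFA.IntF.comp₃ ?_ ?_ ?_ ?_; assumption) | with_reducible apply IntF.pair)))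
    (exists_good n hx h4 h5) _

theorem good.sub {n : INat M} {θ θ' : D.Tt} {x : X} {U : IPow M X} (h : D.good n θ x U θ') :
    D.VV θ' ⊆ U := by
  obtain ⟨⟨θ₁, h1, h2⟩, -⟩ := h
  intro z hz
  obtain ⟨hP, W, hW, ⟨w, hw⟩, h3⟩ := D.mem_VV.1 hz
  exact h1 z (mem_of_ref h2 (h3 w hw) hP)

section win

variable {x : INat M → X} {U : INat M → IPow M X} {θ : INat M → D.Tt}
  (hg : ∀ n : INat M, D.good n (θ n) (x n) (U n) (θ n.succ))

include hg

theorem exists_sat (n : INat M) : ∃ w, D.sat (θ n.succ) w (x n) := by
  obtain ⟨-, W, hW, ⟨w, hw⟩, h⟩ := D.mem_VV.1 (hg n).2.1
  exact ⟨w, h w hw⟩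

theorem facts_mono (hθ : IntF M θ) : ∀ m n, m ≤ n → (θ m).2.1 ⊆ (θ n).2.1 := by
  intro m
  refine INat.ind (p := fun n => m ≤ n → (θ m).2.1 ⊆ (θ n).2.1) (by (repeat' (first | with_reducible exact IntF.id | with_reducible exact IntF.fst' | with_reducible exact IntF.snd' | with_reducible exact IntF.const _ | with_reducible exact Int.const _ | assumption | with_reducible apply Int.and | with_reducible apply Int.or | with_reducible apply Int.not | with_reducible apply Int.imp | with_reducible apply Int.iff | with_reducible apply Int.ne | with_reducible apply Int.eq | with_reducible apply Int.mem | with_reducible apply Int.subset | with_reducible apply Int.ltN | with_reducible apply Int.leN | with_reducible apply Int.fin | with_reducible apply Int.unique | with_reducible apply Int.all | with_reducible apply Int.ex | with_reducible apply IntF.fst | with_reducible apply IntF.snd | with_reducible apply IntF.app | with_reducible apply IntF.ite | with_reducible apply IntF.sep | with_reducible apply IntF.lam | with_reducible apply IntF.insert | with_reducible apply IntF.singleton | with_reducible apply IntF.union | with_reducible apply IntF.inter | with_reducible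 apply IntF.sdiff | with_reducible apply IntF.isUnion | with_reducible apply IntF.iimage | with_reducible apply IntF.the | with_reducible apply IntF.irec | with_reducible_and_instances apply IntF.mul | with_reducible_and_instances apply IntF.inv | with_reducible_and_instances apply IntF.smul | with_reducible apply IntF.succ | with_reducible apply IntF.val | with_reducible apply IntF.mk | (with_reducible refine Int.comp ?_ ?_; assumption) | (with_reducible refine Int.comp₂ ?_ ?_ ?_; assumption) | (with_reducible refine Int.comp₃ ?_ ?_ ?_ ?_; assumption) | (with_reducible refine Int.comp₄ ?_ ?_ ?_ ?_ ?_; assumption) | (with_reducible refine IntF.comp ?_ ?_; assumption) | (with_reducible refine IntF.comp₂ ?_ ?_ ?_; assumption) | (with_reducible refine Helper672.ZFA.IntF.comp₃ ?_ ?_ ?_ ?_; assumption) | with_reducible apply IntF.pair))) ?_ ?_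
  · intro h1
    obtain rfl : m = 0 := le_antisymm h1 (INat.zero_le m)
    exact fun _ => id
  · intro n ih h1
    rcases h1.lt_or_eq with h2 | rfl
    · exact fun f hf => (hg n).2.2.1.2.2 f (ih (INat.lt_succ_iff.1 h2) f hf)
    · exact fun _ => id

/-- All facts hold in the limit. -/
theorem facts_lim (hθ : IntF M θ) {y : X} (hy : ∀ n, y ∈ D.SX.B (θ n).1.2) :
    ∀ s : {s : IPow M (Zt M G X) // D.tw.PSt s}, ∀ n f, f ∈ (θ n).2.1 → f.1.2 = s →
      D.holds y f := by
  have hh := D.int_holds
  refine D.tw.iwo.ind (by (repeat' (first | with_reducible exact IntF.id | with_reducible exact IntF.fst' | with_reducible exact IntF.snd' | with_reducible exact IntF.const _ | with_reducible exact Int.const _ | assumption | with_reducible apply Int.and | with_reducible apply Int.or | with_reducible apply Int.not | with_reducible apply Int.imp | with_reducible apply Int.iff | with_reducible apply Int.ne | with_reducible apply Int.eq | with_reducible apply Int.mem | with_reducible apply Int.subset | with_reducible apply Int.ltN | with_reducible apply Int.leN | with_reducible apply Int.fin | with_reducible apply Int.unique | with_reducible apply Int.all | with_reducible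 apply Int.ex | with_reducible apply IntF.fst | with_reducible apply IntF.snd | with_reducible apply IntF.app | with_reducible apply IntF.ite | with_reducible apply IntF.sep | with_reducible apply IntF.lam | with_reducible apply IntF.insert | with_reducible apply IntF.singleton | with_reducible apply IntF.union | with_reducible apply IntF.inter | with_reducible apply IntF.sdiff | with_reducible apply IntF.isUnion | with_reducible apply IntF.iimage | with_reducible apply IntF.the | with_reducible apply IntF.irec | with_reducible_and_instances apply IntF.mul | with_reducible_and_instances apply IntF.inv | with_reducible_and_instances apply IntF.smul | with_reducible apply IntF.succ | with_reducible apply IntF.val | with_reducible apply IntF.mk | (with_reducible refine Int.comp ?_ ?_; assumption) | (with_reducible refine Int.comp₂ ?_ ?_ ?_; assumption) | (with_reducible refine Int.comp₃ ?_ ?_ ?_ ?_; assumption) | (with_reducible refine Int.comp₄ ?_ ?_ ?_ ?_ ?_; assumption) | (with_reducible refine IntF.comp ?_ ?_; assumption) | (with_reducible refine IntF.comp₂ ?_ ?_ ?_; assumption) | (with_reducible refine Helper672.ZFA.IntF.comp₃ ?_ ?_ ?_ ?_; assumption)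 | with_reducible apply IntF.pair))) ?_
  rintro s ih n f hf rfl
  unfold holds
  by_cases hb : f.1.2.1 = D.bs
  · rw [hb, mem_bs]
    rintro k hk ⟨j, y', h1, h2, h3, h4⟩
    obtain ⟨V, W, hV, hW, h5, h6, h7⟩ := D.smulc k y _ (D.SX.B_op j) h2
    obtain ⟨m, hm⟩ := D.SX.conv (s := fun n => D.SX.B (θ n).1.2) hy
      (fun n => (hg n).2.2.1.2.1.2) hW h6
    obtain ⟨w, h8, h9, h10⟩ := exists_sat hg (max m n)
    have h11 := h10 f (facts_mono hg hθ _ _ ((le_max_right m n).trans (INat.le_succ_self _)) f hf)
    unfold holds at h11
    rw [hb, mem_bs] at h11
    exact h11 k hk ⟨j, y', h1, h7 _ _ h5 (hm _ (le_max_left _ _) _ h9), h3, h4⟩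
  · obtain ⟨T, hT, hS, hpred⟩ := Tw.PSt.pred f.1.2.2 hb
    rw [hS, tw_Γ, mem_gm]
    rintro ν' h1 O h2 h3 ⟨h, hh⟩
    obtain ⟨i, h4, h5⟩ := D.SG.nbhd h2 hh
    have hn : n ≤ max n (max ν'.1 (max ν'.2 i)) := le_max_left _ _
    obtain ⟨f', h6, h7, h8, h9, h10⟩ := (hg (max n (max ν'.1 (max ν'.2 i)))).2.2.2.2.1 (f, (ν', i))
      (facts_mono hg hθ _ _ hn f hf) ⟨hb, h1, fun a ha => h3 a (h5 a ha), h, h4⟩
      ((le_max_left _ _).trans (le_max_right _ _))
      ((le_max_left _ _).trans ((le_max_right _ _).trans (le_max_right _ _)))
      ((le_max_right _ _).trans ((le_max_right _ _).trans (le_max_right _ _)))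
    have h11 : D.holds y f' := ih _ h8 _ f' h6 rfl
    unfold holds at h11
    have h12 : f'.1.1 = ν' := h7
    rw [h12] at h11
    refine ⟨D.cod f'.2, D.cod_op _, fun a ha => h5 a (h9 a ha), h10, ?_⟩
    exact (hpred _ f'.1.2.2.stg).2 h8 _ h11

theorem lim_mem (hθ : IntF M θ) {y : X} (hy : ∀ n, y ∈ D.SX.B (θ n).1.2) : y ∈ D.P := by
  by_contra hc
  rw [D.Pf] at hc
  push Not at hc
  obtain ⟨b, hb⟩ := hc
  have hlim := facts_lim hg hθ hy
  obtain ⟨s, ⟨n, f, hf, rfl, h1, h2⟩, hmin⟩ := D.tw.iwo.least
    (p := fun s => ∃ n f, f ∈ (θ n).2.1 ∧ f.1.2 = s ∧ b ∈ D.SY.B f.1.1.2 ∧ (1 : G) ∈ D.cod f.2)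
    (by (repeat' (first | with_reducible exact IntF.id | with_reducible exact IntF.fst' | with_reducible exact IntF.snd' | with_reducible exact IntF.const _ | with_reducible exact Int.const _ | assumption | with_reducible apply Int.and | with_reducible apply Int.or | with_reducible apply Int.not | with_reducible apply Int.imp | with_reducible apply Int.iff | with_reducible apply Int.ne | with_reducible apply Int.eq | with_reducible apply Int.mem | with_reducible apply Int.subset | with_reducible apply Int.ltN | with_reducible apply Int.leN | with_reducible apply Int.fin | with_reducible apply Int.unique | with_reducible apply Int.all | with_reducible apply Int.ex | with_reducible apply IntF.fst | with_reducible apply IntF.snd | with_reducible apply IntF.app | with_reducible apply IntF.ite | with_reducible apply IntF.sep | with_reducible apply IntF.lam | with_reducible apply IntF.insert | with_reducible apply IntF.singleton | with_reducible apply IntF.union | with_reducible apply IntF.inter | with_reducible apply IntF.sdiff | with_reducible apply IntF.isUnion | with_reducible apply IntF.iimage | with_reducible apply IntF.the | with_reducible apply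 IntF.irec | with_reducible_and_instances apply IntF.mul | with_reducible_and_instances apply IntF.inv | with_reducible_and_instances apply IntF.smul | with_reducible apply IntF.succ | with_reducible apply IntF.val | with_reducible apply IntF.mk | (with_reducible refine Int.comp ?_ ?_; assumption) | (with_reducible refine Int.comp₂ ?_ ?_ ?_; assumption) | (with_reducible refine Int.comp₃ ?_ ?_ ?_ ?_; assumption) | (with_reducible refine Int.comp₄ ?_ ?_ ?_ ?_ ?_; assumption) | (with_reducible refine IntF.comp ?_ ?_; assumption) | (with_reducible refine IntF.comp₂ ?_ ?_ ?_; assumption) | (with_reducible refine Helper672.ZFA.IntF.comp₃ ?_ ?_ ?_ ?_; assumption) | with_reducible apply IntF.pair))) (by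
      obtain ⟨f, hf, h1, h2⟩ := (hg 0).2.2.2.1
      refine ⟨f.1.2, _, f, hf, rfl, ?_, h2⟩
      rw [h1]
      exact D.SY.B_zero b)
  by_cases hbs : f.1.2.1 = D.bs
  · have h3 := hlim _ n f hf rfl
    unfold holds at h3
    rw [hbs, mem_bs] at h3
    refine h3 1 h2 ?_
    rw [one_smul]
    obtain ⟨j, h4, -, h5⟩ := D.SX.base (iuniv M X) y f.1.1.1 D.SX.univ_op (mem_iuniv.2 trivial)
    exact ⟨j, b, h1, h4, by rw [hb]; exact h4, h5⟩
  · obtain ⟨i, h3, h4, h5⟩ := D.SY.base _ b f.1.1.1 (D.SY.B_op _) h1
    obtain ⟨f', h6, h7, h8, h9⟩ := (hg (max n (max f.1.1.1.succ i))).2.2.2.2.2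
      (f, (f.1.1.1.succ, i)) (facts_mono hg hθ _ _ (le_max_left _ _) f hf)
      ⟨hbs, ⟨rfl, h4, h5⟩, h2⟩ ((le_max_left _ _).trans (le_max_right _ _))
      ((le_max_right _ _).trans (le_max_right _ _))
    refine hmin f'.1.2 ⟨_, f', h6, rfl, ?_, h9⟩ h8
    rw [h7]
    exact h3

/-- The strategy wins. -/
theorem exists_lim (hθ : IntF M θ) : ∃ z, ∀ n, z ∈ U n := by
  have hsa := exists_sat hg
  have hne : ∀ n, (∃ w, w ∈ D.SG.B (θ n).1.1) ∧ ∃ z, z ∈ D.SX.B (θ n).1.2 := fun n => by
    obtain ⟨w, h1, h2, -⟩ := hsa n
    exact ⟨⟨w, (hg n).2.2.1.1.1.sub _ h1⟩, ⟨_, (hg n).2.2.1.2.1.1.sub _ h2⟩⟩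
  obtain ⟨g, hgg⟩ := D.SG.complete (fun n => D.SG.B (θ n).1.1) (by (repeat' (first | with_reducible exact IntF.id | with_reducible exact IntF.fst' | with_reducible exact IntF.snd' | with_reducible exact IntF.const _ | with_reducible exact Int.const _ | assumption | with_reducible apply Int.and | with_reducible apply Int.or | with_reducible apply Int.not | with_reducible apply Int.imp | with_reducible apply Int.iff | with_reducible apply Int.ne | with_reducible apply Int.eq | with_reducible apply Int.mem | with_reducible apply Int.subset | with_reducible apply Int.ltN | with_reducible apply Int.leN | with_reducible apply Int.fin | with_reducible apply Int.unique | with_reducible apply Int.all | with_reducible apply Int.ex | with_reducible apply IntF.fst | with_reducible apply IntF.snd | with_reducible apply IntF.app | with_reducible apply IntF.ite | with_reducible apply IntF.sep | with_reducible apply IntF.lam | with_reducible apply IntF.insert | with_reducible apply IntF.singleton | with_reducible apply IntF.union | with_reducible apply IntF.inter | with_reducible apply IntF.sdiff | with_reducible apply IntF.isUnion | with_reducible apply IntF.iimage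 | with_reducible apply IntF.the | with_reducible apply IntF.irec | with_reducible_and_instances apply IntF.mul | with_reducible_and_instances apply IntF.inv | with_reducible_and_instances apply IntF.smul | with_reducible apply IntF.succ | with_reducible apply IntF.val | with_reducible apply IntF.mk | (with_reducible refine Int.comp ?_ ?_; assumption) | (with_reducible refine Int.comp₂ ?_ ?_ ?_; assumption) | (with_reducible refine Int.comp₃ ?_ ?_ ?_ ?_; assumption) | (with_reducible refine Int.comp₄ ?_ ?_ ?_ ?_ ?_; assumption) | (with_reducible refine IntF.comp ?_ ?_; assumption) | (with_reducible refine IntF.comp₂ ?_ ?_ ?_; assumption) | (with_reducible refine Helper672.ZFA.IntF.comp₃ ?_ ?_ ?_ ?_; assumption) | with_reducible apply IntF.pair))) (fun n => D.SG.B_op _)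
    (fun n => (hne n).1) (fun n => (hg n).2.2.1.1.1) (fun n => (hg n).2.2.1.1.2)
  obtain ⟨y, hy⟩ := D.SX.complete (fun n => D.SX.B (θ n).1.2) (by (repeat' (first | with_reducible exact IntF.id | with_reducible exact IntF.fst' | with_reducible exact IntF.snd' | with_reducible exact IntF.const _ | with_reducible exact Int.const _ | assumption | with_reducible apply Int.and | with_reducible apply Int.or | with_reducible apply Int.not | with_reducible apply Int.imp | with_reducible apply Int.iff | with_reducible apply Int.ne | with_reducible apply Int.eq | with_reducible apply Int.mem | with_reducible apply Int.subset | with_reducible apply Int.ltN | with_reducible apply Int.leN | with_reducible apply Int.fin | with_reducible apply Int.unique | with_reducible apply Int.all | with_reducible apply Int.ex | with_reducible apply IntF.fst | with_reducible apply IntF.snd | with_reducible apply IntF.app | with_reducible apply IntF.ite | with_reducible apply IntF.sep | with_reducible apply IntF.lam | with_reducible apply IntF.insert | with_reducible apply IntF.singleton | with_reducible apply IntF.union | with_reducible apply IntF.inter | with_reducible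 apply IntF.sdiff | with_reducible apply IntF.isUnion | with_reducible apply IntF.iimage | with_reducible apply IntF.the | with_reducible apply IntF.irec | with_reducible_and_instances apply IntF.mul | with_reducible_and_instances apply IntF.inv | with_reducible_and_instances apply IntF.smul | with_reducible apply IntF.succ | with_reducible apply IntF.val | with_reducible apply IntF.mk | (with_reducible refine Int.comp ?_ ?_; assumption) | (with_reducible refine Int.comp₂ ?_ ?_ ?_; assumption) | (with_reducible refine Int.comp₃ ?_ ?_ ?_ ?_; assumption) | (with_reducible refine Int.comp₄ ?_ ?_ ?_ ?_ ?_; assumption) | (with_reducible refine IntF.comp ?_ ?_; assumption) | (with_reducible refine IntF.comp₂ ?_ ?_ ?_; assumption) | (with_reducible refine Helper672.ZFA.IntF.comp₃ ?_ ?_ ?_ ?_; assumption) | with_reducible apply IntF.pair))) (fun n => D.SX.B_op _)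
    (fun n => (hne n).2) (fun n => (hg n).2.2.1.2.1.1) (fun n => (hg n).2.2.1.2.1.2)
  have hP := lim_mem hg hθ hy
  refine ⟨g⁻¹ • y, fun n => ?_⟩
  obtain ⟨⟨θ₁, h1, h2⟩, -⟩ := hg n
  refine h1 _ (mem_of_ref h2 (g := g) ⟨hgg _, ?_, fun f hf => ?_⟩ (D.Pinv _ _ hP))
  · rw [smul_inv_smul]
    exact hy _
  · rw [smul_inv_smul]
    exact facts_lim hg hθ hy _ _ f hf rfl

end win

end Dat

end Pool.Agent.W924
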